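import Pool.Agent.H71.Ses.D0

open scoped WithZero Polynomial IntermediateField
open WithZero IsDedekindDomain

namespace Pool.Agent.H71.Ses

variable {k K : Type} [Field k] [Field K] [Algebra k K]

theorem Place.val_ne_zero (v : Place k K) {a : K} (ha : a ≠ 0) : v.val a ≠ 0 :=
  (Valuation.ne_zero_iff _).2 ha

theorem Place.val_eq_exp (v : Place k K) {a : K} (ha : a ≠ 0) : v.val a = exp (-v.ord a) := by
  rw [Place.ord, neg_neg, exp_log (v.val_ne_zero ha)]

theorem Place.ord_zero (v : Place k K) : v.ord 0 = 0 := by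
  simp [Place.ord]

theorem Place.ord_one (v : Place k K) : v.ord 1 = 0 := by
  simp [Place.ord]

theorem Place.ord_mul (v : Place k K) {a b : K} (ha : a ≠ 0) (hb : b ≠ 0) :
    v.ord (a * b) = v.ord a + v.ord b := by
  rw [Place.ord, map_mul, log_mul (v.val_ne_zero ha) (v.val_ne_zero hb), Place.ord, Place.ord]
  ring

theorem Place.ord_inv (v : Place k K) (a : K) : v.ord a⁻¹ = -v.ord a := by
  rw [Place.ord, map_inv₀, log_inv, Place.ord]

theorem Place.ord_pow (v : Place k K) (a : K) (n : ℕ) : v.ord (a ^ n) = n * v.ord a := by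
  rw [Place.ord, map_pow, log_pow, Place.ord]
  simp

theorem Place.ord_neg (v : Place k K) (a : K) : v.ord (-a) = v.ord a := by
  rw [Place.ord, Valuation.map_neg, Place.ord]

theorem Place.val_le_val_iff (v : Place k K) {a b : K} (ha : a ≠ 0) (hb : b ≠ 0) :
    v.val a ≤ v.val b ↔ v.ord b ≤ v.ord a := by
  rw [v.val_eq_exp ha, v.val_eq_exp hb, exp_le_exp, neg_le_neg_iff]

theorem Place.val_le_one_iff (v : Place k K) {a : K} (ha : a ≠ 0) : v.val a ≤ 1 ↔ 0 ≤ v.ord a := by
  rw [v.val_eq_exp ha, ← exp_zero, exp_le_exp, Left.neg_nonpos_iff]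

theorem Place.val_lt_one_iff (v : Place k K) {a : K} (ha : a ≠ 0) : v.val a < 1 ↔ 0 < v.ord a := by
  rw [v.val_eq_exp ha, ← exp_zero, exp_lt_exp, Left.neg_neg_iff]

theorem Place.one_lt_val_iff (v : Place k K) {a : K} (ha : a ≠ 0) : 1 < v.val a ↔ v.ord a < 0 := by
  rw [v.val_eq_exp ha, ← exp_zero, exp_lt_exp, Left.neg_pos_iff]

theorem Place.val_eq_one_iff (v : Place k K) {a : K} (ha : a ≠ 0) : v.val a = 1 ↔ v.ord a = 0 := by
  rw [v.val_eq_exp ha, exp_eq_one, neg_eq_zero]

theorem Place.ord_const (v : Place k K) (c : k) : v.ord (algebraMap k K c) = 0 := by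
  rcases eq_or_ne c 0 with rfl | hc
  · rw [map_zero, v.ord_zero]
  · have h : algebraMap k K c ≠ 0 := (map_ne_zero _).2 hc
    rw [← v.val_eq_one_iff h, v.const c hc]

theorem Place.const_le (v : Place k K) (c : k) : v.val (algebraMap k K c) ≤ 1 := by
  rcases eq_or_ne c 0 with rfl | hc
  · simp
  · exact (v.const c hc).le

theorem Place.ord_nonneg_of_val_le (v : Place k K) {a : K} (h : v.val a ≤ 1) : 0 ≤ v.ord a := by
  rcases eq_or_ne a 0 with rfl | ha
  · rw [v.ord_zero]
  · exact (v.val_le_one_iff ha).1 h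

/-- two surjective valuations with the same valuation ring are equal -/
theorem eq_of_valuationSubring_eq {v w : Valuation K ℤᵐ⁰} (hv : Function.Surjective v)
    (hw : Function.Surjective w) (h : v.valuationSubring = w.valuationSubring) : v = w := by
  have he : v.IsEquiv w := (Valuation.isEquiv_iff_valuationSubring v w).2 h
  have hlt : ∀ x y, v x < v y ↔ w x < w y := fun x y => by
    rw [lt_iff_not_ge, lt_iff_not_ge, he y x]
  have heq : ∀ x y, v x = v y ↔ w x = w y := fun x y => by
    rw [le_antisymm_iff, le_antisymm_iff, he x y, he y x]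
  obtain ⟨p, hp⟩ := hw (exp (-1))
  obtain ⟨q, hq⟩ := hv (exp (-1))
  have aux : ∀ z : ℤᵐ⁰, z < 1 → z ≤ exp (-1) := by
    intro z hz
    rcases eq_or_ne z 0 with rfl | h0
    · exact zero_le
    · rw [← exp_log h0, ← exp_zero, exp_lt_exp] at hz
      rw [← exp_log h0, exp_le_exp]
      omega
  have h1 : exp (-1 : ℤ) < 1 := by
    rw [← exp_zero, exp_lt_exp]; norm_num
  have hpq : w p = w q := by
    apply le_antisymm
    · rw [← he p q, hq]
      apply aux
      have := (hlt p 1).2 (by rw [hp, map_one]; exact h1)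
      rwa [map_one] at this
    · rw [hp]
      apply aux
      have := (hlt q 1).1 (by rw [hq, map_one]; exact h1)
      rwa [map_one] at this
  have hvp : v p = exp (-1) := by rw [(heq p q).2 hpq, hq]
  ext z
  rcases eq_or_ne z 0 with rfl | hz
  · simp
  have hwz : w z ≠ 0 := (Valuation.ne_zero_iff _).2 hz
  have h2 : w z = w (p ^ (-log (w z))) := by
    rw [map_zpow₀, hp, ← exp_zsmul]
    simp [exp_log hwz]
  have h3 : v z = exp (-1) ^ (-log (w z)) := by
    rw [(heq z (p ^ (-log (w z)))).2 h2, map_zpow₀, hvp]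
  have h4 : w z = exp (-1) ^ (-log (w z)) := by
    conv_lhs => rw [h2, map_zpow₀, hp]
  rw [h3, ← h4]

/-- `K` is finite over `k(t)` for every transcendental `t` -/
theorem IsFF.finiteDimensional (hK : IsFF k K) {t : K} (ht : Transcendental k t) :
    FiniteDimensional k⟮t⟯ K := by
  have h1 : AlgebraicIndependent k (fun _ : Unit => t) := by
    rw [algebraicIndependent_unique_type_iff]
    exact ht
  have h2 : IsTranscendenceBasis k (fun _ : Unit => t) := by
    apply h1.isTranscendenceBasis_of_trdeg_le_of_finite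
    rw [hK.trdeg]
    simp
  have h3 : Algebra.IsAlgebraic k⟮t⟯ K := by
    have h4 := h2.isAlgebraic_field
    rwa [Set.range_const] at h4
  have h5 : Algebra.EssFiniteType k K := IntermediateField.fg_top_iff.1 hK.fg
  have h6 : Algebra.EssFiniteType k⟮t⟯ K := Algebra.EssFiniteType.of_comp k k⟮t⟯ K
  exact Algebra.finite_of_essFiniteType_of_isAlgebraic

end Pool.Agent.H71.Ses
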