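import Pool.Agent.H71.Ses.A1

open scoped WithZero Polynomial IntermediateField
open WithZero IsDedekindDomain

namespace Pool.Agent.H71.Ses

section Fin

/-- a semilinear map into a finite module gives finiteness -/
theorem finite_of_semilinear {A A' B M : Type} [CommRing A] [IsNoetherianRing A] [CommRing A']
    [AddCommGroup B] [Module A B] [AddCommGroup M] [Module A' M] [Module.Finite A' M]
    (f : A →+* A') (hf : f.Finite)
    (φ : B →+ M) (hφ : Function.Injective φ) (hs : ∀ (a : A) (b : B), φ (a • b) = f a • φ b) :
    Module.Finite A B := by
  let i0 : Algebra A A' := f.toAlgebra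
  let i1 : Module A M := Module.compHom M f
  have i2 : IsScalarTower A A' M := ⟨fun a b m => by
    change (f a * b) • m = f a • (b • m)
    rw [mul_smul]⟩
  have i3 : Module.Finite A A' := hf
  have i4 : Module.Finite A M := Module.Finite.trans A' M
  let ψ : B →ₗ[A] M :=
    { toFun := φ
      map_add' := φ.map_add
      map_smul' := hs }
  exact Module.Finite.of_injective ψ hφ

variable {k : Type} [Field k] [IsAlgClosed k] (p : ℕ) [Fact p.Prime] [CharP k p]

/-- the Frobenius of `k[X]` is finite -/
theorem frob_finite (e : ℕ) : (iterateFrobenius k[X] p e).Finite := by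
  apply RingHom.IsIntegral.to_finite
  · intro a
    refine ⟨Polynomial.X ^ (p ^ e) - Polynomial.C a, ?_, ?_⟩
    · exact Polynomial.monic_X_pow_sub_C _ (pow_pos (Fact.out : p.Prime).pos e).ne'
    · rw [Polynomial.eval₂_sub, Polynomial.eval₂_pow, Polynomial.eval₂_X, Polynomial.eval₂_C]
      rw [iterateFrobenius_def, sub_self]
  · have h1 : ((iterateFrobenius k[X] p e).comp (Polynomial.C : k →+* k[X])) =
        (Polynomial.C : k →+* k[X]).comp (iterateFrobenius k p e) := by
      ext a
      simp [iterateFrobenius_def]
    apply RingHom.FiniteType.of_comp_finiteType (f := (Polynomial.C : k →+* k[X]))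
    rw [h1]
    have : Function.Surjective (iterateFrobenius k p e) :=
      (bijective_iterateFrobenius k p e).2
    exact (RingHom.FiniteType.comp (g := (Polynomial.C : k →+* k[X])) (by
      have : Algebra.FiniteType k k[X] := inferInstance
      rw [← Polynomial.algebraMap_eq]
      exact (RingHom.finiteType_algebraMap).2 this) (RingHom.FiniteType.of_surjective _ this))

include p in
/-- the integral closure of `k[X]` in a finite extension of `k(X)` is finite over `k[X]` -/
theorem integralClosure_finite (F K : Type) [Field F] [Algebra k[X] F] [IsFractionRing k[X] F]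
    [Field K] [Algebra k[X] K] [Algebra F K] [IsScalarTower k[X] F K] [FiniteDimensional F K] :
    Module.Finite k[X] (integralClosure k[X] K) := by
  have hinj := FaithfulSMul.algebraMap_injective k[X] F
  have c1 : CharP F p := charP_of_injective_algebraMap hinj p
  have c2 : CharP K p := charP_of_injective_algebraMap (algebraMap F K).injective p
  let S := separableClosure F K
  have h1 : Algebra.IsSeparable F S := inferInstance
  have h2 : IsPurelyInseparable S K := inferInstance
  have c3 : ExpChar F p := expChar_prime F p
  have c4 : ExpChar S p := inferInstance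
  have i5 : IsScalarTower k[X] S K := IsScalarTower.of_algebraMap_eq fun x => by
    rw [IsScalarTower.algebraMap_apply k[X] F K, IsScalarTower.algebraMap_apply F S K,
      IsScalarTower.algebraMap_apply k[X] F S]
  obtain ⟨e, he⟩ := (IsPurelyInseparable.hasExponent_iff' S K p).1 inferInstance
  have h3 : Module.Finite k[X] (integralClosure k[X] S) :=
    IsIntegralClosure.finite k[X] F S (integralClosure k[X] S)
  have he' : ∀ a : K, a ^ p ^ e ∈ S := by
    intro a
    obtain ⟨b, hb⟩ := he a
    rw [← hb]
    exact b.2
  have c5 : ExpChar K p := expChar_prime K p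
  let φ : integralClosure k[X] K →+ integralClosure k[X] S :=
    { toFun := fun b => ⟨⟨(b : K) ^ p ^ e, he' b⟩, by
        have h4 : IsIntegral k[X] ((b : K) ^ p ^ e) := (b.2 : IsIntegral k[X] (b : K)).pow _
        rw [mem_integralClosure_iff]
        exact (isIntegral_algHom_iff (IsScalarTower.toAlgHom k[X] S K)
          (algebraMap S K).injective).1 h4⟩
      map_zero' := by
        ext
        simp [(Fact.out : p.Prime).ne_zero]
      map_add' := by
        intro a b
        ext
        push_cast
        exact add_pow_expChar_pow _ _ _ _ }
  refine finite_of_semilinear (iterateFrobenius k[X] p e) (frob_finite p e) φ ?_ ?_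
  · intro a b hab
    have h5 : (a : K) ^ p ^ e = (b : K) ^ p ^ e := congrArg (fun z => (((z : S) : K))) (congrArg Subtype.val hab)
    have h6 := iterateFrobenius_inj K p e (a₁ := (a : K)) (a₂ := (b : K)) (by
      rw [iterateFrobenius_def, iterateFrobenius_def, h5])
    exact Subtype.ext h6
  · intro a b
    ext
    change ((a • b : integralClosure k[X] K) : K) ^ p ^ e = _
    rw [iterateFrobenius_def]
    change (a • (b : K)) ^ p ^ e = ((((a ^ p ^ e) • (φ b) : integralClosure k[X] S) : S) : K)
    rw [smul_pow]
    rfl

end Fin

end Pool.Agent.H71.Ses
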