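import Mathlib

set_option linter.style.haveILetI false
set_option linter.unusedSectionVars false
set_option linter.unusedSimpArgs false

/-!
# The elliptic curve `y² = x³ - 2x` over fields of characteristic 5
-/

open WeierstrassCurve

namespace Pool.Agent.H71.Ses

/-- The Weierstrass curve `y² = x³ - 2x` over the integers. -/
def WZ : WeierstrassCurve ℤ := ⟨0, 0, 0, -2, 0⟩

/-- The group of points of `E : y² = x³ - 2x` with values in the field `F`. -/
def Pt (F : Type) [Field F] : Type := (WZ⁄F).toAffine.Point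

noncomputable instance (F : Type) [Field F] : AddCommGroup (Pt F) :=
  letI := Classical.decEq F
  inferInstanceAs (AddCommGroup (WZ⁄F).toAffine.Point)

variable {F : Type} [Field F] [CharP F 5]

theorem five_eq_zero : (5 : F) = 0 := by
  have := CharP.cast_eq_zero F 5
  exact_mod_cast this

theorem two_ne : (2 : F) ≠ 0 := by
  intro h
  have h5 := five_eq_zero (F := F)
  have : (1 : F) = 5 - 2 * 2 := by norm_num
  rw [h5, h] at this
  simp at this

theorem four_eq : (4 : F) = -1 := by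
  have h5 := five_eq_zero (F := F)
  linear_combination h5

theorem nonsing {x y : F} (h : y ^ 2 = x ^ 3 - 2 * x) : (WZ⁄F).toAffine.Nonsingular x y := by
  have h5 := five_eq_zero (F := F)
  rw [Affine.nonsingular_iff, Affine.equation_iff]
  simp only [WZ, WeierstrassCurve.map, WeierstrassCurve.baseChange]
  simp only [map_zero, map_neg, map_ofNat, zero_mul, add_zero, mul_zero, zero_add]
  refine ⟨by linear_combination h, ?_⟩
  by_contra hcon
  push Not at hcon
  obtain ⟨h1, h2⟩ := hcon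
  have hy : y = 0 := by
    have : (2 : F) * y = 0 := by linear_combination h2
    rcases mul_eq_zero.1 this with h | h
    · exact absurd h two_ne
    · exact h
  rw [hy] at h
  have h3 : 3 * x ^ 2 = 2 := by linear_combination -h1
  have h4 : x * (x ^ 2 - 2) = 0 := by linear_combination -h
  rcases mul_eq_zero.1 h4 with h | h
  · rw [h] at h3
    exact two_ne (F := F) (by linear_combination -h3)
  · have : (4 : F) = 0 := by linear_combination h3 - 3 * h
    have h6 : (2 : F) * 2 = 0 := by linear_combination this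
    rcases mul_eq_zero.1 h6 with h | h <;> exact absurd h two_ne

/-- The affine point `(x, y)` of `E`. -/
def mk (x y : F) (h : y ^ 2 = x ^ 3 - 2 * x) : Pt F := Affine.Point.some x y (nonsing h)

theorem Pt.cases (P : Pt F) : P = 0 ∨ ∃ x y h, P = mk x y h := by
  rcases P with _ | ⟨x, y, h⟩
  · exact Or.inl rfl
  · refine Or.inr ⟨x, y, ?_, rfl⟩
    have h1 := (Affine.equation_iff _ _).1 h.1
    simp only [WZ, WeierstrassCurve.map, WeierstrassCurve.baseChange] at h1
    simp only [map_zero, map_neg, map_ofNat, zero_mul, add_zero, mul_zero, zero_add] at h1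
    linear_combination h1

theorem mk_ne_zero (x y : F) (h : y ^ 2 = x ^ 3 - 2 * x) : mk x y h ≠ 0 :=
  Affine.Point.some_ne_zero _

theorem mk_inj {x y x' y' : F} {h : y ^ 2 = x ^ 3 - 2 * x} {h' : y' ^ 2 = x' ^ 3 - 2 * x'} :
    mk x y h = mk x' y' h' ↔ x = x' ∧ y = y' := by
  have h1 := Affine.Point.some.injEq (W' := (WZ⁄F).toAffine) x y (nonsing h) x' y' (nonsing h')
  exact h1.to_iff

theorem some_eq {x y x' y' : F} (hn : (WZ⁄F).toAffine.Nonsingular x y)
    (h' : y' ^ 2 = x' ^ 3 - 2 * x') (hx : x = x') (hy : y = y') :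
    (Affine.Point.some x y hn : (WZ⁄F).toAffine.Point) = mk x' y' h' := by
  subst hx hy
  rfl

theorem neg_eqn {x y : F} (h : y ^ 2 = x ^ 3 - 2 * x) : (-y) ^ 2 = x ^ 3 - 2 * x := by
  rw [neg_sq, h]

theorem neg_mk (x y : F) (h : y ^ 2 = x ^ 3 - 2 * x) : -(mk x y h) = mk x (-y) (neg_eqn h) := by
  letI := Classical.decEq F
  have h1 : -(mk x y h) = Affine.Point.some _ _ ((Affine.nonsingular_neg _ _).mpr (nonsing h)) :=
    Affine.Point.neg_some _
  rw [h1]
  refine some_eq _ _ rfl ?_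
  simp [Affine.negY, WZ, WeierstrassCurve.map, WeierstrassCurve.baseChange]

theorem add_mk_of_ne {x₁ y₁ x₂ y₂ : F} (h₁ : y₁ ^ 2 = x₁ ^ 3 - 2 * x₁)
    (h₂ : y₂ ^ 2 = x₂ ^ 3 - 2 * x₂) (hx : x₁ ≠ x₂) :
    ∃ h, mk x₁ y₁ h₁ + mk x₂ y₂ h₂ =
      mk (((y₁ - y₂) / (x₁ - x₂)) ^ 2 - x₁ - x₂)
        (-(y₁ + ((y₁ - y₂) / (x₁ - x₂)) * ((((y₁ - y₂) / (x₁ - x₂)) ^ 2 - x₁ - x₂) - x₁))) h := by
  letI := Classical.decEq F
  have h3 := Affine.Point.add_of_X_ne (W := (WZ⁄F).toAffine) (h₁ := nonsing h₁) (h₂ := nonsing h₂) hx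
  have h4 : mk x₁ y₁ h₁ + mk x₂ y₂ h₂ = Affine.Point.some _ _
    ((WZ⁄F).toAffine.nonsingular_add (nonsing h₁) (nonsing h₂) fun hxy => hx hxy.left) := h3
  have h5 : (WZ⁄F).toAffine.addX x₁ x₂ ((WZ⁄F).toAffine.slope x₁ x₂ y₁ y₂) =
      ((y₁ - y₂) / (x₁ - x₂)) ^ 2 - x₁ - x₂ := by
    rw [Affine.slope_of_X_ne hx]
    simp [Affine.addX, WZ, WeierstrassCurve.map, WeierstrassCurve.baseChange]
  have h6 : (WZ⁄F).toAffine.addY x₁ x₂ y₁ ((WZ⁄F).toAffine.slope x₁ x₂ y₁ y₂) =
      -(y₁ + ((y₁ - y₂) / (x₁ - x₂)) * ((((y₁ - y₂) / (x₁ - x₂)) ^ 2 - x₁ - x₂) - x₁)) := by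
    rw [Affine.slope_of_X_ne hx]
    simp [Affine.addX, Affine.addY, Affine.negAddY, Affine.negY, WZ, WeierstrassCurve.map,
      WeierstrassCurve.baseChange]
    ring
  have h7 := (Affine.equation_iff _ _).1 ((WZ⁄F).toAffine.nonsingular_add (nonsing h₁) (nonsing h₂)
    fun hxy => hx hxy.left).1
  rw [h5, h6] at h7
  simp only [WZ, WeierstrassCurve.map, WeierstrassCurve.baseChange] at h7
  simp only [map_zero, map_neg, map_ofNat, zero_mul, add_zero, mul_zero, zero_add] at h7
  refine ⟨by linear_combination h7, ?_⟩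
  rw [h4]
  exact some_eq _ _ h5 h6

theorem double_mk {x y : F} (h : y ^ 2 = x ^ 3 - 2 * x) (hy : y ≠ 0) :
    ∃ h', mk x y h + mk x y h =
      mk (((3 * x ^ 2 - 2) / (2 * y)) ^ 2 - 2 * x)
        (-(y + ((3 * x ^ 2 - 2) / (2 * y)) * ((((3 * x ^ 2 - 2) / (2 * y)) ^ 2 - 2 * x) - x))) h' := by
  letI := Classical.decEq F
  have hne : y ≠ (WZ⁄F).toAffine.negY x y := by
    simp only [Affine.negY, WZ, WeierstrassCurve.map, WeierstrassCurve.baseChange]
    simp only [map_zero, zero_mul, sub_zero]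
    intro h1
    have : (2 : F) * y = 0 := by linear_combination h1
    rcases mul_eq_zero.1 this with h | h
    · exact absurd h two_ne
    · exact hy h
  have h3 := Affine.Point.add_self_of_Y_ne (W := (WZ⁄F).toAffine) (h₁ := nonsing h) hne
  have h4 : mk x y h + mk x y h = Affine.Point.some _ _
    ((WZ⁄F).toAffine.nonsingular_add (nonsing h) (nonsing h) fun hxy => hne hxy.right) := h3
  have hs : (WZ⁄F).toAffine.slope x x y y = (3 * x ^ 2 - 2) / (2 * y) := by
    rw [Affine.slope_of_Y_ne rfl hne]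
    simp [Affine.negY, WZ, WeierstrassCurve.map, WeierstrassCurve.baseChange]
    ring
  have h5 : (WZ⁄F).toAffine.addX x x ((WZ⁄F).toAffine.slope x x y y) =
      ((3 * x ^ 2 - 2) / (2 * y)) ^ 2 - 2 * x := by
    rw [hs]
    simp [Affine.addX, WZ, WeierstrassCurve.map, WeierstrassCurve.baseChange]
    ring
  have h6 : (WZ⁄F).toAffine.addY x x y ((WZ⁄F).toAffine.slope x x y y) =
      (-(y + ((3 * x ^ 2 - 2) / (2 * y)) * ((((3 * x ^ 2 - 2) / (2 * y)) ^ 2 - 2 * x) - x))) := by
    rw [hs]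
    simp [Affine.addX, Affine.addY, Affine.negAddY, Affine.negY, WZ, WeierstrassCurve.map,
      WeierstrassCurve.baseChange]
    ring
  have h7 := (Affine.equation_iff _ _).1 ((WZ⁄F).toAffine.nonsingular_add (nonsing h) (nonsing h)
    fun hxy => hne hxy.right).1
  rw [h5, h6] at h7
  simp only [WZ, WeierstrassCurve.map, WeierstrassCurve.baseChange] at h7
  simp only [map_zero, map_neg, map_ofNat, zero_mul, add_zero, mul_zero, zero_add] at h7
  refine ⟨by linear_combination h7, ?_⟩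
  rw [h4]
  exact some_eq _ _ h5 h6

/-- functoriality -/
noncomputable def Pt.map {K : Type} [Field K] (f : F →+* K) : Pt F →+ Pt K :=
  letI := Classical.decEq F
  letI := Classical.decEq K
  Affine.Point.map (W' := WZ) (S := ℤ) f.toIntAlgHom

theorem Pt.map_mk {K : Type} [Field K] [CharP K 5] (f : F →+* K) (x y : F)
    (h : y ^ 2 = x ^ 3 - 2 * x) (h' : f y ^ 2 = f x ^ 3 - 2 * f x) :
    Pt.map f (mk x y h) = mk (f x) (f y) h' := by
  letI := Classical.decEq F
  letI := Classical.decEq K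
  exact Affine.Point.map_some (W' := WZ) (S := ℤ) f.toIntAlgHom (nonsing h)

theorem Pt.map_injective {K : Type} [Field K] (f : F →+* K) : Function.Injective (Pt.map f) := by
  letI := Classical.decEq F
  letI := Classical.decEq K
  exact Affine.Point.map_injective (W' := WZ) (S := ℤ) f.toIntAlgHom

end Pool.Agent.H71.Ses
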