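import Pool.Agent.H71.Ses.B1

set_option linter.style.haveILetI false
set_option linter.unusedSectionVars false

open WeierstrassCurve

namespace Pool.Agent.H71.Ses

variable {F : Type} [Field F] [CharP F 5]

/-- addition with a given slope -/
theorem add_of_slope {x₁ y₁ x₂ y₂ l x₃ y₃ : F} (h₁ : y₁ ^ 2 = x₁ ^ 3 - 2 * x₁)
    (h₂ : y₂ ^ 2 = x₂ ^ 3 - 2 * x₂) (hx : x₁ ≠ x₂) (hl : l * (x₁ - x₂) = y₁ - y₂)
    (hx₃ : x₃ = l ^ 2 - x₁ - x₂) (hy₃ : y₃ = -(y₁ + l * (x₃ - x₁))) :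
    ∃ h, mk x₁ y₁ h₁ + mk x₂ y₂ h₂ = mk x₃ y₃ h := by
  have hne : x₁ - x₂ ≠ 0 := sub_ne_zero.2 hx
  obtain ⟨h, hh⟩ := add_mk_of_ne h₁ h₂ hx
  have hl' : (y₁ - y₂) / (x₁ - x₂) = l := (div_eq_iff hne).2 hl.symm
  have hX : ((y₁ - y₂) / (x₁ - x₂)) ^ 2 - x₁ - x₂ = x₃ := by rw [hl', hx₃]
  have hY : (-(y₁ + ((y₁ - y₂) / (x₁ - x₂)) * ((((y₁ - y₂) / (x₁ - x₂)) ^ 2 - x₁ - x₂) - x₁))) =
      y₃ := by rw [hX, hl', hy₃]
  have h' : y₃ ^ 2 = x₃ ^ 3 - 2 * x₃ := by rw [← hX, ← hY]; exact h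
  refine ⟨h', ?_⟩
  rw [hh, mk_inj]
  exact ⟨hX, hY⟩

/-- doubling with a given slope -/
theorem double_of_slope {x y l x₃ y₃ : F} (h : y ^ 2 = x ^ 3 - 2 * x) (hy : y ≠ 0)
    (hl : l * (2 * y) = 3 * x ^ 2 - 2)
    (hx₃ : x₃ = l ^ 2 - 2 * x) (hy₃ : y₃ = -(y + l * (x₃ - x))) :
    ∃ h', mk x y h + mk x y h = mk x₃ y₃ h' := by
  have hne : 2 * y ≠ 0 := mul_ne_zero two_ne hy
  obtain ⟨h', hh⟩ := double_mk h hy
  have hl' : (3 * x ^ 2 - 2) / (2 * y) = l := (div_eq_iff hne).2 hl.symm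
  have hX : ((3 * x ^ 2 - 2) / (2 * y)) ^ 2 - 2 * x = x₃ := by rw [hl', hx₃]
  have hY : (-(y + ((3 * x ^ 2 - 2) / (2 * y)) * ((((3 * x ^ 2 - 2) / (2 * y)) ^ 2 - 2 * x) - x))) =
      y₃ := by rw [hX, hl', hy₃]
  have h'' : y₃ ^ 2 = x₃ ^ 3 - 2 * x₃ := by rw [← hX, ← hY]; exact h'
  refine ⟨h'', ?_⟩
  rw [hh, mk_inj]
  exact ⟨hX, hY⟩

theorem add_neg_mk {x y y' : F} (h : y ^ 2 = x ^ 3 - 2 * x) (h' : y' ^ 2 = x ^ 3 - 2 * x)
    (hy : y' = -y) : mk x y h + mk x y' h' = 0 := by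
  subst hy
  rw [← neg_mk x y h, add_neg_cancel]

/-- two affine points: the three cases of the addition law -/
theorem add_cases {x₁ y₁ x₂ y₂ : F} (h₁ : y₁ ^ 2 = x₁ ^ 3 - 2 * x₁)
    (h₂ : y₂ ^ 2 = x₂ ^ 3 - 2 * x₂) :
    (x₁ ≠ x₂ ∧ ∃ l x₃ y₃ h, l * (x₁ - x₂) = y₁ - y₂ ∧ x₃ = l ^ 2 - x₁ - x₂ ∧
      y₃ = -(y₁ + l * (x₃ - x₁)) ∧ mk x₁ y₁ h₁ + mk x₂ y₂ h₂ = mk x₃ y₃ h) ∨
    (x₁ = x₂ ∧ y₁ = y₂ ∧ y₁ ≠ 0 ∧ ∃ l x₃ y₃ h, l * (2 * y₁) = 3 * x₁ ^ 2 - 2 ∧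
      x₃ = l ^ 2 - 2 * x₁ ∧ y₃ = -(y₁ + l * (x₃ - x₁)) ∧
      mk x₁ y₁ h₁ + mk x₂ y₂ h₂ = mk x₃ y₃ h) ∨
    (x₁ = x₂ ∧ y₂ = -y₁ ∧ mk x₁ y₁ h₁ + mk x₂ y₂ h₂ = 0) := by
  by_cases hx : x₁ = x₂
  · subst hx
    have h3 : (y₂ - y₁) * (y₂ + y₁) = 0 := by linear_combination h₂ - h₁
    by_cases h4 : y₂ + y₁ = 0
    · have h5 : y₂ = -y₁ := by linear_combination h4
      exact Or.inr (Or.inr ⟨rfl, h5, add_neg_mk h₁ h₂ h5⟩)
    · have h5 : y₁ = y₂ := by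
        rcases mul_eq_zero.1 h3 with h | h
        · linear_combination -h
        · exact absurd h h4
      subst h5
      have h6 : y₁ ≠ 0 := by
        rintro rfl
        simp at h4
      have h7 : 2 * y₁ ≠ 0 := mul_ne_zero two_ne h6
      have hl : ((3 * x₁ ^ 2 - 2) / (2 * y₁)) * (2 * y₁) = 3 * x₁ ^ 2 - 2 := div_mul_cancel₀ _ h7
      obtain ⟨h', hh⟩ := double_of_slope h₁ h6 hl rfl rfl
      exact Or.inr (Or.inl ⟨rfl, rfl, h6, _, _, _, h', hl, rfl, rfl, hh⟩)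
  · have hne : x₁ - x₂ ≠ 0 := sub_ne_zero.2 hx
    have hl : ((y₁ - y₂) / (x₁ - x₂)) * (x₁ - x₂) = y₁ - y₂ := div_mul_cancel₀ _ hne
    obtain ⟨h', hh⟩ := add_of_slope h₁ h₂ hx hl rfl rfl
    exact Or.inl ⟨hx, _, _, _, h', hl, rfl, rfl, hh⟩

theorem iota_eqn {x y : F} (h : y ^ 2 = x ^ 3 - 2 * x) : (2 * y) ^ 2 = (-x) ^ 3 - 2 * (-x) := by
  have h5 := five_eq_zero (F := F)
  linear_combination -h + y ^ 2 * h5

open Classical in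
/-- the map `(x, y) ↦ (-x, 2y)` on points -/
noncomputable def iotaFun : Pt F → Pt F := fun P =>
  match (P : (WZ⁄F).toAffine.Point) with
  | Affine.Point.zero => 0
  | Affine.Point.some x y h => (if h' : y ^ 2 = x ^ 3 - 2 * x then mk (-x) (2 * y) (iota_eqn h') else 0)

theorem iotaFun_zero : iotaFun (0 : Pt F) = 0 := rfl

theorem iotaFun_mk {x y : F} (h : y ^ 2 = x ^ 3 - 2 * x) :
    iotaFun (mk x y h) = mk (-x) (2 * y) (iota_eqn h) := by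
  classical
  change (if h' : y ^ 2 = x ^ 3 - 2 * x then mk (-x) (2 * y) (iota_eqn h') else 0) = _
  rw [dif_pos h]

theorem iotaFun_add (P Q : Pt F) : iotaFun (P + Q) = iotaFun P + iotaFun Q := by
  have h5 := five_eq_zero (F := F)
  rcases P.cases with rfl | ⟨x₁, y₁, h₁, rfl⟩
  · rw [zero_add, iotaFun_zero, zero_add]
  rcases Q.cases with rfl | ⟨x₂, y₂, h₂, rfl⟩
  · rw [add_zero, iotaFun_zero, add_zero]
  rw [iotaFun_mk, iotaFun_mk]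
  rcases add_cases h₁ h₂ with ⟨hx, l, x₃, y₃, h, hl, hx₃, hy₃, hs⟩ |
    ⟨rfl, rfl, hy, l, x₃, y₃, h, hl, hx₃, hy₃, hs⟩ | ⟨rfl, hy, hs⟩
  · rw [hs, iotaFun_mk]
    obtain ⟨h', hh⟩ := add_of_slope (l := -2 * l) (x₃ := -x₃) (y₃ := 2 * y₃) (iota_eqn h₁)
      (iota_eqn h₂) (by simpa using hx) (by linear_combination 2 * hl)
      (by linear_combination -hx₃ - l ^ 2 * h5) (by linear_combination 2 * hy₃)
    rw [hh]
  · rw [hs, iotaFun_mk]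
    obtain ⟨h', hh⟩ := double_of_slope (l := -2 * l) (x₃ := -x₃) (y₃ := 2 * y₃) (iota_eqn h₁)
      (mul_ne_zero two_ne hy) (by linear_combination (-4) * hl + (3 * x₁ ^ 2 - 2) * (-h5))
      (by linear_combination -hx₃ - l ^ 2 * h5) (by linear_combination 2 * hy₃)
    rw [hh]
  · rw [hs, iotaFun_zero]
    exact (add_neg_mk (iota_eqn h₁) (iota_eqn h₂) (by rw [hy]; ring)).symm

/-- the automorphism `(x, y) ↦ (-x, 2y)` of `E` -/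
noncomputable def iota : Pt F →+ Pt F where
  toFun := iotaFun
  map_zero' := iotaFun_zero
  map_add' := iotaFun_add

theorem iota_mk {x y : F} (h : y ^ 2 = x ^ 3 - 2 * x) :
    iota (mk x y h) = mk (-x) (2 * y) (iota_eqn h) := iotaFun_mk h

theorem iota_iota (P : Pt F) : iota (iota P) = -P := by
  rcases P.cases with rfl | ⟨x, y, h, rfl⟩
  · simp
  · rw [iota_mk, iota_mk, neg_mk, mk_inj]
    exact ⟨by ring, by linear_combination y * (five_eq_zero (F := F))⟩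

theorem map_iota {K : Type} [Field K] [CharP K 5] (f : F →+* K) (P : Pt F) :
    Pt.map f (iota P) = iota (Pt.map f P) := by
  rcases P.cases with rfl | ⟨x, y, h, rfl⟩
  · simp
  · have h' : f y ^ 2 = f x ^ 3 - 2 * f x := by
      have := congrArg f h
      simpa only [map_pow, map_sub, map_mul, map_ofNat] using this
    have h2 : f (2 * y) ^ 2 = f (-x) ^ 3 - 2 * f (-x) := by
      rw [map_mul, map_neg, map_ofNat]
      exact iota_eqn h'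
    rw [iota_mk, Pt.map_mk f x y h h', iota_mk, Pt.map_mk f _ _ (iota_eqn h) h2, mk_inj]
    rw [map_mul, map_neg, map_ofNat]
    exact ⟨rfl, rfl⟩

/-- the `x`-coordinate -/
noncomputable def Pt.x : Pt F → F := fun P =>
  match (P : (WZ⁄F).toAffine.Point) with
  | Affine.Point.zero => 0
  | Affine.Point.some x _ _ => x

theorem x_zero : (0 : Pt F).x = 0 := rfl
theorem x_mk {x y : F} (h : y ^ 2 = x ^ 3 - 2 * x) : (mk x y h).x = x := rfl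

theorem x_neg (P : Pt F) : (-P).x = P.x := by
  rcases P.cases with rfl | ⟨x, y, h, rfl⟩
  · rw [neg_zero]
  · rw [neg_mk, x_mk, x_mk]

theorem x_iota (P : Pt F) : (iota P).x = -P.x := by
  rcases P.cases with rfl | ⟨x, y, h, rfl⟩
  · rw [map_zero, x_zero, neg_zero]
  · rw [iota_mk, x_mk, x_mk]

end Pool.Agent.H71.Ses
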