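import Pool.Agent.H71.Ses.B2

set_option linter.style.haveILetI false
set_option linter.unusedSectionVars false
set_option linter.unusedVariables false

namespace Pool.Agent.H71.Ses

/-! ### valuations and the addition law -/

section Val

variable {F : Type} [Field F] {Γ : Type} [LinearOrderedCommGroupWithZero Γ] (v : Valuation F Γ)

/-- `max (v x) 1` -/
noncomputable def MM (x : F) : Γ := max (v x) 1

theorem MM_of_le {x : F} (h : v x ≤ 1) : MM v x = 1 := max_eq_right h
theorem MM_of_lt {x : F} (h : 1 < v x) : MM v x = v x := max_eq_left h.le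
theorem MM_ne_zero (x : F) : MM v x ≠ 0 := (lt_of_lt_of_le zero_lt_one (le_max_right _ _)).ne'
theorem one_le_MM (x : F) : 1 ≤ MM v x := le_max_right _ _

theorem gaussM (a b : F) : MM v a * MM v b = max 1 (max (v (a + b)) (v (a * b))) := by
  rcases le_or_gt (v a) 1 with ha | ha <;> rcases le_or_gt (v b) 1 with hb | hb
  · rw [MM_of_le v ha, MM_of_le v hb, mul_one, max_eq_left]
    refine max_le (v.map_add_le ha hb) ?_
    rw [map_mul]
    exact mul_le_one' ha hb
  · rw [MM_of_le v ha, MM_of_lt v hb, one_mul]
    have h1 : v (a + b) = v b := v.map_add_eq_of_lt_right (ha.trans_lt hb)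
    rw [h1, map_mul]
    apply le_antisymm
    · exact le_max_of_le_right (le_max_left _ _)
    · refine max_le hb.le (max_le le_rfl ?_)
      exact mul_le_of_le_one_left' ha
  · rw [MM_of_lt v ha, MM_of_le v hb, mul_one]
    have h1 : v (a + b) = v a := v.map_add_eq_of_lt_left (hb.trans_lt ha)
    rw [h1, map_mul]
    apply le_antisymm
    · exact le_max_of_le_right (le_max_left _ _)
    · refine max_le ha.le (max_le le_rfl ?_)
      exact mul_le_of_le_one_right' hb
  · rw [MM_of_lt v ha, MM_of_lt v hb, map_mul]
    have h1 : v a ≤ v a * v b := le_mul_of_one_le_right' hb.le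
    have h2 : v b ≤ v a * v b := le_mul_of_one_le_left' ha.le
    apply le_antisymm
    · exact le_max_of_le_right (le_max_right _ _)
    · refine max_le (ha.le.trans h1) (max_le ?_ le_rfl)
      exact (v.map_add_le h1 h2)

/-- the values of `v` on the prime field are trivial -/
structure Triv : Prop where
  two : v 2 = 1
  five : (5 : F) = 0

variable {v}

theorem Triv.two_le (h : Triv v) : v 2 ≤ 1 := h.two.le

/-- the three forms of bidegree `(2, 2)` -/
theorem three_forms (hv : Triv v) (a b : F) :
    max (v ((a - b) ^ 2)) (max (v (2 * (a * b - 2) * (a + b))) (v ((a * b + 2) ^ 2))) =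
      MM v a ^ 2 * MM v b ^ 2 := by
  have h2 : v 2 = 1 := hv.two
  rcases le_or_gt (v a) 1 with ha | ha <;> rcases le_or_gt (v b) 1 with hb | hb
  · rw [MM_of_le v ha, MM_of_le v hb, one_pow, mul_one]
    have hab : v (a * b) ≤ 1 := by rw [map_mul]; exact mul_le_one' ha hb
    have e1 : v (a - b) ≤ 1 := v.map_sub_le ha hb
    have e2 : v (a + b) ≤ 1 := v.map_add_le ha hb
    have e3 : v (a * b - 2) ≤ 1 := v.map_sub_le hab h2.le
    have e4 : v (a * b + 2) ≤ 1 := v.map_add_le hab h2.le
    apply le_antisymm
    · refine max_le ?_ (max_le ?_ ?_)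
      · rw [map_pow]; exact pow_le_one' e1 2
      · rw [map_mul, map_mul, h2, one_mul]; exact mul_le_one' e3 e2
      · rw [map_pow]; exact pow_le_one' e4 2
    · by_contra hcon
      rw [not_le, max_lt_iff, max_lt_iff, map_pow, map_pow, map_mul, map_mul, h2, one_mul] at hcon
      obtain ⟨f1, f2, f3⟩ := hcon
      have g1 : v (a - b) < 1 := by
        rcases e1.lt_or_eq with h | h
        · exact h
        · rw [h, one_pow] at f1; exact absurd f1 (lt_irrefl _)
      have g3 : v (a * b + 2) < 1 := by
        rcases e4.lt_or_eq with h | h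
        · exact h
        · rw [h, one_pow] at f3; exact absurd f3 (lt_irrefl _)
      have g4 : v (a * b - 2) = 1 := by
        have : a * b - 2 = (a * b + 2) - 2 * 2 := by ring
        rw [this, v.map_sub_eq_of_lt_right]
        · rw [map_mul, h2, one_mul]
        · rw [map_mul, h2, one_mul]; exact g3
      rw [g4, one_mul] at f2
      have g5 : v (2 * a) < 1 := by
        have : 2 * a = (a + b) + (a - b) := by ring
        rw [this]
        exact v.map_add_lt f2 g1
      rw [map_mul, h2, one_mul] at g5
      have g6 : v 2 < 1 := by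
        have : (2 : F) = (a * b + 2) - a * b := by ring
        rw [this]
        apply v.map_sub_lt g3
        rw [map_mul]
        exact (mul_le_of_le_one_right' hb).trans_lt g5
      rw [h2] at g6
      exact lt_irrefl _ g6
  · rw [MM_of_le v ha, MM_of_lt v hb, one_pow, one_mul]
    have hlt : v a < v b := ha.trans_lt hb
    have e1 : v (a - b) = v b := by
      rw [v.map_sub_swap, v.map_sub_eq_of_lt_left hlt]
    have e2 : v (a + b) = v b := v.map_add_eq_of_lt_right hlt
    have hab : v (a * b) ≤ v b := by rw [map_mul]; exact mul_le_of_le_one_left' ha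
    have e3 : v (a * b - 2) ≤ v b := v.map_sub_le hab (h2.le.trans hb.le)
    have e4 : v (a * b + 2) ≤ v b := v.map_add_le hab (h2.le.trans hb.le)
    apply le_antisymm
    · refine max_le ?_ (max_le ?_ ?_)
      · rw [map_pow, e1]
      · rw [map_mul, map_mul, h2, one_mul, e2, pow_two]; exact mul_le_mul_left e3 _
      · rw [map_pow]; exact pow_le_pow_left' e4 2
    · apply le_max_of_le_left
      rw [map_pow, e1]
  · rw [MM_of_lt v ha, MM_of_le v hb, one_pow, mul_one]
    have hlt : v b < v a := hb.trans_lt ha
    have e1 : v (a - b) = v a := v.map_sub_eq_of_lt_left hlt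
    have e2 : v (a + b) = v a := v.map_add_eq_of_lt_left hlt
    have hab : v (a * b) ≤ v a := by rw [map_mul]; exact mul_le_of_le_one_right' hb
    have e3 : v (a * b - 2) ≤ v a := v.map_sub_le hab (h2.le.trans ha.le)
    have e4 : v (a * b + 2) ≤ v a := v.map_add_le hab (h2.le.trans ha.le)
    apply le_antisymm
    · refine max_le ?_ (max_le ?_ ?_)
      · rw [map_pow, e1]
      · rw [map_mul, map_mul, h2, one_mul, e2, pow_two]; exact mul_le_mul_left e3 _
      · rw [map_pow]; exact pow_le_pow_left' e4 2
    · apply le_max_of_le_left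
      rw [map_pow, e1]
  · rw [MM_of_lt v ha, MM_of_lt v hb, ← mul_pow, ← map_mul]
    have h1 : v a ≤ v (a * b) := by rw [map_mul]; exact le_mul_of_one_le_right' hb.le
    have h1' : v b ≤ v (a * b) := by rw [map_mul]; exact le_mul_of_one_le_left' ha.le
    have h3 : (1 : Γ) < v (a * b) := ha.trans_le h1
    have e4 : v (a * b + 2) = v (a * b) := v.map_add_eq_of_lt_left (by rw [h2]; exact h3)
    have e3 : v (a * b - 2) ≤ v (a * b) := v.map_sub_le le_rfl (by rw [h2]; exact h3.le)
    apply le_antisymm
    · refine max_le ?_ (max_le ?_ ?_)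
      · rw [map_pow]; exact pow_le_pow_left' (v.map_sub_le h1 h1') 2
      · rw [map_mul, map_mul v 2, h2, one_mul, pow_two]
        exact mul_le_mul' e3 (v.map_add_le h1 h1')
      · rw [map_pow, e4]
    · apply le_max_of_le_right
      apply le_max_of_le_right
      rw [map_pow, e4]

/-- the two forms of degree four -/
theorem two_forms (hv : Triv v) (a : F) :
    max (v (a ^ 3 - 2 * a)) (v ((a ^ 2 + 2) ^ 2)) = MM v a ^ 4 := by
  have h2 : v 2 = 1 := hv.two
  rcases le_or_gt (v a) 1 with ha | ha
  · rw [MM_of_le v ha, one_pow]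
    have e0 : v (a ^ 2) ≤ 1 := by rw [map_pow]; exact pow_le_one' ha 2
    have e1 : v (a ^ 2 + 2) ≤ 1 := v.map_add_le e0 h2.le
    have e2 : v (a ^ 3 - 2 * a) ≤ 1 := by
      apply v.map_sub_le
      · rw [map_pow]; exact pow_le_one' ha 3
      · rw [map_mul, h2, one_mul]; exact ha
    apply le_antisymm
    · refine max_le e2 ?_
      rw [map_pow]; exact pow_le_one' e1 2
    · by_contra hcon
      rw [not_le, max_lt_iff, map_pow] at hcon
      obtain ⟨f1, f2⟩ := hcon
      have g1 : v (a ^ 2 + 2) < 1 := by
        rcases e1.lt_or_eq with h | h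
        · exact h
        · rw [h, one_pow] at f2; exact absurd f2 (lt_irrefl _)
      have g2 : v (2 * 2 * a) < 1 := by
        have : 2 * 2 * a = a * (a ^ 2 + 2) - (a ^ 3 - 2 * a) := by ring
        rw [this]
        apply v.map_sub_lt _ f1
        rw [map_mul]
        exact (mul_le_of_le_one_left' ha).trans_lt g1
      rw [map_mul, map_mul, h2, one_mul, one_mul] at g2
      have g3 : v 2 < 1 := by
        have : (2 : F) = (a ^ 2 + 2) - a * a := by ring
        rw [this]
        apply v.map_sub_lt g1
        rw [map_mul]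
        exact (mul_le_of_le_one_left' ha).trans_lt g2
      rw [h2] at g3
      exact lt_irrefl _ g3
  · rw [MM_of_lt v ha]
    have e0 : (1 : Γ) < v (a ^ 2) := by rw [map_pow]; exact one_lt_pow' ha two_ne_zero
    have e1 : v (a ^ 2 + 2) = v (a ^ 2) := v.map_add_eq_of_lt_left (by rw [h2]; exact e0)
    apply le_antisymm
    · refine max_le ?_ ?_
      · apply v.map_sub_le
        · rw [map_pow]; exact pow_le_pow_right' ha.le (by norm_num)
        · rw [map_mul, h2, one_mul]
          calc v a = v a ^ 1 := (pow_one _).symm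
            _ ≤ _ := pow_le_pow_right' ha.le (by norm_num)
      · rw [map_pow, e1, map_pow, ← pow_mul]
    · apply le_max_of_le_right
      rw [map_pow, e1, map_pow, ← pow_mul]

theorem Triv.of_sq (h5 : (5 : F) = 0) : Triv v := by
  refine ⟨?_, h5⟩
  have h1 : (2 : F) ^ 4 = 1 := by linear_combination 3 * h5
  have h3 : v 2 ^ 4 = 1 := by rw [← map_pow, h1, map_one]
  exact (pow_eq_one_iff.1 h3).resolve_right (by norm_num)

end Val

end Pool.Agent.H71.Ses
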