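import Pool.Agent.H71.Ses.B3
import Pool.Agent.H71.Ses.A4

set_option linter.style.haveILetI false
set_option linter.unusedSectionVars false
set_option linter.unusedVariables false

namespace Pool.Agent.H71.Ses

variable {F : Type} [Field F] [CharP F 5]

/-- the `x`-coordinate of a sum -/
theorem x_add {x₁ y₁ x₂ y₂ : F} (h₁ : y₁ ^ 2 = x₁ ^ 3 - 2 * x₁)
    (h₂ : y₂ ^ 2 = x₂ ^ 3 - 2 * x₂) (hx : x₁ ≠ x₂) :
    mk x₁ y₁ h₁ + mk x₂ y₂ h₂ ≠ 0 ∧
    (mk x₁ y₁ h₁ + mk x₂ y₂ h₂).x * (x₁ - x₂) ^ 2 = (x₁ * x₂ - 2) * (x₁ + x₂) - 2 * y₁ * y₂ := by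
  rcases add_cases h₁ h₂ with ⟨_, l, x₃, y₃, h, hl, hx₃, hy₃, hs⟩ | ⟨h, _⟩ | ⟨h, _⟩
  · rw [hs, x_mk]
    refine ⟨mk_ne_zero _ _ _, ?_⟩
    rw [hx₃]
    linear_combination (l * (x₁ - x₂) + (y₁ - y₂)) * hl + h₁ + h₂
  · exact absurd h hx
  · exact absurd h hx

theorem x_sub {x₁ y₁ x₂ y₂ : F} (h₁ : y₁ ^ 2 = x₁ ^ 3 - 2 * x₁)
    (h₂ : y₂ ^ 2 = x₂ ^ 3 - 2 * x₂) (hx : x₁ ≠ x₂) :
    mk x₁ y₁ h₁ - mk x₂ y₂ h₂ ≠ 0 ∧
    (mk x₁ y₁ h₁ - mk x₂ y₂ h₂).x * (x₁ - x₂) ^ 2 = (x₁ * x₂ - 2) * (x₁ + x₂) + 2 * y₁ * y₂ := by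
  rw [sub_eq_add_neg, neg_mk]
  have := x_add h₁ (neg_eqn h₂) hx
  refine ⟨this.1, ?_⟩
  rw [this.2]
  ring

theorem x_add_add_x_sub {x₁ y₁ x₂ y₂ : F} (h₁ : y₁ ^ 2 = x₁ ^ 3 - 2 * x₁)
    (h₂ : y₂ ^ 2 = x₂ ^ 3 - 2 * x₂) (hx : x₁ ≠ x₂) :
    ((mk x₁ y₁ h₁ + mk x₂ y₂ h₂).x + (mk x₁ y₁ h₁ - mk x₂ y₂ h₂).x) * (x₁ - x₂) ^ 2 =
      2 * (x₁ * x₂ - 2) * (x₁ + x₂) := by
  linear_combination (x_add h₁ h₂ hx).2 + (x_sub h₁ h₂ hx).2

theorem x_add_mul_x_sub {x₁ y₁ x₂ y₂ : F} (h₁ : y₁ ^ 2 = x₁ ^ 3 - 2 * x₁)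
    (h₂ : y₂ ^ 2 = x₂ ^ 3 - 2 * x₂) (hx : x₁ ≠ x₂) :
    ((mk x₁ y₁ h₁ + mk x₂ y₂ h₂).x * (mk x₁ y₁ h₁ - mk x₂ y₂ h₂).x) * (x₁ - x₂) ^ 2 =
      (x₁ * x₂ + 2) ^ 2 := by
  have hne : (x₁ - x₂) ^ 2 ≠ 0 := pow_ne_zero 2 (sub_ne_zero.2 hx)
  apply mul_right_cancel₀ hne
  have e1 := (x_add h₁ h₂ hx).2
  have e2 := (x_sub h₁ h₂ hx).2
  have e3 : (((mk x₁ y₁ h₁ + mk x₂ y₂ h₂).x * (mk x₁ y₁ h₁ - mk x₂ y₂ h₂).x) * (x₁ - x₂) ^ 2) *
      (x₁ - x₂) ^ 2 = ((mk x₁ y₁ h₁ + mk x₂ y₂ h₂).x * (x₁ - x₂) ^ 2) *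
      ((mk x₁ y₁ h₁ - mk x₂ y₂ h₂).x * (x₁ - x₂) ^ 2) := by ring
  rw [e3, e1, e2]
  linear_combination (-4 * y₂ ^ 2) * h₁ - 4 * (x₁ ^ 3 - 2 * x₁) * h₂

theorem x_double {x y : F} (h : y ^ 2 = x ^ 3 - 2 * x) (hy : y ≠ 0) :
    (mk x y h + mk x y h).x * (4 * (x ^ 3 - 2 * x)) = (x ^ 2 + 2) ^ 2 := by
  rcases add_cases h h with ⟨h, _⟩ | ⟨_, _, _, l, x₃, y₃, h', hl, hx₃, hy₃, hs⟩ | ⟨_, h', _⟩
  · exact absurd rfl h
  · rw [hs, x_mk, hx₃]
    linear_combination (l * (2 * y) + (3 * x ^ 2 - 2)) * hl - 4 * l ^ 2 * h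
  · exfalso
    apply hy
    have : (2 : F) * y = 0 := by linear_combination h'
    exact (mul_eq_zero.1 this).resolve_left two_ne

section Local

variable {Γ : Type} [LinearOrderedCommGroupWithZero Γ] (v : Valuation F Γ)

theorem MM_add_sub {x₁ y₁ x₂ y₂ : F} (h₁ : y₁ ^ 2 = x₁ ^ 3 - 2 * x₁)
    (h₂ : y₂ ^ 2 = x₂ ^ 3 - 2 * x₂) (hx : x₁ ≠ x₂) :
    MM v (mk x₁ y₁ h₁ + mk x₂ y₂ h₂).x * MM v (mk x₁ y₁ h₁ - mk x₂ y₂ h₂).x *
      v ((x₁ - x₂) ^ 2) = MM v x₁ ^ 2 * MM v x₂ ^ 2 := by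
  have hv : Triv v := Triv.of_sq five_eq_zero
  rw [gaussM, ← three_forms hv, ← max_mul_mul_right, ← max_mul_mul_right,
    one_mul, ← map_mul v, ← map_mul v, x_add_add_x_sub h₁ h₂ hx, x_add_mul_x_sub h₁ h₂ hx]

theorem MM_double {x y : F} (h : y ^ 2 = x ^ 3 - 2 * x) (hy : y ≠ 0) :
    MM v (mk x y h + mk x y h).x * v (x ^ 3 - 2 * x) = MM v x ^ 4 := by
  have hv : Triv v := Triv.of_sq five_eq_zero
  have h4 : v 4 = 1 := by
    have : (4 : F) = 2 * 2 := by norm_num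
    rw [this, map_mul, hv.two, one_mul]
  have e1 : v (x ^ 3 - 2 * x) = v (4 * (x ^ 3 - 2 * x)) := by rw [map_mul, h4, one_mul]
  rw [← two_forms hv, MM, ← max_mul_mul_right, one_mul]
  nth_rw 1 [e1]
  rw [← map_mul, x_double h hy, max_comm]

end Local

/-! ### Heights -/

variable (k : Type) [Field k] [IsAlgClosed k] [CharP k 5] [Algebra k F]

/-- the height of a point of `E` over a function field: the number of poles of `x` -/
noncomputable def hgt (P : Pt F) : ℤ := degP k P.x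

variable {k}

theorem log_MM (v : Place k F) (x : F) : WithZero.log (MM v.val x) = max (-v.ord x) 0 := by
  rcases le_or_gt (v.val x) 1 with h | h
  · rw [MM_of_le _ h, WithZero.log_one]
    have := v.ord_nonneg_of_val_le h
    rw [max_eq_right]
    omega
  · rw [MM_of_lt _ h]
    have h0 : x ≠ 0 := by
      rintro rfl
      simp at h
    have := (v.one_lt_val_iff h0).1 h
    rw [max_eq_left (by omega), Place.ord, neg_neg]

theorem log_val (v : Place k F) (x : F) : WithZero.log (v.val x) = -v.ord x := by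
  rw [Place.ord, neg_neg]

theorem finsupp_max (hF : IsFF k F) (x : F) :
    (Function.support fun v : Place k F => max (-v.ord x) 0).Finite := by
  refine (finite_ord_neg hF x).subset fun v hv => ?_
  rw [Function.mem_support] at hv
  change v.ord x < 0
  omega

theorem finsupp_ord (hF : IsFF k F) (x : F) :
    (Function.support fun v : Place k F => v.ord x).Finite := finite_ord hF x

theorem hgt_nonneg (P : Pt F) : 0 ≤ hgt k P := by
  unfold hgt degP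
  exact finsum_nonneg fun v => le_max_right _ _

theorem hgt_neg (P : Pt F) : hgt k (-P) = hgt k P := by
  rw [hgt, x_neg, hgt]

theorem hgt_zero : hgt k (0 : Pt F) = 0 := by
  rw [hgt, x_zero, degP]
  simp [Place.ord_zero]

theorem degP_const (c : k) : degP k (algebraMap k F c) = 0 := by
  simp [degP, Place.ord_const]

theorem hgt_add_sub_of_ne (hF : IsFF k F) {x₁ y₁ x₂ y₂ : F} (h₁ : y₁ ^ 2 = x₁ ^ 3 - 2 * x₁)
    (h₂ : y₂ ^ 2 = x₂ ^ 3 - 2 * x₂) (hx : x₁ ≠ x₂) :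
    hgt k (mk x₁ y₁ h₁ + mk x₂ y₂ h₂) + hgt k (mk x₁ y₁ h₁ - mk x₂ y₂ h₂) =
      2 * hgt k (mk x₁ y₁ h₁) + 2 * hgt k (mk x₂ y₂ h₂) := by
  have hne : (x₁ - x₂) ^ 2 ≠ 0 := pow_ne_zero 2 (sub_ne_zero.2 hx)
  set X₃ := (mk x₁ y₁ h₁ + mk x₂ y₂ h₂).x with hX₃
  set X₄ := (mk x₁ y₁ h₁ - mk x₂ y₂ h₂).x with hX₄
  have loc : ∀ v : Place k F, max (-v.ord X₃) 0 + max (-v.ord X₄) 0 =
      2 * max (-v.ord x₁) 0 + 2 * max (-v.ord x₂) 0 + v.ord ((x₁ - x₂) ^ 2) := by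
    intro v
    have h := congrArg WithZero.log (MM_add_sub v.val h₁ h₂ hx)
    rw [← hX₃, ← hX₄, WithZero.log_mul (mul_ne_zero (MM_ne_zero _ _) (MM_ne_zero _ _))
      ((Valuation.ne_zero_iff _).2 hne), WithZero.log_mul (MM_ne_zero _ _) (MM_ne_zero _ _),
      WithZero.log_mul (pow_ne_zero _ (MM_ne_zero _ _)) (pow_ne_zero _ (MM_ne_zero _ _)),
      WithZero.log_pow, WithZero.log_pow, log_MM, log_MM, log_MM, log_MM, log_val] at h
    simp only [nsmul_eq_mul, Nat.cast_ofNat] at h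
    linarith
  have e1 : hgt k (mk x₁ y₁ h₁ + mk x₂ y₂ h₂) + hgt k (mk x₁ y₁ h₁ - mk x₂ y₂ h₂) =
      ∑ᶠ v : Place k F, (max (-v.ord X₃) 0 + max (-v.ord X₄) 0) := by
    rw [finsum_add_distrib (finsupp_max hF X₃) (finsupp_max hF X₄)]
    rfl
  rw [e1, finsum_congr loc, finsum_add_distrib, finsum_add_distrib, ← mul_finsum, ← mul_finsum,
    sum_ord hF, add_zero]
  · rfl
  · exact (finsupp_max hF x₁).subset fun v hv => by
      rw [Function.mem_support] at hv ⊢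
      exact fun h => hv (by rw [h, mul_zero])
  · exact (finsupp_max hF x₂).subset fun v hv => by
      rw [Function.mem_support] at hv ⊢
      exact fun h => hv (by rw [h, mul_zero])
  · refine ((finsupp_max hF x₁).union (finsupp_max hF x₂)).subset fun v hv => ?_
    rw [Function.mem_support] at hv
    by_contra hcon
    rw [Set.mem_union, not_or, Function.mem_support, Function.mem_support, not_not, not_not] at hcon
    exact hv (by rw [hcon.1, hcon.2]; ring)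
  · exact finsupp_ord hF _

theorem hgt_double_of_ne (hF : IsFF k F) {x y : F} (h : y ^ 2 = x ^ 3 - 2 * x) (hy : y ≠ 0) :
    hgt k (mk x y h + mk x y h) = 4 * hgt k (mk x y h) := by
  have hne : x ^ 3 - 2 * x ≠ 0 := by rw [← h]; exact pow_ne_zero 2 hy
  set X₃ := (mk x y h + mk x y h).x with hX₃
  have loc : ∀ v : Place k F, max (-v.ord X₃) 0 =
      4 * max (-v.ord x) 0 + v.ord (x ^ 3 - 2 * x) := by
    intro v
    have h := congrArg WithZero.log (MM_double v.val h hy)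
    rw [← hX₃, WithZero.log_mul (MM_ne_zero _ _) ((Valuation.ne_zero_iff _).2 hne),
      WithZero.log_pow, log_MM, log_MM, log_val] at h
    simp only [nsmul_eq_mul, Nat.cast_ofNat] at h
    linarith
  have e1 : hgt k (mk x y h + mk x y h) = ∑ᶠ v : Place k F, max (-v.ord X₃) 0 := rfl
  rw [e1, finsum_congr loc, finsum_add_distrib, ← mul_finsum, sum_ord hF, add_zero]
  · rfl
  · exact (finsupp_max hF x).subset fun v hv => by
      rw [Function.mem_support] at hv ⊢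
      exact fun h => hv (by rw [h, mul_zero])
  · exact finsupp_ord hF _

theorem isAlgebraic_const {x : F} (h : x ^ 3 - 2 * x = 0) : ∃ c : k, x = algebraMap k F c := by
  apply exists_const
  rw [Transcendental, not_not]
  refine ⟨Polynomial.X ^ 3 - Polynomial.C 2 * Polynomial.X, ?_, ?_⟩
  · intro h0
    have := congrArg (fun p => Polynomial.coeff p 3) h0
    simp [Polynomial.coeff_X] at this
  · simp only [map_sub, map_pow, map_mul, Polynomial.aeval_X, Polynomial.aeval_C]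
    rw [map_ofNat]
    exact h

/-- the parallelogram law for the height -/
theorem hgt_par (hF : IsFF k F) (P Q : Pt F) :
    hgt k (P + Q) + hgt k (P - Q) = 2 * hgt k P + 2 * hgt k Q := by
  have hz := hgt_zero (k := k) (F := F)
  have key : ∀ P : Pt F, hgt k (P + P) = 4 * hgt k P := by
    intro P
    rcases P.cases with rfl | ⟨x, y, h, rfl⟩
    · rw [add_zero, hz, mul_zero]
    by_cases hy : y = 0
    · subst hy
      have h0 : mk x 0 h + mk x 0 h = 0 := add_neg_mk h h (by simp)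
      rw [h0, hz]
      obtain ⟨c, hc⟩ := isAlgebraic_const (k := k) (x := x) (by rw [← h]; simp)
      have : hgt k (mk x 0 h) = 0 := by
        rw [hgt, x_mk, hc]
        exact degP_const c
      rw [this, mul_zero]
    · exact hgt_double_of_ne hF h hy
  rcases P.cases with rfl | ⟨x₁, y₁, h₁, rfl⟩
  · rw [zero_add, zero_sub, hgt_neg, hz]
    ring
  rcases Q.cases with rfl | ⟨x₂, y₂, h₂, rfl⟩
  · rw [add_zero, sub_zero, hz]
    ring
  by_cases hx : x₁ = x₂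
  · subst hx
    have h3 : (y₂ - y₁) * (y₂ + y₁) = 0 := by linear_combination h₂ - h₁
    rcases mul_eq_zero.1 h3 with h4 | h4
    · have h5 : y₂ = y₁ := by linear_combination h4
      subst h5
      rw [sub_self, hz, key]
      ring
    · have h5 : y₂ = -y₁ := by linear_combination h4
      subst h5
      rw [← neg_mk x₁ y₁ h₁, sub_neg_eq_add, add_neg_cancel, hz, hgt_neg, key]
      ring
  · exact hgt_add_sub_of_ne hF h₁ h₂ hx

theorem hgt_iota (P : Pt F) : hgt k (iota P) = hgt k P := by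
  rw [hgt, x_iota, hgt, degP, degP]
  simp only [Place.ord_neg]

end Pool.Agent.H71.Ses
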