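import Mathlib

set_option linter.unusedSectionVars false

/-!
# Quadratic functions on abelian groups from the parallelogram law
-/

namespace Pool.Agent.H71.Ses

/-- a nonnegative integral quadratic function `h` on `G` which is invariant under an automorphism
`J` with `J² = -1` -/
structure QF {G : Type} [AddCommGroup G] (h : G → ℤ) (J : G →+ G) : Prop where
  par : ∀ P Q, h (P + Q) + h (P - Q) = 2 * h P + 2 * h Q
  nonneg : ∀ P, 0 ≤ h P
  inv : ∀ P, h (J P) = h P
  sq : ∀ P, J (J P) = -P

namespace QF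

variable {G : Type} [AddCommGroup G] {h : G → ℤ} {J : G →+ G}

/-- the polar form -/
def B (h : G → ℤ) (P Q : G) : ℤ := h (P + Q) - h P - h Q

theorem zero (H : QF h J) : h 0 = 0 := by
  have := H.par 0 0
  rw [add_zero, sub_zero] at this
  omega

theorem neg (H : QF h J) (P : G) : h (-P) = h P := by
  have := H.par 0 P
  rw [zero_add, zero_sub, H.zero] at this
  omega

theorem B_comm (P Q : G) : B h P Q = B h Q P := by
  rw [B, B, add_comm P Q]
  ring

theorem add_eq (h : G → ℤ) (P Q : G) : h (P + Q) = h P + h Q + B h P Q := by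
  rw [B]
  ring

theorem B_add_right (H : QF h J) (P Q R : G) : B h P (Q + R) = B h P Q + B h P R := by
  have h1 := H.par (P + Q) R
  have h2 := H.par (P + R) Q
  have h3 := H.par P (Q - R)
  have h4 := H.par Q R
  have e1 : P + Q + R = P + (Q + R) := by abel
  have e2 : P + R + Q = P + (Q + R) := by abel
  have e3 : P + Q - R = P + (Q - R) := by abel
  have e4 : P + R - Q = P - (Q - R) := by abel
  rw [e1, e3] at h1
  rw [e2, e4] at h2
  unfold B
  omega

theorem B_add_left (H : QF h J) (P Q R : G) : B h (P + Q) R = B h P R + B h Q R := by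
  rw [B_comm, H.B_add_right, B_comm R P, B_comm R Q]

theorem B_zero_right (H : QF h J) (P : G) : B h P 0 = 0 := by
  rw [B, add_zero, H.zero]
  ring

theorem B_zero_left (H : QF h J) (P : G) : B h 0 P = 0 := by
  rw [B_comm, H.B_zero_right]

theorem B_neg_right (H : QF h J) (P Q : G) : B h P (-Q) = -B h P Q := by
  have := H.B_add_right P Q (-Q)
  rw [add_neg_cancel, H.B_zero_right] at this
  omega

theorem B_neg_left (H : QF h J) (P Q : G) : B h (-P) Q = -B h P Q := by
  rw [B_comm, H.B_neg_right, B_comm]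

theorem B_sub_right (H : QF h J) (P Q R : G) : B h P (Q - R) = B h P Q - B h P R := by
  rw [sub_eq_add_neg, H.B_add_right, H.B_neg_right]
  ring

theorem B_sub_left (H : QF h J) (P Q R : G) : B h (P - Q) R = B h P R - B h Q R := by
  rw [B_comm, H.B_sub_right, B_comm R P, B_comm R Q]

theorem B_self (H : QF h J) (P : G) : B h P P = 2 * h P := by
  have := H.par P P
  rw [sub_self, H.zero] at this
  unfold B
  omega

/-- the polar form as an additive map -/
def Bhom (H : QF h J) (P : G) : G →+ ℤ where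
  toFun := B h P
  map_zero' := H.B_zero_right P
  map_add' := H.B_add_right P

theorem B_zsmul_right (H : QF h J) (P Q : G) (n : ℤ) : B h P (n • Q) = n * B h P Q := by
  have := map_zsmul (H.Bhom P) n Q
  rwa [smul_eq_mul] at this

theorem B_zsmul_left (H : QF h J) (P Q : G) (n : ℤ) : B h (n • P) Q = n * B h P Q := by
  rw [B_comm, H.B_zsmul_right, B_comm]

theorem h_zsmul (H : QF h J) (P : G) (n : ℤ) : h (n • P) = n ^ 2 * h P := by
  have h1 := H.B_self (n • P)
  rw [H.B_zsmul_left, H.B_zsmul_right, H.B_self] at h1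
  have h2 : 2 * h (n • P) = 2 * (n ^ 2 * h P) := by rw [← h1]; ring
  omega

theorem B_JJ (H : QF h J) (P Q : G) : B h (J P) (J Q) = B h P Q := by
  rw [B, B, ← map_add, H.inv, H.inv, H.inv]

theorem B_J_left (H : QF h J) (P Q : G) : B h (J P) Q = -B h P (J Q) := by
  rw [← H.B_JJ (J P) Q, H.sq, H.B_neg_left]

theorem B_J_self (H : QF h J) (P : G) : B h P (J P) = 0 := by
  have h1 := H.B_J_left P P
  rw [B_comm] at h1
  omega

/-- Cauchy-Schwarz -/
theorem CS (H : QF h J) (P Q : G) : B h P Q ^ 2 ≤ 4 * (h P * h Q) := by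
  have key : ∀ n m : ℤ, 0 ≤ n ^ 2 * h P + n * m * B h P Q + m ^ 2 * h Q := by
    intro n m
    have h1 := H.nonneg (n • P + m • Q)
    rw [add_eq h, H.h_zsmul, H.h_zsmul, H.B_zsmul_left, H.B_zsmul_right] at h1
    linarith
  have hP := H.nonneg P
  have hQ := H.nonneg Q
  rcases hP.eq_or_lt with h0 | h0
  · have h1 := key (h Q + 1) (-B h P Q)
    have h2 := key (-(h Q + 1) * B h P Q) 1
    rw [← h0] at h2 ⊢
    nlinarith
  · have h2 := key (-B h P Q) (2 * h P)
    have h3 : 0 ≤ h P * (4 * (h P * h Q) - B h P Q ^ 2) := by nlinarith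
    have := nonneg_of_mul_nonneg_right h3 h0
    linarith

theorem B_eq_zero_of_left (H : QF h J) {P : G} (hP : h P = 0) (Q : G) : B h P Q = 0 := by
  have := H.CS P Q
  rw [hP, zero_mul, mul_zero] at this
  exact pow_eq_zero_iff two_ne_zero |>.1 (le_antisymm this (sq_nonneg _))

theorem B_eq_zero_of_right (H : QF h J) {Q : G} (hQ : h Q = 0) (P : G) : B h P Q = 0 := by
  rw [B_comm, H.B_eq_zero_of_left hQ]

theorem h_add_null (H : QF h J) {Q : G} (hQ : h Q = 0) (P : G) : h (P + Q) = h P := by
  rw [add_eq h, hQ, H.B_eq_zero_of_right hQ]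
  ring

/-- the action of Gaussian integers -/
def gs (J : G →+ G) (a b : ℤ) (P : G) : G := a • P + b • J P

theorem h_gs (H : QF h J) (a b : ℤ) (P : G) : h (gs J a b P) = (a ^ 2 + b ^ 2) * h P := by
  rw [gs, add_eq h, H.h_zsmul, H.h_zsmul, H.inv, H.B_zsmul_left, H.B_zsmul_right, H.B_J_self]
  ring

end QF

end Pool.Agent.H71.Ses
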