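import Pool.Agent.H71.Ses.B4
import Pool.Agent.H71.Ses.C1

set_option linter.style.haveILetI false
set_option linter.unusedSectionVars false
set_option linter.unusedVariables false

open scoped IntermediateField

namespace Pool.Agent.H71.Ses

variable {k : Type} [Field k] [IsAlgClosed k] [CharP k 5]
variable {F : Type} [Field F] [CharP F 5] [Algebra k F]

theorem degP_eq (hF : IsFF k F) {t : F} (ht : Transcendental k t) :
    degP k t = Module.finrank k⟮t⟯ F := by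
  rw [← degZ_eq_degP hF, degZ_eq hF ht]

theorem degP_pos (hF : IsFF k F) {t : F} (ht : Transcendental k t) : 0 < degP k t := by
  rw [degP_eq hF ht]
  have := hF.finiteDimensional ht
  exact_mod_cast Module.finrank_pos

theorem degP_nonneg (t : F) : 0 ≤ degP k t := by
  unfold degP
  exact finsum_nonneg fun v => le_max_right _ _

theorem degP_eq_zero_iff (hF : IsFF k F) (t : F) :
    degP k t = 0 ↔ ∃ c : k, t = algebraMap k F c := by
  constructor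
  · intro h
    apply exists_const
    intro ht
    have := degP_pos hF ht
    omega
  · rintro ⟨c, rfl⟩
    exact degP_const c

theorem degP_map {F' : Type} [Field F'] [CharP F' 5] [Algebra k F'] (hF : IsFF k F)
    (hF' : IsFF k F') (φ : F →ₐ[k] F') (z : F) :
    degP k (φ z) = @Module.finrank F F' _ _ φ.toRingHom.toModule * degP k z := by
  by_cases hz : Transcendental k z
  · have hz' : Transcendental k (φ z) := by
      intro h
      exact hz ((isAlgebraic_algHom_iff φ φ.toRingHom.injective).1 h)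
    rw [degP_eq hF hz, degP_eq hF' hz']
    letI : Algebra F F' := φ.toRingHom.toAlgebra
    have hφ : ∀ x : F, algebraMap F F' x = φ x := fun x => rfl
    letI : Algebra k⟮z⟯ F' := ((algebraMap F F').comp (algebraMap k⟮z⟯ F)).toAlgebra
    haveI : IsScalarTower k⟮z⟯ F F' := IsScalarTower.of_algebraMap_eq fun x => rfl
    have h1 : Module.finrank k⟮z⟯ F * Module.finrank F F' = Module.finrank k⟮z⟯ F' :=
      Module.finrank_mul_finrank _ _ _
    have h2 : Module.finrank k⟮z⟯ F' = Module.finrank k⟮φ z⟯ F' := by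
      have e0 : k⟮z⟯.map φ = k⟮φ z⟯ := by
        rw [IntermediateField.adjoin_map, Set.image_singleton]
      let e : k⟮z⟯ ≃ₐ[k] k⟮φ z⟯ :=
        (IntermediateField.equivMap k⟮z⟯ φ).trans (IntermediateField.equivOfEq e0)
      refine Algebra.finrank_eq_of_equiv_equiv e.toRingEquiv (RingEquiv.refl F') ?_
      ext x
      rfl
    rw [← h2, ← h1]
    push_cast
    ring
  · obtain ⟨c, hc⟩ := exists_const hz
    rw [hc, φ.commutes, degP_const, degP_const, mul_zero]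

theorem qf (hF : IsFF k F) : QF (hgt k : Pt F → ℤ) iota where
  par := hgt_par hF
  nonneg := hgt_nonneg
  inv := hgt_iota
  sq := iota_iota

theorem x_map {F' : Type} [Field F'] [CharP F' 5] (φ : F →+* F') (P : Pt F) :
    (Pt.map φ P).x = φ P.x := by
  rcases P.cases with rfl | ⟨x, y, h, rfl⟩
  · rw [map_zero, x_zero, x_zero, map_zero]
  · have h' : φ y ^ 2 = φ x ^ 3 - 2 * φ x := by
      have := congrArg φ h
      simpa only [map_pow, map_sub, map_mul, map_ofNat] using this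
    rw [Pt.map_mk φ x y h h', x_mk, x_mk]

theorem hgt_map {F' : Type} [Field F'] [CharP F' 5] [Algebra k F'] (hF : IsFF k F)
    (hF' : IsFF k F') (φ : F →ₐ[k] F') (P : Pt F) :
    hgt k (Pt.map φ.toRingHom P) = @Module.finrank F F' _ _ φ.toRingHom.toModule * hgt k P := by
  rw [hgt, x_map, hgt]
  exact degP_map hF hF' φ P.x

/-- constant points have height zero -/
theorem hgt_const {P : Pt F} {c : k} (h : P.x = algebraMap k F c) : hgt k P = 0 := by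
  rw [hgt, h, degP_const]

theorem hgt_eq_zero_iff (hF : IsFF k F) (P : Pt F) :
    hgt k P = 0 ↔ ∃ c : k, P.x = algebraMap k F c := degP_eq_zero_iff hF P.x

/-- the `5 ^ n`-Frobenius on points -/
noncomputable def Fr (n : ℕ) : Pt F →+ Pt F := Pt.map (iterateFrobenius F 5 n)

theorem Fr_mk (n : ℕ) {x y : F} (h : y ^ 2 = x ^ 3 - 2 * x)
    (h' : (y ^ 5 ^ n) ^ 2 = (x ^ 5 ^ n) ^ 3 - 2 * (x ^ 5 ^ n)) :
    Fr n (mk x y h) = mk (x ^ 5 ^ n) (y ^ 5 ^ n) h' := Pt.map_mk _ x y h h'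

theorem Fr_x (n : ℕ) (P : Pt F) : (Fr n P).x = P.x ^ 5 ^ n := x_map _ P

theorem degP_pow (t : F) (n : ℕ) (ht : t ≠ 0) : degP k (t ^ n) = n * degP k t := by
  unfold degP
  rw [mul_finsum]
  apply finsum_congr
  intro v
  rw [v.ord_pow]
  rcases le_total 0 (v.ord t) with h | h
  · rw [max_eq_right (by nlinarith), max_eq_right (by linarith), mul_zero]
  · rw [max_eq_left (by nlinarith), max_eq_left (by linarith)]
    ring

theorem hgt_Fr (n : ℕ) (P : Pt F) : hgt k (Fr n P) = 5 ^ n * hgt k P := by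
  rw [hgt, Fr_x, hgt]
  by_cases h : P.x = 0
  · rw [h, zero_pow (pow_ne_zero _ (by norm_num))]
    have : degP k (0 : F) = 0 := by
      have := degP_const (k := k) (F := F) 0
      rwa [map_zero] at this
    rw [this, mul_zero]
  · rw [degP_pow _ _ h]
    push_cast
    ring

theorem Fr_succ (n : ℕ) (P : Pt F) : Fr (n + 1) P = Fr 1 (Fr n P) := by
  have h5 : ∀ (m : ℕ) (x : F), iterateFrobenius F 5 m x = x ^ 5 ^ m := fun m x => by
    rw [iterateFrobenius_def]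
  have pp : ∀ w : F, (w ^ 5 ^ n) ^ 5 ^ 1 = w ^ 5 ^ (n + 1) := fun w => by
    rw [← pow_mul, ← pow_add]
  rcases P.cases with rfl | ⟨x, y, h, rfl⟩
  · simp
  · have e : ∀ m : ℕ, (y ^ 5 ^ m) ^ 2 = (x ^ 5 ^ m) ^ 3 - 2 * (x ^ 5 ^ m) := by
      intro m
      have := congrArg (iterateFrobenius F 5 m) h
      rw [map_pow, map_sub, map_pow, map_mul, map_ofNat, h5, h5] at this
      exact this
    have e' : ((y ^ 5 ^ n) ^ 5 ^ 1) ^ 2 = ((x ^ 5 ^ n) ^ 5 ^ 1) ^ 3 - 2 * ((x ^ 5 ^ n) ^ 5 ^ 1) := by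
      rw [pp, pp]
      exact e (n + 1)
    rw [Fr_mk _ h (e _), Fr_mk _ h (e _), Fr_mk _ (e n) e', mk_inj]
    exact ⟨(pp x).symm, (pp y).symm⟩

theorem Fr_aux0 {x y l : F} (h : y ^ 2 = x ^ 3 - 2 * x) (h5 : (5 : F) = 0)
    (hl : l * y = x ^ 4 - x ^ 2 + 1) : l * (x ^ 5 - (-x)) * y = (y ^ 5 - (-(2 * y))) * y := by
  grind

theorem Fr_aux1 {x y l l₂ : F} (hy : y ≠ 0) (h : y ^ 2 = x ^ 3 - 2 * x) (h5 : (5 : F) = 0)
    (hl : l * y = x ^ 4 - x ^ 2 + 1) (hl2 : l₂ * (2 * y) = 3 * x ^ 2 - 2) :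
    l ^ 2 - x ^ 5 - (-x) = l₂ ^ 2 - 2 * x := by
  have : (l ^ 2 - x ^ 5 - (-x)) * y ^ 2 = (l₂ ^ 2 - 2 * x) * y ^ 2 := by grind
  exact mul_right_cancel₀ (pow_ne_zero 2 hy) this

theorem Fr_aux2 {x y l₂ : F} (h : y ^ 2 = x ^ 3 - 2 * x) (h5 : (5 : F) = 0)
    (hl2 : l₂ * (2 * y) = 3 * x ^ 2 - 2) :
    (l₂ ^ 2 - 2 * x) * y ^ 2 = 4 * x ^ 4 + x ^ 2 + 1 := by
  grind

theorem Fr_aux3 {x : F} (h5 : (5 : F) = 0) : -((x ^ 3 - 2 * x) ^ 4 +
    (x ^ 4 - x ^ 2 + 1) * (4 * x ^ 4 + x ^ 2 + 1 - x ^ 5 * (x ^ 3 - 2 * x))) =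
    (x ^ 3 - 2 * x) ^ 2 + -(x ^ 2 + 1) * (4 * x ^ 4 + x ^ 2 + 1 - x * (x ^ 3 - 2 * x)) := by
  grind

/-- the Frobenius is `ι - 2` on non-constant points -/
theorem Fr_one_eq {x y : F} (h : y ^ 2 = x ^ 3 - 2 * x) (hy : y ≠ 0) (hx : x ^ 5 + x ≠ 0) :
    Fr 1 (mk x y h) = iota (mk x y h) - (mk x y h + mk x y h) := by
  have h5 : (5 : F) = 0 := five_eq_zero
  have hF : (y ^ 5 ^ 1) ^ 2 = (x ^ 5 ^ 1) ^ 3 - 2 * (x ^ 5 ^ 1) := by
    rw [pow_one]
    have : (y ^ 5) ^ 2 = (y ^ 2) ^ 5 := by ring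
    rw [this, h]
    linear_combination (-2 * x ^ 13 + 8 * x ^ 11 - 16 * x ^ 9 + 16 * x ^ 7 - 6 * x ^ 5) * h5
  have hI : (-(2 * y)) ^ 2 = (-x) ^ 3 - 2 * (-x) := neg_eqn (iota_eqn h)
  rw [Fr_mk 1 h hF, iota_mk]
  have hne : x ^ 5 ^ 1 ≠ -x := by
    intro h0
    apply hx
    rw [pow_one] at h0
    rw [h0]
    ring
  have hl1 : ((x ^ 4 - x ^ 2 + 1) / y) * (x ^ 5 ^ 1 - (-x)) = y ^ 5 ^ 1 - (-(2 * y)) := by
    apply mul_right_cancel₀ hy
    rw [pow_one]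
    exact Fr_aux0 h h5 (div_mul_cancel₀ _ hy)
  have hl1' : ((x ^ 4 - x ^ 2 + 1) / y) * y = x ^ 4 - x ^ 2 + 1 := div_mul_cancel₀ _ hy
  generalize (x ^ 4 - x ^ 2 + 1) / y = l at hl1 hl1'
  obtain ⟨g1, e1⟩ := add_of_slope (l := l) (x₃ := l ^ 2 - x ^ 5 ^ 1 - (-x))
    (y₃ := -(y ^ 5 ^ 1 + l * ((l ^ 2 - x ^ 5 ^ 1 - (-x)) - x ^ 5 ^ 1))) hF hI hne hl1 rfl rfl
  rcases add_cases h h with ⟨h', _⟩ | ⟨_, _, _, l₂, x₃, y₃, g2, hl2, hx₃, hy₃, e2⟩ | ⟨_, h', _⟩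
  · exact absurd rfl h'
  · rw [eq_sub_iff_add_eq, e2]
    have e3 : mk (x ^ 5 ^ 1) (y ^ 5 ^ 1) hF - mk (-x) (2 * y) (iota_eqn h) = -mk x₃ y₃ g2 := by
      rw [sub_eq_add_neg, neg_mk, e1, neg_mk, mk_inj]
      rw [pow_one] at *
      have hxx : l ^ 2 - x ^ 5 - (-x) = x₃ := by
        rw [hx₃]
        exact Fr_aux1 hy h h5 hl1' hl2
      refine ⟨hxx, ?_⟩
      rw [hxx, hy₃]
      have hx3 : x₃ * y ^ 2 = 4 * x ^ 4 + x ^ 2 + 1 := by
        rw [hx₃]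
        exact Fr_aux2 h h5 hl2
      have : (-(y ^ 5 + l * (x₃ - x ^ 5))) * y ^ 3 = (-(-(y + l₂ * (x₃ - x)))) * y ^ 3 := by
        have a1 : (-(y ^ 5 + l * (x₃ - x ^ 5))) * y ^ 3 =
          -((y ^ 2) ^ 4 + (l * y) * (x₃ * y ^ 2 - x ^ 5 * y ^ 2)) := by ring
        have a2 : (-(-(y + l₂ * (x₃ - x)))) * y ^ 3 =
          (y ^ 2) ^ 2 + (l₂ * y) * (x₃ * y ^ 2 - x * y ^ 2) := by ring
        have a3 : l₂ * y = -(x ^ 2 + 1) := by
          linear_combination 3 * hl2 - (l₂ * y) * h5 + (2 * x ^ 2 - 1) * h5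
        rw [a1, a2, hl1', a3, hx3, h]
        exact Fr_aux3 h5
      exact mul_right_cancel₀ (pow_ne_zero 3 hy) this
    have e4 := congrArg (fun z => z + mk (-x) (2 * y) (iota_eqn h)) e3
    simp only [sub_add_cancel] at e4
    rw [e4]
    abel
  · exfalso
    apply hy
    have : (2 : F) * y = 0 := by linear_combination h'
    exact (mul_eq_zero.1 this).resolve_left two_ne

end Pool.Agent.H71.Ses
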