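import Pool.Agent.H71.Ses.C1

set_option linter.unusedSectionVars false

namespace Pool.Agent.H71.Ses

namespace QF

variable {G : Type} [AddCommGroup G] {h : G → ℤ} {J : G →+ G}

theorem B_gs (H : QF h J) (a b : ℤ) (P Q : G) :
    B h P (gs J a b Q) = a * B h P Q + b * B h P (J Q) := by
  rw [gs, H.B_add_right, H.B_zsmul_right, H.B_zsmul_right]

theorem BJ_gs (H : QF h J) (a b : ℤ) (P Q : G) :
    B h P (J (gs J a b Q)) = a * B h P (J Q) - b * B h P Q := by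
  rw [gs, map_add, map_zsmul, map_zsmul, H.sq, H.B_add_right, H.B_zsmul_right, H.B_zsmul_right,
    H.B_neg_right]
  ring

/-- the value of the linear form on a point `(x, U, Z)` -/
theorem L_eq (H : QF h J) {x U Z : G} {b A Bc β₀ β₁ q c : ℤ} (hq : q = A ^ 2 + Bc ^ 2)
    (hUZ : h U = h Z) (h1 : B h U Z = 0) (h2 : B h U (J Z) = 0) (hc : c = b ^ 2 - β₀ ^ 2 - β₁ ^ 2) :
    (b * (q + 1) - 1) * h x + h (x + (gs J (b * A) (-(b * Bc)) U + gs J β₀ β₁ Z)) -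
      (b ^ 2 * q + β₀ ^ 2 + β₁ ^ 2 - b) * h Z =
    b * (q + 1) * h x + B h x (gs J (b * A) (-(b * Bc)) U + gs J β₀ β₁ Z) + b * h Z := by
  have e1 : B h (gs J (b * A) (-(b * Bc)) U) (gs J β₀ β₁ Z) = 0 := by
    rw [H.B_gs, B_comm, H.B_gs, B_comm _ (J Z), H.B_J_left, H.BJ_gs]
    rw [B_comm Z U, h1]
    have h3 : B h Z (J U) = 0 := by
      have := H.B_J_left U Z
      rw [B_comm] at this
      rw [this, h2, neg_zero]
    rw [h3]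
    ring
  rw [add_eq h x, add_eq h (gs J (b * A) (-(b * Bc)) U), e1, H.h_gs, H.h_gs, hUZ, hq]
  ring

/-- `b (q + 1) L = h (b (q + 1) x + ψ) + c h Z` -/
theorem L_pos_eq (H : QF h J) {x U Z : G} {b A Bc β₀ β₁ q c : ℤ} (hq : q = A ^ 2 + Bc ^ 2)
    (hUZ : h U = h Z) (h1 : B h U Z = 0) (h2 : B h U (J Z) = 0) (hc : c = b ^ 2 - β₀ ^ 2 - β₁ ^ 2) :
    (b * (q + 1)) * ((b * (q + 1) - 1) * h x +
      h (x + (gs J (b * A) (-(b * Bc)) U + gs J β₀ β₁ Z)) -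
      (b ^ 2 * q + β₀ ^ 2 + β₁ ^ 2 - b) * h Z) =
    h ((b * (q + 1)) • x + (gs J (b * A) (-(b * Bc)) U + gs J β₀ β₁ Z)) + c * h Z := by
  rw [H.L_eq hq hUZ h1 h2 hc]
  have e1 : B h (gs J (b * A) (-(b * Bc)) U) (gs J β₀ β₁ Z) = 0 := by
    rw [H.B_gs, B_comm, H.B_gs, B_comm _ (J Z), H.B_J_left, H.BJ_gs]
    rw [B_comm Z U, h1]
    have h3 : B h Z (J U) = 0 := by
      have := H.B_J_left U Z
      rw [B_comm] at this
      rw [this, h2, neg_zero]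
    rw [h3]
    ring
  rw [add_eq h ((b * (q + 1)) • x), add_eq h (gs J (b * A) (-(b * Bc)) U), e1, H.h_gs, H.h_gs, hUZ,
    H.h_zsmul, H.B_zsmul_left, hq, hc]
  ring

/-- the value of the linear form on the special curve -/
theorem L_special (H : QF h J) {u₁ z₁ u₂ z₂ c₀ : G} {Fr : G → G} {b A Bc β₀ β₁ q : ℤ}
    (hq : q = A ^ 2 + Bc ^ 2) (hFr : ∀ P, h (Fr P - gs J A Bc P) = 0)
    (hu₂ : h u₂ = h z₂) (h1 : B h u₂ z₂ = 0) (h2 : B h u₂ (J z₂) = 0)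
    (hu₁ : h u₁ = h z₁) (h3 : B h u₁ z₁ = 0) (h4 : B h u₁ (J z₁) = 0)
    (hz : z₁ = z₂ - Fr u₂ + c₀) (hc₀ : h c₀ = 0) :
    h z₁ = (1 + q) * h z₂ ∧
    (b * (q + 1) - 1) * h (u₂ - u₁) +
      h ((u₂ - u₁) + (gs J (b * A) (-(b * Bc)) (Fr u₁) + gs J β₀ β₁ (Fr z₁))) -
      (b ^ 2 * q + β₀ ^ 2 + β₁ ^ 2 - b) * h (Fr z₁) =
    2 * h z₂ * (b * (q + 1) - (β₀ * (A ^ 2 - Bc ^ 2) - 2 * β₁ * A * Bc)) - b * B h u₂ u₁ := by
  have f1 : ∀ P Q, B h P (Fr Q) = A * B h P Q + Bc * B h P (J Q) := by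
    intro P Q
    have e : Fr Q = gs J A Bc Q + (Fr Q - gs J A Bc Q) := by abel
    rw [e, H.B_add_right, H.B_eq_zero_of_right (hFr Q), H.B_gs, add_zero]
  have f2 : ∀ P Q, B h P (J (Fr Q)) = A * B h P (J Q) - Bc * B h P Q := by
    intro P Q
    have e : Fr Q = gs J A Bc Q + (Fr Q - gs J A Bc Q) := by abel
    rw [e, map_add, H.B_add_right, H.B_eq_zero_of_right (Q := J (Fr Q - gs J A Bc Q))
      (by rw [H.inv]; exact hFr Q), H.BJ_gs, add_zero]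
  have f3 : ∀ Q, h (Fr Q) = q * h Q := by
    intro Q
    have e : Fr Q = gs J A Bc Q + (Fr Q - gs J A Bc Q) := by abel
    rw [e, H.h_add_null (hFr Q), H.h_gs, hq]
  have g1 : B h z₂ (Fr u₂) = 0 := by
    rw [f1, B_comm z₂ u₂, h1, B_comm z₂ (J u₂), H.B_J_left, h2]
    ring
  have hH : h z₁ = (1 + q) * h z₂ := by
    rw [hz, H.h_add_null hc₀, sub_eq_add_neg, add_eq h, H.B_neg_right, g1, H.neg, f3, hu₂]
    ring
  refine ⟨hH, ?_⟩
  -- orthogonality of `Fr u₁` and `Fr z₁`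
  have o1 : B h (Fr u₁) z₁ = 0 := by
    rw [B_comm, f1, B_comm z₁ u₁, h3, B_comm z₁ (J u₁), H.B_J_left, h4]
    ring
  have o2 : B h (Fr u₁) (J z₁) = 0 := by
    have : B h z₁ (J u₁) = 0 := by rw [B_comm, H.B_J_left, h4, neg_zero]
    rw [B_comm, f1, H.B_J_left, this, H.B_JJ, B_comm z₁ u₁, h3]
    ring
  have o3 : B h (Fr u₁) (Fr z₁) = 0 := by rw [f1, o1, o2]; ring
  have o4 : B h (Fr u₁) (J (Fr z₁)) = 0 := by rw [f2, o1, o2]; ring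
  rw [H.L_eq (c := b ^ 2 - β₀ ^ 2 - β₁ ^ 2) hq (by rw [f3, f3, hu₁]) o3 o4 rfl]
  -- the pairing of `x` with `ψ`
  have p1 : B h (u₂ - u₁) z₁ = -(2 * A * h z₂) := by
    rw [H.B_sub_left, h3, hz, H.B_add_right, H.B_eq_zero_of_right hc₀, H.B_sub_right, h1, f1,
      H.B_self, H.B_J_self, hu₂]
    ring
  have p2 : B h (u₂ - u₁) (J z₁) = 2 * Bc * h z₂ := by
    rw [H.B_sub_left, h4, hz, map_add, map_sub, H.B_add_right,
      H.B_eq_zero_of_right (Q := J c₀) (by rw [H.inv]; exact hc₀), H.B_sub_right, h2, f2,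
      H.B_self, H.B_J_self, hu₂]
    ring
  have p3 : B h (u₂ - u₁) u₁ = B h u₂ u₁ - 2 * h u₁ := by
    rw [H.B_sub_left, H.B_self]
  have p4 : h (u₂ - u₁) = h u₂ + h u₁ - B h u₂ u₁ := by
    rw [sub_eq_add_neg, add_eq h, H.B_neg_right, H.neg]
    ring
  rw [H.B_add_right, H.B_gs, H.B_gs, f1, f2, f1, f2, p1, p2, p3, p4, f3, hu₁, hH, hu₂, hq]
  ring

end QF

end Pool.Agent.H71.Ses
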