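import Pool.Agent.H71.Ses.B5
import Pool.Agent.H71.Ses.C2

set_option linter.style.haveILetI false
set_option linter.unusedSectionVars false
set_option linter.unusedVariables false

open scoped IntermediateField

namespace Pool.Agent.H71.Ses

/-- `(-2 + i) ^ n = A n + B n * i` -/
def AB : ℕ → ℤ × ℤ
  | 0 => (1, 0)
  | n + 1 => (-2 * (AB n).1 - (AB n).2, (AB n).1 - 2 * (AB n).2)

theorem AB_norm (n : ℕ) : (AB n).1 ^ 2 + (AB n).2 ^ 2 = 5 ^ n := by
  induction n with
  | zero => rfl
  | succ n ih =>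
    change (-2 * (AB n).1 - (AB n).2) ^ 2 + ((AB n).1 - 2 * (AB n).2) ^ 2 = _
    rw [pow_succ]
    linear_combination 5 * ih

variable {k : Type} [Field k] [IsAlgClosed k] [CharP k 5]
variable {F : Type} [Field F] [CharP F 5] [Algebra k F]

theorem null_add (hF : IsFF k F) {P Q : Pt F} (hP : hgt k P = 0) (hQ : hgt k Q = 0) :
    hgt k (P + Q) = 0 := by
  rw [(qf hF).h_add_null hQ, hP]

theorem null_zsmul (hF : IsFF k F) {P : Pt F} (hP : hgt k P = 0) (n : ℤ) :
    hgt k (n • P) = 0 := by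
  rw [(qf hF).h_zsmul, hP, mul_zero]

theorem Fr_one_null (hF : IsFF k F) (P : Pt F) :
    hgt k (Fr 1 P - (iota P - (P + P))) = 0 := by
  have H := qf (k := k) hF
  by_cases h0 : hgt k P = 0
  · rw [sub_eq_add_neg]
    apply null_add hF
    · rw [hgt_Fr, h0, mul_zero]
    · rw [hgt_neg, sub_eq_add_neg]
      apply null_add hF
      · rw [hgt_iota, h0]
      · rw [hgt_neg]
        exact null_add hF h0 h0
  · rcases P.cases with rfl | ⟨x, y, h, rfl⟩
    · exact absurd hgt_zero h0
    have hx : ∀ p : Polynomial k, p ≠ 0 → Polynomial.aeval x p ≠ 0 := by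
      intro p hp hp0
      apply h0
      obtain ⟨c, hc⟩ := exists_const (k := k) (z := x) (by
        rw [Transcendental, not_not]
        exact ⟨p, hp, hp0⟩)
      exact hgt_const (c := c) hc
    have hy : y ≠ 0 := by
      rintro rfl
      refine hx (Polynomial.X ^ 3 - Polynomial.C 2 * Polynomial.X) ?_ ?_
      · intro h0
        have := congrArg (fun p => Polynomial.coeff p 3) h0
        simp at this
      · simp only [map_sub, map_pow, map_mul, Polynomial.aeval_X, Polynomial.aeval_C]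
        rw [map_ofNat, ← h]
        simp
    have hx5 : x ^ 5 + x ≠ 0 := by
      have := hx (Polynomial.X ^ 5 + Polynomial.X) (by
        intro h0
        have := congrArg (fun p => Polynomial.coeff p 5) h0
        simp [Polynomial.coeff_X] at this)
      simpa only [map_add, map_pow, Polynomial.aeval_X] using this
    rw [Fr_one_eq h hy hx5, sub_self, hgt_zero]

theorem Fr_null (hF : IsFF k F) (n : ℕ) (P : Pt F) :
    hgt k (Fr n P - QF.gs iota (AB n).1 (AB n).2 P) = 0 := by
  have H := qf (k := k) hF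
  induction n with
  | zero =>
    have h1 : Fr 0 P = P := by
      rcases P.cases with rfl | ⟨x, y, h, rfl⟩
      · simp
      · rw [Fr_mk 0 h (by simpa using h), mk_inj]
        simp
    have h2 : QF.gs iota (AB 0).1 (AB 0).2 P = P := by
      simp [QF.gs, AB]
    rw [h1, h2, sub_self, hgt_zero]
  | succ n ih =>
    set A := (AB n).1
    set B := (AB n).2
    have e1 : AB (n + 1) = (-2 * A - B, A - 2 * B) := rfl
    have e2 : Fr (n + 1) P = Fr n (Fr 1 P) := by
      rcases P.cases with rfl | ⟨x, y, h, rfl⟩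
      · simp
      have e : ∀ m : ℕ, (y ^ 5 ^ m) ^ 2 = (x ^ 5 ^ m) ^ 3 - 2 * (x ^ 5 ^ m) := by
        intro m
        have := congrArg (iterateFrobenius F 5 m) h
        rw [map_pow, map_sub, map_pow, map_mul, map_ofNat, iterateFrobenius_def,
          iterateFrobenius_def] at this
        exact this
      have pp : ∀ w : F, (w ^ 5 ^ 1) ^ 5 ^ n = w ^ 5 ^ (n + 1) := fun w => by
        rw [← pow_mul, ← pow_add, add_comm]
      rw [Fr_mk _ h (e _), Fr_mk _ h (e _), Fr_mk _ (e 1) (by rw [pp, pp]; exact e _), mk_inj]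
      exact ⟨(pp x).symm, (pp y).symm⟩
    rw [e1]
    -- decompose
    set N := Fr 1 P - (iota P - (P + P)) with hN
    have hNn : hgt k N = 0 := Fr_one_null hF P
    have e3 : Fr 1 P = (iota P - (P + P)) + N := by rw [hN]; abel
    set M := Fr n P - QF.gs iota A B P with hM
    have e4 : Fr n P = QF.gs iota A B P + M := by rw [hM]; abel
    have e5 : Fr n (iota P) = iota (Fr n P) := map_iota _ P
    have e6 : Fr (n + 1) P - QF.gs iota (-2 * A - B) (A - 2 * B) P =
        iota M + (-2 : ℤ) • M + Fr n N := by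
      rw [e2, e3, map_add, map_sub, e5, map_add, e4]
      simp only [QF.gs, map_add, map_zsmul, iota_iota]
      module
    rw [e6]
    refine null_add hF (null_add hF ?_ (null_zsmul hF ih _)) ?_
    · rw [hgt_iota]; exact ih
    · rw [hgt_Fr, hNn, mul_zero]

/-! ### the quartic `a⁴ + b⁴ = 2` -/

theorem u_eqn {a b : F} (h : a ^ 4 + b ^ 4 = 2) :
    (a * (b ^ 2 + 2 * a ^ 2)) ^ 2 = (-(b ^ 2 + 2 * a ^ 2)) ^ 3 - 2 * (-(b ^ 2 + 2 * a ^ 2)) := by
  have h5 : (5 : F) = 0 := five_eq_zero
  grind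

theorem z_eqn {a b : F} (h : a ^ 4 + b ^ 4 = 2) :
    (b * (a ^ 2 + 2 * b ^ 2)) ^ 2 = (-(a ^ 2 + 2 * b ^ 2)) ^ 3 - 2 * (-(a ^ 2 + 2 * b ^ 2)) := by
  have h5 : (5 : F) = 0 := five_eq_zero
  grind

/-- the first map from the quartic to `E` -/
noncomputable def uPt (a b : F) (h : a ^ 4 + b ^ 4 = 2) : Pt F :=
  mk (-(b ^ 2 + 2 * a ^ 2)) (a * (b ^ 2 + 2 * a ^ 2)) (u_eqn h)

/-- the second map from the quartic to `E` -/
noncomputable def zPt (a b : F) (h : a ^ 4 + b ^ 4 = 2) : Pt F :=
  mk (-(a ^ 2 + 2 * b ^ 2)) (b * (a ^ 2 + 2 * b ^ 2)) (z_eqn h)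

end Pool.Agent.H71.Ses
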