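import Mathlib

/-!
# Places of function fields of curves

`k` is a field and `K` a field extension.  If `K` is the function field of an integral projective
curve `G` over an algebraically closed field `k`, the closed points of the normalization of `G` are
the normalised discrete valuations of `K` which are trivial on `k`.
-/

open scoped WithZero

namespace Pool.Agent.H71.Ses

/-- A place of `K / k`: a normalised discrete valuation of `K` which is trivial on `k`.
(`ℤᵐ⁰` is `ℤ ∪ {0}`, written multiplicatively.) -/
@[ext]
structure Place (k K : Type) [Field k] [Field K] [Algebra k K] where
  /-- the valuation -/
  val : Valuation K ℤᵐ⁰
  surj : Function.Surjective val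
  const : ∀ c : k, c ≠ 0 → val (algebraMap k K c) = 1

variable {k K : Type} [Field k] [Field K] [Algebra k K]

/-- The order of vanishing of `z` at the place `v` (and `0` if `z = 0`). -/
noncomputable def Place.ord (v : Place k K) (z : K) : ℤ := -WithZero.log (v.val z)

/-- `K` is a function field of one variable over `k`: a finitely generated
field extension of transcendence degree one. -/
structure IsFF (k K : Type) [Field k] [Field K] [Algebra k K] : Prop where
  fg : (⊤ : IntermediateField k K).FG
  trdeg : Algebra.trdeg k K = 1

end Pool.Agent.H71.Ses
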