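import Pool.Agent.H71.Ses.B6

set_option linter.style.haveILetI false
set_option linter.unusedSectionVars false
set_option linter.unusedVariables false

open scoped IntermediateField

namespace Pool.Agent.H71.Ses

section Val

variable {F : Type} [Field F] {Γ : Type} [LinearOrderedCommGroupWithZero Γ] {v : Valuation F Γ}

theorem val_b_le (hv : Triv v) {a b : F} (h : a ^ 4 + b ^ 4 = 2) (ha : v a ≤ 1) : v b ≤ 1 := by
  have h1 : v b ^ 4 ≤ 1 := by
    rw [← map_pow]
    have : b ^ 4 = 2 - a ^ 4 := by linear_combination h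
    rw [this]
    exact v.map_sub_le hv.two.le (by rw [map_pow]; exact pow_le_one' ha 4)
  exact (pow_le_one_iff (by norm_num)).1 h1

/-- `max |a + c b| 1 = max |a| 1` -/
theorem MM_add (hv : Triv v) {a b c : F} (h : a ^ 4 + b ^ 4 = 2) (hc : c ^ 4 = 1) :
    MM v (a + c * b) = MM v a := by
  have hvc : v c = 1 := by
    have : v c ^ 4 = 1 := by rw [← map_pow, hc, map_one]
    exact (pow_eq_one_iff.1 this).resolve_right (by norm_num)
  rcases le_or_gt (v a) 1 with ha | ha
  · have hb := val_b_le hv h ha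
    rw [MM_of_le v ha, MM_of_le v]
    apply v.map_add_le ha
    rw [map_mul, hvc, one_mul]
    exact hb
  · have hb : v b = v a := by
      have h1 : v b ^ 4 = v a ^ 4 := by
        rw [← map_pow, ← map_pow]
        have : b ^ 4 = 2 - a ^ 4 := by linear_combination h
        rw [this]
        have h2 : v 2 < v (a ^ 4) := by
          rw [hv.two, map_pow]
          exact one_lt_pow' ha (by norm_num)
        exact v.map_sub_eq_of_lt_right h2
      exact pow_left_injective (n := 4) (by norm_num) h1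
    have hle : v (a + c * b) ≤ v a := by
      apply v.map_add_le le_rfl
      rw [map_mul, hvc, one_mul, hb]
    rcases hle.lt_or_eq with hlt | heq
    · exfalso
      set w := a + c * b with hw
      have e1 : b ^ 4 = (w - a) ^ 4 := by
        have : w - a = c * b := by rw [hw]; ring
        rw [this, mul_pow, hc, one_mul]
      have e2 : 2 * a ^ 4 = 2 - w * (w ^ 3 - 4 * w ^ 2 * a + 6 * w * a ^ 2 - 4 * a ^ 3) := by
        linear_combination h - e1
      have h4 : v 4 = 1 := by
        have : (4 : F) = 2 * 2 := by norm_num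
        rw [this, map_mul, hv.two, one_mul]
      have h6 : v 6 = 1 := by
        have : (6 : F) = 1 := by linear_combination hv.five
        rw [this, map_one]
      have e3 : v (w ^ 3 - 4 * w ^ 2 * a + 6 * w * a ^ 2 - 4 * a ^ 3) ≤ v a ^ 3 := by
        refine v.map_sub_le (v.map_add_le (v.map_sub_le ?_ ?_) ?_) ?_
        · rw [map_pow]; exact pow_le_pow_left' hle 3
        · rw [map_mul, map_mul, map_pow, h4, one_mul, pow_succ (v a)]
          exact mul_le_mul' (pow_le_pow_left' hle 2) le_rfl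
        · rw [map_mul, map_mul, map_pow, h6, one_mul]
          calc v w * v a ^ 2 ≤ v a * v a ^ 2 := mul_le_mul' hle le_rfl
            _ = v a ^ 3 := by rw [pow_succ' (v a) 2]
        · rw [map_mul, map_pow, h4, one_mul]
      have ha0 : v a ≠ 0 := (zero_lt_one.trans ha).ne'
      have e4 : v (w * (w ^ 3 - 4 * w ^ 2 * a + 6 * w * a ^ 2 - 4 * a ^ 3)) < v (a ^ 4) := by
        rw [map_mul, map_pow, pow_succ' (v a) 3]
        calc v w * v (w ^ 3 - 4 * w ^ 2 * a + 6 * w * a ^ 2 - 4 * a ^ 3)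
            ≤ v w * v a ^ 3 := mul_le_mul' le_rfl e3
          _ < v a * v a ^ 3 := by
            exact mul_lt_mul_of_pos_right hlt (pow_pos (zero_lt_iff.2 ha0) 3)
      have e5 : v (2 * a ^ 4) < v (a ^ 4) := by
        rw [e2]
        apply v.map_sub_lt _ e4
        rw [hv.two, map_pow]
        exact one_lt_pow' ha (by norm_num)
      rw [map_mul, hv.two, one_mul] at e5
      exact lt_irrefl _ e5
    · rw [MM_of_lt v ha, MM_of_lt v (by rw [heq]; exact ha), heq]

/-- `|a|` in terms of the coordinate `s` -/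
theorem MM_a_sq (hv : Triv v) {a s : F} (hs : s ≠ 0) (h : a ^ 2 = 2 * s⁻¹ - s) :
    MM v a ^ 2 = MM v s * MM v s⁻¹ := by
  have hs0 : v s ≠ 0 := (Valuation.ne_zero_iff _).2 hs
  have h1 : MM v a ^ 2 = max (v (a ^ 2)) 1 := by
    rcases le_or_gt (v a) 1 with ha | ha
    · rw [MM_of_le v ha, one_pow, max_eq_right]
      rw [map_pow]; exact pow_le_one' ha 2
    · rw [MM_of_lt v ha, map_pow, max_eq_left]
      exact one_le_pow_of_one_le' ha.le 2
  rw [h1, h]
  rcases lt_trichotomy (v s) 1 with hlt | heq | hgt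
  · have h2 : 1 < v s⁻¹ := by
      rw [map_inv₀]
      exact (one_lt_inv₀ (zero_lt_iff.2 hs0)).2 hlt
    rw [MM_of_le v hlt.le, MM_of_lt v h2, one_mul]
    have h3 : v (2 * s⁻¹) = v s⁻¹ := by rw [map_mul, hv.two, one_mul]
    rw [v.map_sub_eq_of_lt_left (by rw [h3]; exact hlt.trans h2), h3]
    exact max_eq_left h2.le
  · have h2 : v s⁻¹ = 1 := by rw [map_inv₀, heq, inv_one]
    rw [MM_of_le v heq.le, MM_of_le v h2.le, one_mul, max_eq_right]
    apply v.map_sub_le
    · rw [map_mul, hv.two, one_mul, h2]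
    · exact heq.le
  · have h2 : v s⁻¹ < 1 := by
      rw [map_inv₀]
      exact inv_lt_one_of_one_lt₀ hgt
    rw [MM_of_lt v hgt, MM_of_le v h2.le, mul_one]
    have h3 : v (2 * s⁻¹) = v s⁻¹ := by rw [map_mul, hv.two, one_mul]
    rw [v.map_sub_eq_of_lt_right (by rw [h3]; exact h2.trans hgt)]
    exact max_eq_left hgt.le

end Val

variable {k : Type} [Field k] [IsAlgClosed k] [CharP k 5]
variable {F : Type} [Field F] [CharP F 5] [Algebra k F]

theorem st_eq {a b : F} (h : a ^ 4 + b ^ 4 = 2) :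
    (b ^ 2 + 2 * a ^ 2) * (a ^ 2 + 2 * b ^ 2) = -1 := by
  have h5 : (5 : F) = 0 := five_eq_zero
  linear_combination 2 * h + (a ^ 2 * b ^ 2 + 1) * h5

theorem s_ne {a b : F} (h : a ^ 4 + b ^ 4 = 2) : b ^ 2 + 2 * a ^ 2 ≠ 0 := by
  intro h0
  have := st_eq h
  rw [h0, zero_mul] at this
  exact one_ne_zero (α := F) (by linear_combination this)

theorem t_eq {a b : F} (h : a ^ 4 + b ^ 4 = 2) :
    a ^ 2 + 2 * b ^ 2 = -(b ^ 2 + 2 * a ^ 2)⁻¹ := by
  have hs := s_ne h
  have h1 : a ^ 2 + 2 * b ^ 2 = -1 / (b ^ 2 + 2 * a ^ 2) := by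
    rw [eq_div_iff hs]
    linear_combination st_eq h
  rw [h1, neg_div, one_div]

theorem a_sq_eq {a b : F} (h : a ^ 4 + b ^ 4 = 2) :
    a ^ 2 = 2 * (b ^ 2 + 2 * a ^ 2)⁻¹ - (b ^ 2 + 2 * a ^ 2) := by
  have h5 : (5 : F) = 0 := five_eq_zero
  have h1 := t_eq h
  linear_combination -2 * h1 + (a ^ 2 + b ^ 2) * h5

theorem ord_neg' (v : Place k F) (x : F) : v.ord (-x) = v.ord x := v.ord_neg x

theorem degP_neg (x : F) : degP k (-x) = degP k x := by
  unfold degP
  simp only [Place.ord_neg]

theorem degP_inv (hF : IsFF k F) (x : F) : degP k x⁻¹ = degP k x := by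
  have h := degZ_inv (k := k) x⁻¹
  rw [inv_inv, degZ_eq_degP hF] at h
  exact h.symm

theorem degP_congr_MM {x y : F} (h : ∀ v : Place k F, MM v.val x = MM v.val y) :
    degP k x = degP k y := by
  unfold degP
  apply finsum_congr
  intro v
  rw [← log_MM, ← log_MM, h]

theorem hgt_u_add_z (hF : IsFF k F) {a b : F} (h : a ^ 4 + b ^ 4 = 2) :
    hgt k (uPt a b h) = degP k a ∧ hgt k (zPt a b h) = degP k a := by
  have hs := s_ne h
  have e1 : hgt k (uPt a b h) = degP k (b ^ 2 + 2 * a ^ 2) := by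
    rw [hgt, uPt, x_mk, degP_neg]
  have e2 : hgt k (zPt a b h) = degP k (b ^ 2 + 2 * a ^ 2) := by
    rw [hgt, zPt, x_mk, t_eq h, neg_neg, degP_inv hF]
  have e3 : degP k (b ^ 2 + 2 * a ^ 2) + degP k (b ^ 2 + 2 * a ^ 2)⁻¹ = 2 * degP k a := by
    unfold degP
    rw [← finsum_add_distrib (finsupp_max hF _) (finsupp_max hF _), mul_finsum]
    apply finsum_congr
    intro v
    have hv : Triv v.val := Triv.of_sq five_eq_zero
    have h1 := congrArg WithZero.log (MM_a_sq hv hs (a_sq_eq h))
    rw [WithZero.log_pow, WithZero.log_mul (MM_ne_zero _ _) (MM_ne_zero _ _), log_MM, log_MM,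
      log_MM] at h1
    simp only [nsmul_eq_mul, Nat.cast_ofNat] at h1
    linarith
  rw [degP_inv hF] at e3
  rw [e1, e2]
  constructor <;> linarith

theorem const_of_pow {x : F} {n : ℕ} (hn : 0 < n) {c : k} (h : x ^ n = algebraMap k F c) :
    ∃ d : k, x = algebraMap k F d := by
  apply exists_const
  rw [Transcendental, not_not]
  refine ⟨Polynomial.X ^ n - Polynomial.C c, (Polynomial.monic_X_pow_sub_C c hn.ne').ne_zero, ?_⟩
  simp [h]

theorem b_const {a b : F} (h : a ^ 4 + b ^ 4 = 2) {c : k} (ha : a = algebraMap k F c) :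
    ∃ d : k, b = algebraMap k F d := by
  apply const_of_pow (k := k) (n := 4) (by norm_num) (c := 2 - c ^ 4)
  rw [map_sub, map_pow, map_ofNat, ← ha]
  linear_combination h

theorem u_z_orth (hF : IsFF k F) {a b : F} (h : a ^ 4 + b ^ 4 = 2) :
    QF.B (hgt k) (uPt a b h) (zPt a b h) = 0 ∧ QF.B (hgt k) (uPt a b h) (iota (zPt a b h)) = 0 := by
  have H := qf (k := k) hF
  have h5 : (5 : F) = 0 := five_eq_zero
  obtain ⟨hu, hz⟩ := hgt_u_add_z hF h
  by_cases ha : degP k a = 0
  · exact ⟨H.B_eq_zero_of_left (by rw [hu, ha]) _, H.B_eq_zero_of_left (by rw [hu, ha]) _⟩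
  have hst := st_eq h
  have hlin : ∀ c : F, c ^ 4 = 1 → degP k (a + c * b) = degP k a := by
    intro c hc
    apply degP_congr_MM
    intro v
    exact MM_add (Triv.of_sq five_eq_zero) h hc
  have key : ∀ (c : F) (X : F), c ^ 4 = 1 → X * (a + c * b) ^ 2 = -1 → degP k X = 2 * degP k a := by
    intro c X hc hX
    have h0 : a + c * b ≠ 0 := by
      intro h0
      rw [h0] at hX
      exact one_ne_zero (α := F) (by linear_combination hX)
    have hX' : X = -((a + c * b) ^ 2)⁻¹ := by
      field_simp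
      linear_combination hX
    rw [hX', degP_neg, degP_inv hF, degP_pow _ _ h0, hlin c hc]
    norm_num
  have hab : a ^ 2 ≠ b ^ 2 := by
    intro hab
    apply ha
    rw [degP_eq_zero_iff hF]
    apply const_of_pow (k := k) (n := 4) (by norm_num) (c := 1)
    rw [map_one]
    have : (2 : F) * (a ^ 4 - 1) = 0 := by linear_combination h + (a ^ 2 + b ^ 2) * hab
    have := (mul_eq_zero.1 this).resolve_left two_ne
    linear_combination this
  have hab' : a ^ 2 + b ^ 2 ≠ 0 := by
    intro hab'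
    apply ha
    rw [degP_eq_zero_iff hF]
    apply const_of_pow (k := k) (n := 4) (by norm_num) (c := 1)
    rw [map_one]
    have : (2 : F) * (a ^ 4 - 1) = 0 := by linear_combination h + (a ^ 2 - b ^ 2) * hab'
    have := (mul_eq_zero.1 this).resolve_left two_ne
    linear_combination this
  constructor
  · have hx : -(b ^ 2 + 2 * a ^ 2) ≠ -(a ^ 2 + 2 * b ^ 2) := by
      intro h0
      apply hab
      linear_combination -h0
    have e1 := (x_add (u_eqn h) (z_eqn h) hx).2
    have e2 : (mk _ _ (u_eqn h) + mk _ _ (z_eqn h)).x * (a + 1 * b) ^ 2 = -1 := by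
      have hne : (a - b) ^ 2 ≠ 0 := by
        apply pow_ne_zero
        intro h0
        apply hab
        linear_combination (a + b) * h0
      apply mul_right_cancel₀ hne
      linear_combination e1 + (3 * 5 * 0) * h5 - 2 * a * b * hst +
        (-1 * (-(b ^ 2 + 2 * a ^ 2) + -(a ^ 2 + 2 * b ^ 2)) * (-1)) * hst * 0 +
        (-(b ^ 2 + 2 * a ^ 2) + -(a ^ 2 + 2 * b ^ 2)) * hst + (2 * a ^ 2 + 2 * b ^ 2) * h5
    have e3 : hgt k (uPt a b h + zPt a b h) = 2 * degP k a := key 1 _ (one_pow 4) e2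
    rw [QF.B, e3, hu, hz]
    ring
  · have hx : -(b ^ 2 + 2 * a ^ 2) ≠ -(-(a ^ 2 + 2 * b ^ 2)) := by
      intro h0
      apply hab'
      linear_combination 3 * h0 + 2 * (a ^ 2 + b ^ 2) * h5
    have e1 := (x_add (u_eqn h) (iota_eqn (z_eqn h)) hx).2
    have e2 : (mk _ _ (u_eqn h) + mk _ _ (iota_eqn (z_eqn h))).x * (a + 3 * b) ^ 2 = -1 := by
      have hne : (a + 2 * b) ^ 2 ≠ 0 := by
        apply pow_ne_zero
        intro h0
        apply hab'
        linear_combination (a - 2 * b) * h0 + b ^ 2 * h5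
      apply mul_right_cancel₀ hne
      grind
    have e3 : hgt k (uPt a b h + iota (zPt a b h)) = 2 * degP k a := by
      rw [zPt, iota_mk]
      exact key 3 _ (by linear_combination 16 * h5) e2
    rw [QF.B, e3, hu, hgt_iota, hz]
    ring

end Pool.Agent.H71.Ses
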