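import Pool.Agent.H71.Ses.D0

/-!
# Projective varieties, curves and points on them, line bundles and Seshadri constants

`k` is an algebraically closed field.  A projective variety `X` over `k` is given by its function
field `K` and its generic point (Zariski's description): `X ⊆ ℙ^N` is the closure of the point with
homogeneous coordinates `x i ∈ K`.  The open subset `x i ≠ 0` of `X` is the spectrum of the ring
`chart i = k[x j / x i]`, and the points of `X` are the prime ideals of these rings.
-/

namespace Pool.Agent.H71.Ses

section Defs

variable {k K : Type} [Field k] [Field K] [Algebra k K]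

/-- The localization of the subring `A` of the field `K` at the prime ideal `𝔭`, inside `K`. -/
def locRing (A : Subalgebra k K) (𝔭 : Ideal A) (h : 𝔭.IsPrime) : Subalgebra k K where
  carrier := {z | ∃ a s : A, s ∉ 𝔭 ∧ z * s = a}
  mul_mem' := by
    rintro z w ⟨a, s, hs, h1⟩ ⟨b, t, ht, h2⟩
    refine ⟨a * b, s * t, fun h3 => (h.mem_or_mem h3).elim hs ht, ?_⟩
    push_cast
    rw [← h1, ← h2]
    ring
  add_mem' := by
    rintro z w ⟨a, s, hs, h1⟩ ⟨b, t, ht, h2⟩
    refine ⟨a * t + b * s, s * t, fun h3 => (h.mem_or_mem h3).elim hs ht, ?_⟩
    push_cast
    rw [← h1, ← h2]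
    ring
  algebraMap_mem' := by
    intro c
    refine ⟨algebraMap k A c, 1, fun h3 => h.ne_top ((Ideal.eq_top_iff_one 𝔭).2 h3), ?_⟩
    simp

/-- A projective variety over `k` with function field `K`, given by the homogeneous coordinates
`x i ≠ 0` of its generic point (so `X` is not contained in a coordinate hyperplane); the quotients
`x i / x j` generate `K`. -/
structure ProjVar (k K : Type) [Field k] [Field K] [Algebra k K] where
  /-- the index set of the homogeneous coordinates -/
  I : Type
  finite : Finite I
  /-- the homogeneous coordinates of the generic point -/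
  x : I → K
  x_ne : ∀ i, x i ≠ 0
  gen : IntermediateField.adjoin k {z | ∃ i j, z = x i / x j} = ⊤

namespace ProjVar

variable (X : ProjVar k K)

/-- The coordinate ring of the affine open subset `x i ≠ 0`. -/
def chart (i : X.I) : Subalgebra k K := Algebra.adjoin k {z | ∃ j, z = X.x j / X.x i}

/-- A (not necessarily closed) point of `X`, given by a prime ideal of a chart. -/
structure Point where
  /-- the index of the chart -/
  i : X.I
  /-- the prime ideal of the chart -/
  p : Ideal (X.chart i)
  prime : p.IsPrime

variable {X}

/-- The local ring of `X` at the point `P`. -/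
def Point.ring (P : X.Point) : Subalgebra k K := locRing (X.chart P.i) P.p P.prime

instance (P : X.Point) : IsLocalRing P.ring := by
  refine IsLocalRing.of_nonunits_add ?_
  have key : ∀ z : P.ring, z ∈ nonunits P.ring ↔
      ∃ a s : X.chart P.i, a ∈ P.p ∧ s ∉ P.p ∧ (z : K) * s = a := by
    rintro ⟨z, a, s, hs, h1⟩
    have hs0 : (s : K) ≠ 0 := by
      intro h0
      apply hs
      rw [show s = 0 from Subtype.ext h0]
      exact zero_mem _
    constructor
    · intro hz
      refine ⟨a, s, ?_, hs, h1⟩
      by_contra ha
      apply hz
      have ha0 : (a : K) ≠ 0 := by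
        intro h0
        apply ha
        rw [show a = 0 from Subtype.ext h0]
        exact zero_mem _
      refine IsUnit.of_mul_eq_one ⟨(s : K) / a, s, a, ha, div_mul_cancel₀ _ ha0⟩ ?_
      apply Subtype.ext
      change z * ((s : K) / a) = 1
      rw [← h1]
      have hz0 : z ≠ 0 := by
        rintro rfl
        rw [zero_mul] at h1
        exact ha0 h1.symm
      field_simp
    · rintro ⟨b, t, hb, ht, h2⟩ hu
      obtain ⟨⟨w, c, r, hr, h3⟩, hw⟩ := hu.exists_right_inv
      have hw' : z * w = 1 := congrArg Subtype.val hw
      have h4 : (b * c : X.chart P.i) = t * r := by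
        apply Subtype.ext
        push_cast
        rw [← h2, ← h3]
        linear_combination (t : K) * r * hw'
      have h5 : (t * r : X.chart P.i) ∈ P.p := by
        rw [← h4]
        exact P.p.mul_mem_right _ hb
      exact (P.prime.mem_or_mem h5).elim ht hr
  intro z w hz hw
  rw [key] at hz hw ⊢
  obtain ⟨a, s, ha, hs, h1⟩ := hz
  obtain ⟨b, t, hb, ht, h2⟩ := hw
  refine ⟨a * t + b * s, s * t, add_mem (P.p.mul_mem_right _ ha) (P.p.mul_mem_right _ hb),
    fun h3 => (P.prime.mem_or_mem h3).elim hs ht, ?_⟩
  push_cast
  rw [← h1, ← h2]
  ring

/-- The point `P` is closed. -/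
def Point.IsClosed (P : X.Point) : Prop := P.p.IsMaximal

/-- The residue field of `X` at the point `P`. -/
abbrev Point.κ (P : X.Point) : Type := IsLocalRing.ResidueField P.ring

/-- `G` is the generic point of an irreducible curve on `X` (we also write `G` for the curve):
its residue field, the function field of the curve, has transcendence degree one over `k`. -/
def Point.IsCurve (G : X.Point) : Prop := Algebra.trdeg k G.κ = 1

open Classical in
/-- The residue class at `G` of an element of `K` which is regular at `G` (and `0` otherwise): for
the generic point `G` of a curve, the restriction of a rational function to the curve. -/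
noncomputable def Point.res (G : X.Point) (z : K) : G.κ :=
  if h : z ∈ G.ring then IsLocalRing.residue G.ring ⟨z, h⟩ else 0

/-- Let `G` be the generic point of a curve and `v` a place of its function field, i.e. a point of
the normalization of the curve.  The closed point `P` of `X` is the image of `v`: it lies on
the curve, and the local ring of `v` dominates the local ring of the curve at `P`. -/
def IsCenter (P G : X.Point) (v : Place k G.κ) : Prop :=
  P.IsClosed ∧ P.ring ≤ G.ring ∧ (∀ z ∈ P.ring, v.val (G.res z) ≤ 1) ∧
    ∀ z ∈ P.ring, z⁻¹ ∉ P.ring → v.val (G.res z) < 1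

variable (X)

/-- A line bundle on `X`, as an invertible sheaf of fractional ideals (a Cartier divisor): its stalk
at the point `P` is `gen P • 𝒪_P ⊆ K`.  Every point `P` has an open neighbourhood, the set `s ≠ 0`
in the chart of `P`, on which the sheaf is generated by `gen P`. -/
structure LineBundle where
  /-- a generator of the stalk at `P` -/
  gen : X.Point → K
  gen_ne : ∀ P, gen P ≠ 0
  loc : ∀ P : X.Point, ∃ s ∈ X.chart P.i, s ≠ 0 ∧ s⁻¹ ∈ P.ring ∧
    ∀ Q : X.Point, X.chart P.i ≤ Q.ring → s⁻¹ ∈ Q.ring →
      gen Q / gen P ∈ Q.ring ∧ gen P / gen Q ∈ Q.ring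

variable {X}

open Classical in
/-- The contribution of the place `v` to the degree of the line bundle `L` on the curve `G`: the
restriction of `L` to the normalization of `G` is the fractional ideal with generator
`gen P / gen G` at `v`, where `P` is the image of `v` in `X`. -/
noncomputable def LineBundle.localDegree (L : X.LineBundle) (G : X.Point) (v : Place k G.κ) : ℤ :=
  if h : ∃ P : X.Point, IsCenter P G v then -v.ord (G.res (L.gen h.choose / L.gen G)) else 0

/-- The intersection number `L · G`: the degree of the restriction of the line bundle `L` to (the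
normalization of) the curve `G`. -/
noncomputable def LineBundle.degree (L : X.LineBundle) (G : X.Point) : ℤ :=
  ∑ᶠ v : Place k G.κ, L.localDegree G v

/-- `P` lies on the curve `G`. -/
def Point.IsOn (P G : X.Point) : Prop := P.ring ≤ G.ring

/-- The ideal of the curve `G` in the local ring of `X` at the point `P` of the curve. -/
def idealAt (P G : X.Point) (h : P.IsOn G) : Ideal P.ring :=
  (IsLocalRing.maximalIdeal G.ring).comap (Subalgebra.inclusion h)

/-- The multiplicity of the curve `G` at the point `P` of the smooth surface `X`: the largest `m` such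
that the ideal (the local equation) of `G` is contained in the `m`-th power of the maximal ideal. -/
noncomputable def mult (P G : X.Point) (h : P.IsOn G) : ℕ∞ :=
  ⨆ (m : ℕ) (_ : idealAt P G h ≤ IsLocalRing.maximalIdeal P.ring ^ m), (m : ℕ∞)

variable (X)

/-- The line bundle `𝒪(1)` on `X ⊆ ℙ^N`: the sheaf of fractional ideals generated by the `x i`. -/
def hyperplane : X.LineBundle where
  gen P := X.x P.i
  gen_ne P := X.x_ne _
  loc := by
    intro P
    refine ⟨1, one_mem _, one_ne_zero, by rw [inv_one]; exact one_mem _, fun Q hQ _ => ?_⟩
    have h1 : ∀ (R : X.Point) (z : K), z ∈ X.chart R.i → z ∈ R.ring := by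
      intro R z hz
      refine ⟨⟨z, hz⟩, 1, fun h => R.prime.ne_top ((Ideal.eq_top_iff_one _).2 h), ?_⟩
      simp
    exact ⟨hQ (Algebra.subset_adjoin ⟨Q.i, rfl⟩), h1 Q _ (Algebra.subset_adjoin ⟨P.i, rfl⟩)⟩

variable {X}

/-- The line bundle `L` on `X` is ample.  (Kleiman's criterion: there is `δ > 0` such that
`L · G ≥ δ (𝒪(1) · G)` for all irreducible curves `G`.) -/
def LineBundle.IsAmple (L : X.LineBundle) : Prop :=
  ∃ δ : ℝ, 0 < δ ∧ ∀ G : X.Point, G.IsCurve → δ * (X.hyperplane.degree G : ℝ) ≤ L.degree G

/-- The Seshadri constant `ε(L, P) = inf (L · G) / mult_P G` of the line bundle `L` at the point `P`,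
the infimum over all irreducible curves `G` through `P`. -/
noncomputable def LineBundle.seshadri (L : X.LineBundle) (P : X.Point) : ENNReal :=
  ⨅ (G : X.Point) (_ : G.IsCurve) (h : P.IsOn G),
    ENNReal.ofReal (L.degree G) / ((mult P G h : ℕ∞) : ENNReal)

variable (X)

/-- `ε(X, P)`, the infimum of the `ε(L, P)` over all ample line bundles `L`. -/
noncomputable def seshadriAt (P : X.Point) : ENNReal :=
  ⨅ (L : X.LineBundle) (_ : L.IsAmple), L.seshadri P

/-- The global Seshadri constant `ε(X)`: the infimum of the `ε(L) = inf ε(L, P)` over all ample line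
bundles `L`, where `P` runs through the closed points of `X`. -/
noncomputable def globalSeshadri : ENNReal :=
  ⨅ (L : X.LineBundle) (_ : L.IsAmple) (P : X.Point) (_ : P.IsClosed), L.seshadri P

/-- `X` is a smooth surface (over the algebraically closed field `k`): its function field has
transcendence degree two, and the local rings at the closed points are regular. -/
structure IsSmoothSurface : Prop where
  trdeg : Algebra.trdeg k K = 2
  regular : ∀ P : X.Point, P.IsClosed → IsRegularLocalRing P.ring

end ProjVar

end Defs

end Pool.Agent.H71.Ses
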