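import Pool.Agent.H71.Ses.B4

set_option linter.style.haveILetI false
set_option linter.unusedSectionVars false
set_option linter.unusedVariables false

namespace Pool.Agent.H71.Ses

/-- a specialization of a field `K` to a field `κ`: `R z w` means that `z` is regular with value
`w` -/
structure Splz (K κ : Type) [Field K] [Field κ] where make ::
  /-- the relation -/
  R : K → κ → Prop
  add : ∀ {z w z' w'}, R z w → R z' w' → R (z + z') (w + w')
  mul : ∀ {z w z' w'}, R z w → R z' w' → R (z * z') (w * w')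
  neg : ∀ {z w}, R z w → R (-z) (-w)
  one : R 1 1
  inv : ∀ {z w}, R z w → w ≠ 0 → R z⁻¹ w⁻¹
  uniq : ∀ {z w w'}, R z w → R z w' → w = w'

namespace Splz

variable {K κ : Type} [Field K] [Field κ] (S : Splz K κ)

theorem zero : S.R 0 0 := by
  have := S.add S.one (S.neg S.one)
  simpa using this

theorem sub {z w z' w'} (h : S.R z w) (h' : S.R z' w') : S.R (z - z') (w - w') := by
  rw [sub_eq_add_neg, sub_eq_add_neg]
  exact S.add h (S.neg h')

theorem pow {z w} (h : S.R z w) (n : ℕ) : S.R (z ^ n) (w ^ n) := by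
  induction n with
  | zero => rw [pow_zero, pow_zero]; exact S.one
  | succ n ih => rw [pow_succ, pow_succ]; exact S.mul ih h

theorem nat (n : ℕ) : S.R n n := by
  induction n with
  | zero => simpa using S.zero
  | succ n ih => push_cast; exact S.add ih S.one

theorem ofNat (n : ℕ) [n.AtLeastTwo] : S.R (OfNat.ofNat n) (OfNat.ofNat n) := S.nat n

theorem two : S.R 2 2 := S.nat 2

theorem ne_zero {z w} (h : S.R z w) (hw : w ≠ 0) : z ≠ 0 := by
  rintro rfl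
  exact hw (S.uniq h S.zero)

theorem div {z w z' w'} (h : S.R z w) (h' : S.R z' w') (hw : w' ≠ 0) : S.R (z / z') (w / w') := by
  rw [div_eq_mul_inv, div_eq_mul_inv]
  exact S.mul h (S.inv h' hw)

theorem congr {z w z' w'} (h : S.R z w) (hz : z = z') (hw : w = w') : S.R z' w' := by
  rw [← hz, ← hw]; exact h

/-- the value of a quotient `z = n / d` -/
theorem of_mul {z n n' d d' : K} {N D : κ} (hz : z * d = n) (hn : S.R n N) (hd : S.R d D)
    (hD : D ≠ 0) : S.R z (N / D) := by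
  have hd0 := S.ne_zero hd hD
  exact S.congr (S.div hn hd hD) (by rw [← hz]; field_simp) rfl

variable [CharP K 5] [CharP κ 5]

/-- reduction of points of `E` -/
def Red (P : Pt K) (P' : Pt κ) : Prop :=
  (P = 0 ∧ P' = 0) ∨
  (∃ x y h x' y' h', P = mk x y h ∧ P' = mk x' y' h' ∧ S.R x x' ∧ S.R y y') ∨
  (P' = 0 ∧ ∃ x y h, P = mk x y h ∧ x ≠ 0 ∧ S.R x⁻¹ 0 ∧ S.R (y / x ^ 2) 0)

/-- reduction of points of `E`, only for the `x`-coordinates -/
def XRed (P : Pt K) (P' : Pt κ) : Prop :=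
  (P' ≠ 0 ∧ P ≠ 0 ∧ S.R P.x P'.x) ∨ (P' = 0 ∧ (P = 0 ∨ (P.x ≠ 0 ∧ S.R P.x⁻¹ 0)))

variable {S}

theorem Red.xRed {P : Pt K} {P' : Pt κ} (h : S.Red P P') : S.XRed P P' := by
  rcases h with ⟨rfl, rfl⟩ | ⟨x, y, h, x', y', h', rfl, rfl, hx, hy⟩ | ⟨rfl, x, y, h, rfl, h0, hx, hy⟩
  · exact Or.inr ⟨rfl, Or.inl rfl⟩
  · exact Or.inl ⟨mk_ne_zero _ _ _, mk_ne_zero _ _ _, hx⟩
  · exact Or.inr ⟨rfl, Or.inr ⟨h0, hx⟩⟩

/-- a quotient with denominator specializing to zero and numerator to a unit -/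
theorem inf_of_mul {z n d : K} {N : κ} (hz : z * d = n) (hn : S.R n N) (hd : S.R d 0)
    (hN : N ≠ 0) : z ≠ 0 ∧ S.R z⁻¹ 0 := by
  have hn0 := S.ne_zero hn hN
  have hz0 : z ≠ 0 := by
    rintro rfl
    rw [zero_mul] at hz
    exact hn0 hz.symm
  have hd0 : d ≠ 0 := by
    rintro rfl
    rw [mul_zero] at hz
    exact hn0 hz.symm
  refine ⟨hz0, S.congr (S.div hd hn hN) ?_ (zero_div _)⟩
  rw [← hz]
  field_simp

theorem fin_of_mul {z n d : K} {N D : κ} (hz : z * d = n) (hn : S.R n N) (hd : S.R d D)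
    (hD : D ≠ 0) {w : κ} (hw : w * D = N) : S.R z w := by
  have hd0 := S.ne_zero hd hD
  refine S.congr (S.div hn hd hD) ?_ ?_
  · rw [← hz]; field_simp
  · rw [← hw]; field_simp

theorem red_add_fin {x₁ y₁ x₂ y₂ : K} {x₁' y₁' x₂' y₂' : κ}
    (h₁ : y₁ ^ 2 = x₁ ^ 3 - 2 * x₁) (h₂ : y₂ ^ 2 = x₂ ^ 3 - 2 * x₂)
    (h₁' : y₁' ^ 2 = x₁' ^ 3 - 2 * x₁') (h₂' : y₂' ^ 2 = x₂' ^ 3 - 2 * x₂')
    (hx₁ : S.R x₁ x₁') (hy₁ : S.R y₁ y₁') (hx₂ : S.R x₂ x₂') (hy₂ : S.R y₂ y₂') :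
    S.XRed (mk x₁ y₁ h₁ + mk x₂ y₂ h₂) (mk x₁' y₁' h₁' + mk x₂' y₂' h₂') := by
  have h2κ : (2 : κ) ≠ 0 := two_ne
  have h4κ : (4 : κ) ≠ 0 := by
    have : (4 : κ) = 2 * 2 := by norm_num
    rw [this]; exact mul_ne_zero h2κ h2κ
  by_cases hx : x₁ = x₂
  · subst hx
    have hxx : x₁' = x₂' := S.uniq hx₁ hx₂
    subst hxx
    have h3 : (y₂ - y₁) * (y₂ + y₁) = 0 := by linear_combination h₂ - h₁
    rcases mul_eq_zero.1 h3 with h4 | h4
    · have h5 : y₂ = y₁ := by linear_combination h4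
      subst h5
      have hyy : y₁' = y₂' := S.uniq hy₁ hy₂
      subst hyy
      by_cases hy : y₂ = 0
      · subst hy
        have hy' : y₁' = 0 := S.uniq hy₁ S.zero
        subst hy'
        rw [add_neg_mk h₁ h₂ (by simp), add_neg_mk h₁' h₂' (by simp)]
        exact Or.inr ⟨rfl, Or.inl rfl⟩
      · have e1 := x_double h₁ hy
        have hd : S.R (4 * (x₁ ^ 3 - 2 * x₁)) (4 * (x₁' ^ 3 - 2 * x₁')) :=
          S.mul (S.nat 4) (S.sub (S.pow hx₁ 3) (S.mul S.two hx₁))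
        have hn : S.R ((x₁ ^ 2 + 2) ^ 2) ((x₁' ^ 2 + 2) ^ 2) :=
          S.pow (S.add (S.pow hx₁ 2) S.two) 2
        have hne : mk x₁ y₂ h₁ + mk x₁ y₂ h₂ ≠ 0 := by
          rcases add_cases h₁ h₂ with ⟨h, _⟩ | ⟨_, _, _, l, x₃, y₃, h', _, _, _, hs⟩ | ⟨_, h', _⟩
          · exact absurd rfl h
          · rw [hs]; exact mk_ne_zero _ _ _
          · exfalso
            apply hy
            have : (2 : K) * y₂ = 0 := by linear_combination h'
            exact (mul_eq_zero.1 this).resolve_left two_ne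
        by_cases hy' : y₁' = 0
        · subst hy'
          rw [add_neg_mk h₁' h₂' (by simp)]
          have h0 : 4 * (x₁' ^ 3 - 2 * x₁') = 0 := by rw [← h₁']; ring
          rw [h0] at hd
          refine Or.inr ⟨rfl, Or.inr ?_⟩
          refine inf_of_mul e1 hn hd ?_
          intro h6
          have h7 : x₁' ^ 2 = -2 := by
            have := pow_eq_zero_iff two_ne_zero |>.1 h6
            linear_combination this
          have h8 : x₁' * (x₁' ^ 2 - 2) = 0 := by linear_combination -h₁'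
          rw [h7] at h8
          have h9 : x₁' = 0 := by
            have : x₁' * 4 = 0 := by linear_combination -h8
            exact (mul_eq_zero.1 this).resolve_right h4κ
          rw [h9] at h7
          exact h2κ (by linear_combination h7)
        · have e1' := x_double h₁' hy'
          have hne' : mk x₁' y₁' h₁' + mk x₁' y₁' h₂' ≠ 0 := by
            rcases add_cases h₁' h₂' with ⟨h, _⟩ | ⟨_, _, _, l, x₃, y₃, h', _, _, _, hs⟩ | ⟨_, h', _⟩
            · exact absurd rfl h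
            · rw [hs]; exact mk_ne_zero _ _ _
            · exfalso
              apply hy'
              have : (2 : κ) * y₁' = 0 := by linear_combination h'
              exact (mul_eq_zero.1 this).resolve_left two_ne
          refine Or.inl ⟨hne', hne, ?_⟩
          refine fin_of_mul e1 hn hd ?_ e1'
          rw [← h₁']
          exact mul_ne_zero h4κ (pow_ne_zero 2 hy')
    · have h5 : y₂ = -y₁ := by linear_combination h4
      have h6 : y₂' = -y₁' := S.uniq hy₂ (S.congr (S.neg hy₁) h5.symm rfl)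
      rw [add_neg_mk h₁ h₂ h5, add_neg_mk h₁' h₂' h6]
      exact Or.inr ⟨rfl, Or.inl rfl⟩
  · have e := x_add h₁ h₂ hx
    have e1 := e.2
    have hne := e.1
    have e2 : (mk x₁ y₁ h₁ + mk x₂ y₂ h₂).x * ((x₁ * x₂ - 2) * (x₁ + x₂) + 2 * y₁ * y₂) =
        (x₁ * x₂ + 2) ^ 2 := by
      rw [← (x_sub h₁ h₂ hx).2, ← x_add_mul_x_sub h₁ h₂ hx]
      ring
    have hD : S.R ((x₁ - x₂) ^ 2) ((x₁' - x₂') ^ 2) := S.pow (S.sub hx₁ hx₂) 2
    have hN : S.R ((x₁ * x₂ - 2) * (x₁ + x₂) - 2 * y₁ * y₂)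
        ((x₁' * x₂' - 2) * (x₁' + x₂') - 2 * y₁' * y₂') :=
      S.sub (S.mul (S.sub (S.mul hx₁ hx₂) S.two) (S.add hx₁ hx₂)) (S.mul (S.mul S.two hy₁) hy₂)
    have hD' : S.R ((x₁ * x₂ - 2) * (x₁ + x₂) + 2 * y₁ * y₂)
        ((x₁' * x₂' - 2) * (x₁' + x₂') + 2 * y₁' * y₂') :=
      S.add (S.mul (S.sub (S.mul hx₁ hx₂) S.two) (S.add hx₁ hx₂)) (S.mul (S.mul S.two hy₁) hy₂)
    have hN' : S.R ((x₁ * x₂ + 2) ^ 2) ((x₁' * x₂' + 2) ^ 2) :=
      S.pow (S.add (S.mul hx₁ hx₂) S.two) 2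
    by_cases hx' : x₁' = x₂'
    · subst hx'
      have h3 : (y₂' - y₁') * (y₂' + y₁') = 0 := by linear_combination h₂' - h₁'
      by_cases hs : y₂' + y₁' = 0
      · -- the sum reduces to zero
        have h5 : y₂' = -y₁' := by linear_combination hs
        rw [add_neg_mk h₁' h₂' h5]
        refine Or.inr ⟨rfl, Or.inr ?_⟩
        by_cases hy' : y₁' = 0
        · refine inf_of_mul e2 hN' (S.congr hD' rfl ?_) ?_
          · rw [h5, hy']
            have : x₁' ^ 3 - 2 * x₁' = 0 := by rw [← h₁', hy']; ring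
            linear_combination 2 * this
          · intro h6
            have h7 : x₁' * x₁' = -2 := by
              have := pow_eq_zero_iff two_ne_zero |>.1 h6
              linear_combination this
            have h8 : x₁' * (x₁' * x₁' - 2) = 0 := by
              rw [hy'] at h₁'
              linear_combination -h₁'
            rw [h7] at h8
            have h9 : x₁' = 0 := by
              have : x₁' * 4 = 0 := by linear_combination -h8
              exact (mul_eq_zero.1 this).resolve_right h4κ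
            rw [h9] at h7
            exact h2κ (by linear_combination h7)
        · refine inf_of_mul e1 hN (S.congr hD rfl (by ring)) ?_
          have : (x₁' * x₁' - 2) * (x₁' + x₁') - 2 * y₁' * y₂' = 4 * y₁' ^ 2 := by
            rw [h5]
            linear_combination -2 * h₁'
          rw [this]
          exact mul_ne_zero h4κ (pow_ne_zero 2 hy')
      · have h5 : y₂' = y₁' := by
          rcases mul_eq_zero.1 h3 with h | h
          · linear_combination h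
          · exact absurd h hs
        subst h5
        have hy' : y₂' ≠ 0 := by
          rintro rfl
          simp at hs
        have e1' := x_double h₁' hy'
        have hne' : mk x₁' y₂' h₁' + mk x₁' y₂' h₂' ≠ 0 := by
          rcases add_cases h₁' h₂' with ⟨h, _⟩ | ⟨_, _, _, l, x₃, y₃, h', _, _, _, hs'⟩ | ⟨_, h', _⟩
          · exact absurd rfl h
          · rw [hs']; exact mk_ne_zero _ _ _
          · exfalso
            apply hs
            linear_combination h'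
        refine Or.inl ⟨hne', hne, ?_⟩
        refine fin_of_mul e2 hN' hD' ?_ ?_
        · have : (x₁' * x₁' - 2) * (x₁' + x₁') + 2 * y₂' * y₂' = 4 * y₂' ^ 2 := by
            linear_combination -2 * h₁'
          rw [this]
          exact mul_ne_zero h4κ (pow_ne_zero 2 hy')
        · have : (x₁' * x₁' - 2) * (x₁' + x₁') + 2 * y₂' * y₂' = 4 * (x₁' ^ 3 - 2 * x₁') := by
            linear_combination 2 * h₁'
          rw [this]
          linear_combination e1'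
    · have e' := x_add h₁' h₂' hx'
      refine Or.inl ⟨e'.1, hne, ?_⟩
      exact fin_of_mul e1 hN hD (pow_ne_zero 2 (sub_ne_zero.2 hx')) e'.2

theorem red_add_inf_fin {x₁ y₁ x₂ y₂ : K} {x₂' y₂' : κ}
    (h₁ : y₁ ^ 2 = x₁ ^ 3 - 2 * x₁) (h₂ : y₂ ^ 2 = x₂ ^ 3 - 2 * x₂)
    (h₂' : y₂' ^ 2 = x₂' ^ 3 - 2 * x₂')
    (h0 : x₁ ≠ 0) (hx₁ : S.R x₁⁻¹ 0) (hy₁ : S.R (y₁ / x₁ ^ 2) 0) (hx₂ : S.R x₂ x₂')
    (hy₂ : S.R y₂ y₂') :
    S.XRed (mk x₁ y₁ h₁ + mk x₂ y₂ h₂) (mk x₂' y₂' h₂') := by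
  have hx : x₁ ≠ x₂ := by
    rintro rfl
    have h3 := S.mul hx₁ hx₂
    rw [inv_mul_cancel₀ h0, zero_mul] at h3
    exact one_ne_zero (S.uniq S.one h3)
  have e := x_add h₁ h₂ hx
  have e1 := e.2
  refine Or.inl ⟨mk_ne_zero _ _ _, e.1, ?_⟩
  rw [x_mk]
  generalize (mk x₁ y₁ h₁ + mk x₂ y₂ h₂).x = X at e1
  have e2 : X * (1 - x₂ * x₁⁻¹) ^ 2 = (x₂ - 2 * x₁⁻¹) * (1 + x₂ * x₁⁻¹) - 2 * (y₁ / x₁ ^ 2) * y₂ := by
    apply mul_right_cancel₀ (pow_ne_zero 2 h0)
    field_simp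
    linear_combination e1
  have hD : S.R ((1 - x₂ * x₁⁻¹) ^ 2) 1 := by
    have := S.pow (S.sub S.one (S.mul hx₂ hx₁)) 2
    exact S.congr this rfl (by ring)
  have hN : S.R ((x₂ - 2 * x₁⁻¹) * (1 + x₂ * x₁⁻¹) - 2 * (y₁ / x₁ ^ 2) * y₂) x₂' := by
    have := S.sub (S.mul (S.sub hx₂ (S.mul S.two hx₁)) (S.add S.one (S.mul hx₂ hx₁)))
      (S.mul (S.mul S.two hy₁) hy₂)
    exact S.congr this rfl (by ring)
  exact fin_of_mul e2 hN hD one_ne_zero (mul_one _)

theorem red_add_inf_inf {x₁ y₁ x₂ y₂ : K}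
    (h₁ : y₁ ^ 2 = x₁ ^ 3 - 2 * x₁) (h₂ : y₂ ^ 2 = x₂ ^ 3 - 2 * x₂)
    (h01 : x₁ ≠ 0) (hx₁ : S.R x₁⁻¹ 0) (hy₁ : S.R (y₁ / x₁ ^ 2) 0)
    (h02 : x₂ ≠ 0) (hx₂ : S.R x₂⁻¹ 0) (hy₂ : S.R (y₂ / x₂ ^ 2) 0) :
    S.XRed (mk x₁ y₁ h₁ + mk x₂ y₂ h₂) 0 := by
  by_cases hx : x₁ = x₂
  · subst hx
    have h3 : (y₂ - y₁) * (y₂ + y₁) = 0 := by linear_combination h₂ - h₁
    by_cases hs : y₂ + y₁ = 0
    · rw [add_neg_mk h₁ h₂ (by linear_combination hs)]
      exact Or.inr ⟨rfl, Or.inl rfl⟩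
    · have h5 : y₂ = y₁ := by
        rcases mul_eq_zero.1 h3 with h | h
        · linear_combination h
        · exact absurd h hs
      subst h5
      have hy : y₂ ≠ 0 := by
        rintro rfl
        simp at hs
      have e1 := x_double h₁ hy
      refine Or.inr ⟨rfl, Or.inr ?_⟩
      generalize (mk x₁ y₂ h₁ + mk x₁ y₂ h₂).x = X at e1
      have e2 : X * (4 * (x₁⁻¹ - 2 * x₁⁻¹ ^ 3)) = (1 + 2 * x₁⁻¹ ^ 2) ^ 2 := by
        apply mul_right_cancel₀ (pow_ne_zero 4 h01)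
        field_simp
        linear_combination e1
      refine inf_of_mul e2 (N := 1) ?_ ?_ one_ne_zero
      · have := S.pow (S.add S.one (S.mul S.two (S.pow hx₁ 2))) 2
        exact S.congr this rfl (by ring)
      · have := S.mul (S.nat 4) (S.sub hx₁ (S.mul S.two (S.pow hx₁ 3)))
        exact S.congr this (by push_cast; ring) (by ring)
  · have e2 : (mk x₁ y₁ h₁ + mk x₂ y₂ h₂).x * ((x₁ * x₂ - 2) * (x₁ + x₂) + 2 * y₁ * y₂) =
        (x₁ * x₂ + 2) ^ 2 := by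
      rw [← (x_sub h₁ h₂ hx).2, ← x_add_mul_x_sub h₁ h₂ hx]
      ring
    refine Or.inr ⟨rfl, Or.inr ?_⟩
    generalize (mk x₁ y₁ h₁ + mk x₂ y₂ h₂).x = X at e2
    have e3 : X * ((1 - 2 * x₁⁻¹ * x₂⁻¹) * (x₁⁻¹ + x₂⁻¹) + 2 * (y₁ / x₁ ^ 2) * (y₂ / x₂ ^ 2)) =
        (1 + 2 * x₁⁻¹ * x₂⁻¹) ^ 2 := by
      apply mul_right_cancel₀ (pow_ne_zero 2 (mul_ne_zero h01 h02))
      field_simp
      linear_combination e2
    refine inf_of_mul e3 (N := 1) ?_ ?_ one_ne_zero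
    · have := S.pow (S.add S.one (S.mul (S.mul S.two hx₁) hx₂)) 2
      exact S.congr this rfl (by ring)
    · have := S.add (S.mul (S.sub S.one (S.mul (S.mul S.two hx₁) hx₂)) (S.add hx₁ hx₂))
        (S.mul (S.mul S.two hy₁) hy₂)
      exact S.congr this rfl (by ring)

/-- reduction is compatible with addition, on `x`-coordinates -/
theorem red_add {P Q : Pt K} {P' Q' : Pt κ} (hP : S.Red P P') (hQ : S.Red Q Q') :
    S.XRed (P + Q) (P' + Q') := by
  rcases hP with ⟨rfl, rfl⟩ | ⟨x, y, h, x', y', h', rfl, rfl, hx, hy⟩ | ⟨rfl, x, y, h, rfl, h0, hx, hy⟩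
  · rw [zero_add, zero_add]
    exact hQ.xRed
  · rcases hQ with ⟨rfl, rfl⟩ | ⟨x₂, y₂, h₂, x₂', y₂', h₂', rfl, rfl, hx₂, hy₂⟩ |
      ⟨rfl, x₂, y₂, h₂, rfl, h0₂, hx₂, hy₂⟩
    · rw [add_zero, add_zero]
      exact Or.inl ⟨mk_ne_zero _ _ _, mk_ne_zero _ _ _, hx⟩
    · exact red_add_fin h h₂ h' h₂' hx hy hx₂ hy₂
    · rw [add_zero, add_comm]
      exact red_add_inf_fin h₂ h h' h0₂ hx₂ hy₂ hx hy
  · rcases hQ with ⟨rfl, rfl⟩ | ⟨x₂, y₂, h₂, x₂', y₂', h₂', rfl, rfl, hx₂, hy₂⟩ |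
      ⟨rfl, x₂, y₂, h₂, rfl, h0₂, hx₂, hy₂⟩
    · rw [add_zero, add_zero]
      exact Or.inr ⟨rfl, Or.inr ⟨h0, hx⟩⟩
    · rw [zero_add]
      exact red_add_inf_fin h h₂ h₂' h0 hx hy hx₂ hy₂
    · rw [add_zero]
      exact red_add_inf_inf h h₂ h0 hx hy h0₂ hx₂ hy₂

end Splz

end Pool.Agent.H71.Ses
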