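import Pool.Agent.H71.Ses.E0
import Pool.Agent.H71.Ses.E1

set_option linter.style.haveILetI false
set_option linter.unusedSectionVars false
set_option linter.unusedVariables false

open scoped WithZero

namespace Pool.Agent.H71.Ses

namespace ProjVar

variable {k K : Type} [Field k] [Field K] [Algebra k K] {X : ProjVar k K}

theorem mem_ring_of_chart (P : X.Point) {z : K} (hz : z ∈ X.chart P.i) : z ∈ P.ring := by
  refine ⟨⟨z, hz⟩, 1, fun h => P.prime.ne_top ((Ideal.eq_top_iff_one _).2 h), ?_⟩
  simp

theorem chart_le_ring (P : X.Point) : X.chart P.i ≤ P.ring := fun _ hz => mem_ring_of_chart P hz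

theorem res_of_mem (P : X.Point) {z : K} (h : z ∈ P.ring) :
    P.res z = IsLocalRing.residue P.ring ⟨z, h⟩ := by
  unfold Point.res
  rw [dif_pos h]

theorem res_eq_zero_iff (P : X.Point) {z : K} (h : z ∈ P.ring) :
    P.res z = 0 ↔ (z = 0 ∨ z⁻¹ ∉ P.ring) := by
  rw [res_of_mem P h, IsLocalRing.residue_eq_zero_iff, IsLocalRing.mem_maximalIdeal]
  constructor
  · intro h1
    by_contra hcon
    push Not at hcon
    apply h1
    refine IsUnit.of_mul_eq_one ⟨z⁻¹, hcon.2⟩ ?_
    apply Subtype.ext
    exact mul_inv_cancel₀ hcon.1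
  · rintro h1 hu
    obtain ⟨⟨w, hw⟩, hw1⟩ := hu.exists_right_inv
    have hzw : z * w = 1 := congrArg Subtype.val hw1
    rcases h1 with rfl | h1
    · rw [zero_mul] at hzw
      exact zero_ne_one hzw
    · apply h1
      rw [inv_eq_of_mul_eq_one_right hzw]
      exact hw

/-- the specialization given by a point -/
noncomputable def Point.splz (P : X.Point) : Splz K P.κ where
  R z w := z ∈ P.ring ∧ P.res z = w
  add := by
    rintro z w z' w' ⟨h1, h2⟩ ⟨h1', h2'⟩
    refine ⟨add_mem h1 h1', ?_⟩
    rw [res_of_mem P (add_mem h1 h1'), ← h2, ← h2', res_of_mem P h1, res_of_mem P h1', ← map_add]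
    rfl
  mul := by
    rintro z w z' w' ⟨h1, h2⟩ ⟨h1', h2'⟩
    refine ⟨mul_mem h1 h1', ?_⟩
    rw [res_of_mem P (mul_mem h1 h1'), ← h2, ← h2', res_of_mem P h1, res_of_mem P h1', ← map_mul]
    rfl
  neg := by
    rintro z w ⟨h1, h2⟩
    refine ⟨neg_mem h1, ?_⟩
    rw [res_of_mem P (neg_mem h1), ← h2, res_of_mem P h1, ← map_neg]
    rfl
  one := by
    refine ⟨one_mem _, ?_⟩
    rw [res_of_mem P (one_mem _)]
    exact map_one _
  inv := by
    rintro z w ⟨h1, h2⟩ hw
    have h3 : ¬ (z = 0 ∨ z⁻¹ ∉ P.ring) := by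
      rw [← res_eq_zero_iff P h1, h2]; exact hw
    push Not at h3
    refine ⟨h3.2, ?_⟩
    have h4 : P.res z⁻¹ * P.res z = 1 := by
      rw [res_of_mem P h3.2, res_of_mem P h1, ← map_mul, ← map_one (IsLocalRing.residue P.ring)]
      congr 1
      apply Subtype.ext
      exact inv_mul_cancel₀ h3.1
    rw [← h2]
    exact eq_inv_of_mul_eq_one_left h4
  uniq := by
    rintro z w w' ⟨h1, h2⟩ ⟨h1', h2'⟩
    rw [← h2, ← h2']

theorem splz_iff (P : X.Point) (z : K) (w : P.κ) : P.splz.R z w ↔ z ∈ P.ring ∧ P.res z = w := Iff.rfl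

theorem splz_const (P : X.Point) (c : k) : P.splz.R (algebraMap k K c) (algebraMap k P.κ c) := by
  refine ⟨algebraMap_mem _ c, ?_⟩
  rw [res_of_mem P (algebraMap_mem _ c)]
  rfl

theorem splz_mem (P : X.Point) {z : K} (h : z ∈ P.ring) : P.splz.R z (P.res z) := ⟨h, rfl⟩

/-- every element of the residue field is the value of an element of the local ring -/
theorem exists_splz (P : X.Point) (w : P.κ) : ∃ z ∈ P.ring, P.res z = w := by
  obtain ⟨⟨z, hz⟩, h⟩ := IsLocalRing.residue_surjective (R := P.ring) w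
  exact ⟨z, hz, by rw [res_of_mem P hz, h]⟩

theorem chart_fg (i : X.I) : Algebra.FiniteType k (X.chart i) := by
  have := X.finite
  rw [← Subalgebra.fg_iff_finiteType]
  have h1 : {z | ∃ j, z = X.x j / X.x i}.Finite := by
    have h2 : {z | ∃ j, z = X.x j / X.x i} = Set.range fun j => X.x j / X.x i := by
      ext z
      simp only [Set.mem_ofPred_eq, Set.mem_range, eq_comm]
    rw [h2]
    exact Set.finite_range _
  refine ⟨h1.toFinset, ?_⟩
  rw [Set.Finite.coe_toFinset]
  rfl

/-- the residue field at a closed point -/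
theorem closed_res [IsAlgClosed k] (P : X.Point) (hP : P.IsClosed) {z : K} (hz : z ∈ P.ring) :
    ∃ c : k, P.res z = algebraMap k P.κ c := by
  have hmax : P.p.IsMaximal := hP
  have key : ∀ a : X.chart P.i, ∃ c : k, P.res a = algebraMap k P.κ c := by
    intro a
    have h1 := chart_fg (X := X) P.i
    letI := Ideal.Quotient.field P.p
    have h2 : Module.Finite k (X.chart P.i ⧸ P.p) := by
      have : Algebra.FiniteType k (X.chart P.i ⧸ P.p) :=
        Algebra.FiniteType.of_surjective (Ideal.Quotient.mkₐ k P.p)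
          (Ideal.Quotient.mkₐ_surjective k P.p)
      exact finite_of_finite_type_of_isJacobsonRing k _
    obtain ⟨c, hc⟩ := (IsAlgClosed.algebraMap_bijective_of_isIntegral (k := k)
      (K := X.chart P.i ⧸ P.p)).2 (Ideal.Quotient.mk P.p a)
    refine ⟨c, ?_⟩
    have h3 : a - algebraMap k _ c ∈ P.p := by
      rw [← Ideal.Quotient.eq, ← hc]
      rfl
    have h4 : P.res ((a : K) - algebraMap k K c) = 0 := by
      have h5 : (a : K) - algebraMap k K c ∈ P.ring :=
        mem_ring_of_chart P (a - algebraMap k _ c).2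
      rw [res_eq_zero_iff P h5]
      by_contra hcon
      push Not at hcon
      obtain ⟨h6, b, s, hs, h7⟩ := hcon
      apply hs
      have h8 : s = (a - algebraMap k _ c) * b := by
        apply Subtype.ext
        rw [MulMemClass.coe_mul, ← h7]
        change (s : K) = ((a : K) - algebraMap k K c) * _
        field_simp
      rw [h8]
      exact P.p.mul_mem_right _ h3
    have h9 := P.splz.sub (splz_mem P (mem_ring_of_chart P a.2)) (splz_const P c)
    have h10 := P.splz.uniq h9 (splz_mem P h9.1)
    rw [h4] at h10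
    exact sub_eq_zero.1 h10
  obtain ⟨a, s, hs, h1⟩ := hz
  obtain ⟨c, hc⟩ := key a
  obtain ⟨d, hd⟩ := key s
  have hs' : P.res s ≠ 0 := by
    rw [Ne, res_eq_zero_iff P (mem_ring_of_chart P s.2)]
    push Not
    have hs0 : (s : K) ≠ 0 := by
      intro h0
      apply hs
      rw [show s = 0 from Subtype.ext h0]
      exact zero_mem _
    exact ⟨hs0, 1, s, hs, by rw [inv_mul_cancel₀ hs0]; rfl⟩
  refine ⟨c / d, ?_⟩
  have hd0 : (s : K) ≠ 0 := P.splz.ne_zero (splz_mem P (mem_ring_of_chart P s.2)) hs'
  have h2 := P.splz.div (splz_mem P (mem_ring_of_chart P a.2))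
    (splz_mem P (mem_ring_of_chart P s.2)) hs'
  have h3 : (a : K) / s = z := by rw [← h1]; field_simp
  rw [h3] at h2
  rw [h2.2, hc, hd, map_div₀]

/-- the function field of a curve -/
theorem curve_isFF (G : X.Point) (hG : G.IsCurve) : IsFF k G.κ := by
  refine ⟨?_, hG⟩
  have := X.finite
  have key : IntermediateField.adjoin k (Set.range fun j => G.res (X.x j / X.x G.i)) = ⊤ := by
    rw [eq_top_iff]
    rintro w -
    set L := IntermediateField.adjoin k (Set.range fun j => G.res (X.x j / X.x G.i))
    have h1 : ∀ z ∈ X.chart G.i, G.res z ∈ L := by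
      intro z hz
      unfold chart at hz
      induction hz using Algebra.adjoin_induction with
      | mem z h =>
        obtain ⟨j, rfl⟩ := h
        exact IntermediateField.subset_adjoin k _ ⟨j, rfl⟩
      | algebraMap c =>
        rw [(splz_const G c).2]
        exact L.algebraMap_mem c
      | add z w hz hw h1 h2 =>
        have h3 := G.splz.add (splz_mem G (mem_ring_of_chart G hz))
          (splz_mem G (mem_ring_of_chart G hw))
        rw [h3.2]
        exact add_mem h1 h2
      | mul z w hz hw h1 h2 =>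
        have h3 := G.splz.mul (splz_mem G (mem_ring_of_chart G hz))
          (splz_mem G (mem_ring_of_chart G hw))
        rw [h3.2]
        exact mul_mem h1 h2
    obtain ⟨z, ⟨a, s, hs, h2⟩, rfl⟩ := exists_splz G w
    have hs' : G.res s ≠ 0 := by
      rw [Ne, res_eq_zero_iff G (mem_ring_of_chart G s.2)]
      push Not
      have hs0 : (s : K) ≠ 0 := by
        intro h0
        apply hs
        rw [show s = 0 from Subtype.ext h0]
        exact zero_mem _
      exact ⟨hs0, 1, s, hs, by rw [inv_mul_cancel₀ hs0]; rfl⟩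
    have hd0 : (s : K) ≠ 0 := G.splz.ne_zero (splz_mem G (mem_ring_of_chart G s.2)) hs'
    have h3 := G.splz.div (splz_mem G (mem_ring_of_chart G a.2))
      (splz_mem G (mem_ring_of_chart G s.2)) hs'
    have h4 : (a : K) / s = z := by rw [← h2]; field_simp
    rw [h4] at h3
    rw [h3.2]
    exact div_mem (h1 _ a.2) (h1 _ s.2)
  rw [← key]
  exact IntermediateField.fg_adjoin_of_finite (Set.finite_range _)

end ProjVar

end Pool.Agent.H71.Ses
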