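import Pool.Agent.H71.Ses.E2

set_option linter.style.haveILetI false
set_option linter.unusedSectionVars false
set_option linter.unusedVariables false

open scoped WithZero

namespace Pool.Agent.H71.Ses

theorem exists_residue' {k K : Type} [Field k] [IsAlgClosed k] [CharP k 5] [Field K] [Algebra k K]
    (hK : IsFF k K) (v : Place k K) {z : K} (hv : v.val z ≤ 1) :
    ∃ a : k, v.val (z - algebraMap k K a) < 1 := by
  by_cases hz : Transcendental k z
  · exact exists_residue hK hz v hv
  · obtain ⟨c, rfl⟩ := exists_const hz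
    exact ⟨c, by rw [sub_self, map_zero]; exact zero_lt_one⟩

namespace ProjVar

variable {k K : Type} [Field k] [Field K] [Algebra k K] {X : ProjVar k K}

/-- for a chart containing into the local ring of a point -/
theorem chart_le_of (P : X.Point) (i : X.I) (h : ∀ j, X.x j / X.x i ∈ P.ring) :
    X.chart i ≤ P.ring := by
  rw [chart, Algebra.adjoin_le_iff]
  rintro z ⟨j, rfl⟩
  exact h j

theorem x_div_mem (P : X.Point) (j : X.I) : X.x j / X.x P.i ∈ P.ring :=
  mem_ring_of_chart P (Algebra.subset_adjoin ⟨j, rfl⟩)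

/-- a point from a valuation-like condition -/
theorem exists_center [IsAlgClosed k] [CharP k 5] (G : X.Point) (hG : G.IsCurve)
    (v : Place k G.κ) : ∃ P : X.Point, IsCenter P G v := by
  have hF := curve_isFF G hG
  have hfin := X.finite
  have hne : Nonempty X.I := ⟨G.i⟩
  obtain ⟨i, hi⟩ := Finite.exists_max fun j => v.val (G.res (X.x j / X.x G.i))
  set r : X.I → G.κ := fun j => G.res (X.x j / X.x G.i) with hr
  have hrG : r G.i = 1 := by
    rw [hr]
    have h1 : X.x G.i / X.x G.i = 1 := div_self (X.x_ne _)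
    simp only [h1]
    exact G.splz.uniq (splz_mem G (one_mem _)) G.splz.one
  have h1 : 1 ≤ v.val (r i) := by
    have := hi G.i
    change v.val (r G.i) ≤ v.val (r i) at this
    rwa [hrG, map_one] at this
  have hri : r i ≠ 0 := by
    intro h0
    rw [h0, map_zero] at h1
    exact absurd h1 (not_le.2 zero_lt_one)
  have hdiv : ∀ j, G.splz.R (X.x j / X.x i) (r j / r i) := by
    intro j
    refine G.splz.congr (G.splz.div (splz_mem G (x_div_mem G j)) (splz_mem G (x_div_mem G i)) hri)
      ?_ rfl
    have := X.x_ne i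
    have := X.x_ne G.i
    field_simp
  have hvdiv : ∀ j, v.val (r j / r i) ≤ 1 := by
    intro j
    rw [map_div₀]
    refine div_le_one_of_le₀ (hi j) ?_
    exact zero_le
  have hchart : ∀ z ∈ X.chart i, z ∈ G.ring ∧ v.val (G.res z) ≤ 1 := by
    intro z hz
    unfold chart at hz
    induction hz using Algebra.adjoin_induction with
    | mem z h =>
      obtain ⟨j, rfl⟩ := h
      refine ⟨(hdiv j).1, ?_⟩
      rw [(hdiv j).2]
      exact hvdiv j
    | algebraMap c =>
      refine ⟨(splz_const G c).1, ?_⟩
      rw [(splz_const G c).2]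
      exact v.const_le c
    | add z w hz hw h1 h2 =>
      have h3 := G.splz.add (splz_mem G h1.1) (splz_mem G h2.1)
      refine ⟨h3.1, ?_⟩
      rw [h3.2]
      exact v.val.map_add_le h1.2 h2.2
    | mul z w hz hw h1 h2 =>
      have h3 := G.splz.mul (splz_mem G h1.1) (splz_mem G h2.1)
      refine ⟨h3.1, ?_⟩
      rw [h3.2, map_mul]
      exact mul_le_one' h1.2 h2.2
  -- the prime ideal
  let p : Ideal (X.chart i) :=
    { carrier := {z | v.val (G.res z) < 1}
      add_mem' := by
        intro z w hz hw
        have h3 := G.splz.add (splz_mem G (hchart z z.2).1) (splz_mem G (hchart w w.2).1)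
        change v.val (G.res ((z : K) + w)) < 1
        rw [h3.2]
        exact v.val.map_add_lt hz hw
      zero_mem' := by
        change v.val (G.res (0 : K)) < 1
        rw [(G.splz.zero).2, map_zero]
        exact zero_lt_one
      smul_mem' := by
        intro c z hz
        have h3 := G.splz.mul (splz_mem G (hchart c c.2).1) (splz_mem G (hchart z z.2).1)
        change v.val (G.res ((c : K) * z)) < 1
        rw [h3.2, map_mul]
        calc _ ≤ 1 * v.val (G.res z) := mul_le_mul' (hchart c c.2).2 le_rfl
          _ < 1 := by rw [one_mul]; exact hz }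
  have hpmem : ∀ z : X.chart i, z ∈ p ↔ v.val (G.res z) < 1 := fun z => Iff.rfl
  have hp1 : (1 : X.chart i) ∉ p := by
    rw [hpmem]
    change ¬ v.val (G.res (1 : K)) < 1
    rw [(G.splz.one).2, map_one]
    exact lt_irrefl _
  have hpne : p ≠ ⊤ := fun h => hp1 (by rw [h]; trivial)
  have hpp : p.IsPrime := by
    refine ⟨hpne, ?_⟩
    intro z w hzw
    have h3 := G.splz.mul (splz_mem G (hchart z z.2).1) (splz_mem G (hchart w w.2).1)
    rw [hpmem] at hzw ⊢
    rw [hpmem]
    change v.val (G.res ((z : K) * w)) < 1 at hzw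
    rw [h3.2, map_mul] at hzw
    by_contra hcon
    push Not at hcon
    have h4 : (1 : ℤᵐ⁰) ≤ v.val (G.res z) * v.val (G.res w) := one_le_mul hcon.1 hcon.2
    exact absurd hzw (not_lt.2 h4)
  have hmax : p.IsMaximal := by
    rw [Ideal.isMaximal_iff]
    refine ⟨hp1, ?_⟩
    intro J z hpJ hz hzJ
    obtain ⟨c, hc⟩ := exists_residue' hF v (hchart z z.2).2
    have h3 := G.splz.sub (splz_mem G (hchart z z.2).1) (splz_const G c)
    have h4 : z - algebraMap k _ c ∈ p := by
      rw [hpmem]
      change v.val (G.res ((z : K) - algebraMap k K c)) < 1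
      rw [h3.2]
      exact hc
    have hc0 : c ≠ 0 := by
      rintro rfl
      rw [map_zero, sub_zero] at h4
      exact hz h4
    have h5 : algebraMap k (X.chart i) c ∈ J := by
      have := sub_mem hzJ (hpJ h4)
      rwa [sub_sub_cancel] at this
    have h6 : algebraMap k (X.chart i) c⁻¹ * algebraMap k (X.chart i) c = 1 := by
      rw [← map_mul, inv_mul_cancel₀ hc0, map_one]
    rw [← h6]
    exact J.mul_mem_left _ h5
  refine ⟨⟨i, p, hpp⟩, hmax, ?_⟩
  have hs : ∀ s : X.chart i, s ∉ p → G.res s ≠ 0 ∧ v.val (G.res s) = 1 := by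
    intro s hs
    rw [hpmem] at hs
    have h3 : v.val (G.res s) = 1 := le_antisymm (hchart s s.2).2 (not_lt.1 hs)
    refine ⟨?_, h3⟩
    intro h0
    rw [h0, map_zero] at h3
    exact zero_ne_one h3
  have hring : ∀ z a : K, ∀ s : X.chart i, ∀ ha : a ∈ X.chart i, s ∉ p → z * s = a →
      G.splz.R z (G.res a / G.res s) := by
    intro z a s ha h3 h4
    obtain ⟨h5, h6⟩ := hs s h3
    exact G.splz.of_mul (n' := 0) (d' := 0) h4 (splz_mem G (hchart a ha).1) (splz_mem G (hchart s s.2).1) h5
  refine ⟨?_, ?_, ?_⟩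
  · rintro z ⟨a, s, h3, h4⟩
    exact (hring z a s a.2 h3 h4).1
  · rintro z ⟨a, s, h3, h4⟩
    rw [(hring z a s a.2 h3 h4).2, map_div₀, (hs s h3).2, div_one]
    exact (hchart a a.2).2
  · rintro z ⟨a, s, h3, h4⟩ hz
    rw [(hring z a s a.2 h3 h4).2, map_div₀, (hs s h3).2, div_one]
    by_contra hcon
    apply hz
    have ha : a ∉ p := hcon
    have ha0 := (hs a ha).1
    have ha0' : (a : K) ≠ 0 := by
      intro h0
      rw [h0, (G.splz.zero).2] at ha0
      exact ha0 rfl
    have hs0' : (s : K) ≠ 0 := by
      intro h0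
      have := (hs s h3).1
      rw [h0, (G.splz.zero).2] at this
      exact this rfl
    have hz0 : z ≠ 0 := by
      rintro rfl
      rw [zero_mul] at h4
      exact ha0' h4.symm
    refine ⟨s, a, ha, ?_⟩
    rw [← h4]
    field_simp

end ProjVar

end Pool.Agent.H71.Ses
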