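import Pool.Agent.H71.Ses.E3

set_option linter.style.haveILetI false
set_option linter.unusedSectionVars false
set_option linter.unusedVariables false

open scoped WithZero

namespace Pool.Agent.H71.Ses

namespace ProjVar

variable {k K : Type} [Field k] [Field K] [Algebra k K] {X : ProjVar k K}

theorem center_val {P G : X.Point} {v : Place k G.κ} (h : IsCenter P G v) {z : K}
    (hz : z ∈ P.ring) {c : k} (hc : P.res z = algebraMap k P.κ c) :
    v.val (G.res z - algebraMap k G.κ c) < 1 := by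
  obtain ⟨h1, h2, h3, h4⟩ := h
  have e1 := G.splz.sub (splz_mem G (h2 hz)) (splz_const G c)
  have e2 := P.splz.sub (splz_mem P hz) (splz_const P c)
  rw [hc, sub_self] at e2
  rw [← e1.2]
  rcases (res_eq_zero_iff P e2.1).1 e2.2 with h5 | h5
  · rw [h5, (G.splz.zero).2, map_zero]
    exact zero_lt_one
  · exact h4 _ e2.1 h5

/-- a unit in the ring of a point -/
def Point.U (P : X.Point) (z : K) : Prop := z ∈ P.ring ∧ z⁻¹ ∈ P.ring ∧ z ≠ 0

theorem Point.U.mul {P : X.Point} {z w : K} (hz : P.U z) (hw : P.U w) : P.U (z * w) :=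
  ⟨mul_mem hz.1 hw.1, by rw [mul_inv]; exact mul_mem hz.2.1 hw.2.1, mul_ne_zero hz.2.2 hw.2.2⟩

theorem Point.U.inv {P : X.Point} {z : K} (hz : P.U z) : P.U z⁻¹ :=
  ⟨hz.2.1, by rw [inv_inv]; exact hz.1, inv_ne_zero hz.2.2⟩

theorem Point.U.pow {P : X.Point} {z : K} (hz : P.U z) (n : ℕ) : P.U (z ^ n) :=
  ⟨pow_mem hz.1 n, by rw [← inv_pow]; exact pow_mem hz.2.1 n, pow_ne_zero n hz.2.2⟩

theorem Point.U.res_ne {P : X.Point} {z : K} (hz : P.U z) : P.res z ≠ 0 := by
  rw [Ne, res_eq_zero_iff P hz.1]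
  push Not
  exact ⟨hz.2.2, hz.2.1⟩

theorem U_of_div {P : X.Point} {z w : K} (hz : z ≠ 0) (hw : w ≠ 0) (h1 : z / w ∈ P.ring)
    (h2 : w / z ∈ P.ring) : P.U (z / w) :=
  ⟨h1, by rw [inv_div]; exact h2, div_ne_zero hz hw⟩

/-- the product of line bundles -/
def LineBundle.mul (L M : X.LineBundle) : X.LineBundle where
  gen P := L.gen P * M.gen P
  gen_ne P := mul_ne_zero (L.gen_ne P) (M.gen_ne P)
  loc := by
    intro P
    obtain ⟨s, hs, hs0, hs1, hs2⟩ := L.loc P
    obtain ⟨t, ht, ht0, ht1, ht2⟩ := M.loc P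
    refine ⟨s * t, mul_mem hs ht, mul_ne_zero hs0 ht0, by rw [mul_inv]; exact mul_mem hs1 ht1, ?_⟩
    intro Q hQ hst
    have h1 : s⁻¹ ∈ Q.ring := by
      have : s⁻¹ = (s * t)⁻¹ * t := by field_simp
      rw [this]
      exact mul_mem hst (hQ ht)
    have h2 : t⁻¹ ∈ Q.ring := by
      have : t⁻¹ = (s * t)⁻¹ * s := by field_simp
      rw [this]
      exact mul_mem hst (hQ hs)
    obtain ⟨a1, a2⟩ := hs2 Q hQ h1
    obtain ⟨b1, b2⟩ := ht2 Q hQ h2
    exact ⟨by rw [mul_div_mul_comm]; exact mul_mem a1 b1,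
      by rw [mul_div_mul_comm]; exact mul_mem a2 b2⟩

/-- the inverse of a line bundle -/
def LineBundle.inv (L : X.LineBundle) : X.LineBundle where
  gen P := (L.gen P)⁻¹
  gen_ne P := inv_ne_zero (L.gen_ne P)
  loc := by
    intro P
    obtain ⟨s, hs, hs0, hs1, hs2⟩ := L.loc P
    refine ⟨s, hs, hs0, hs1, ?_⟩
    intro Q hQ hst
    obtain ⟨a1, a2⟩ := hs2 Q hQ hst
    exact ⟨by rw [inv_div_inv]; exact a2, by rw [inv_div_inv]; exact a1⟩

/-- powers of a line bundle -/
def LineBundle.pow (L : X.LineBundle) (n : ℕ) : X.LineBundle where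
  gen P := L.gen P ^ n
  gen_ne P := pow_ne_zero n (L.gen_ne P)
  loc := by
    intro P
    obtain ⟨s, hs, hs0, hs1, hs2⟩ := L.loc P
    refine ⟨s, hs, hs0, hs1, ?_⟩
    intro Q hQ hst
    obtain ⟨a1, a2⟩ := hs2 Q hQ hst
    exact ⟨by rw [← div_pow]; exact pow_mem a1 n, by rw [← div_pow]; exact pow_mem a2 n⟩

theorem LineBundle.U_gen (L : X.LineBundle) {P G : X.Point} {v : Place k G.κ}
    (h : IsCenter P G v) : G.U (L.gen P / L.gen G) := by
  obtain ⟨s, hs, hs0, hs1, hs2⟩ := L.loc P
  obtain ⟨a1, a2⟩ := hs2 G ((chart_le_ring P).trans h.2.1) (h.2.1 hs1)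
  exact U_of_div (L.gen_ne P) (L.gen_ne G) a2 a1

theorem res_mul_U {G : X.Point} {z w : K} (hz : G.U z) (hw : G.U w) :
    G.res (z * w) = G.res z * G.res w :=
  (G.splz.mul (splz_mem G hz.1) (splz_mem G hw.1)).2

theorem res_inv_U {G : X.Point} {z : K} (hz : G.U z) : G.res z⁻¹ = (G.res z)⁻¹ :=
  (G.splz.inv (splz_mem G hz.1) hz.res_ne).2

theorem res_pow_U {G : X.Point} {z : K} (hz : G.U z) (n : ℕ) : G.res (z ^ n) = G.res z ^ n :=
  (G.splz.pow (splz_mem G hz.1) n).2

theorem LineBundle.localDegree_mul (L M : X.LineBundle) (G : X.Point) (v : Place k G.κ) :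
    (L.mul M).localDegree G v = L.localDegree G v + M.localDegree G v := by
  unfold LineBundle.localDegree
  by_cases h : ∃ P : X.Point, IsCenter P G v
  · rw [dif_pos h, dif_pos h, dif_pos h]
    have hP := h.choose_spec
    have h1 := L.U_gen hP
    have h2 := M.U_gen hP
    change -v.ord (G.res ((L.gen _ * M.gen _) / (L.gen _ * M.gen _))) = _
    rw [mul_div_mul_comm, res_mul_U h1 h2, v.ord_mul h1.res_ne h2.res_ne]
    ring
  · rw [dif_neg h, dif_neg h, dif_neg h]
    ring

theorem LineBundle.localDegree_inv (L : X.LineBundle) (G : X.Point) (v : Place k G.κ) :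
    L.inv.localDegree G v = -L.localDegree G v := by
  unfold LineBundle.localDegree
  by_cases h : ∃ P : X.Point, IsCenter P G v
  · rw [dif_pos h, dif_pos h]
    have hP := h.choose_spec
    have h1 := L.U_gen hP
    change -v.ord (G.res ((L.gen _)⁻¹ / (L.gen _)⁻¹)) = _
    rw [inv_div_inv, ← inv_div, res_inv_U h1, v.ord_inv]
  · rw [dif_neg h, dif_neg h]
    ring

theorem LineBundle.localDegree_pow (L : X.LineBundle) (n : ℕ) (G : X.Point) (v : Place k G.κ) :
    (L.pow n).localDegree G v = n * L.localDegree G v := by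
  unfold LineBundle.localDegree
  by_cases h : ∃ P : X.Point, IsCenter P G v
  · rw [dif_pos h, dif_pos h]
    have hP := h.choose_spec
    have h1 := L.U_gen hP
    change -v.ord (G.res ((L.gen _) ^ n / (L.gen _) ^ n)) = _
    rw [← div_pow, res_pow_U h1, v.ord_pow]
    ring
  · rw [dif_neg h, dif_neg h]
    ring

open Classical in
/-- the line bundle of poles of a rational function without points of indeterminacy -/
noncomputable def ofFun (X : ProjVar k K) (f : K)
    (h : ∀ P : X.Point, f ∈ P.ring ∨ f⁻¹ ∈ P.ring) : X.LineBundle where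
  gen P := if f ∈ P.ring then 1 else f
  gen_ne P := by
    split_ifs with h1
    · exact one_ne_zero
    · rintro rfl
      exact h1 (zero_mem _)
  loc := by
    intro P
    have key : ∀ g : K, g ∈ P.ring → ∃ s ∈ X.chart P.i, s ≠ 0 ∧ s⁻¹ ∈ P.ring ∧
        ∀ Q : X.Point, X.chart P.i ≤ Q.ring → s⁻¹ ∈ Q.ring → g ∈ Q.ring := by
      rintro g ⟨a, s, hs, h1⟩
      have hs0 : (s : K) ≠ 0 := by
        intro h0
        apply hs
        rw [show s = 0 from Subtype.ext h0]
        exact zero_mem _
      refine ⟨s, s.2, hs0, ⟨1, s, hs, by rw [inv_mul_cancel₀ hs0]; rfl⟩, ?_⟩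
      intro Q hQ hsQ
      have : g = a * (s : K)⁻¹ := by rw [← h1]; field_simp
      rw [this]
      exact mul_mem (hQ a.2) hsQ
    by_cases h1 : f ∈ P.ring
    · obtain ⟨s, hs, hs0, hs1, hs2⟩ := key f h1
      refine ⟨s, hs, hs0, hs1, fun Q hQ hsQ => ?_⟩
      rw [if_pos h1, if_pos (hs2 Q hQ hsQ), div_one]
      exact ⟨one_mem _, one_mem _⟩
    · obtain ⟨s, hs, hs0, hs1, hs2⟩ := key f⁻¹ ((h P).resolve_left h1)
      refine ⟨s, hs, hs0, hs1, fun Q hQ hsQ => ?_⟩
      have h2 := hs2 Q hQ hsQ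
      have hf0 : f ≠ 0 := by
        rintro rfl
        exact h1 (zero_mem _)
      rw [if_neg h1]
      split_ifs with h3
      · rw [one_div, div_one]
        exact ⟨h2, h3⟩
      · rw [div_self hf0]
        exact ⟨one_mem _, one_mem _⟩

open Classical in
theorem localDegree_ofFun [IsAlgClosed k] [CharP k 5] (f : K)
    (h : ∀ P : X.Point, f ∈ P.ring ∨ f⁻¹ ∈ P.ring) (G : X.Point) (hG : G.IsCurve)
    (v : Place k G.κ) :
    (ofFun X f h).localDegree G v = max (-v.ord (G.res f)) 0 := by
  unfold LineBundle.localDegree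
  have hex := exists_center G hG v
  rw [dif_pos hex]
  have hP := hex.choose_spec
  set P := hex.choose with hPdef
  change -v.ord (G.res ((if f ∈ P.ring then 1 else f) / (if f ∈ G.ring then 1 else f))) = _
  have h1r : G.res 1 = 1 := (G.splz.one).2
  by_cases h1 : f ∈ P.ring
  · have h2 := hP.2.1 h1
    rw [if_pos h1, if_pos h2, div_one, h1r, v.ord_one]
    have h3 := v.ord_nonneg_of_val_le (hP.2.2.1 f h1)
    omega
  · have h2 := (h P).resolve_left h1
    have h3 := hP.2.2.2 _ h2 (by rw [inv_inv]; exact h1)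
    have hf0 : f ≠ 0 := by
      rintro rfl
      exact h1 (zero_mem _)
    rw [if_neg h1]
    by_cases h4 : f ∈ G.ring
    · rw [if_pos h4, div_one]
      have h5 : G.res f * G.res f⁻¹ = 1 := by
        have := G.splz.mul (splz_mem G h4) (splz_mem G (hP.2.1 h2))
        rw [mul_inv_cancel₀ hf0] at this
        rw [← this.2, h1r]
      have h6 : G.res f⁻¹ ≠ 0 := right_ne_zero_of_mul_eq_one h5
      rw [eq_inv_of_mul_eq_one_left h5, v.ord_inv]
      rw [v.val_lt_one_iff h6] at h3
      omega
    · rw [if_neg h4, div_self hf0, h1r, v.ord_one]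
      have : G.res f = 0 := by
        unfold Point.res
        rw [dif_neg h4]
      rw [this, v.ord_zero]
      rfl

/-- the line bundles we need -/
theorem degree_combo [IsAlgClosed k] [CharP k 5] [CharP K 5] {f g e : K}
    (hf : ∀ P : X.Point, f ∈ P.ring ∨ f⁻¹ ∈ P.ring) (hg : ∀ P : X.Point, g ∈ P.ring ∨ g⁻¹ ∈ P.ring)
    (he : ∀ P : X.Point, e ∈ P.ring ∨ e⁻¹ ∈ P.ring) (n m : ℕ) (G : X.Point) (hG : G.IsCurve) :
    (((ofFun X f hf).pow n).mul ((ofFun X g hg).mul ((ofFun X e he).pow m).inv)).degree G =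
      n * degP k (G.res f) + degP k (G.res g) - m * degP k (G.res e) := by
  have hF := curve_isFF G hG
  have hsupp : ∀ z : G.κ, (Function.support fun v : Place k G.κ => max (-v.ord z) 0).Finite := by
    intro z
    refine (finite_ord hF z).subset fun v hv => ?_
    rw [Function.mem_support] at hv
    intro h0
    apply hv
    rw [h0]
    rfl
  unfold LineBundle.degree degP
  rw [mul_finsum, mul_finsum, ← finsum_add_distrib, ← finsum_sub_distrib]
  · apply finsum_congr
    intro v
    rw [LineBundle.localDegree_mul, LineBundle.localDegree_mul, LineBundle.localDegree_inv,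
      LineBundle.localDegree_pow, LineBundle.localDegree_pow, localDegree_ofFun _ _ _ hG,
      localDegree_ofFun _ _ _ hG, localDegree_ofFun _ _ _ hG]
    ring
  · refine ((hsupp (G.res f)).union (hsupp (G.res g))).subset fun v hv => ?_
    rw [Function.mem_support] at hv
    by_contra hcon
    simp only [Set.mem_union, Function.mem_support, not_or, not_not] at hcon
    apply hv
    rw [hcon.1, hcon.2]
    ring
  · refine (hsupp (G.res e)).subset fun v hv => ?_
    rw [Function.mem_support] at hv ⊢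
    intro h0
    apply hv
    rw [h0]
    ring
  · refine (hsupp (G.res f)).subset fun v hv => ?_
    rw [Function.mem_support] at hv ⊢
    intro h0
    apply hv
    rw [h0]
    ring
  · exact hsupp _

/-- every point specializes to a closed point -/
theorem exists_closed (P : X.Point) : ∃ Q : X.Point, Q.IsClosed ∧ Q.ring ≤ P.ring ∧ Q.i = P.i := by
  obtain ⟨M, hM, hle⟩ := P.p.exists_le_maximal P.prime.ne_top
  refine ⟨⟨P.i, M, hM.isPrime⟩, hM, ?_, rfl⟩
  rintro z ⟨a, s, hs, h⟩
  exact ⟨a, s, fun h' => hs (hle h'), h⟩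

theorem dich_of_closed {f : K} (h : ∀ P : X.Point, P.IsClosed → f ∈ P.ring ∨ f⁻¹ ∈ P.ring)
    (P : X.Point) : f ∈ P.ring ∨ f⁻¹ ∈ P.ring := by
  obtain ⟨Q, hQ, hle, -⟩ := exists_closed P
  exact (h Q hQ).imp (fun h => hle h) (fun h => hle h)

theorem hyperplane_degree_le [IsAlgClosed k] [CharP k 5] (G : X.Point) (hG : G.IsCurve)
    [Fintype X.I] :
    X.hyperplane.degree G ≤ ∑ j, degP k (G.res (X.x j / X.x G.i)) := by
  have hF := curve_isFF G hG
  have hsupp : ∀ z : G.κ, (Function.support fun v : Place k G.κ => max (-v.ord z) 0).Finite := by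
    intro z
    refine (finite_ord hF z).subset fun v hv => ?_
    rw [Function.mem_support] at hv
    intro h0
    apply hv
    rw [h0]
    rfl
  unfold LineBundle.degree degP
  rw [← finsum_sum_comm _ _ (fun j _ => hsupp _)]
  have key : ∀ v : Place k G.κ, X.hyperplane.localDegree G v ≤
      ∑ j, max (-v.ord (G.res (X.x j / X.x G.i))) 0 := by
    intro v
    unfold LineBundle.localDegree
    have hex := exists_center G hG v
    rw [dif_pos hex]
    set P := hex.choose with hPdef
    change -v.ord (G.res (X.x P.i / X.x G.i)) ≤ _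
    refine le_trans (le_max_left _ 0) ?_
    exact Finset.single_le_sum (f := fun j => max (-v.ord (G.res (X.x j / X.x G.i))) 0)
      (fun j _ => le_max_right _ _) (Finset.mem_univ P.i)
  by_cases hs : (Function.support (X.hyperplane.localDegree G)).Finite
  · refine finsum_le_finsum' hs ?_ key
    refine (Set.finite_iUnion fun j => hsupp (G.res (X.x j / X.x G.i))).subset fun v hv => ?_
    rw [Function.mem_support] at hv
    by_contra hcon
    simp only [Set.mem_iUnion, Function.mem_support, not_exists, not_not] at hcon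
    apply hv
    exact Finset.sum_eq_zero fun j _ => hcon j
  · rw [finsum_of_infinite_support hs]
    exact finsum_nonneg fun v => Finset.sum_nonneg fun j _ => le_max_right _ _

end ProjVar

end Pool.Agent.H71.Ses
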