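import Pool.Agent.H71.Ses.E4

set_option linter.style.haveILetI false
set_option linter.unusedSectionVars false
set_option linter.unusedVariables false

open scoped WithZero

namespace Pool.Agent.H71.Ses

namespace ProjVar

variable {k K : Type} [Field k] [Field K] [Algebra k K] {X : ProjVar k K}

noncomputable instance (P : X.Point) : Algebra (X.chart P.i) P.ring :=
  (Subalgebra.inclusion (chart_le_ring P)).toRingHom.toAlgebra

theorem algMap_val (P : X.Point) (z : X.chart P.i) :
    ((algebraMap (X.chart P.i) P.ring z : P.ring) : K) = z := rfl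

theorem coe_ne_zero {P : X.Point} {s : X.chart P.i} (hs : s ∉ P.p) : (s : K) ≠ 0 := by
  intro h0
  apply hs
  rw [show s = 0 from Subtype.ext h0]
  exact zero_mem _

instance (P : X.Point) : P.p.IsPrime := P.prime

instance (P : X.Point) : IsLocalization.AtPrime P.ring P.p := by
  rw [IsLocalization.AtPrime, isLocalization_iff]
  refine ⟨?_, ?_, ?_⟩
  · rintro ⟨s, hs⟩
    have hs0 := coe_ne_zero hs
    refine IsUnit.of_mul_eq_one ⟨(s : K)⁻¹, 1, s, hs, ?_⟩ ?_
    · rw [inv_mul_cancel₀ hs0]
      rfl
    · apply Subtype.ext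
      change (s : K) * (s : K)⁻¹ = 1
      rw [mul_inv_cancel₀ hs0]
  · rintro ⟨z, a, s, hs, h⟩
    refine ⟨(a, ⟨s, hs⟩), ?_⟩
    apply Subtype.ext
    exact h
  · intro z w h
    refine ⟨1, ?_⟩
    have : (z : K) = w := congrArg (fun t : P.ring => (t : K)) h
    rw [Subtype.ext this]

instance chart_noeth (i : X.I) : IsNoetherianRing (X.chart i) := by
  have := chart_fg (X := X) i
  exact Algebra.FiniteType.isNoetherianRing k _

instance (P : X.Point) : IsNoetherianRing P.ring :=
  IsLocalization.isNoetherianRing P.p.primeCompl _ inferInstance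

/-- every element of `K` is a fraction of elements of a chart -/
theorem exists_frac_chart (i : X.I) (z : K) : ∃ p q : X.chart i, (q : K) ≠ 0 ∧ z * q = p := by
  let L : IntermediateField k K :=
    { carrier := {z | ∃ p q : X.chart i, (q : K) ≠ 0 ∧ z * q = p}
      mul_mem' := by
        rintro z w ⟨a, s, hs, h1⟩ ⟨b, t, ht, h2⟩
        refine ⟨a * b, s * t, mul_ne_zero hs ht, ?_⟩
        push_cast
        rw [← h1, ← h2]
        ring
      add_mem' := by
        rintro z w ⟨a, s, hs, h1⟩ ⟨b, t, ht, h2⟩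
        refine ⟨a * t + b * s, s * t, mul_ne_zero hs ht, ?_⟩
        push_cast
        rw [← h1, ← h2]
        ring
      algebraMap_mem' := by
        intro c
        refine ⟨algebraMap k _ c, 1, one_ne_zero, ?_⟩
        simp
      inv_mem' := by
        rintro z ⟨a, s, hs, h1⟩
        by_cases hz : z = 0
        · refine ⟨0, 1, one_ne_zero, ?_⟩
          rw [hz]
          simp
        · refine ⟨s, a, ?_, ?_⟩
          · rw [← h1]
            exact mul_ne_zero hz hs
          · rw [← h1]
            field_simp }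
  have h1 : L = ⊤ := by
    rw [eq_top_iff, ← X.gen, IntermediateField.adjoin_le_iff]
    rintro w ⟨j, l, rfl⟩
    refine ⟨⟨X.x j / X.x i, Algebra.subset_adjoin ⟨j, rfl⟩⟩,
      ⟨X.x l / X.x i, Algebra.subset_adjoin ⟨l, rfl⟩⟩, div_ne_zero (X.x_ne _) (X.x_ne _), ?_⟩
    have := X.x_ne i
    have := X.x_ne j
    have := X.x_ne l
    field_simp
  have h2 : z ∈ L := by rw [h1]; trivial
  exact h2

/-- if the maximal ideal is principal the ring is a valuation ring of `K` -/
theorem dich_of_principal (P : X.Point)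
    (h : (IsLocalRing.maximalIdeal P.ring).IsPrincipal) (z : K) : z ∈ P.ring ∨ z⁻¹ ∈ P.ring := by
  have h1 : ValuationRing P.ring :=
    ((tfae_of_isNoetherianRing_of_isLocalRing_of_isDomain P.ring).out 4 1).1 h
  obtain ⟨p, q, hq, hz⟩ := exists_frac_chart P.i z
  obtain ⟨c, hc⟩ := ValuationRing.cond (⟨p, mem_ring_of_chart P p.2⟩ : P.ring)
    ⟨q, mem_ring_of_chart P q.2⟩
  rcases hc with hc | hc
  · have hc' : (p : K) * c = q := congrArg Subtype.val hc
    right
    have : z⁻¹ = c := by
      have hp0 : (p : K) ≠ 0 := by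
        intro h0
        rw [h0, zero_mul] at hc'
        exact hq hc'.symm
      have hz0 : z ≠ 0 := by
        rintro rfl
        rw [zero_mul] at hz
        exact hp0 hz.symm
      apply inv_eq_of_mul_eq_one_right
      apply mul_right_cancel₀ hq
      rw [one_mul]
      rw [← hz] at hc'
      linear_combination hc'
    rw [this]
    exact c.2
  · have hc' : (q : K) * c = p := congrArg Subtype.val hc
    left
    have : z = c := by
      apply mul_right_cancel₀ hq
      rw [hz, ← hc', mul_comm]
    rw [this]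
    exact c.2

/-- the maximal ideal of the ring of a point -/
theorem mem_max_iff (P : X.Point) (z : P.ring) :
    z ∈ IsLocalRing.maximalIdeal P.ring ↔ P.res z = 0 := by
  rw [res_of_mem P z.2, IsLocalRing.residue_eq_zero_iff]

/-- if `I` is an ideal of the ring of a closed point containing the differences of the
generators of the chart with their values then it contains the maximal ideal -/
theorem max_le (P : X.Point) (I : Ideal P.ring)
    (h : ∀ j, ∃ c : k, ∃ (hz : X.x j / X.x P.i - algebraMap k K c ∈ P.ring),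
      (⟨_, hz⟩ : P.ring) ∈ I ⊓ IsLocalRing.maximalIdeal P.ring) :
    IsLocalRing.maximalIdeal P.ring ≤ I := by
  have key : ∀ z ∈ X.chart P.i, ∃ c : k, ∃ (hz : z - algebraMap k K c ∈ P.ring),
      (⟨_, hz⟩ : P.ring) ∈ I ⊓ IsLocalRing.maximalIdeal P.ring := by
    intro z hz
    unfold chart at hz
    induction hz using Algebra.adjoin_induction with
    | mem z hz =>
      obtain ⟨j, rfl⟩ := hz
      exact h j
    | algebraMap c =>
      refine ⟨c, by rw [sub_self]; exact zero_mem _, ?_⟩
      have : (⟨algebraMap k K c - algebraMap k K c, by rw [sub_self]; exact zero_mem _⟩ : P.ring) =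
        0 := Subtype.ext (sub_self _)
      rw [this]
      exact zero_mem _
    | add z w hz hw h1 h2 =>
      obtain ⟨c, hc, hc'⟩ := h1
      obtain ⟨d, hd, hd'⟩ := h2
      have e : z + w - algebraMap k K (c + d) = (z - algebraMap k K c) + (w - algebraMap k K d) := by
        rw [map_add]; ring
      refine ⟨c + d, by rw [e]; exact add_mem hc hd, ?_⟩
      have : (⟨z + w - algebraMap k K (c + d), by rw [e]; exact add_mem hc hd⟩ : P.ring) =
        ⟨_, hc⟩ + ⟨_, hd⟩ := Subtype.ext e
      rw [this]
      exact add_mem hc' hd'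
    | mul z w hz hw h1 h2 =>
      obtain ⟨c, hc, hc'⟩ := h1
      obtain ⟨d, hd, hd'⟩ := h2
      have hw' : w ∈ P.ring := mem_ring_of_chart P hw
      have e : z * w - algebraMap k K (c * d) =
          w * (z - algebraMap k K c) + algebraMap k K c * (w - algebraMap k K d) := by
        rw [map_mul]; ring
      have hmem : z * w - algebraMap k K (c * d) ∈ P.ring := by
        rw [e]
        exact add_mem (mul_mem hw' hc) (mul_mem (algebraMap_mem _ _) hd)
      refine ⟨c * d, hmem, ?_⟩
      have : (⟨_, hmem⟩ : P.ring) = ⟨w, hw'⟩ * ⟨_, hc⟩ +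
          ⟨algebraMap k K c, algebraMap_mem _ _⟩ * ⟨_, hd⟩ := Subtype.ext e
      rw [this]
      exact add_mem (Ideal.mul_mem_left _ _ hc') (Ideal.mul_mem_left _ _ hd')
  rintro ⟨z, a, s, hs, hz⟩ hm
  obtain ⟨c, hc, hc'⟩ := key a a.2
  have hsu : P.res s ≠ 0 := by
    rw [Ne, res_eq_zero_iff P (mem_ring_of_chart P s.2)]
    push Not
    have hs0 := coe_ne_zero hs
    exact ⟨hs0, 1, s, hs, by rw [inv_mul_cancel₀ hs0]; rfl⟩
  have ha0 : (a : K) ∈ P.ring := mem_ring_of_chart P a.2
  have ham : (⟨a, ha0⟩ : P.ring) ∈ IsLocalRing.maximalIdeal P.ring := by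
    have : (⟨a, ha0⟩ : P.ring) = ⟨s, mem_ring_of_chart P s.2⟩ * ⟨z, a, s, hs, hz⟩ := by
      apply Subtype.ext
      change (a : K) = s * z
      rw [← hz, mul_comm]
    rw [this]
    exact Ideal.mul_mem_left _ _ hm
  have hc0 : c = 0 := by
    by_contra hc0
    have h1 : (⟨algebraMap k K c, algebraMap_mem _ c⟩ : P.ring) ∈ IsLocalRing.maximalIdeal P.ring := by
      have : (⟨algebraMap k K c, algebraMap_mem _ c⟩ : P.ring) = ⟨a, ha0⟩ - ⟨_, hc⟩ := by
        apply Subtype.ext
        change algebraMap k K c = a - (a - algebraMap k K c)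
        ring
      rw [this]
      exact sub_mem ham hc'.2
    rw [IsLocalRing.mem_maximalIdeal] at h1
    apply h1
    refine IsUnit.of_mul_eq_one ⟨algebraMap k K c⁻¹, algebraMap_mem _ c⁻¹⟩ ?_
    apply Subtype.ext
    change algebraMap k K c * algebraMap k K c⁻¹ = 1
    rw [← map_mul, mul_inv_cancel₀ hc0, map_one]
  subst hc0
  have haI : (⟨a, ha0⟩ : P.ring) ∈ I := by
    have : (⟨a, ha0⟩ : P.ring) = ⟨_, hc⟩ := by
      apply Subtype.ext
      change (a : K) = a - algebraMap k K 0
      rw [map_zero, sub_zero]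
    rw [this]
    exact hc'.1
  obtain ⟨hs1, hs2⟩ : (s : K) ≠ 0 ∧ (s : K)⁻¹ ∈ P.ring := by
    rw [Ne, res_eq_zero_iff P (mem_ring_of_chart P s.2)] at hsu
    push Not at hsu
    exact hsu
  have : (⟨z, a, s, hs, hz⟩ : P.ring) = ⟨(s : K)⁻¹, hs2⟩ * ⟨a, ha0⟩ := by
    apply Subtype.ext
    change z = (s : K)⁻¹ * a
    rw [← hz]
    field_simp
  rw [this]
  exact Ideal.mul_mem_left _ _ haI

end ProjVar

end Pool.Agent.H71.Ses
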