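import Pool.Agent.H71.Ses.E5

set_option linter.style.haveILetI false
set_option linter.unusedSectionVars false
set_option linter.unusedVariables false

open scoped WithZero

/-!
# The surface `E × C`
-/

namespace Pool.Agent.H71.Ses

open ProjVar

theorem ProjVar.mem_of_eq {k K : Type} [Field k] [Field K] [Algebra k K] {X : ProjVar k K}
    {P : X.Point} {z w : K} (h : w ∈ P.ring) (e : z = w) : z ∈ P.ring := by
  rw [e]; exact h

/-- the function field `KC` of `C : a⁴ + b⁴ = 2` and the function field `K` of `E × C` -/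
structure IsModel (k KC K : Type) [Field k] [Field KC] [Field K] [Algebra k KC] [Algebra KC K]
    [Algebra k K] (a b : KC) (x y : K) : Prop where
  ab : a ^ 4 + b ^ 4 = 2
  xy : y ^ 2 = x ^ 3 - 2 * x
  a_tr : Transcendental k a
  x_tr : Transcendental KC x
  genC : IntermediateField.adjoin k {a, b} = ⊤
  genK : IntermediateField.adjoin KC {x, y} = ⊤
  univC : ∀ (κ : Type) [Field κ] [Algebra k κ] (a' b' : κ), a' ^ 4 + b' ^ 4 = 2 →
    Transcendental k a' → ∃ φ : KC →ₐ[k] κ, φ a = a' ∧ φ b = b'
  univE : ∀ (κ : Type) [Field κ] (φ : KC →+* κ) (x' y' : κ), y' ^ 2 = x' ^ 3 - 2 * x' →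
    ∃ χ : Algebra.adjoin KC {x, y} →+* κ, (∀ c, χ (algebraMap KC _ c) = φ c) ∧
      χ ⟨x, Algebra.subset_adjoin (by simp)⟩ = x' ∧ χ ⟨y, Algebra.subset_adjoin (by simp)⟩ = y'
  ptC : ∀ α β : k, α ^ 4 + β ^ 4 = 2 → ∃ χ : Algebra.adjoin k {a, b} →ₐ[k] k,
    χ ⟨a, Algebra.subset_adjoin (by simp)⟩ = α ∧ χ ⟨b, Algebra.subset_adjoin (by simp)⟩ = β

variable {k KC K : Type} [Field k] [IsAlgClosed k] [CharP k 5] [Field KC] [Field K] [Algebra k KC]
  [Algebra KC K] [Algebra k K] [IsScalarTower k KC K] {a b : KC} {x y : K}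

theorem charP_of_algebra (k K : Type) [Field k] [CharP k 5] [Field K] [Algebra k K] : CharP K 5 :=
  charP_of_injective_algebraMap (algebraMap k K).injective 5

namespace IsModel

variable (M : IsModel k KC K a b x y)

include M

theorem x_ne : x ≠ 0 := by
  rintro rfl
  exact M.x_tr isAlgebraic_zero

theorem a_ne : a ≠ 0 := by
  rintro rfl
  exact M.a_tr isAlgebraic_zero

theorem y_ne : y ≠ 0 := by
  intro h0
  have h := M.xy
  rw [h0] at h
  apply M.x_tr
  refine ⟨Polynomial.X ^ 3 - 2 * Polynomial.X, ?_, ?_⟩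
  · intro h1
    have := congrArg (fun p => Polynomial.coeff p 3) h1
    simp [Polynomial.coeff_X] at this
  · simp only [map_sub, map_mul, map_pow, Polynomial.aeval_X, map_ofNat]
    linear_combination -h

theorem b_ne : b ≠ 0 := by
  intro h0
  have h := M.ab
  rw [h0] at h
  apply M.a_tr
  refine ⟨Polynomial.X ^ 4 - 2, ?_, ?_⟩
  · intro h1
    have := congrArg (fun p => Polynomial.coeff p 4) h1
    simp at this
  · simp only [map_sub, map_pow, Polynomial.aeval_X, map_ofNat]
    linear_combination h

end IsModel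

/-- homogeneous coordinates for `C` -/
def cc (a b : KC) : Fin 3 → KC := ![a, b, 1]

/-- homogeneous coordinates for `E` -/
def ee (x y : K) : Fin 3 → K := ![x, y, 1]

/-- `C` as a projective variety -/
def CX (M : IsModel k KC K a b x y) : ProjVar k KC where
  I := Fin 3
  finite := inferInstance
  x := cc a b
  x_ne := by
    intro i
    fin_cases i
    · exact M.a_ne
    · exact M.b_ne
    · exact one_ne_zero
  gen := by
    rw [eq_top_iff, ← M.genC, IntermediateField.adjoin_le_iff]
    rintro z (rfl | rfl)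
    · exact IntermediateField.subset_adjoin k _ ⟨0, 2, by simp [cc]⟩
    · exact IntermediateField.subset_adjoin k _ ⟨1, 2, by simp [cc]⟩

/-- an intermediate field containing all coordinates is everything -/
theorem IsModel.eq_top (M : IsModel k KC K a b x y) (L : IntermediateField k K)
    (ha : algebraMap KC K a ∈ L) (hb : algebraMap KC K b ∈ L) (hx : x ∈ L) (hy : y ∈ L) :
    L = ⊤ := by
  have h1 : (L.comap (IsScalarTower.toAlgHom k KC K)) = ⊤ := by
    rw [eq_top_iff, ← M.genC, IntermediateField.adjoin_le_iff]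
    rintro z (rfl | rfl)
    · exact ha
    · exact hb
  have h2 : ∀ c : KC, algebraMap KC K c ∈ L := by
    intro c
    have : c ∈ L.comap (IsScalarTower.toAlgHom k KC K) := by rw [h1]; trivial
    exact this
  let L' : IntermediateField KC K := { L.toSubfield with algebraMap_mem' := h2 }
  have h3 : L' = ⊤ := by
    rw [eq_top_iff, ← M.genK, IntermediateField.adjoin_le_iff]
    rintro z (rfl | rfl)
    · exact hx
    · exact hy
  rw [eq_top_iff]
  rintro z -
  have : z ∈ L' := by rw [h3]; trivial
  exact this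

/-- the surface `E × C` -/
def SX (M : IsModel k KC K a b x y) : ProjVar k K where
  I := Fin 3 × Fin 3
  finite := inferInstance
  x := fun p => ee x y p.1 * algebraMap KC K (cc a b p.2)
  x_ne := by
    rintro ⟨i, j⟩
    apply mul_ne_zero
    · fin_cases i
      · exact M.x_ne
      · exact M.y_ne
      · exact one_ne_zero
    · rw [Ne, map_eq_zero]
      exact (CX M).x_ne j
  gen := by
    apply M.eq_top
    · exact IntermediateField.subset_adjoin k _ ⟨(2, 0), (2, 2), by simp [cc, ee]⟩
    · exact IntermediateField.subset_adjoin k _ ⟨(2, 1), (2, 2), by simp [cc, ee]⟩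
    · exact IntermediateField.subset_adjoin k _ ⟨(0, 2), (2, 2), by simp [cc, ee]⟩
    · exact IntermediateField.subset_adjoin k _ ⟨(1, 2), (2, 2), by simp [cc, ee]⟩

theorem ee_ne (M : IsModel k KC K a b x y) (i : Fin 3) : ee x y i ≠ 0 := by
  fin_cases i
  · exact M.x_ne
  · exact M.y_ne
  · exact one_ne_zero

theorem cc_ne (M : IsModel k KC K a b x y) (i : Fin 3) : cc a b i ≠ 0 := (CX M).x_ne i

section Points

variable {M : IsModel k KC K a b x y} (P : (SX M).Point)

theorem e_mem (i : Fin 3) : ee x y i / ee x y P.i.1 ∈ P.ring := by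
  have h := x_div_mem P (i, P.i.2)
  have h1 : (SX M).x (i, P.i.2) / (SX M).x P.i = ee x y i / ee x y P.i.1 := by
    change (ee x y i * algebraMap KC K (cc a b P.i.2)) /
      (ee x y P.i.1 * algebraMap KC K (cc a b P.i.2)) = _
    rw [mul_div_mul_right]
    rw [Ne, map_eq_zero]
    exact cc_ne M _
  rwa [h1] at h

theorem c_mem (j : Fin 3) : algebraMap KC K (cc a b j / cc a b P.i.2) ∈ P.ring := by
  have h := x_div_mem P (P.i.1, j)
  have h1 : (SX M).x (P.i.1, j) / (SX M).x P.i = algebraMap KC K (cc a b j / cc a b P.i.2) := by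
    change (ee x y P.i.1 * algebraMap KC K (cc a b j)) /
      (ee x y P.i.1 * algebraMap KC K (cc a b P.i.2)) = _
    rw [mul_div_mul_left _ _ (ee_ne M _), map_div₀]
  rwa [h1] at h

theorem x_div_eq (i j : Fin 3 × Fin 3) : (SX M).x i / (SX M).x j =
    (ee x y i.1 / ee x y j.1) * algebraMap KC K (cc a b i.2 / cc a b j.2) := by
  change (ee x y i.1 * algebraMap KC K (cc a b i.2)) /
      (ee x y j.1 * algebraMap KC K (cc a b j.2)) = _
  rw [map_div₀, mul_div_mul_comm]

/-- the position of the point with respect to `E` -/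
theorem e_cases : (x ∈ P.ring ∧ y ∈ P.ring) ∨
    (P.i.1 = 1 ∧ P.splz.R (x / y) 0 ∧ P.splz.R y⁻¹ 0 ∧ P.splz.R x⁻¹ 0 ∧ P.splz.R (y / x ^ 2) 0) := by
  have hxy := M.xy
  have hx0 := M.x_ne
  have hy0 := M.y_ne
  have hK : CharP K 5 := charP_of_algebra k K
  have hκ : CharP P.κ 5 := charP_of_algebra k P.κ
  have h := e_mem P
  have hcases : P.i.1 = 0 ∨ P.i.1 = 1 ∨ P.i.1 = 2 := by
    generalize P.i.1 = i
    revert i
    decide
  rcases hcases with hi | hi | hi
  · left
    have h1 : y / x ∈ P.ring := by have := h 1; rw [hi] at this; exact this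
    have h2 : x⁻¹ ∈ P.ring := by
      have := h 2; rw [hi] at this
      have e : ee x y 2 / ee x y 0 = x⁻¹ := by simp [ee]
      rwa [e] at this
    have h3 : x ∈ P.ring := by
      have e : x = (y / x) * (y / x) + (x⁻¹ + x⁻¹) := by
        field_simp
        linear_combination -hxy
      exact mem_of_eq (add_mem (mul_mem h1 h1) (add_mem h2 h2)) e
    refine ⟨h3, ?_⟩
    have e : y = (y / x) * x := by field_simp
    exact mem_of_eq (mul_mem h1 h3) e
  · have h1 : x / y ∈ P.ring := by have := h 0; rw [hi] at this; exact this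
    have h2 : y⁻¹ ∈ P.ring := by
      have := h 2; rw [hi] at this
      have e : ee x y 2 / ee x y 1 = y⁻¹ := by simp [ee]
      rwa [e] at this
    by_cases hy : P.res y⁻¹ = 0
    · right
      have r2 : P.splz.R y⁻¹ 0 := ⟨h2, hy⟩
      have r1 : P.splz.R (x / y) 0 := by
        have r := splz_mem P h1
        have e : (x / y) ^ 3 = y⁻¹ * (1 + 2 * (x / y) * y⁻¹) := by
          field_simp
          linear_combination -hxy
        have r3 := P.splz.pow r 3
        rw [e] at r3
        have r4 := P.splz.mul r2 (P.splz.add P.splz.one (P.splz.mul (P.splz.mul P.splz.two r) r2))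
        have r5 := P.splz.uniq r3 r4
        rw [zero_mul] at r5
        have r6 := pow_eq_zero_iff (three_ne_zero) |>.1 r5
        exact ⟨h1, r6⟩
      have r0 := P.splz.add P.splz.one (P.splz.mul (P.splz.mul P.splz.two r1) r2)
      have r0' : P.splz.R (1 + 2 * (x / y) * y⁻¹) 1 := P.splz.congr r0 rfl (by ring)
      refine ⟨hi, r1, r2, ?_, ?_⟩
      · refine P.splz.fin_of_mul (n := (x / y) ^ 2) ?_ (P.splz.pow r1 2) r0'
          one_ne_zero (by ring)
        field_simp
        linear_combination hxy
      · refine P.splz.fin_of_mul (n := x / y) ?_ r1 r0' one_ne_zero (by ring)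
        field_simp
        linear_combination hxy
    · left
      have r := P.splz.inv (splz_mem P h2) hy
      rw [inv_inv] at r
      have h3 : y ∈ P.ring := r.1
      refine ⟨?_, h3⟩
      have e : x = (x / y) * y := by field_simp
      exact mem_of_eq (mul_mem h1 h3) e
  · left
    have h1 := h 0
    have h2 := h 1
    rw [hi] at h1 h2
    have e1 : ee x y 0 / ee x y 2 = x := by simp [ee]
    have e2 : ee x y 1 / ee x y 2 = y := by simp [ee]
    rw [e1] at h1
    rw [e2] at h2
    exact ⟨h1, h2⟩

/-- the position of the point with respect to `C` -/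
theorem c_cases : (algebraMap KC K a ∈ P.ring ∧ algebraMap KC K b ∈ P.ring) ∨
    ((P.i.2 = 0 ∨ P.i.2 = 1) ∧ P.splz.R (algebraMap KC K a⁻¹) 0 ∧
      algebraMap KC K (b / a) ∈ P.ring ∧ algebraMap KC K (a / b) ∈ P.ring) := by
  have hab := M.ab
  have hK : CharP K 5 := charP_of_algebra k K
  have ha0 := M.a_ne
  have hb0 := M.b_ne
  have h := c_mem P
  have hcases : P.i.2 = 0 ∨ P.i.2 = 1 ∨ P.i.2 = 2 := by
    generalize P.i.2 = i
    revert i
    decide
  have hab' : (algebraMap KC K a) ^ 4 + (algebraMap KC K b) ^ 4 = 2 := by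
    rw [← map_pow, ← map_pow, ← map_add, hab, map_ofNat]
  have ha0' : algebraMap KC K a ≠ 0 := by rw [Ne, map_eq_zero]; exact ha0
  have hb0' : algebraMap KC K b ≠ 0 := by rw [Ne, map_eq_zero]; exact hb0
  rw [map_inv₀, map_div₀, map_div₀]
  rcases hcases with hi | hi | hi
  · have h1 : algebraMap KC K b / algebraMap KC K a ∈ P.ring := by
      have := h 1; rw [hi] at this
      have e : cc a b 1 / cc a b 0 = b / a := by simp [cc]
      rwa [e, map_div₀] at this
    have h2 : (algebraMap KC K a)⁻¹ ∈ P.ring := by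
      have := h 2; rw [hi] at this
      have e : cc a b 2 / cc a b 0 = a⁻¹ := by simp [cc]
      rwa [e, map_inv₀] at this
    revert h1 h2 hab' ha0' hb0'
    generalize algebraMap KC K a = A
    generalize algebraMap KC K b = B
    intro hab' hA hB h1 h2
    by_cases ha : P.res A⁻¹ = 0
    · right
      have r2 : P.splz.R A⁻¹ 0 := ⟨h2, ha⟩
      refine ⟨Or.inl hi, r2, h1, ?_⟩
      have r := splz_mem P h1
      have e : 1 + (B / A) ^ 4 = 2 * A⁻¹ ^ 4 := by
        field_simp
        linear_combination hab'
      have r3 := P.splz.add P.splz.one (P.splz.pow r 4)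
      rw [e] at r3
      have r4 := P.splz.mul P.splz.two (P.splz.pow r2 4)
      have r5 := P.splz.uniq r3 r4
      have r6 : P.res (B / A) ≠ 0 := by
        intro h0
        rw [h0] at r5
        apply one_ne_zero (α := P.κ)
        linear_combination r5
      have r7 := P.splz.inv r r6
      rw [inv_div] at r7
      exact r7.1
    · left
      have r := P.splz.inv (splz_mem P h2) ha
      rw [inv_inv] at r
      have h3 : A ∈ P.ring := r.1
      refine ⟨h3, ?_⟩
      have e : B = (B / A) * A := by field_simp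
      exact mem_of_eq (mul_mem h1 h3) e
  · have h1 : algebraMap KC K a / algebraMap KC K b ∈ P.ring := by
      have := h 0; rw [hi] at this
      have e : cc a b 0 / cc a b 1 = a / b := by simp [cc]
      rwa [e, map_div₀] at this
    have h2 : (algebraMap KC K b)⁻¹ ∈ P.ring := by
      have := h 2; rw [hi] at this
      have e : cc a b 2 / cc a b 1 = b⁻¹ := by simp [cc]
      rwa [e, map_inv₀] at this
    revert h1 h2 hab' ha0' hb0'
    generalize algebraMap KC K a = A
    generalize algebraMap KC K b = B
    intro hab' hA hB h1 h2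
    by_cases hb : P.res B⁻¹ = 0
    · right
      have r2 : P.splz.R B⁻¹ 0 := ⟨h2, hb⟩
      have r := splz_mem P h1
      have e : 1 + (A / B) ^ 4 = 2 * B⁻¹ ^ 4 := by
        field_simp
        linear_combination hab'
      have r3 := P.splz.add P.splz.one (P.splz.pow r 4)
      rw [e] at r3
      have r4 := P.splz.mul P.splz.two (P.splz.pow r2 4)
      have r5 := P.splz.uniq r3 r4
      have r6 : P.res (A / B) ≠ 0 := by
        intro h0
        rw [h0] at r5
        apply one_ne_zero (α := P.κ)
        linear_combination r5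
      have r7 := P.splz.inv r r6
      rw [inv_div] at r7
      refine ⟨Or.inr hi, ?_, r7.1, h1⟩
      have r8 := P.splz.mul r2 r7
      exact P.splz.congr r8 (by field_simp) (by ring)
    · left
      have r := P.splz.inv (splz_mem P h2) hb
      rw [inv_inv] at r
      have h3 : B ∈ P.ring := r.1
      refine ⟨?_, h3⟩
      have e : A = (A / B) * B := by field_simp
      exact mem_of_eq (mul_mem h1 h3) e
  · left
    have h1 := h 0
    have h2 := h 1
    rw [hi] at h1 h2
    have e1 : cc a b 0 / cc a b 2 = a := by simp [cc]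
    have e2 : cc a b 1 / cc a b 2 = b := by simp [cc]
    rw [e1] at h1
    rw [e2] at h2
    exact ⟨h1, h2⟩

end Points

end Pool.Agent.H71.Ses
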