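import Pool.Agent.H71.Ses.F1

set_option linter.style.haveILetI false
set_option linter.unusedSectionVars false
set_option linter.unusedVariables false

open scoped WithZero

namespace Pool.Agent.H71.Ses

namespace ProjVar

section Cst

variable {k K : Type} [Field k] [Field K] [Algebra k K] {X : ProjVar k K} {P : X.Point}

/-- membership in an ideal of the ring of a point -/
def InI (I : Ideal P.ring) (z : K) : Prop := ∃ h : z ∈ P.ring, (⟨z, h⟩ : P.ring) ∈ I

theorem InI.add {I : Ideal P.ring} {z w : K} (h1 : InI I z) (h2 : InI I w) : InI I (z + w) :=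
  ⟨add_mem h1.1 h2.1, add_mem h1.2 h2.2⟩

theorem InI.mul {I : Ideal P.ring} {z w : K} (h1 : InI I z) (h2 : w ∈ P.ring) : InI I (w * z) :=
  ⟨mul_mem h2 h1.1, Ideal.mul_mem_left I ⟨w, h2⟩ h1.2⟩

theorem InI.zero {I : Ideal P.ring} : InI I 0 := ⟨zero_mem _, I.zero_mem⟩

theorem InI.congr {I : Ideal P.ring} {z w : K} (h1 : InI I z) (h : w = z) : InI I w := by
  rw [h]; exact h1

theorem InI.mono {I J : Ideal P.ring} (hIJ : I ≤ J) {z : K} (h1 : InI I z) : InI J z :=
  ⟨h1.1, hIJ h1.2⟩

theorem inI_max {z : K} : InI (IsLocalRing.maximalIdeal P.ring) z ↔ P.splz.R z 0 := by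
  constructor
  · rintro ⟨h1, h2⟩
    exact ⟨h1, (mem_max_iff P _).1 h2⟩
  · rintro ⟨h1, h2⟩
    exact ⟨h1, (mem_max_iff P _).2 h2⟩

/-- `z` is congruent to a constant modulo `I` -/
def Cst (I : Ideal P.ring) (z : K) : Prop :=
  ∃ c : k, InI (I ⊓ IsLocalRing.maximalIdeal P.ring) (z - algebraMap k K c)

theorem Cst.mem {I : Ideal P.ring} {z : K} (h : Cst I z) : z ∈ P.ring := by
  obtain ⟨c, hc, -⟩ := h
  have := add_mem hc (algebraMap_mem P.ring c)
  rwa [sub_add_cancel] at this

theorem Cst.const {I : Ideal P.ring} (c : k) : Cst I (algebraMap k K c) :=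
  ⟨c, by rw [sub_self]; exact InI.zero⟩

theorem Cst.one {I : Ideal P.ring} : Cst I 1 := by
  have := Cst.const (I := I) 1
  rwa [map_one] at this

theorem Cst.mul {I : Ideal P.ring} {z w : K} (hz : Cst I z) (hw : Cst I w) : Cst I (z * w) := by
  have hw' := hw.mem
  obtain ⟨c, hc⟩ := hz
  obtain ⟨d, hd⟩ := hw
  refine ⟨c * d, ?_⟩
  refine ((hc.mul hw').add (hd.mul (algebraMap_mem P.ring c))).congr ?_
  rw [map_mul]
  ring

theorem Cst.inv {I : Ideal P.ring} {z : K} (hz : Cst I z) (hz' : z⁻¹ ∈ P.ring) (hz0 : z ≠ 0) :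
    Cst I z⁻¹ := by
  have hz1 := hz.mem
  obtain ⟨c, hc⟩ := hz
  have hc0 : c ≠ 0 := by
    rintro rfl
    rw [map_zero, sub_zero] at hc
    have h1 : InI (IsLocalRing.maximalIdeal P.ring) (z⁻¹ * z) := (hc.mono inf_le_right).mul hz'
    rw [inv_mul_cancel₀ hz0, inI_max] at h1
    exact one_ne_zero (P.splz.uniq P.splz.one h1)
  refine ⟨c⁻¹, ?_⟩
  have hc0' : algebraMap k K c ≠ 0 := by rw [Ne, map_eq_zero]; exact hc0
  refine (hc.mul (w := -(z⁻¹ * algebraMap k K c⁻¹))
    (neg_mem (mul_mem hz' (algebraMap_mem _ _)))).congr ?_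
  rw [map_inv₀]
  field_simp
  ring

theorem Cst.of_in {I : Ideal P.ring} {z : K} {c : k} (h : InI I (z - algebraMap k K c))
    (h' : P.splz.R z (algebraMap k P.κ c)) : Cst I z := by
  refine ⟨c, h.1, h.2, ?_⟩
  have h1 := P.splz.sub h' (splz_const P c)
  rw [sub_self] at h1
  exact (inI_max.2 h1).2

theorem in_span {z p w : K} (hp : p ∈ P.ring) (hw : w ∈ P.ring) (h : z = w * p) :
    InI (Ideal.span {(⟨p, hp⟩ : P.ring)}) z := by
  have : InI (Ideal.span {(⟨p, hp⟩ : P.ring)}) p := ⟨hp, Ideal.subset_span rfl⟩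
  exact (this.mul hw).congr h

end Cst

end ProjVar

open ProjVar

variable {k KC K : Type} [Field k] [IsAlgClosed k] [CharP k 5] [Field KC] [Field K] [Algebra k KC]
  [Algebra KC K] [Algebra k K] [IsScalarTower k KC K] {a b : KC} {x y : K}

section CPoints

variable {M : IsModel k KC K a b x y} (P : (CX M).Point)

theorem c_mem' (j : Fin 3) : cc a b j / cc a b P.i ∈ P.ring := x_div_mem P j

/-- the position of a point of `C` -/
theorem c_cases' : ((a ∈ P.ring ∧ b ∈ P.ring)) ∨
    ((P.i = (0 : Fin 3) ∨ P.i = (1 : Fin 3)) ∧ P.splz.R a⁻¹ 0 ∧ b / a ∈ P.ring ∧ a / b ∈ P.ring) := by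
  have hab := M.ab
  have hK : CharP KC 5 := charP_of_algebra k KC
  have ha0 := M.a_ne
  have hb0 := M.b_ne
  have h := c_mem' P
  have hcases : P.i = (0 : Fin 3) ∨ P.i = (1 : Fin 3) ∨ P.i = (2 : Fin 3) := by
    have : ∀ i : Fin 3, i = 0 ∨ i = 1 ∨ i = 2 := by decide
    exact this P.i
  rcases hcases with hi | hi | hi
  · have h1 : b / a ∈ P.ring := by
      have := h 1; rw [hi] at this
      exact this
    have h2 : a⁻¹ ∈ P.ring := by
      have := h 2; rw [hi] at this
      have e : a⁻¹ = cc a b 2 / cc a b 0 := by simp [cc]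
      exact mem_of_eq this e
    by_cases ha : P.res a⁻¹ = 0
    · right
      have r2 : P.splz.R a⁻¹ 0 := ⟨h2, ha⟩
      refine ⟨Or.inl hi, r2, h1, ?_⟩
      have r := splz_mem P h1
      have e : 1 + (b / a) ^ 4 = 2 * a⁻¹ ^ 4 := by
        field_simp
        linear_combination hab
      have r3 := P.splz.congr (P.splz.add P.splz.one (P.splz.pow r 4)) e rfl
      have r4 := P.splz.mul P.splz.two (P.splz.pow r2 4)
      have r5 := P.splz.uniq r3 r4
      have r6 : P.res (b / a) ≠ 0 := by
        intro h0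
        rw [h0] at r5
        apply one_ne_zero (α := P.κ)
        linear_combination r5
      have r7 := P.splz.inv r r6
      exact mem_of_eq r7.1 (by rw [inv_div])
    · left
      have r := P.splz.inv (splz_mem P h2) ha
      have h3 : a ∈ P.ring := mem_of_eq r.1 (by rw [inv_inv])
      refine ⟨h3, ?_⟩
      have e : b = (b / a) * a := by field_simp
      exact mem_of_eq (mul_mem h1 h3) e
  · have h1 : a / b ∈ P.ring := by
      have := h 0; rw [hi] at this
      exact this
    have h2 : b⁻¹ ∈ P.ring := by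
      have := h 2; rw [hi] at this
      have e : b⁻¹ = cc a b 2 / cc a b 1 := by simp [cc]
      exact mem_of_eq this e
    by_cases hb : P.res b⁻¹ = 0
    · right
      have r2 : P.splz.R b⁻¹ 0 := ⟨h2, hb⟩
      have r := splz_mem P h1
      have e : 1 + (a / b) ^ 4 = 2 * b⁻¹ ^ 4 := by
        field_simp
        linear_combination hab
      have r3 := P.splz.congr (P.splz.add P.splz.one (P.splz.pow r 4)) e rfl
      have r4 := P.splz.mul P.splz.two (P.splz.pow r2 4)
      have r5 := P.splz.uniq r3 r4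
      have r6 : P.res (a / b) ≠ 0 := by
        intro h0
        rw [h0] at r5
        apply one_ne_zero (α := P.κ)
        linear_combination r5
      have r7 := P.splz.congr (P.splz.inv r r6) (z' := b / a) (by rw [inv_div]) rfl
      refine ⟨Or.inr hi, ?_, r7.1, h1⟩
      have r8 := P.splz.mul r2 r7
      exact P.splz.congr r8 (by field_simp) (by ring)
    · left
      have r := P.splz.inv (splz_mem P h2) hb
      have h3 : b ∈ P.ring := mem_of_eq r.1 (by rw [inv_inv])
      refine ⟨?_, h3⟩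
      have e : a = (a / b) * b := by field_simp
      exact mem_of_eq (mul_mem h1 h3) e
  · left
    have h1 := h 0
    have h2 := h 1
    rw [hi] at h1 h2
    have e1 : a = cc a b 0 / cc a b 2 := by simp [cc]
    have e2 : b = cc a b 1 / cc a b 2 := by simp [cc]
    exact ⟨mem_of_eq h1 e1, mem_of_eq h2 e2⟩

/-- a local parameter at a closed point of `C` -/
theorem c_param (hP : P.IsClosed) : ∃ (p : KC) (hp : p ∈ P.ring), p ≠ 0 ∧ P.splz.R p 0 ∧
    ∀ j, Cst (Ideal.span {(⟨p, hp⟩ : P.ring)}) (cc a b j / cc a b P.i) := by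
  have hab := M.ab
  have hK : CharP KC 5 := charP_of_algebra k KC
  have hκ : CharP P.κ 5 := charP_of_algebra k P.κ
  have ha0 := M.a_ne
  have hb0 := M.b_ne
  have h := c_mem' P
  have h4 : (4 : P.κ) ≠ 0 := by
    have : (4 : P.κ) = 2 * 2 := by norm_num
    rw [this]; exact mul_ne_zero two_ne two_ne
  have hcases : P.i = (0 : Fin 3) ∨ P.i = (1 : Fin 3) ∨ P.i = (2 : Fin 3) := by
    have : ∀ i : Fin 3, i = 0 ∨ i = 1 ∨ i = 2 := by decide
    exact this P.i
  -- the ring of `C` only depends on `Cst` for `a`, `b` in the finite case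
  have fin : ∀ (p : KC) (hp : p ∈ P.ring), Cst (Ideal.span {(⟨p, hp⟩ : P.ring)}) a →
      Cst (Ideal.span {(⟨p, hp⟩ : P.ring)}) b →
      ∀ j, Cst (Ideal.span {(⟨p, hp⟩ : P.ring)}) (cc a b j / cc a b P.i) := by
    intro p hp h1 h2 j
    have hj : Cst (Ideal.span {(⟨p, hp⟩ : P.ring)}) (cc a b j) := by
      fin_cases j
      · exact h1
      · exact h2
      · exact Cst.one
    have hi : Cst (Ideal.span {(⟨p, hp⟩ : P.ring)}) (cc a b P.i) := by
      rcases hcases with hi | hi | hi <;> rw [hi]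
      · exact h1
      · exact h2
      · exact Cst.one
    have hinv : (cc a b P.i)⁻¹ ∈ P.ring := by
      have := h 2
      exact mem_of_eq this (by simp [cc])
    have h3 := hj.mul (hi.inv hinv (cc_ne M _))
    rwa [← div_eq_mul_inv] at h3
  rcases c_cases' P with ⟨h1, h2⟩ | ⟨hi, h1, h2, h3⟩
  · obtain ⟨α, hα⟩ := closed_res P hP h1
    obtain ⟨β, hβ⟩ := closed_res P hP h2
    have ra : P.splz.R a (algebraMap k P.κ α) := ⟨h1, hα⟩
    have rb : P.splz.R b (algebraMap k P.κ β) := ⟨h2, hβ⟩
    have hαβ : α ^ 4 + β ^ 4 = 2 := by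
      have r := P.splz.add (P.splz.pow ra 4) (P.splz.pow rb 4)
      have r2 := P.splz.uniq (P.splz.congr r hab rfl) P.splz.two
      apply (algebraMap k P.κ).injective
      rw [map_add, map_pow, map_pow, r2, map_ofNat]
    have hαβ' : (algebraMap k KC α) ^ 4 + (algebraMap k KC β) ^ 4 = 2 := by
      rw [← map_pow, ← map_pow, ← map_add, hαβ, map_ofNat]
    have haα : a - algebraMap k KC α ≠ 0 := by
      intro h0
      apply M.a_tr
      rw [sub_eq_zero.1 h0]
      exact isAlgebraic_algebraMap α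
    have hbβ : b - algebraMap k KC β ≠ 0 := by
      intro h0
      apply M.a_tr
      refine ⟨Polynomial.X ^ 4 - Polynomial.C (α ^ 4), ?_, ?_⟩
      · exact (Polynomial.monic_X_pow_sub_C _ (by norm_num)).ne_zero
      · simp only [map_sub, map_pow, Polynomial.aeval_X, Polynomial.aeval_C]
        have : b = algebraMap k KC β := by linear_combination h0
        rw [this] at hab
        linear_combination hab - hαβ'
    have raα : P.splz.R (a - algebraMap k KC α) 0 :=
      P.splz.congr (P.splz.sub ra (splz_const P α)) rfl (sub_self _)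
    have rbβ : P.splz.R (b - algebraMap k KC β) 0 :=
      P.splz.congr (P.splz.sub rb (splz_const P β)) rfl (sub_self _)
    have key : ∀ (u : KC) (γ : k), P.splz.R u (algebraMap k P.κ γ) → γ ≠ 0 →
        (u ^ 3 + u ^ 2 * algebraMap k KC γ + u * algebraMap k KC γ ^ 2 + algebraMap k KC γ ^ 3) ∈
          P.ring ∧
        (u ^ 3 + u ^ 2 * algebraMap k KC γ + u * algebraMap k KC γ ^ 2 + algebraMap k KC γ ^ 3)⁻¹ ∈
          P.ring ∧
        (u ^ 3 + u ^ 2 * algebraMap k KC γ + u * algebraMap k KC γ ^ 2 + algebraMap k KC γ ^ 3) ≠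
          0 := by
      intro u γ hu hγ
      have rγ := splz_const P γ
      have r := P.splz.add (P.splz.add (P.splz.add (P.splz.pow hu 3)
        (P.splz.mul (P.splz.pow hu 2) rγ)) (P.splz.mul hu (P.splz.pow rγ 2))) (P.splz.pow rγ 3)
      have hne : algebraMap k P.κ γ ^ 3 + algebraMap k P.κ γ ^ 2 * algebraMap k P.κ γ +
          algebraMap k P.κ γ * algebraMap k P.κ γ ^ 2 + algebraMap k P.κ γ ^ 3 ≠ 0 := by
        have : algebraMap k P.κ γ ^ 3 + algebraMap k P.κ γ ^ 2 * algebraMap k P.κ γ +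
          algebraMap k P.κ γ * algebraMap k P.κ γ ^ 2 + algebraMap k P.κ γ ^ 3 =
          4 * algebraMap k P.κ γ ^ 3 := by ring
        rw [this]
        apply mul_ne_zero h4
        apply pow_ne_zero
        rw [Ne, map_eq_zero]
        exact hγ
      exact ⟨r.1, (P.splz.inv r hne).1, P.splz.ne_zero r hne⟩
    have hrel : (a - algebraMap k KC α) * (a ^ 3 + a ^ 2 * algebraMap k KC α +
        a * algebraMap k KC α ^ 2 + algebraMap k KC α ^ 3) = -((b - algebraMap k KC β) *
        (b ^ 3 + b ^ 2 * algebraMap k KC β + b * algebraMap k KC β ^ 2 + algebraMap k KC β ^ 3)) := by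
      linear_combination hab - hαβ'
    by_cases hα0 : α = 0
    · have hβ0 : β ≠ 0 := by
        rintro rfl
        rw [hα0] at hαβ
        have : (2 : k) = 0 := by rw [← hαβ]; ring
        exact two_ne this
      obtain ⟨g1, g2, g3⟩ := key b β rb hβ0
      refine ⟨a - algebraMap k KC α, raα.1, haα, raα, ?_⟩
      refine fin _ raα.1 (Cst.of_in (c := α) (in_span raα.1 (one_mem _) (one_mul _).symm) ra)
        (Cst.of_in (c := β) (in_span raα.1 (w := -(a ^ 3 + a ^ 2 * algebraMap k KC α +
        a * algebraMap k KC α ^ 2 + algebraMap k KC α ^ 3) * (b ^ 3 + b ^ 2 * algebraMap k KC β +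
          b * algebraMap k KC β ^ 2 + algebraMap k KC β ^ 3)⁻¹) ?_ ?_) rb)
      · have hα' := algebraMap_mem P.ring α
        exact mul_mem (neg_mem (add_mem (add_mem (add_mem (pow_mem h1 3) (mul_mem (pow_mem h1 2)
          hα')) (mul_mem h1 (pow_mem hα' 2))) (pow_mem hα' 3))) g2
      · apply mul_right_cancel₀ g3
        have e := hrel
        generalize (b ^ 3 + b ^ 2 * algebraMap k KC β + b * algebraMap k KC β ^ 2 +
          algebraMap k KC β ^ 3) = g at *
        generalize (a ^ 3 + a ^ 2 * algebraMap k KC α + a * algebraMap k KC α ^ 2 +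
          algebraMap k KC α ^ 3) = g' at *
        field_simp
        linear_combination e
    · obtain ⟨g1, g2, g3⟩ := key a α ra hα0
      refine ⟨b - algebraMap k KC β, rbβ.1, hbβ, rbβ, ?_⟩
      refine fin _ rbβ.1 (Cst.of_in (c := α) (in_span rbβ.1 (w := -(b ^ 3 + b ^ 2 * algebraMap k KC β +
          b * algebraMap k KC β ^ 2 + algebraMap k KC β ^ 3) * (a ^ 3 + a ^ 2 * algebraMap k KC α +
        a * algebraMap k KC α ^ 2 + algebraMap k KC α ^ 3)⁻¹) ?_ ?_) ra)
        (Cst.of_in (c := β) (in_span rbβ.1 (one_mem _) (one_mul _).symm) rb)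
      · have hβ' := algebraMap_mem P.ring β
        exact mul_mem (neg_mem (add_mem (add_mem (add_mem (pow_mem h2 3) (mul_mem (pow_mem h2 2)
          hβ')) (mul_mem h2 (pow_mem hβ' 2))) (pow_mem hβ' 3))) g2
      · apply mul_right_cancel₀ g3
        have e := hrel
        generalize (b ^ 3 + b ^ 2 * algebraMap k KC β + b * algebraMap k KC β ^ 2 +
          algebraMap k KC β ^ 3) = g at *
        generalize (a ^ 3 + a ^ 2 * algebraMap k KC α + a * algebraMap k KC α ^ 2 +
          algebraMap k KC α ^ 3) = g' at *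
        field_simp
        linear_combination e
  · have hne : P.res (b / a) ≠ 0 ∧ ∃ γ : k, P.splz.R (b / a) (algebraMap k P.κ γ) := by
      obtain ⟨γ, hγ⟩ := closed_res P hP h2
      refine ⟨?_, γ, h2, hγ⟩
      rw [Ne, res_eq_zero_iff P h2]
      push Not
      refine ⟨div_ne_zero hb0 ha0, ?_⟩
      rw [inv_div]
      exact h3
    obtain ⟨hne, γ, hγ⟩ := hne
    have hγ0 : γ ≠ 0 := by
      rintro rfl
      rw [map_zero] at hγ
      exact hne hγ.2
    have ha1 : a⁻¹ ∈ P.ring := h1.1
    refine ⟨a⁻¹, h1.1, inv_ne_zero ha0, h1, ?_⟩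
    have e : 1 + (b / a) ^ 4 = 2 * a⁻¹ ^ 4 := by
      field_simp
      linear_combination hab
    have hγ4 : 1 + algebraMap k KC γ ^ 4 = 0 := by
      have r3 := P.splz.congr (P.splz.add P.splz.one (P.splz.pow hγ 4)) e rfl
      have r4 := P.splz.mul P.splz.two (P.splz.pow h1 4)
      have r5 := P.splz.uniq r3 r4
      have r6 : algebraMap k P.κ (1 + γ ^ 4) = 0 := by
        rw [map_add, map_one, map_pow, r5]; ring
      have r7 : (1 : k) + γ ^ 4 = 0 := (map_eq_zero _).1 r6
      rw [← map_pow, ← map_one (algebraMap k KC), ← map_add, r7, map_zero]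
    have c1 : Cst (Ideal.span {(⟨a⁻¹, ha1⟩ : P.ring)}) a⁻¹ := by
      refine Cst.of_in (c := 0) ?_ (P.splz.congr h1 rfl (map_zero _).symm)
      exact in_span ha1 (one_mem _) (by rw [map_zero]; ring)
    have c2 : Cst (Ideal.span {(⟨a⁻¹, ha1⟩ : P.ring)}) (b / a) := by
      refine Cst.of_in (c := γ) ?_ hγ
      have rγ := splz_const P γ
      have r := P.splz.add (P.splz.add (P.splz.add (P.splz.pow hγ 3)
        (P.splz.mul (P.splz.pow hγ 2) rγ)) (P.splz.mul hγ (P.splz.pow rγ 2))) (P.splz.pow rγ 3)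
      have hne' : algebraMap k P.κ γ ^ 3 + algebraMap k P.κ γ ^ 2 * algebraMap k P.κ γ +
          algebraMap k P.κ γ * algebraMap k P.κ γ ^ 2 + algebraMap k P.κ γ ^ 3 ≠ 0 := by
        have : algebraMap k P.κ γ ^ 3 + algebraMap k P.κ γ ^ 2 * algebraMap k P.κ γ +
          algebraMap k P.κ γ * algebraMap k P.κ γ ^ 2 + algebraMap k P.κ γ ^ 3 =
          4 * algebraMap k P.κ γ ^ 3 := by ring
        rw [this]
        apply mul_ne_zero h4
        apply pow_ne_zero
        rw [Ne, map_eq_zero]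
        exact hγ0
      have g2 := (P.splz.inv r hne').1
      have g3 := P.splz.ne_zero r hne'
      refine in_span ha1 (w := 2 * a⁻¹ ^ 3 * ((b / a) ^ 3 + (b / a) ^ 2 * algebraMap k KC γ +
        (b / a) * algebraMap k KC γ ^ 2 + algebraMap k KC γ ^ 3)⁻¹)
        (mul_mem (mul_mem P.splz.two.1 (pow_mem ha1 3)) g2) ?_
      apply mul_right_cancel₀ g3
      have e2 : ((b / a) - algebraMap k KC γ) * ((b / a) ^ 3 + (b / a) ^ 2 * algebraMap k KC γ +
        (b / a) * algebraMap k KC γ ^ 2 + algebraMap k KC γ ^ 3) = 2 * a⁻¹ ^ 4 := by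
        linear_combination e - hγ4
      rw [e2]
      generalize ((b / a) ^ 3 + (b / a) ^ 2 * algebraMap k KC γ +
        (b / a) * algebraMap k KC γ ^ 2 + algebraMap k KC γ ^ 3) = g at *
      field_simp
    have c3 : Cst (Ideal.span {(⟨a⁻¹, ha1⟩ : P.ring)}) (a / b) := by
      have := c2.inv (by rw [inv_div]; exact h3) (div_ne_zero hb0 ha0)
      rwa [inv_div] at this
    rcases hi with hi | hi
    · intro j
      rw [hi]
      have hj : j = 0 ∨ j = 1 ∨ j = 2 := by
        have : ∀ i : Fin 3, i = 0 ∨ i = 1 ∨ i = 2 := by decide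
        exact this j
      rcases hj with hj | hj | hj <;> rw [hj]
      · have e : cc a b 0 / cc a b 0 = 1 := div_self (cc_ne M 0)
        rw [e]; exact Cst.one
      · exact c2
      · have e : cc a b 2 / cc a b 0 = a⁻¹ := by simp [cc]
        rw [e]; exact c1
    · intro j
      rw [hi]
      have hj : j = 0 ∨ j = 1 ∨ j = 2 := by
        have : ∀ i : Fin 3, i = 0 ∨ i = 1 ∨ i = 2 := by decide
        exact this j
      rcases hj with hj | hj | hj <;> rw [hj]
      · exact c3
      · have e : cc a b 1 / cc a b 1 = 1 := div_self (cc_ne M 1)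
        rw [e]; exact Cst.one
      · have e : cc a b 2 / cc a b 1 = a⁻¹ * (a / b) := by
          simp [cc]
          field_simp
        rw [e]; exact c1.mul c3

end CPoints

end Pool.Agent.H71.Ses
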