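import Pool.Agent.H71.Ses.F2

set_option linter.style.haveILetI false
set_option linter.unusedSectionVars false
set_option linter.unusedVariables false

open scoped WithZero

namespace Pool.Agent.H71.Ses

namespace ProjVar

section General

variable {k K : Type} [Field k] [Field K] [Algebra k K] {X : ProjVar k K}

theorem mem_p_iff (P : X.Point) (z : X.chart P.i) : z ∈ P.p ↔ P.res z = 0 := by
  rw [res_eq_zero_iff P (mem_ring_of_chart P z.2)]
  constructor
  · intro hz
    by_contra hcon
    push Not at hcon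
    obtain ⟨h0, a, s, hs, h1⟩ := hcon
    apply hs
    have : s = z * a := by
      apply Subtype.ext
      change (s : K) = z * a
      rw [← h1]
      field_simp
    rw [this]
    exact P.p.mul_mem_right _ hz
  · intro h
    by_contra hz
    have hz0 := coe_ne_zero hz
    refine h.elim hz0 fun h => h ⟨1, z, hz, ?_⟩
    rw [inv_mul_cancel₀ hz0]
    rfl

theorem isClosed_of (P : X.Point) (h : ∀ z : X.chart P.i, ∃ c : k, z - algebraMap k _ c ∈ P.p) :
    P.IsClosed := by
  change P.p.IsMaximal
  have hp1 : (1 : X.chart P.i) ∉ P.p := fun h => P.prime.ne_top ((Ideal.eq_top_iff_one _).2 h)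
  rw [Ideal.isMaximal_iff]
  refine ⟨hp1, ?_⟩
  intro J z hpJ hz hzJ
  obtain ⟨c, hc⟩ := h z
  have hc0 : c ≠ 0 := by
    rintro rfl
    rw [map_zero, sub_zero] at hc
    exact hz hc
  have h5 : algebraMap k (X.chart P.i) c ∈ J := by
    have := sub_mem hzJ (hpJ hc)
    rwa [sub_sub_cancel] at this
  have h6 : algebraMap k (X.chart P.i) c⁻¹ * algebraMap k (X.chart P.i) c = 1 := by
    rw [← map_mul, inv_mul_cancel₀ hc0, map_one]
  rw [← h6]
  exact J.mul_mem_left _ h5

end General

end ProjVar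

open ProjVar

/-- the specialization given by a valuation ring -/
noncomputable def vSplz {K : Type} [Field K] (V : ValuationSubring K) :
    Splz K (IsLocalRing.ResidueField V) where
  R z w := ∃ h : z ∈ V, IsLocalRing.residue V ⟨z, h⟩ = w
  add := by
    rintro z w z' w' ⟨h1, rfl⟩ ⟨h1', rfl⟩
    exact ⟨add_mem h1 h1', by rw [← map_add]; rfl⟩
  mul := by
    rintro z w z' w' ⟨h1, rfl⟩ ⟨h1', rfl⟩
    exact ⟨mul_mem h1 h1', by rw [← map_mul]; rfl⟩
  neg := by
    rintro z w ⟨h1, rfl⟩
    exact ⟨neg_mem h1, by rw [← map_neg]; rfl⟩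
  one := ⟨one_mem _, map_one _⟩
  inv := by
    rintro z w ⟨h1, rfl⟩ hw
    have h2 : IsUnit (⟨z, h1⟩ : V) := by
      rw [Ne, IsLocalRing.residue_eq_zero_iff, IsLocalRing.mem_maximalIdeal] at hw
      exact not_not.1 hw
    obtain ⟨⟨t, ht⟩, h3⟩ := h2.exists_right_inv
    have h4 : z * t = 1 := congrArg Subtype.val h3
    have h5 : z⁻¹ = t := inv_eq_of_mul_eq_one_right h4
    have h6 : z⁻¹ ∈ V := by rw [h5]; exact ht
    refine ⟨h6, ?_⟩
    apply eq_inv_of_mul_eq_one_right
    rw [← map_mul, ← map_one (IsLocalRing.residue V)]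
    congr 1
    apply Subtype.ext
    change z * z⁻¹ = 1
    rw [h5, h4]
  uniq := by
    rintro z w w' ⟨h1, rfl⟩ ⟨h1', rfl⟩
    rfl

theorem vSplz_zero {K : Type} [Field K] {V : ValuationSubring K} {z : K} :
    (vSplz V).R z 0 ↔ z ∈ V.nonunits := by
  constructor
  · rintro ⟨h1, h2⟩
    exact (V.coe_mem_nonunits_iff (a := ⟨z, h1⟩)).2 ((IsLocalRing.residue_eq_zero_iff _).1 h2)
  · intro h
    have h1 : z ∈ V := V.nonunits_subset h
    exact ⟨h1, (IsLocalRing.residue_eq_zero_iff _).2
      ((V.coe_mem_nonunits_iff (a := ⟨z, h1⟩)).1 h)⟩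

variable {k KC K : Type} [Field k] [IsAlgClosed k] [CharP k 5] [Field KC] [Field K] [Algebra k KC]
  [Algebra KC K] [Algebra k K] [IsScalarTower k KC K] {a b : KC} {x y : K}

section Transport

variable {M : IsModel k KC K a b x y} (P : (SX M).Point)

/-- the chart of `C` maps to the chart of `E × C` -/
def chartMap (i : Fin 3 × Fin 3) : (CX M).chart i.2 →+* (SX M).chart i where
  toFun z := ⟨algebraMap KC K z, by
    obtain ⟨z, hz⟩ := z
    unfold chart at hz
    change algebraMap KC K z ∈ _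
    induction hz using Algebra.adjoin_induction with
    | mem z hz =>
      obtain ⟨j, rfl⟩ := hz
      refine Algebra.subset_adjoin ⟨(i.1, j), ?_⟩
      have := x_div_eq (M := M) (i.1, j) i
      rw [this, div_self (ee_ne M _), one_mul]
      rfl
    | algebraMap c =>
      rw [← IsScalarTower.algebraMap_apply k KC K]
      exact Subalgebra.algebraMap_mem _ c
    | add z w hz hw h1 h2 => rw [map_add]; exact add_mem h1 h2
    | mul z w hz hw h1 h2 => rw [map_mul]; exact mul_mem h1 h2⟩
  map_one' := Subtype.ext (map_one _)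
  map_mul' z w := Subtype.ext (map_mul (algebraMap KC K) (z : KC) w)
  map_zero' := Subtype.ext (map_zero _)
  map_add' z w := Subtype.ext (map_add (algebraMap KC K) (z : KC) w)

/-- the image of the point `P` in `C` -/
def cPt : (CX M).Point where
  i := P.i.2
  p := P.p.comap (chartMap P.i)
  prime := P.prime.comap _

theorem cPt_mem {z : KC} (h : z ∈ (cPt P).ring) : algebraMap KC K z ∈ P.ring := by
  obtain ⟨u, s, hs, h1⟩ := h
  refine ⟨chartMap P.i u, chartMap P.i s, hs, ?_⟩
  change algebraMap KC K z * algebraMap KC K s = algebraMap KC K u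
  rw [← map_mul, h1]

theorem cPt_zero {z : KC} (h : (cPt P).splz.R z 0) : P.splz.R (algebraMap KC K z) 0 := by
  obtain ⟨h1, h2⟩ := h
  refine ⟨cPt_mem P h1, ?_⟩
  obtain ⟨u, s, hs, h3⟩ := h1
  have hsr : (s : KC) ∈ (cPt P).ring := mem_ring_of_chart (cPt P) s.2
  have hu : (cPt P).splz.R u 0 := by
    have := (cPt P).splz.mul ⟨⟨u, s, hs, h3⟩, h2⟩ (splz_mem (cPt P) hsr)
    exact (cPt P).splz.congr this h3 (zero_mul _)
  have hu2 : u ∈ (cPt P).p := (mem_p_iff (cPt P) u).2 hu.2
  have hu3 : chartMap P.i u ∈ P.p := hu2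
  have hu4 : P.res (algebraMap KC K u) = 0 := (mem_p_iff P _).1 hu3
  have hu5 : algebraMap KC K u ∈ P.ring := mem_ring_of_chart P (chartMap P.i u).2
  have hs2 : P.res (algebraMap KC K s) ≠ 0 := by
    intro h0
    exact hs ((mem_p_iff P (chartMap P.i s)).2 h0)
  have hs3 : algebraMap KC K s ∈ P.ring := mem_ring_of_chart P (chartMap P.i s).2
  have r := P.splz.div ⟨hu5, hu4⟩ (splz_mem P hs3) hs2
  have e : algebraMap KC K u / algebraMap KC K s = algebraMap KC K z := by
    rw [← h3, map_mul]
    have := P.splz.ne_zero (splz_mem P hs3) hs2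
    field_simp
  rw [e, zero_div] at r
  exact r.2

theorem cPt_closed (hP : P.IsClosed) : (cPt P).IsClosed := by
  apply isClosed_of
  intro z
  have h1 : algebraMap KC K z ∈ P.ring := mem_ring_of_chart P (chartMap P.i z).2
  obtain ⟨c, hc⟩ := closed_res P hP h1
  refine ⟨c, ?_⟩
  change chartMap P.i ((show (CX M).chart P.i.2 from z) -
    algebraMap k ((CX M).chart P.i.2) c) ∈ P.p
  rw [mem_p_iff]
  change P.res (algebraMap KC K ((z : KC) - algebraMap k KC c)) = 0
  have r := P.splz.sub ⟨h1, hc⟩ (splz_const P c)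
  rw [sub_self] at r
  have e : algebraMap KC K ((z : KC) - algebraMap k KC c) = algebraMap KC K z - algebraMap k K c := by
    rw [map_sub, ← IsScalarTower.algebraMap_apply k KC K]
  rw [e]
  exact r.2

theorem dich_C (Q : (CX M).Point) (hQ : Q.IsClosed) (z : KC) : z ∈ Q.ring ∨ z⁻¹ ∈ Q.ring := by
  apply dich_of_principal
  obtain ⟨p, hp, h0, h1, h2⟩ := c_param Q hQ
  have : IsLocalRing.maximalIdeal Q.ring = Ideal.span {⟨p, hp⟩} := by
    apply le_antisymm
    · apply ProjVar.max_le
      intro j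
      exact h2 j
    · rw [Ideal.span_singleton_le_iff_mem]
      exact (inI_max.2 h1).2
  rw [this]
  exact ⟨⟨_, rfl⟩⟩

/-- rational functions on `C` have no points of indeterminacy -/
theorem dich_KC (z : KC) : algebraMap KC K z ∈ P.ring ∨ (algebraMap KC K z)⁻¹ ∈ P.ring := by
  apply dich_of_closed
  intro P hP
  rcases dich_C (cPt P) (cPt_closed P hP) z with h | h
  · exact Or.inl (cPt_mem P h)
  · right
    rw [← map_inv₀]
    exact cPt_mem P h

end Transport

end Pool.Agent.H71.Ses
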