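import Pool.Agent.H71.Ses.F3

set_option linter.style.haveILetI false
set_option linter.unusedSectionVars false
set_option linter.unusedVariables false

open scoped WithZero

namespace Pool.Agent.H71.Ses

open ProjVar

variable {k KC K : Type} [Field k] [IsAlgClosed k] [CharP k 5] [Field KC] [Field K] [Algebra k KC]
  [Algebra KC K] [Algebra k K] [IsScalarTower k KC K] {a b : KC} {x y : K}

theorem charP_residue {k K : Type} [Field k] [CharP k 5] [Field K] [Algebra k K]
    (V : ValuationSubring K) (hV : ∀ c : k, algebraMap k K c ∈ V) :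
    CharP (IsLocalRing.ResidueField V) 5 :=
  charP_of_injective_ringHom (f := (IsLocalRing.residue V).comp
    ((algebraMap k K).codRestrict V.toSubring hV)) (RingHom.injective _) 5

theorem poly_ne {F : Type} [Field F] (d : F) :
    (Polynomial.X ^ 3 - 2 * Polynomial.X - Polynomial.C d : Polynomial F) ≠ 0 := by
  intro h1
  have := congrArg (fun p => Polynomial.coeff p 3) h1
  simp [Polynomial.coeff_X, Polynomial.coeff_C] at this

/-- the valuation ring of a point of the generic fibre with affine coordinates `(α, β)` -/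
theorem exists_val_fin (M : IsModel k KC K a b x y) {α β : k} (h : β ^ 2 = α ^ 3 - 2 * α) :
    ∃ V : ValuationSubring K, (∀ c : KC, algebraMap KC K c ∈ V) ∧
      (vSplz V).R (x - algebraMap k K α) 0 ∧ (vSplz V).R (y - algebraMap k K β) 0 := by
  obtain ⟨χ, h1, h2, h3⟩ := M.univE KC (RingHom.id KC) (algebraMap k KC α) (algebraMap k KC β) (by
    rw [← map_pow, h, map_sub, map_pow, map_mul, map_ofNat])
  obtain ⟨V, hV1, hV2⟩ := Ideal.image_subset_nonunits_valuationSubring
    (A := (Algebra.adjoin KC {x, y}).toSubring) (RingHom.ker χ) (RingHom.ker_ne_top χ)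
  have hx : x ∈ Algebra.adjoin KC ({x, y} : Set K) := Algebra.subset_adjoin (by simp)
  have hy : y ∈ Algebra.adjoin KC ({x, y} : Set K) := Algebra.subset_adjoin (by simp)
  refine ⟨V, ?_, ?_, ?_⟩
  · intro c
    exact hV1 ((Algebra.adjoin KC {x, y}).algebraMap_mem c)
  · rw [vSplz_zero]
    apply hV2
    refine ⟨(⟨x, hx⟩ - algebraMap KC _ (algebraMap k KC α) : Algebra.adjoin KC ({x, y} : Set K)),
      ?_, ?_⟩
    · change χ _ = 0
      rw [map_sub, h1, h2]
      simp
    · rw [IsScalarTower.algebraMap_apply k KC K]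
      rfl
  · rw [vSplz_zero]
    apply hV2
    refine ⟨(⟨y, hy⟩ - algebraMap KC _ (algebraMap k KC β) : Algebra.adjoin KC ({x, y} : Set K)),
      ?_, ?_⟩
    · change χ _ = 0
      rw [map_sub, h1, h3]
      simp
    · rw [IsScalarTower.algebraMap_apply k KC K]
      rfl

/-- the valuation ring of the point at infinity of the generic fibre -/
theorem exists_val_inf (M : IsModel k KC K a b x y) :
    ∃ V : ValuationSubring K, (∀ c : KC, algebraMap KC K c ∈ V) ∧
      (vSplz V).R (x / y) 0 ∧ (vSplz V).R y⁻¹ 0 := by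
  have hK : CharP K 5 := charP_of_algebra k K
  have hx0 := M.x_ne
  have hy0 := M.y_ne
  have hxm : x⁻¹ ∈ Algebra.adjoin KC ({x⁻¹} : Set K) := Algebra.subset_adjoin rfl
  have hne : (Ideal.span {(⟨x⁻¹, hxm⟩ : (Algebra.adjoin KC ({x⁻¹} : Set K)).toSubring)}) ≠ ⊤ := by
    intro htop
    have h1 : (1 : (Algebra.adjoin KC ({x⁻¹} : Set K)).toSubring) ∈
      (Ideal.span {(⟨x⁻¹, hxm⟩ : (Algebra.adjoin KC ({x⁻¹} : Set K)).toSubring)}) := by
      rw [htop]; trivial
    obtain ⟨⟨w, hw⟩, h2⟩ := Ideal.mem_span_singleton'.1 h1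
    have h3 : w * x⁻¹ = 1 := congrArg Subtype.val h2
    have hw' : w ∈ Algebra.adjoin KC ({x⁻¹} : Set K) := hw
    rw [Algebra.adjoin_singleton_eq_range_aeval] at hw'
    obtain ⟨p, rfl⟩ := hw'
    have htr : Transcendental KC x⁻¹ := by
      intro h
      apply M.x_tr
      have := h.inv
      rwa [inv_inv] at this
    have h4 : p * Polynomial.X - 1 = 0 := by
      rw [transcendental_iff] at htr
      apply htr
      rw [map_sub, map_mul, Polynomial.aeval_X, map_one]
      exact sub_eq_zero.2 h3
    have h5 := congrArg (Polynomial.eval 0) h4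
    simp at h5
  obtain ⟨V, hV1, hV2⟩ := Ideal.image_subset_nonunits_valuationSubring _ hne
  have hκ : CharP (IsLocalRing.ResidueField V) 5 := charP_residue (k := k) V fun c => by
    rw [IsScalarTower.algebraMap_apply k KC K]
    exact hV1 ((Algebra.adjoin KC {x⁻¹}).algebraMap_mem _)
  have r1 : (vSplz V).R x⁻¹ 0 := by
    rw [vSplz_zero]
    apply hV2
    exact ⟨⟨x⁻¹, hxm⟩, Ideal.subset_span rfl, rfl⟩
  have hxy := M.xy
  have r2 : (vSplz V).R ((x / y) ^ 2) 0 := by
    refine (vSplz V).fin_of_mul (d := 1 - 2 * x⁻¹ ^ 2) (D := 1) (n := x⁻¹) ?_ r1 ?_ one_ne_zero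
      (by ring)
    · field_simp
      linear_combination -hxy
    · have := (vSplz V).sub (vSplz V).one ((vSplz V).mul (vSplz V).two ((vSplz V).pow r1 2))
      exact (vSplz V).congr this rfl (by ring)
  have r3 : (vSplz V).R (x / y) 0 := by
    rcases V.mem_or_inv_mem (x / y) with h | h
    · have r := (vSplz V).pow (z := x / y) ⟨h, rfl⟩ 2
      have e := (vSplz V).uniq r2 r
      have e2 := pow_eq_zero_iff two_ne_zero |>.1 e.symm
      exact ⟨h, e2⟩
    · exfalso
      have r := (vSplz V).mul r2 ((vSplz V).pow (z := (x / y)⁻¹) ⟨h, rfl⟩ 2)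
      have e : (x / y) ^ 2 * (x / y)⁻¹ ^ 2 = 1 := by field_simp
      rw [e, zero_mul] at r
      exact one_ne_zero ((vSplz V).uniq (vSplz V).one r)
  refine ⟨V, ?_, r3, ?_⟩
  · intro c
    exact hV1 ((Algebra.adjoin KC {x⁻¹}).algebraMap_mem c)
  · have := (vSplz V).mul r3 r1
    exact (vSplz V).congr this (by field_simp) (by ring)

section

variable {M : IsModel k KC K a b x y} (P : (SX M).Point)

/-- a local parameter at a closed point, in the direction of `E` -/
theorem e_param (hP : P.IsClosed) : ∃ (p : K) (hp : p ∈ P.ring), p ≠ 0 ∧ P.splz.R p 0 ∧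
    (∀ i, Cst (Ideal.span {(⟨p, hp⟩ : P.ring)}) (ee x y i / ee x y P.i.1)) ∧
    ∃ V : ValuationSubring K, (∀ c : KC, algebraMap KC K c ∈ V) ∧ (vSplz V).R p 0 ∧
      ∀ i, ∃ c : k, P.splz.R (ee x y i / ee x y P.i.1) (algebraMap k P.κ c) ∧
        (vSplz V).R (ee x y i / ee x y P.i.1 - algebraMap k K c) 0 := by
  have hxy := M.xy
  have hK : CharP K 5 := charP_of_algebra k K
  have hκ : CharP P.κ 5 := charP_of_algebra k P.κ
  have hx0 := M.x_ne
  have hy0 := M.y_ne
  have h := e_mem P
  have h2k : (2 : k) ≠ 0 := two_ne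
  have h2κ : (2 : P.κ) ≠ 0 := two_ne
  rcases e_cases P with ⟨h1, h2⟩ | ⟨hi, r1, r2, r3, r4⟩
  · obtain ⟨α, hα⟩ := closed_res P hP h1
    obtain ⟨β, hβ⟩ := closed_res P hP h2
    have rx : P.splz.R x (algebraMap k P.κ α) := ⟨h1, hα⟩
    have ry : P.splz.R y (algebraMap k P.κ β) := ⟨h2, hβ⟩
    have hαβ : β ^ 2 = α ^ 3 - 2 * α := by
      have r := P.splz.pow ry 2
      have r2 := P.splz.sub (P.splz.pow rx 3) (P.splz.mul P.splz.two rx)
      have r3 := P.splz.uniq (P.splz.congr r hxy rfl) r2
      apply (algebraMap k P.κ).injective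
      rw [map_pow, r3, map_sub, map_pow, map_mul, map_ofNat]
    have hαβ' : (algebraMap k K β) ^ 2 = (algebraMap k K α) ^ 3 - 2 * algebraMap k K α := by
      rw [← map_pow, hαβ, map_sub, map_pow, map_mul, map_ofNat]
    obtain ⟨V, hV, v1, v2⟩ := exists_val_fin M hαβ
    have hVk : ∀ c : k, algebraMap k K c ∈ V := by
      intro c
      rw [IsScalarTower.algebraMap_apply k KC K]
      exact hV _
    let S := vSplz V
    let ρ : k →+* IsLocalRing.ResidueField V :=
      (IsLocalRing.residue V).comp ((algebraMap k K).codRestrict V.toSubring hVk)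
    have hρ : ∀ c : k, S.R (algebraMap k K c) (ρ c) := fun c => ⟨hVk c, rfl⟩
    have vx : S.R x (ρ α) := S.congr (S.add v1 (hρ α)) (by ring) (by ring)
    have vy : S.R y (ρ β) := S.congr (S.add v2 (hρ β)) (by ring) (by ring)
    have hxα : x - algebraMap k K α ≠ 0 := by
      intro h0
      apply M.x_tr
      rw [sub_eq_zero.1 h0, IsScalarTower.algebraMap_apply k KC K]
      exact isAlgebraic_algebraMap _
    have hyβ : y - algebraMap k K β ≠ 0 := by
      intro h0
      apply M.x_tr
      refine ⟨Polynomial.X ^ 3 - 2 * Polynomial.X - Polynomial.C (algebraMap k KC (β ^ 2)),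
        poly_ne _, ?_⟩
      · simp only [map_sub, map_mul, map_pow, Polynomial.aeval_X, map_ofNat, Polynomial.aeval_C]
        rw [← IsScalarTower.algebraMap_apply k KC K, ← sub_eq_zero.1 h0]
        linear_combination -hxy
    have rxα : P.splz.R (x - algebraMap k K α) 0 :=
      P.splz.congr (P.splz.sub rx (splz_const P α)) rfl (sub_self _)
    have ryβ : P.splz.R (y - algebraMap k K β) 0 :=
      P.splz.congr (P.splz.sub ry (splz_const P β)) rfl (sub_self _)
    -- values of the homogeneous coordinates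
    let c : Fin 3 → k := ![α, β, 1]
    have hc1 : ∀ i, P.splz.R (ee x y i) (algebraMap k P.κ (c i)) := by
      intro i
      fin_cases i
      · exact rx
      · exact ry
      · exact P.splz.congr P.splz.one rfl (map_one _).symm
    have hc2 : ∀ i, S.R (ee x y i) (ρ (c i)) := by
      intro i
      fin_cases i
      · exact vx
      · exact vy
      · exact S.congr S.one rfl (map_one _).symm
    have hinv : (ee x y P.i.1)⁻¹ ∈ P.ring := mem_of_eq (h 2) (by simp [ee])
    have hc3 : c P.i.1 ≠ 0 := by
      intro h0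
      have r := P.splz.mul (splz_mem P hinv) (hc1 P.i.1)
      rw [inv_mul_cancel₀ (ee_ne M _), h0, map_zero, mul_zero] at r
      exact one_ne_zero (P.splz.uniq P.splz.one r)
    have hVfin : ∀ i, ∃ c : k, P.splz.R (ee x y i / ee x y P.i.1) (algebraMap k P.κ c) ∧
        (vSplz V).R (ee x y i / ee x y P.i.1 - algebraMap k K c) 0 := by
      intro i
      refine ⟨c i / c P.i.1, ?_, ?_⟩
      · rw [map_div₀]
        exact P.splz.div (hc1 i) (hc1 _) (by rw [Ne, map_eq_zero]; exact hc3)
      · have r := S.div (hc2 i) (hc2 _) (by rw [Ne, map_eq_zero]; exact hc3)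
        rw [← map_div₀] at r
        exact S.congr (S.sub r (hρ _)) rfl (sub_self _)
    have fin : ∀ (p : K) (hp : p ∈ P.ring), Cst (Ideal.span {(⟨p, hp⟩ : P.ring)}) x →
        Cst (Ideal.span {(⟨p, hp⟩ : P.ring)}) y →
        ∀ j, Cst (Ideal.span {(⟨p, hp⟩ : P.ring)}) (ee x y j / ee x y P.i.1) := by
      intro p hp h1 h2 j
      have hj : ∀ j, Cst (Ideal.span {(⟨p, hp⟩ : P.ring)}) (ee x y j) := by
        intro j
        fin_cases j
        · exact h1
        · exact h2
        · exact Cst.one
      have h3 := (hj j).mul ((hj P.i.1).inv hinv (ee_ne M _))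
      rwa [← div_eq_mul_inv] at h3
    by_cases hβ0 : β = 0
    · -- the tangent is vertical
      have hrel : (x - algebraMap k K α) * (x ^ 2 + x * algebraMap k K α + algebraMap k K α ^ 2 - 2) =
          y * y := by
        rw [hβ0, map_zero] at hαβ'
        linear_combination hαβ' - hxy
      have r := P.splz.sub (P.splz.add (P.splz.add (P.splz.pow rx 2)
        (P.splz.mul rx (splz_const P α))) (P.splz.pow (splz_const P α) 2)) P.splz.two
      have hne : algebraMap k P.κ α ^ 2 + algebraMap k P.κ α * algebraMap k P.κ α +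
          algebraMap k P.κ α ^ 2 - 2 ≠ 0 := by
        have e : algebraMap k P.κ α ^ 2 + algebraMap k P.κ α * algebraMap k P.κ α +
          algebraMap k P.κ α ^ 2 - 2 = algebraMap k P.κ (3 * α ^ 2 - 2) := by
          rw [map_sub, map_mul, map_pow, map_ofNat, map_ofNat]
          ring
        rw [e, Ne, map_eq_zero]
        intro h0
        rw [hβ0] at hαβ
        have h5 : (5 : k) = 0 := five_eq_zero
        have e1 : α * (α ^ 2 - 2) = 0 := by linear_combination -hαβ
        rcases mul_eq_zero.1 e1 with e2 | e2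
        · rw [e2] at h0
          apply h2k
          linear_combination -h0
        · apply h2k
          linear_combination 3 * h0 - 9 * e2 - 2 * h5
      have g2 := (P.splz.inv r hne).1
      have g3 := P.splz.ne_zero r hne
      have hyR : P.splz.R y 0 := by
        rw [hβ0, map_zero] at ry
        exact ry
      refine ⟨y, h2, hy0, hyR, ?_, V, hV, ?_, hVfin⟩
      · refine fin y h2 (Cst.of_in (c := α) (in_span h2 (w := y * (x ^ 2 + x * algebraMap k K α +
          algebraMap k K α ^ 2 - 2)⁻¹) (mul_mem h2 g2) ?_) rx)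
          (Cst.of_in (c := 0) (in_span h2 (one_mem _) (by rw [map_zero]; ring))
            (P.splz.congr hyR rfl (map_zero _).symm))
        apply mul_right_cancel₀ g3
        rw [hrel]
        generalize x ^ 2 + x * algebraMap k K α + algebraMap k K α ^ 2 - 2 = g at *
        field_simp
      · rw [hβ0, map_zero] at vy
        exact vy
    · have hrel : (y - algebraMap k K β) * (y + algebraMap k K β) = (x ^ 2 + x * algebraMap k K α +
          algebraMap k K α ^ 2 - 2) * (x - algebraMap k K α) := by
        linear_combination hxy - hαβ'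
      have r := P.splz.add ry (splz_const P β)
      have hne : algebraMap k P.κ β + algebraMap k P.κ β ≠ 0 := by
        rw [← two_mul]
        apply mul_ne_zero h2κ
        rw [Ne, map_eq_zero]
        exact hβ0
      have g2 := (P.splz.inv r hne).1
      have g3 := P.splz.ne_zero r hne
      refine ⟨x - algebraMap k K α, rxα.1, hxα, rxα, ?_, V, hV, v1, hVfin⟩
      have hα' := algebraMap_mem P.ring α
      refine fin _ rxα.1 (Cst.of_in (c := α) (in_span rxα.1 (one_mem _) (one_mul _).symm) rx)
        (Cst.of_in (c := β) (in_span rxα.1 (w := (x ^ 2 + x * algebraMap k K α +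
          algebraMap k K α ^ 2 - 2) * (y + algebraMap k K β)⁻¹) ?_ ?_) ry)
      · exact mul_mem (sub_mem (add_mem (add_mem (pow_mem h1 2) (mul_mem h1 hα'))
          (pow_mem hα' 2)) P.splz.two.1) g2
      · apply mul_right_cancel₀ g3
        rw [hrel]
        generalize x ^ 2 + x * algebraMap k K α + algebraMap k K α ^ 2 - 2 = g at *
        field_simp
  · obtain ⟨V, hV, v1, v2⟩ := exists_val_inf M
    refine ⟨x / y, r1.1, div_ne_zero hx0 hy0, r1, ?_, V, hV, v1, ?_⟩
    · have e : y⁻¹ * (1 + 2 * (x / y) * y⁻¹) = (x / y) ^ 3 := by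
        field_simp
        linear_combination hxy
      have r := P.splz.add P.splz.one (P.splz.mul (P.splz.mul P.splz.two r1) r2)
      have hne : (1 : P.κ) + 2 * 0 * 0 ≠ 0 := by
        rw [mul_zero, add_zero]
        exact one_ne_zero
      have g2 := (P.splz.inv r hne).1
      have g3 := P.splz.ne_zero r hne
      have c1 : Cst (Ideal.span {(⟨x / y, r1.1⟩ : P.ring)}) (x / y) :=
        Cst.of_in (c := 0) (in_span r1.1 (one_mem _) (by rw [map_zero]; ring))
          (P.splz.congr r1 rfl (map_zero _).symm)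
      have c2 : Cst (Ideal.span {(⟨x / y, r1.1⟩ : P.ring)}) y⁻¹ := by
        refine Cst.of_in (c := 0) (in_span r1.1 (w := (x / y) ^ 2 * (1 + 2 * (x / y) * y⁻¹)⁻¹)
          (mul_mem (pow_mem r1.1 2) g2) ?_) (P.splz.congr r2 rfl (map_zero _).symm)
        rw [map_zero, sub_zero]
        apply mul_right_cancel₀ g3
        rw [e]
        generalize 1 + 2 * (x / y) * y⁻¹ = g at *
        field_simp
      intro i
      rw [hi]
      have hj : i = 0 ∨ i = 1 ∨ i = 2 := by
        have : ∀ i : Fin 3, i = 0 ∨ i = 1 ∨ i = 2 := by decide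
        exact this i
      rcases hj with hj | hj | hj <;> rw [hj]
      · exact c1
      · have e : ee x y 1 / ee x y 1 = 1 := div_self (ee_ne M 1)
        rw [e]; exact Cst.one
      · have e : ee x y 2 / ee x y 1 = y⁻¹ := by simp [ee]
        rw [e]; exact c2
    · intro i
      rw [hi]
      have hj : i = 0 ∨ i = 1 ∨ i = 2 := by
        have : ∀ i : Fin 3, i = 0 ∨ i = 1 ∨ i = 2 := by decide
        exact this i
      rcases hj with hj | hj | hj <;> rw [hj]
      · refine ⟨0, P.splz.congr r1 rfl (map_zero _).symm, (vSplz V).congr v1 ?_ rfl⟩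
        rw [map_zero, sub_zero]
        rfl
      · have e : ee x y 1 / ee x y 1 = 1 := div_self (ee_ne M 1)
        rw [e]
        refine ⟨1, P.splz.congr P.splz.one rfl (map_one _).symm, (vSplz V).congr (vSplz V).zero ?_ rfl⟩
        rw [map_one, sub_self]
      · have e : ee x y 2 / ee x y 1 = y⁻¹ := by simp [ee]
        rw [e]
        refine ⟨0, P.splz.congr r2 rfl (map_zero _).symm, (vSplz V).congr v2 ?_ rfl⟩
        rw [map_zero, sub_zero]

end

end Pool.Agent.H71.Ses
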