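import Pool.Agent.H71.Ses.F4

set_option linter.style.haveILetI false
set_option linter.unusedSectionVars false
set_option linter.unusedVariables false

open scoped WithZero

namespace Pool.Agent.H71.Ses

open ProjVar

variable {k KC K : Type} [Field k] [IsAlgClosed k] [CharP k 5] [Field KC] [Field K] [Algebra k KC]
  [Algebra KC K] [Algebra k K] [IsScalarTower k KC K] {a b : KC} {x y : K}

section

variable {M : IsModel k KC K a b x y} (P : (SX M).Point)

/-- transport of `Cst` from `C` to `E × C` -/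
theorem cst_transport {p z : KC} (hp : p ∈ (cPt P).ring)
    (h : Cst (Ideal.span {(⟨p, hp⟩ : (cPt P).ring)}) z) :
    Cst (Ideal.span {(⟨algebraMap KC K p, cPt_mem P hp⟩ : P.ring)}) (algebraMap KC K z) := by
  obtain ⟨c, h1, h2, h3⟩ := h
  refine ⟨c, ?_⟩
  have e : algebraMap KC K z - algebraMap k K c = algebraMap KC K (z - algebraMap k KC c) := by
    rw [map_sub, ← IsScalarTower.algebraMap_apply k KC K]
  rw [e]
  refine ⟨cPt_mem P h1, ?_, ?_⟩
  · obtain ⟨⟨w, hw⟩, hw2⟩ := Ideal.mem_span_singleton'.1 h2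
    have hw3 : w * p = z - algebraMap k KC c := congrArg Subtype.val hw2
    rw [SetLike.mem_coe, Ideal.mem_span_singleton']
    refine ⟨⟨algebraMap KC K w, cPt_mem P hw⟩, ?_⟩
    apply Subtype.ext
    change algebraMap KC K w * algebraMap KC K p = _
    rw [← map_mul, hw3]
  · rw [SetLike.mem_coe, mem_max_iff]
    exact (cPt_zero P ⟨h1, (mem_max_iff _ _).1 h3⟩).2

theorem cst_mono {X : ProjVar k K} {P : X.Point} {I J : Ideal P.ring} (hIJ : I ≤ J) {z : K}
    (h : Cst I z) : Cst J z := by
  obtain ⟨c, hc⟩ := h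
  exact ⟨c, hc.mono (inf_le_inf_right _ hIJ)⟩

/-- the structure of the local ring at a closed point -/
theorem closed_struct (hP : P.IsClosed) : ∃ (p q : K) (hp : p ∈ P.ring) (hq : q ∈ P.ring),
    IsLocalRing.maximalIdeal P.ring = Ideal.span {(⟨p, hp⟩ : P.ring), ⟨q, hq⟩} ∧ p ≠ 0 ∧
    (∃ q₀ : KC, q = algebraMap KC K q₀ ∧ q₀ ≠ 0) ∧
    ∃ V : ValuationSubring K, (∀ c : KC, algebraMap KC K c ∈ V) ∧ (vSplz V).R p 0 ∧
      ∀ z ∈ P.ring, z ∈ V := by
  obtain ⟨p, hp, hp0, hpR, hpC, V, hV, hVp, hVe⟩ := e_param P hP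
  obtain ⟨q, hq, hq0, hqR, hqC⟩ := c_param (cPt P) (cPt_closed P hP)
  refine ⟨p, algebraMap KC K q, hp, cPt_mem P hq, ?_, hp0, ⟨q, rfl, hq0⟩, V, hV, hVp, ?_⟩
  · apply le_antisymm
    · apply ProjVar.max_le
      intro j
      have h1 : Cst (Ideal.span {(⟨p, hp⟩ : P.ring), ⟨algebraMap KC K q, cPt_mem P hq⟩})
          (ee x y j.1 / ee x y P.i.1) :=
        cst_mono (Ideal.span_mono (by simp)) (hpC j.1)
      have h2 : Cst (Ideal.span {(⟨p, hp⟩ : P.ring), ⟨algebraMap KC K q, cPt_mem P hq⟩})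
          (algebraMap KC K (cc a b j.2 / cc a b P.i.2)) :=
        cst_mono (Ideal.span_mono (by simp)) (cst_transport P hq (hqC j.2))
      have h3 := h1.mul h2
      rw [← x_div_eq (M := M) j P.i] at h3
      exact h3
    · rw [Ideal.span_le]
      rintro z (rfl | hz)
      · exact (inI_max.2 hpR).2
      · rw [Set.mem_singleton_iff] at hz
        rw [hz]
        exact (inI_max.2 (cPt_zero P hqR)).2
  · -- the ring is contained in the valuation ring
    let S := vSplz V
    have hVk : ∀ c : k, algebraMap k K c ∈ V := by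
      intro c
      rw [IsScalarTower.algebraMap_apply k KC K]
      exact hV _
    have hSk : ∀ c : k, S.R (algebraMap k K c) (IsLocalRing.residue V ⟨_, hVk c⟩) :=
      fun c => ⟨hVk c, rfl⟩
    have key : ∀ z ∈ (SX M).chart P.i, z ∈ V ∧ ∃ z₀ : KC, S.R (z - algebraMap KC K z₀) 0 ∧
        ∃ w, P.splz.R z w ∧ P.splz.R (algebraMap KC K z₀) w := by
      intro z hz
      unfold chart at hz
      induction hz using Algebra.adjoin_induction with
      | mem z hz =>
        obtain ⟨j, rfl⟩ := hz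
        obtain ⟨c, hc1, hc2⟩ := hVe j.1
        have e := x_div_eq (M := M) j P.i
        have hcm := c_mem P j.2
        have hVc := hV (cc a b j.2 / cc a b P.i.2)
        rw [e]
        constructor
        · refine mul_mem ?_ hVc
          have := add_mem hc2.1 (hVk c)
          rwa [sub_add_cancel] at this
        · refine ⟨algebraMap k KC c * (cc a b j.2 / cc a b P.i.2), ?_,
            algebraMap k P.κ c * P.res (algebraMap KC K (cc a b j.2 / cc a b P.i.2)), ?_, ?_⟩
          · have r := S.mul hc2 ⟨hVc, rfl⟩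
            refine S.congr r ?_ (zero_mul _)
            rw [map_mul, ← IsScalarTower.algebraMap_apply k KC K]
            ring
          · exact P.splz.mul hc1 (splz_mem P hcm)
          · rw [map_mul, ← IsScalarTower.algebraMap_apply k KC K]
            exact P.splz.mul (splz_const P c) (splz_mem P hcm)
      | algebraMap c =>
        refine ⟨hVk c, algebraMap k KC c, ?_, algebraMap k P.κ c, splz_const P c, ?_⟩
        · rw [← IsScalarTower.algebraMap_apply k KC K, sub_self]
          exact S.zero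
        · rw [← IsScalarTower.algebraMap_apply k KC K]
          exact splz_const P c
      | add z z' hz hz' h1 h2 =>
        obtain ⟨h1, z₀, h1a, w, h1b, h1c⟩ := h1
        obtain ⟨h2, z₀', h2a, w', h2b, h2c⟩ := h2
        refine ⟨add_mem h1 h2, z₀ + z₀', ?_, w + w', P.splz.add h1b h2b, ?_⟩
        · refine S.congr (S.add h1a h2a) ?_ (add_zero 0)
          rw [map_add]
          ring
        · rw [map_add]
          exact P.splz.add h1c h2c
      | mul z z' hz hz' h1 h2 =>
        obtain ⟨h1, z₀, h1a, w, h1b, h1c⟩ := h1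
        obtain ⟨h2, z₀', h2a, w', h2b, h2c⟩ := h2
        refine ⟨mul_mem h1 h2, z₀ * z₀', ?_, w * w', P.splz.mul h1b h2b, ?_⟩
        · have r1 := S.mul h1a ⟨h2, rfl⟩
          have r2 := S.mul ⟨hV z₀, rfl⟩ h2a
          refine S.congr (S.add r1 r2) ?_ (by ring)
          rw [map_mul]
          ring
        · rw [map_mul]
          exact P.splz.mul h1c h2c
    rintro z ⟨u, s, hs, hz⟩
    obtain ⟨hu1, -⟩ := key u u.2
    obtain ⟨hs1, s₀, hs2, w, hs3, hs4⟩ := key s s.2
    have hw : w ≠ 0 := by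
      rintro rfl
      exact hs ((mem_p_iff P s).2 hs3.2)
    have hs0 : s₀ ≠ 0 := by
      rintro rfl
      rw [map_zero] at hs4
      exact hw (P.splz.uniq hs4 P.splz.zero)
    -- `s₀` is a unit of `V`
    have hs5 : S.R (algebraMap KC K s₀) (IsLocalRing.residue V ⟨_, hV s₀⟩) := ⟨hV s₀, rfl⟩
    have hs6 : IsLocalRing.residue V ⟨_, hV s₀⟩ ≠ 0 := by
      intro h0
      rw [h0] at hs5
      have r := S.mul hs5 ⟨hV s₀⁻¹, rfl⟩
      rw [← map_mul, mul_inv_cancel₀ hs0, map_one, zero_mul] at r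
      exact one_ne_zero (S.uniq S.one r)
    have hs7 := S.add hs2 hs5
    rw [sub_add_cancel, zero_add] at hs7
    have hs8 := S.inv hs7 hs6
    have : z = u * (s : K)⁻¹ := by
      have := coe_ne_zero hs
      rw [← hz]
      field_simp
    rw [this]
    exact mul_mem hu1 hs8.1

/-- the local rings at closed points are regular -/
theorem regular (hP : P.IsClosed) : IsRegularLocalRing P.ring := by
  obtain ⟨p, q, hp, hq, hmax, hp0, ⟨q₀, hq0, hq1⟩, V, hV, hVp, hVring⟩ := closed_struct P hP
  apply IsRegularLocalRing.of_spanFinrank_maximalIdeal_le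
  have h1 : (IsLocalRing.maximalIdeal P.ring).spanFinrank ≤ 2 := by
    rw [hmax]
    refine (Submodule.spanFinrank_span_le_ncard_of_finite (Set.toFinite _)).trans ?_
    exact (Set.ncard_insert_le _ _).trans (by rw [Set.ncard_singleton])
  have h2 : (2 : WithBot ℕ∞) ≤ ringKrullDim P.ring := by
    let f : P.ring →+* V :=
      (algebraMap P.ring K).codRestrict V.toSubring (fun z => hVring z z.2)
    let 𝔮 : Ideal P.ring := (IsLocalRing.maximalIdeal V).comap f
    have h𝔮 : 𝔮.IsPrime := Ideal.comap_isPrime f _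
    have hq𝔮 : (⟨q, hq⟩ : P.ring) ∉ 𝔮 := by
      intro h
      have h3 : (⟨q, hVring q hq⟩ : V) ∈ IsLocalRing.maximalIdeal V := h
      rw [IsLocalRing.mem_maximalIdeal] at h3
      apply h3
      have h4 : q₀⁻¹ * q₀ = 1 := inv_mul_cancel₀ hq1
      refine IsUnit.of_mul_eq_one ⟨algebraMap KC K q₀⁻¹, hV _⟩ ?_
      apply Subtype.ext
      change q * algebraMap KC K q₀⁻¹ = 1
      rw [hq0, ← map_mul, mul_inv_cancel₀ hq1, map_one]
    have hp𝔮 : (⟨p, hp⟩ : P.ring) ∈ 𝔮 := by
      obtain ⟨h3, h4⟩ := hVp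
      exact (IsLocalRing.residue_eq_zero_iff _).1 h4
    have l1 : (⊥ : Ideal P.ring) < 𝔮 := by
      rw [bot_lt_iff_ne_bot]
      intro h
      rw [h] at hp𝔮
      exact hp0 (congrArg Subtype.val ((Submodule.mem_bot _).1 hp𝔮))
    have l2 : 𝔮 < IsLocalRing.maximalIdeal P.ring := by
      refine lt_of_le_of_ne (IsLocalRing.le_maximalIdeal h𝔮.ne_top) ?_
      intro h
      apply hq𝔮
      rw [h, hmax]
      exact Ideal.subset_span (by simp)
    have k1 := Ideal.height_add_one_le_of_lt_of_isPrime l1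
    have k2 := Ideal.height_add_one_le_of_lt_of_isPrime l2
    rw [← IsLocalRing.maximalIdeal_height_eq_ringKrullDim]
    have k3 : (2 : ℕ∞) ≤ (IsLocalRing.maximalIdeal P.ring).height := by
      calc (2 : ℕ∞) = 0 + 1 + 1 := by norm_num
        _ ≤ (⊥ : Ideal P.ring).height + 1 + 1 := by gcongr; exact zero_le
        _ ≤ 𝔮.height + 1 := by gcongr
        _ ≤ _ := k2
    exact WithBot.coe_le_coe.2 k3
  refine le_trans ?_ h2
  exact_mod_cast h1

end

end Pool.Agent.H71.Ses
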