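import Pool.Agent.H71.Ses.F5
import Pool.Agent.H71.Ses.D1
import Pool.Agent.H71.Ses.C2

set_option linter.style.haveILetI false
set_option linter.unusedSectionVars false
set_option linter.unusedVariables false

open scoped WithZero

namespace Pool.Agent.H71.Ses

open ProjVar

/-! ### Facts on reductions -/

section Gen

variable {k K : Type} [Field k] [Field K] [Algebra k K] [CharP k 5] [CharP K 5] {X : ProjVar k K}

theorem dich_of_xRed {P : X.Point} [CharP P.κ 5] {Q : Pt K} {Q' : Pt P.κ}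
    (h : P.splz.XRed Q Q') : Q.x ∈ P.ring ∨ Q.x⁻¹ ∈ P.ring := by
  rcases h with ⟨_, _, h⟩ | ⟨_, rfl | ⟨_, h⟩⟩
  · exact Or.inl h.1
  · exact Or.inl (by rw [x_zero]; exact zero_mem _)
  · exact Or.inr h.1

theorem res_x_of_xRed {P : X.Point} [CharP P.κ 5] {Q : Pt K} {Q' : Pt P.κ}
    (h : P.splz.XRed Q Q') : P.res Q.x = Q'.x := by
  rcases h with ⟨_, _, h⟩ | ⟨rfl, rfl | ⟨h0, h⟩⟩
  · exact h.2
  · rw [x_zero, x_zero]
    exact (P.splz.zero).2
  · rw [x_zero]
    by_cases hm : Q.x ∈ P.ring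
    · exfalso
      have r := P.splz.mul (splz_mem P hm) h
      rw [mul_inv_cancel₀ h0, mul_zero] at r
      exact one_ne_zero (P.splz.uniq P.splz.one r)
    · unfold Point.res
      rw [dif_neg hm]

end Gen

variable {k KC K : Type} [Field k] [IsAlgClosed k] [CharP k 5] [Field KC] [CharP KC 5] [Field K]
  [CharP K 5] [Algebra k KC]
  [Algebra KC K] [Algebra k K] [IsScalarTower k KC K] {a b : KC} {x y : K}

/-- the tautological point -/
noncomputable def IsModel.T (M : IsModel k KC K a b x y) : Pt K := Pool.Agent.H71.Ses.mk x y M.xy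

section

variable {M : IsModel k KC K a b x y} (P : (SX M).Point)

instance : CharP P.κ 5 := charP_of_algebra k P.κ

/-- reduction of the tautological point -/
theorem exists_red_T : ∃ Q : Pt P.κ, P.splz.Red M.T Q := by
  rcases e_cases P with ⟨h1, h2⟩ | ⟨hi, r1, r2, r3, r4⟩
  · have r1 := splz_mem P h1
    have r2 := splz_mem P h2
    have e : (P.res y) ^ 2 = (P.res x) ^ 3 - 2 * P.res x := by
      have s1 := P.splz.pow r2 2
      have s2 := P.splz.sub (P.splz.pow r1 3) (P.splz.mul P.splz.two r1)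
      exact P.splz.uniq (P.splz.congr s1 M.xy rfl) s2
    exact ⟨mk _ _ e, Or.inr (Or.inl ⟨x, y, M.xy, _, _, e, rfl, rfl, r1, r2⟩)⟩
  · exact ⟨0, Or.inr (Or.inr ⟨rfl, x, y, M.xy, rfl, M.x_ne, r3, r4⟩)⟩

/-- reduction of points with coordinates in `KC` -/
theorem exists_red_KC (Q : Pt KC) : ∃ Q' : Pt P.κ, P.splz.Red (Pt.map (algebraMap KC K) Q) Q' ∧
    (Q' = 0 ∨ ∃ c : KC, ∃ h : algebraMap KC K c ∈ P.ring, Q'.x = P.res (algebraMap KC K c)) := by
  rcases Q.cases with rfl | ⟨X, Y, h, rfl⟩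
  · exact ⟨0, Or.inl ⟨map_zero _, rfl⟩, Or.inl rfl⟩
  have h' : (algebraMap KC K Y) ^ 2 = (algebraMap KC K X) ^ 3 - 2 * algebraMap KC K X := by
    rw [← map_pow, h, map_sub, map_pow, map_mul, map_ofNat]
  rw [Pt.map_mk _ X Y h h']
  by_cases hX : algebraMap KC K X ∈ P.ring
  · have r1 := splz_mem P hX
    have hY : algebraMap KC K Y ∈ P.ring := by
      rcases dich_KC P Y with hY | hY
      · exact hY
      · have e : algebraMap KC K Y = ((algebraMap KC K X) ^ 3 - 2 * algebraMap KC K X) *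
            (algebraMap KC K Y)⁻¹ := by
          rw [← h']
          by_cases h0 : algebraMap KC K Y = 0
          · rw [h0]; ring
          · field_simp
        rw [e]
        exact mul_mem (sub_mem (pow_mem hX 3) (mul_mem P.splz.two.1 hX)) hY
    have r2 := splz_mem P hY
    have e : (P.res (algebraMap KC K Y)) ^ 2 = (P.res (algebraMap KC K X)) ^ 3 -
        2 * P.res (algebraMap KC K X) := by
      have s1 := P.splz.pow r2 2
      have s2 := P.splz.sub (P.splz.pow r1 3) (P.splz.mul P.splz.two r1)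
      exact P.splz.uniq (P.splz.congr s1 h' rfl) s2
    refine ⟨mk _ _ e, Or.inr (Or.inl ⟨_, _, h', _, _, e, rfl, rfl, r1, r2⟩), Or.inr ⟨X, hX, ?_⟩⟩
    rw [x_mk]
  · have hX0 : algebraMap KC K X ≠ 0 := by
      intro h0
      apply hX
      rw [h0]
      exact zero_mem _
    have hXi := (dich_KC P X).resolve_left hX
    have r1 : P.splz.R (algebraMap KC K X)⁻¹ 0 := by
      refine ⟨hXi, ?_⟩
      rw [res_eq_zero_iff P hXi]
      right
      rw [inv_inv]
      exact hX
    have e : (algebraMap KC K Y / (algebraMap KC K X) ^ 2) ^ 2 =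
        (algebraMap KC K X)⁻¹ - 2 * (algebraMap KC K X)⁻¹ ^ 3 := by
      have h'' := h'
      generalize algebraMap KC K Y = Y' at *
      generalize algebraMap KC K X = X' at *
      field_simp
      linear_combination h''
    have r2 : P.splz.R ((algebraMap KC K Y / (algebraMap KC K X) ^ 2) ^ 2) 0 := by
      rw [e]
      exact P.splz.congr (P.splz.sub r1 (P.splz.mul P.splz.two (P.splz.pow r1 3))) rfl (by ring)
    have r3 : P.splz.R (algebraMap KC K Y / (algebraMap KC K X) ^ 2) 0 := by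
      have hd := dich_KC P (Y / X ^ 2)
      rw [map_div₀, map_pow] at hd
      rcases hd with hd | hd
      · have s := P.splz.pow (splz_mem P hd) 2
        have s2 := P.splz.uniq r2 s
        exact ⟨hd, pow_eq_zero_iff two_ne_zero |>.1 s2.symm⟩
      · by_cases h0 : algebraMap KC K Y / (algebraMap KC K X) ^ 2 = 0
        · rw [h0]; exact P.splz.zero
        · exfalso
          have s := P.splz.mul r2 (P.splz.pow (splz_mem P hd) 2)
          rw [← mul_pow, mul_inv_cancel₀ h0, one_pow, zero_mul] at s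
          exact one_ne_zero (P.splz.uniq P.splz.one s)
    exact ⟨0, Or.inr (Or.inr ⟨rfl, _, _, h', rfl, hX0, r1, r3⟩), Or.inl rfl⟩

/-- functions without points of indeterminacy -/
theorem dich_T : M.T.x ∈ P.ring ∨ M.T.x⁻¹ ∈ P.ring := by
  obtain ⟨Q, hQ⟩ := exists_red_T P
  exact dich_of_xRed hQ.xRed

theorem dich_add (ψ : Pt KC) : (M.T + Pt.map (algebraMap KC K) ψ).x ∈ P.ring ∨
    (M.T + Pt.map (algebraMap KC K) ψ).x⁻¹ ∈ P.ring := by
  obtain ⟨Q, hQ⟩ := exists_red_T P
  obtain ⟨Q', hQ', -⟩ := exists_red_KC P ψ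
  exact dich_of_xRed (Splz.red_add hQ hQ')

theorem dich_Z (ψ : Pt KC) : (Pt.map (algebraMap KC K) ψ).x ∈ P.ring ∨
    (Pt.map (algebraMap KC K) ψ).x⁻¹ ∈ P.ring := by
  obtain ⟨Q', hQ', -⟩ := exists_red_KC P ψ
  exact dich_of_xRed hQ'.xRed

end

/-- the line bundles used in the construction -/
noncomputable def LB (M : IsModel k KC K a b x y) (n m : ℕ) (ψ Z : Pt KC) : (SX M).LineBundle :=
  ((ofFun (SX M) M.T.x dich_T).pow n).mul
    ((ofFun (SX M) _ (fun P => dich_add P ψ)).mul ((ofFun (SX M) _ (fun P => dich_Z P Z)).pow m).inv)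

theorem LB_degree (M : IsModel k KC K a b x y) (n m : ℕ) (ψ Z : Pt KC) (G : (SX M).Point)
    (hG : G.IsCurve) {T' ψ' Z' : Pt G.κ} (h1 : G.splz.Red M.T T')
    (h2 : G.splz.Red (Pt.map (algebraMap KC K) ψ) ψ')
    (h3 : G.splz.Red (Pt.map (algebraMap KC K) Z) Z') :
    (LB M n m ψ Z).degree G = n * hgt k T' + hgt k (T' + ψ') - m * hgt k Z' := by
  rw [LB, degree_combo _ _ _ _ _ _ hG, res_x_of_xRed h1.xRed,
    res_x_of_xRed (Splz.red_add h1 h2), res_x_of_xRed h3.xRed]
  rfl

section CaseOne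

variable {M : IsModel k KC K a b x y} (G : (SX M).Point) (h : ∀ c : KC, algebraMap KC K c ∈ G.ring)

/-- the map from `KC` to the function field of a curve dominating `C` -/
noncomputable def rho : KC →ₐ[k] G.κ where
  toFun c := G.res (algebraMap KC K c)
  map_one' := by rw [map_one]; exact (G.splz.one).2
  map_mul' c d := by rw [map_mul]; exact (G.splz.mul (splz_mem G (h c)) (splz_mem G (h d))).2
  map_zero' := by rw [map_zero]; exact (G.splz.zero).2
  map_add' c d := by rw [map_add]; exact (G.splz.add (splz_mem G (h c)) (splz_mem G (h d))).2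
  commutes' c := by
    rw [← IsScalarTower.algebraMap_apply k KC K]
    exact (splz_const G c).2

theorem rho_R (c : KC) : G.splz.R (algebraMap KC K c) (rho G h c) := splz_mem G (h c)

theorem red_rho (Q : Pt KC) :
    G.splz.Red (Pt.map (algebraMap KC K) Q) (Pt.map (rho G h).toRingHom Q) := by
  rcases Q.cases with rfl | ⟨X, Y, h1, rfl⟩
  · exact Or.inl ⟨map_zero _, map_zero _⟩
  have h' : (algebraMap KC K Y) ^ 2 = (algebraMap KC K X) ^ 3 - 2 * algebraMap KC K X := by
    rw [← map_pow, h1, map_sub, map_pow, map_mul, map_ofNat]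
  have h'' : ((rho G h).toRingHom Y) ^ 2 = ((rho G h).toRingHom X) ^ 3 -
      2 * (rho G h).toRingHom X := by
    rw [← map_pow, h1, map_sub, map_pow, map_mul, map_ofNat]
  rw [Pt.map_mk _ X Y h1 h', Pt.map_mk _ X Y h1 h'']
  exact Or.inr (Or.inl ⟨_, _, h', _, _, h'', rfl, rfl, rho_R G h X, rho_R G h Y⟩)

end CaseOne

end Pool.Agent.H71.Ses
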