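import Pool.Agent.H71.Ses.F6

set_option linter.style.haveILetI false
set_option linter.unusedSectionVars false
set_option linter.unusedVariables false

open scoped WithZero IntermediateField

namespace Pool.Agent.H71.Ses

open ProjVar

theorem trdeg_one {F E : Type} [Field F] [Field E] [Algebra F E] {t : E} (ht : Transcendental F t)
    (h : Algebra.IsAlgebraic F⟮t⟯ E) : Algebra.trdeg F E = 1 := by
  have h1 : AlgebraicIndependent F (fun _ : Unit => t) := by
    rw [algebraicIndependent_unique_type_iff]
    exact ht
  have h2 : IsTranscendenceBasis F (fun _ : Unit => t) := by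
    rw [h1.isTranscendenceBasis_iff_isAlgebraic, Set.range_const,
      ← IntermediateField.isAlgebraic_adjoin_iff_top]
    exact h
  rw [← h2.cardinalMk_eq_trdeg]
  simp

/-- adding an algebraic element -/
theorem alg_of_adjoin {F E : Type} [Field F] [Field E] [Algebra F E] {t s : E}
    (htop : IntermediateField.adjoin F {t, s} = ⊤) (hs : IsAlgebraic F⟮t⟯ s) :
    Algebra.IsAlgebraic F⟮t⟯ E := by
  have h1 : F⟮t⟯⟮s⟯ = ⊤ := by
    rw [← IntermediateField.restrictScalars_eq_top_iff (K := F),
      IntermediateField.adjoin_simple_adjoin_simple]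
    exact htop
  have h2 : Algebra.IsAlgebraic F⟮t⟯ F⟮t⟯⟮s⟯ := by
    apply IntermediateField.isAlgebraic_adjoin_simple
    exact hs.isIntegral
  rw [h1] at h2
  exact ((Algebra.IsAlgebraic.of_injective (R := F⟮t⟯)
    (IntermediateField.topEquiv (F := F⟮t⟯) (E := E)).symm.toAlgHom
    (IntermediateField.topEquiv (F := F⟮t⟯) (E := E)).symm.injective))

variable {k KC K : Type} [Field k] [IsAlgClosed k] [CharP k 5] [Field KC] [CharP KC 5] [Field K]
  [CharP K 5] [Algebra k KC]
  [Algebra KC K] [Algebra k K] [IsScalarTower k KC K] {a b : KC} {x y : K}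

theorem IsModel.isFF (M : IsModel k KC K a b x y) : IsFF k KC := by
  refine ⟨?_, ?_⟩
  · rw [← M.genC]
    exact IntermediateField.fg_adjoin_of_finite (Set.toFinite _)
  · apply trdeg_one M.a_tr
    apply alg_of_adjoin M.genC
    refine ⟨Polynomial.X ^ 4 - Polynomial.C (2 - ⟨a, IntermediateField.mem_adjoin_simple_self k a⟩ ^ 4), ?_, ?_⟩
    · exact (Polynomial.monic_X_pow_sub_C _ (by norm_num)).ne_zero
    · simp only [map_sub, map_pow, Polynomial.aeval_X, Polynomial.aeval_C, map_ofNat]
      have : algebraMap k⟮a⟯ KC ⟨a, IntermediateField.mem_adjoin_simple_self k a⟩ = a := rfl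
      rw [this]
      linear_combination M.ab

theorem IsModel.trdegE (M : IsModel k KC K a b x y) : Algebra.trdeg KC K = 1 := by
  apply trdeg_one M.x_tr
  apply alg_of_adjoin M.genK
  set X : KC⟮x⟯ := ⟨x, IntermediateField.mem_adjoin_simple_self KC x⟩ with hX
  refine ⟨Polynomial.X ^ 2 - Polynomial.C (X ^ 3 - 2 * X), ?_, ?_⟩
  · exact (Polynomial.monic_X_pow_sub_C _ (by norm_num)).ne_zero
  · simp only [map_sub, map_pow, map_mul, Polynomial.aeval_X, Polynomial.aeval_C, map_ofNat]
    have : algebraMap KC⟮x⟯ K X = x := rfl
    rw [this]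
    linear_combination M.xy

/-- `E × C` is a smooth surface -/
theorem smooth (M : IsModel k KC K a b x y) : (SX M).IsSmoothSurface := by
  refine ⟨?_, fun P hP => regular P hP⟩
  rw [← trdeg_add_eq k KC (A := K), M.isFF.trdeg, M.trdegE]
  norm_num

/-- a function field which is finite over another one -/
theorem isFF_of_finite {F E : Type} [Field F] [Field E] [Algebra k F] [Algebra k E] [Algebra F E]
    [IsScalarTower k F E] [Module.Finite F E] (hF : IsFF k F) : IsFF k E := by
  refine ⟨?_, ?_⟩
  · have h1 : Algebra.EssFiniteType k F := IntermediateField.fg_top_iff.1 hF.fg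
    rw [IntermediateField.fg_top_iff]
    exact Algebra.EssFiniteType.comp k F E
  · rw [← trdeg_add_eq k F (A := E), hF.trdeg, trdeg_eq_zero]
    norm_num

/-- if `KC` is not contained in the ring of a curve all residues are constant -/
theorem const_of_not_all {M : IsModel k KC K a b x y} (G : (SX M).Point)
    (hn : ¬ ∀ c : KC, algebraMap KC K c ∈ G.ring) {f : KC} (hf : algebraMap KC K f ∈ G.ring) :
    ∃ c : k, G.res (algebraMap KC K f) = algebraMap k G.κ c := by
  apply exists_const
  intro htr
  apply hn
  let W : ValuationSubring KC :=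
    { carrier := {c | algebraMap KC K c ∈ G.ring}
      mul_mem' := by
        intro c d hc hd
        change algebraMap KC K (c * d) ∈ G.ring
        rw [map_mul]
        exact mul_mem hc hd
      one_mem' := by
        change algebraMap KC K 1 ∈ G.ring
        rw [map_one]
        exact one_mem _
      add_mem' := by
        intro c d hc hd
        change algebraMap KC K (c + d) ∈ G.ring
        rw [map_add]
        exact add_mem hc hd
      zero_mem' := by
        change algebraMap KC K 0 ∈ G.ring
        rw [map_zero]
        exact zero_mem _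
      neg_mem' := by
        intro c hc
        change algebraMap KC K (-c) ∈ G.ring
        rw [map_neg]
        exact neg_mem hc
      mem_or_inv_mem' := by
        intro c
        have := dich_KC G c
        rw [← map_inv₀] at this
        exact this }
  have hW : ∀ c : KC, c ∈ W ↔ algebraMap KC K c ∈ G.ring := fun c => Iff.rfl
  have hres : ∀ p : Polynomial k, G.splz.R (algebraMap KC K (Polynomial.aeval f p))
      (Polynomial.aeval (G.res (algebraMap KC K f)) p) := by
    intro p
    induction p using Polynomial.induction_on' with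
    | add p q hp hq =>
      rw [map_add, map_add, map_add]
      exact G.splz.add hp hq
    | monomial n c =>
      rw [Polynomial.aeval_monomial, Polynomial.aeval_monomial, map_mul, map_pow,
        ← IsScalarTower.algebraMap_apply k KC K]
      exact G.splz.mul (splz_const G c) (G.splz.pow (splz_mem G hf) n)
  have htr' : Transcendental k f := by
    intro h
    apply htr
    obtain ⟨p, hp, hp0⟩ := h
    refine ⟨p, hp, ?_⟩
    have := hres p
    rw [hp0, map_zero] at this
    exact G.splz.uniq this G.splz.zero
  have hfW : ∀ z ∈ k⟮f⟯, z ∈ W := by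
    intro z hz
    obtain ⟨r, s, rfl⟩ := IntermediateField.mem_adjoin_simple_iff k z |>.1 hz
    by_cases hs : s = 0
    · rw [hs, map_zero, div_zero]
      exact zero_mem _
    · rw [hW, map_div₀]
      refine (G.splz.div (hres r) (hres s) ?_).1
      intro h0
      rw [transcendental_iff] at htr
      exact hs (htr s h0)
  have hfin := M.isFF.finiteDimensional htr'
  intro c
  rw [← hW]
  have hint : IsIntegral k⟮f⟯ c := IsIntegral.of_finite _ c
  have hint2 : IsIntegral W c := by
    obtain ⟨p, hp, hp0⟩ := hint
    let φ : k⟮f⟯ →+* W := (algebraMap k⟮f⟯ KC).codRestrict W.toSubring (fun z => hfW z z.2)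
    refine ⟨p.map φ, hp.map φ, ?_⟩
    rw [Polynomial.eval₂_map]
    exact hp0
  obtain ⟨w, hw⟩ := IsIntegrallyClosed.isIntegral_iff.1 hint2
  rw [← hw]
  exact w.2

end Pool.Agent.H71.Ses
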