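import Pool.Agent.H71.Ses.F7

set_option linter.style.haveILetI false
set_option linter.unusedSectionVars false
set_option linter.unusedVariables false

open scoped WithZero IntermediateField

namespace Pool.Agent.H71.Ses

open ProjVar

section Deg

variable {k F : Type} [Field k] [IsAlgClosed k] [CharP k 5] [Field F] [CharP F 5] [Algebra k F]

theorem degP_mul_le (hF : IsFF k F) (u w : F) : degP k (u * w) ≤ degP k u + degP k w := by
  unfold degP
  rw [← finsum_add_distrib (finsupp_max hF _) (finsupp_max hF _)]
  refine finsum_le_finsum' (finsupp_max hF _) ?_ ?_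
  · refine ((finsupp_max hF u).union (finsupp_max hF w)).subset fun v hv => ?_
    rw [Function.mem_support] at hv
    by_contra hcon
    simp only [Set.mem_union, Function.mem_support, not_or, not_not] at hcon
    apply hv
    rw [hcon.1, hcon.2]
    rfl
  · intro v
    by_cases hu : u = 0
    · simp only [hu, zero_mul, v.ord_zero]
      omega
    by_cases hw : w = 0
    · simp only [hw, mul_zero, v.ord_zero]
      omega
    simp only [v.ord_mul hu hw]
    omega

theorem degP_div_le (hF : IsFF k F) (u w : F) : degP k (u / w) ≤ degP k u + degP k w := by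
  rw [div_eq_mul_inv, ← degP_inv hF w]
  exact degP_mul_le hF _ _

theorem degP_le_of_MM (hF : IsFF k F) {z w : F} {n : ℕ}
    (h : ∀ v : Place k F, MM v.val z ≤ MM v.val w ^ n) : degP k z ≤ n * degP k w := by
  unfold degP
  rw [mul_finsum]
  refine finsum_le_finsum' (finsupp_max hF _) ?_ ?_
  · refine (finsupp_max hF w).subset fun v hv => ?_
    rw [Function.mem_support] at hv ⊢
    intro h0
    apply hv
    rw [h0, mul_zero]
  · intro v
    have h1 := h v
    have h2 : WithZero.log (MM v.val z) ≤ WithZero.log (MM v.val w ^ n) := by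
      rwa [WithZero.log_le_log (MM_ne_zero _ _) (pow_ne_zero n (MM_ne_zero _ _))]
    rw [WithZero.log_pow, log_MM, log_MM, nsmul_eq_mul] at h2
    exact h2

theorem degP_y_le (hF : IsFF k F) {X Y : F} (h : Y ^ 2 = X ^ 3 - 2 * X) :
    degP k Y ≤ 3 * degP k X := by
  have := degP_le_of_MM hF (z := Y) (w := X) (n := 3) (fun v => by
    have hv : Triv v.val := Triv.of_sq five_eq_zero
    have hM1 : 1 ≤ MM v.val X := le_max_right _ _
    have hMX : v.val X ≤ MM v.val X := le_max_left _ _
    have h1 : v.val Y ^ 2 ≤ MM v.val X ^ 3 := by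
      rw [← map_pow, h]
      refine v.val.map_sub_le ?_ ?_
      · rw [map_pow]
        exact pow_le_pow_left' hMX 3
      · rw [map_mul, hv.two, one_mul]
        exact hMX.trans (le_self_pow₀ hM1 (by norm_num))
    have h2 : v.val Y ≤ MM v.val X ^ 3 := by
      have h3 : (1 : ℤᵐ⁰) ≤ MM v.val X ^ 3 := one_le_pow_of_one_le' hM1 3
      have h4 : v.val Y ^ 2 ≤ (MM v.val X ^ 3) ^ 2 := h1.trans (le_self_pow₀ h3 (by norm_num))
      exact (pow_le_pow_iff_left₀ (zero_le) (zero_le) two_ne_zero).1 h4
    exact max_le h2 (one_le_pow_of_one_le' hM1 3))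
  exact_mod_cast this

theorem degP_b_le (hF : IsFF k F) {a b : F} (h : a ^ 4 + b ^ 4 = 2) : degP k b ≤ degP k a := by
  have := degP_le_of_MM hF (z := b) (w := a) (n := 1) (fun v => by
    have hv : Triv v.val := Triv.of_sq five_eq_zero
    have hM1 : 1 ≤ MM v.val a := le_max_right _ _
    have hMX : v.val a ≤ MM v.val a := le_max_left _ _
    have h1 : v.val b ^ 4 ≤ MM v.val a ^ 4 := by
      have e : b ^ 4 = 2 - a ^ 4 := by linear_combination h
      rw [← map_pow, e]
      refine v.val.map_sub_le ?_ ?_
      · rw [hv.two]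
        exact one_le_pow_of_one_le' hM1 4
      · rw [map_pow]
        exact pow_le_pow_left' hMX 4
    have h2 : v.val b ≤ MM v.val a := (pow_le_pow_iff_left₀ (zero_le) (zero_le) four_ne_zero).1 h1
    rw [pow_one]
    exact max_le h2 hM1)
  rw [Nat.cast_one, one_mul] at this
  exact this

end Deg

end Pool.Agent.H71.Ses
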