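import Pool.Agent.H71.Ses.F8

set_option linter.style.haveILetI false
set_option linter.unusedSectionVars false
set_option linter.unusedVariables false

open scoped WithZero IntermediateField

namespace Pool.Agent.H71.Ses

open ProjVar

variable {k KC K : Type} [Field k] [IsAlgClosed k] [CharP k 5] [Field KC] [CharP KC 5] [Field K]
  [CharP K 5] [Algebra k KC]
  [Algebra KC K] [Algebra k K] [IsScalarTower k KC K] {a b : KC} {x y : K}

section

theorem degP_zero' {k F : Type} [Field k] [IsAlgClosed k] [CharP k 5] [Field F] [CharP F 5]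
    [Algebra k F] : degP k (0 : F) = 0 := by
  have := degP_const (k := k) (F := F) 0
  rwa [map_zero] at this

theorem degP_one' {k F : Type} [Field k] [IsAlgClosed k] [CharP k 5] [Field F] [CharP F 5]
    [Algebra k F] : degP k (1 : F) = 0 := by
  have := degP_const (k := k) (F := F) 1
  rwa [map_one] at this

variable {M : IsModel k KC K a b x y} (G : (SX M).Point)

theorem degP_res_e {T' : Pt G.κ} (hG : G.IsCurve) (hT : G.splz.Red M.T T') (i : Fin 3) :
    degP k (G.res (ee x y i / ee x y G.i.1)) ≤ 8 * hgt k T' := by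
  have hF := curve_isFF G hG
  have hnn := hgt_nonneg (k := k) T'
  rcases hT with ⟨h0, -⟩ | ⟨x', y', h, X, Y, h', h1, rfl, hX, hY⟩ | ⟨rfl, x', y', h, h1, h0, hX, hY⟩
  · exact absurd h0 (mk_ne_zero _ _ _)
  · obtain ⟨rfl, rfl⟩ := mk_inj.1 (show Pool.Agent.H71.Ses.mk x y M.xy = _ from h1)
    have hh : hgt k (Pool.Agent.H71.Ses.mk X Y h') = degP k X := by rw [hgt, x_mk]
    rw [hh] at hnn ⊢
    let e : Fin 3 → G.κ := ![X, Y, 1]
    have he : ∀ i, G.splz.R (ee x y i) (e i) := by
      intro i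
      fin_cases i
      · exact hX
      · exact hY
      · exact G.splz.one
    have hdeg : ∀ i, degP k (e i) ≤ 4 * degP k X := by
      intro i
      fin_cases i
      · change degP k X ≤ _
        linarith
      · have := degP_y_le hF h'
        change degP k Y ≤ _
        linarith
      · change degP k (1 : G.κ) ≤ _
        rw [degP_one']
        linarith
    have hne : e G.i.1 ≠ 0 := by
      have h2 : (ee x y G.i.1)⁻¹ ∈ G.ring := mem_of_eq (e_mem G 2) (by simp [ee])
      intro h0
      have r := G.splz.mul (splz_mem G h2) (he G.i.1)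
      rw [inv_mul_cancel₀ (ee_ne M _), h0, mul_zero] at r
      exact one_ne_zero (G.splz.uniq G.splz.one r)
    rw [(G.splz.div (he i) (he G.i.1) hne).2]
    have h3 := degP_div_le hF (e i) (e G.i.1)
    have h4 := hdeg i
    have h5 := hdeg G.i.1
    linarith
  · obtain ⟨rfl, rfl⟩ := mk_inj.1 (show Pool.Agent.H71.Ses.mk x y M.xy = _ from h1)
    rcases e_cases G with ⟨h2, h3⟩ | ⟨hi, r1, r2, r3, r4⟩
    · exfalso
      have r := G.splz.mul (splz_mem G h2) hX
      rw [mul_inv_cancel₀ h0, mul_zero] at r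
      exact one_ne_zero (G.splz.uniq G.splz.one r)
    · have hj : i = 0 ∨ i = 1 ∨ i = 2 := by
        have : ∀ i : Fin 3, i = 0 ∨ i = 1 ∨ i = 2 := by decide
        exact this i
      rw [hi, hgt_zero]
      rcases hj with hj | hj | hj <;> rw [hj]
      · have e : ee x y 0 / ee x y 1 = x / y := rfl
        rw [e, r1.2, degP_zero']
        norm_num
      · have e : ee x y 1 / ee x y 1 = 1 := div_self (ee_ne M 1)
        rw [e, (G.splz.one).2, degP_one']
        norm_num
      · have e : ee x y 2 / ee x y 1 = y⁻¹ := by simp [ee]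
        rw [e, r2.2, degP_zero']
        norm_num

theorem hyp_le {T' : Pt G.κ} (hG : G.IsCurve) (hT : G.splz.Red M.T T') {H : ℤ}
    (hH : ∀ j, degP k (G.res (algebraMap KC K (cc a b j / cc a b G.i.2))) ≤ 8 * H) :
    (hyperplane (SX M)).degree G ≤ 72 * (hgt k T' + H) := by
  have hF := curve_isFF G hG
  letI : Fintype (SX M).I := inferInstanceAs (Fintype (Fin 3 × Fin 3))
  refine (hyperplane_degree_le G hG).trans ?_
  have key : ∀ j ∈ (Finset.univ : Finset (SX M).I),
      degP k (G.res ((SX M).x j / (SX M).x G.i)) ≤ 8 * (hgt k T' + H) := by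
    intro j _
    rw [x_div_eq (M := M) j G.i]
    have h1 := degP_res_e G hG hT j.1
    have h2 := hH j.2
    have h3 := G.splz.mul (splz_mem G (e_mem G j.1)) (splz_mem G (c_mem G j.2))
    rw [h3.2]
    have h4 := degP_mul_le hF (G.res (ee x y j.1 / ee x y G.i.1))
      (G.res (algebraMap KC K (cc a b j.2 / cc a b G.i.2)))
    linarith
  refine (Finset.sum_le_card_nsmul _ _ _ key).trans ?_
  have hcard : (Finset.univ : Finset (SX M).I).card = 9 := by
    change Fintype.card (Fin 3 × Fin 3) = 9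
    simp
  rw [hcard, nsmul_eq_mul]
  push_cast
  linarith

end

/-- the point `ψ` -/
noncomputable def psi (M : IsModel k KC K a b x y) (c A Bc β₀ β₁ : ℤ) : Pt KC :=
  QF.gs iota (c * A) (-(c * Bc)) (uPt a b M.ab) + QF.gs iota β₀ β₁ (zPt a b M.ab)

section

variable {M : IsModel k KC K a b x y} (G : (SX M).Point)

theorem map_psi {F : Type} [Field F] [CharP F 5] (φ : KC →+* F) (c A Bc β₀ β₁ : ℤ)
    (h : (φ a) ^ 4 + (φ b) ^ 4 = 2) :
    Pt.map φ (psi M c A Bc β₀ β₁) = QF.gs iota (c * A) (-(c * Bc)) (uPt (φ a) (φ b) h) +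
      QF.gs iota β₀ β₁ (zPt (φ a) (φ b) h) ∧ Pt.map φ (zPt a b M.ab) = zPt (φ a) (φ b) h := by
  have hu : Pt.map φ (uPt a b M.ab) = uPt (φ a) (φ b) h := by
    unfold uPt
    rw [Pt.map_mk φ _ _ (u_eqn M.ab) (by
      have := congrArg φ (u_eqn M.ab)
      simpa only [map_pow, map_sub, map_mul, map_ofNat] using this)]
    rw [mk_inj]
    simp only [map_neg, map_add, map_mul, map_pow, map_ofNat]
    trivial
  have hz : Pt.map φ (zPt a b M.ab) = zPt (φ a) (φ b) h := by
    unfold zPt
    rw [Pt.map_mk φ _ _ (z_eqn M.ab) (by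
      have := congrArg φ (z_eqn M.ab)
      simpa only [map_pow, map_sub, map_mul, map_ofNat] using this)]
    rw [mk_inj]
    simp only [map_neg, map_add, map_mul, map_pow, map_ofNat]
    trivial
  refine ⟨?_, hz⟩
  unfold psi QF.gs
  simp only [map_add, map_zsmul, map_iota, hu, hz]

end

/-- ampleness of the line bundles -/
theorem LB_ample (M : IsModel k KC K a b x y) {c A Bc β₀ β₁ q : ℤ} (hq : q = A ^ 2 + Bc ^ 2)
    (hc : c ^ 2 - β₀ ^ 2 - β₁ ^ 2 = 1) (hc1 : 1 ≤ c) (hq1 : 1 ≤ q) {n m : ℕ}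
    (hn : (n : ℤ) = c * (q + 1) - 1) (hm : (m : ℤ) = c ^ 2 * q + β₀ ^ 2 + β₁ ^ 2 - c) :
    (LB M n m (psi M c A Bc β₀ β₁) (zPt a b M.ab)).IsAmple := by
  set D : ℤ := 2 + 2 * (c ^ 2 * q + β₀ ^ 2 + β₁ ^ 2) + c * (q + 1) with hD
  have hD1 : 1 ≤ D := by
    have : 0 ≤ c ^ 2 * q := by positivity
    have : 0 ≤ c * (q + 1) := by positivity
    rw [hD]
    nlinarith [sq_nonneg β₀, sq_nonneg β₁]
  have key : ∀ G : (SX M).Point, G.IsCurve → (hyperplane (SX M)).degree G ≤
      72 * D * (LB M n m (psi M c A Bc β₀ β₁) (zPt a b M.ab)).degree G := by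
    intro G hG
    have hF := curve_isFF G hG
    have H := qf (k := k) hF
    obtain ⟨T', hT⟩ := exists_red_T G
    have hTn := hgt_nonneg (k := k) T'
    by_cases hall : ∀ e : KC, algebraMap KC K e ∈ G.ring
    · -- the curve dominates `C`
      set ρ := rho G hall with hρ
      have hab : (ρ.toRingHom a) ^ 4 + (ρ.toRingHom b) ^ 4 = 2 := by
        rw [← map_pow, ← map_pow, ← map_add, M.ab, map_ofNat]
      obtain ⟨h1, h2⟩ := map_psi (M := M) ρ.toRingHom c A Bc β₀ β₁ hab
      have hdeg := LB_degree M n m (psi M c A Bc β₀ β₁) (zPt a b M.ab) G hG hT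
        (red_rho G hall _) (red_rho G hall _)
      rw [h1, h2, hn, hm] at hdeg
      obtain ⟨hu, hz⟩ := hgt_u_add_z (k := k) hF hab
      obtain ⟨ho1, ho2⟩ := u_z_orth (k := k) hF hab
      have hpos := H.L_pos_eq (x := T') hq (hu.trans hz.symm) ho1 ho2 (c := 1) hc.symm
      have hval := H.L_eq (x := 0) hq (hu.trans hz.symm) ho1 ho2 (c := 1) hc.symm
      rw [← hdeg, one_mul] at hpos
      rw [H.zero, zero_add, H.B_zero_left] at hval
      set ψ' := QF.gs iota (c * A) (-(c * Bc)) (uPt (ρ.toRingHom a) (ρ.toRingHom b) hab) +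
        QF.gs iota β₀ β₁ (zPt (ρ.toRingHom a) (ρ.toRingHom b) hab) with hψ
      set Z' := zPt (ρ.toRingHom a) (ρ.toRingHom b) hab with hZ
      set L := (LB M n m (psi M c A Bc β₀ β₁) (zPt a b M.ab)).degree G with hL
      have hpar := H.par ((c * (q + 1)) • T' + ψ') ψ'
      rw [add_sub_cancel_right, H.h_zsmul] at hpar
      have hn1 := hgt_nonneg (k := k) ((c * (q + 1)) • T' + ψ' + ψ')
      have hn2 := hgt_nonneg (k := k) ((c * (q + 1)) • T' + ψ')
      have hZn := hgt_nonneg (k := k) Z'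
      have hA1 : 1 ≤ c * (q + 1) := by nlinarith
      have hL0 : 0 ≤ L := by
        have : 0 ≤ (c * (q + 1)) * L := by rw [hpos]; positivity
        nlinarith
      have hb : hgt k Z' ≤ c * (q + 1) * L := by linarith
      have he : hgt k T' ≤ (2 + 2 * (c ^ 2 * q + β₀ ^ 2 + β₁ ^ 2)) * L := by
        have e1 : (c * (q + 1)) ^ 2 * hgt k T' ≤ 2 * (c * (q + 1) * L) +
            2 * ((c ^ 2 * q + β₀ ^ 2 + β₁ ^ 2) * (c * (q + 1) * L)) := by
          have e2 : hgt k ψ' = (c ^ 2 * q + β₀ ^ 2 + β₁ ^ 2) * hgt k Z' := by linarith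
          have e3 : (c ^ 2 * q + β₀ ^ 2 + β₁ ^ 2) * hgt k Z' ≤
              (c ^ 2 * q + β₀ ^ 2 + β₁ ^ 2) * (c * (q + 1) * L) := by
            apply mul_le_mul_of_nonneg_left hb
            positivity
          linarith
        have e4 : (c * (q + 1)) * ((c * (q + 1)) * hgt k T') ≤ (c * (q + 1)) *
            ((2 + 2 * (c ^ 2 * q + β₀ ^ 2 + β₁ ^ 2)) * L) := by linarith
        have e5 := le_of_mul_le_mul_left e4 (by linarith)
        have e6 : hgt k T' ≤ (c * (q + 1)) * hgt k T' := by nlinarith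
        linarith
      have hH : ∀ j, degP k (G.res (algebraMap KC K (cc a b j / cc a b G.i.2))) ≤
          8 * hgt k Z' := by
        intro j
        rw [(rho_R G hall _).2, map_div₀, hz]
        have hdeg : ∀ i, degP k (ρ (cc a b i)) ≤ degP k (ρ.toRingHom a) := by
          intro i
          fin_cases i
          · exact le_refl _
          · exact degP_b_le hF hab
          · change degP k (ρ 1) ≤ _
            rw [map_one, degP_one']
            exact degP_nonneg _
        have h3 := degP_div_le hF (ρ (cc a b j)) (ρ (cc a b G.i.2))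
        have h4 := hdeg j
        have h5 := hdeg G.i.2
        have h6 := degP_nonneg (k := k) (ρ.toRingHom a)
        linarith
      have h7 := hyp_le G hG hT hH
      rw [hD]
      nlinarith
    · -- fibres of the projection to `C`
      obtain ⟨ψ', h1, h1c⟩ := exists_red_KC G (psi M c A Bc β₀ β₁)
      obtain ⟨Z', h2, h2c⟩ := exists_red_KC G (zPt a b M.ab)
      have hdeg := LB_degree M n m (psi M c A Bc β₀ β₁) (zPt a b M.ab) G hG hT h1 h2
      have hconst : ∀ Q : Pt G.κ, (Q = 0 ∨ ∃ e : KC, ∃ h : algebraMap KC K e ∈ G.ring,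
          Q.x = G.res (algebraMap KC K e)) → hgt k Q = 0 := by
        rintro Q (rfl | ⟨e, he, hQ⟩)
        · exact hgt_zero
        · obtain ⟨c, hc⟩ := const_of_not_all G hall he
          rw [hc] at hQ
          exact hgt_const hQ
      rw [hconst Z' h2c, H.h_add_null (hconst ψ' h1c), hn, mul_zero, sub_zero] at hdeg
      have hH : ∀ j, degP k (G.res (algebraMap KC K (cc a b j / cc a b G.i.2))) ≤ 8 * 0 := by
        intro j
        obtain ⟨c, hc⟩ := const_of_not_all G hall (c_mem G j)
        rw [hc, degP_const]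
        norm_num
      have h7 := hyp_le G hG hT hH
      rw [hdeg, add_zero] at *
      have h8 : 1 ≤ c * (q + 1) := by nlinarith
      have h9 : hgt k T' ≤ D * ((c * (q + 1) - 1) * hgt k T' + hgt k T') := by
        have e1 : (c * (q + 1) - 1) * hgt k T' + hgt k T' = (c * (q + 1)) * hgt k T' := by ring
        rw [e1, ← mul_assoc]
        have : 1 ≤ D * (c * (q + 1)) := one_le_mul_of_one_le_of_one_le hD1 h8
        nlinarith
      linarith
  refine ⟨1 / (72 * D), ?_, ?_⟩
  · have : (0 : ℝ) < D := by exact_mod_cast (by linarith : (0 : ℤ) < D)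
    positivity
  · intro G hG
    have h1 := key G hG
    have h2 : (0 : ℝ) < D := by exact_mod_cast (by linarith : (0 : ℤ) < D)
    rw [div_mul_eq_mul_div, one_mul, div_le_iff₀ (by positivity)]
    have h3 : (((hyperplane (SX M)).degree G : ℤ) : ℝ) ≤
      ((72 * D * (LB M n m (psi M c A Bc β₀ β₁) (zPt a b M.ab)).degree G : ℤ) : ℝ) := by
      exact_mod_cast h1
    push_cast at h3
    linarith

end Pool.Agent.H71.Ses
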