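import Pool.Agent.H71.Ses.D0

set_option linter.style.haveILetI false
set_option linter.unusedSectionVars false
set_option linter.unusedVariables false

open Polynomial
open scoped IntermediateField

namespace Pool.Agent.H71.Ses

section Plane

variable (F : Type) [Field F] (d : ℕ) (p : F[X])

/-- the polynomial `T ^ d - p(X)` -/
noncomputable def plF : F[X][X] := X ^ d - C p

theorem plF_monic (hd : 0 < d) : (plF F d p).Monic := monic_X_pow_sub_C p hd.ne'

theorem plF_natDegree : (plF F d p).natDegree = d := natDegree_X_pow_sub_C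

theorem plF_irred (hd : 0 < d) {r : F} (hr : p.eval r = 0) (hr' : (derivative p).eval r ≠ 0) :
    Irreducible (plF F d p) := by
  have hprime : (Ideal.span {X - C r} : Ideal F[X]).IsPrime :=
    (Ideal.span_singleton_prime (X_sub_C_ne_zero r)).2 (prime_X_sub_C r)
  have hmon := plF_monic F d p hd
  have hnd : 0 < (plF F d p).natDegree := by rw [plF_natDegree]; exact hd
  apply irreducible_of_eisenstein_criterion hprime
  · rw [hmon.leadingCoeff]
    exact (Ideal.ne_top_iff_one _).1 hprime.ne_top
  · intro n hn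
    rw [degree_eq_natDegree hmon.ne_zero, plF_natDegree, Nat.cast_lt] at hn
    unfold plF
    rw [coeff_sub, coeff_X_pow, if_neg hn.ne, coeff_C]
    split_ifs
    · rw [zero_sub]
      apply neg_mem
      rw [Ideal.mem_span_singleton, dvd_iff_isRoot]
      exact hr
    · rw [sub_zero]
      exact zero_mem _
  · exact natDegree_pos_iff_degree_pos.1 hnd
  · unfold plF
    rw [coeff_sub, coeff_X_pow, if_neg hd.ne, coeff_C_zero, zero_sub, neg_mem_iff,
      Ideal.span_singleton_pow, Ideal.mem_span_singleton]
    rintro ⟨q, hq⟩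
    apply hr'
    rw [hq]
    simp [derivative_mul, derivative_pow]
  · exact hmon.isPrimitive

/-- the function field of the plane curve `t ^ d = p(s)` -/
theorem exists_plane (hd : 0 < d) {r : F} (hr : p.eval r = 0) (hr' : (derivative p).eval r ≠ 0) :
    ∃ (L : Type) (_ : Field L) (_ : Algebra F L) (s t : L), t ^ d = aeval s p ∧
      Transcendental F s ∧ IntermediateField.adjoin F {s, t} = ⊤ ∧
      (∀ (κ : Type) [CommRing κ] (φ : F →+* κ) (s' t' : κ), t' ^ d = p.eval₂ φ s' →
        ∃ χ : Algebra.adjoin F {s, t} →+* κ, (∀ c, χ (algebraMap F _ c) = φ c) ∧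
          χ ⟨s, Algebra.subset_adjoin (by simp)⟩ = s' ∧
          χ ⟨t, Algebra.subset_adjoin (by simp)⟩ = t') ∧
      (∀ (κ : Type) [Field κ] [Algebra F κ] (s' t' : κ), t' ^ d = aeval s' p →
        Transcendental F s' → ∃ φ : L →ₐ[F] κ, φ s = s' ∧ φ t = t') := by
  have hirr := plF_irred F d p hd hr hr'
  have hmon := plF_monic F d p hd
  haveI : IsDomain (AdjoinRoot (plF F d p)) := AdjoinRoot.isDomain_of_prime hirr.prime
  haveI : Module.Finite F[X] (AdjoinRoot (plF F d p)) := hmon.finite_adjoinRoot
  have hdeg : (plF F d p).degree ≠ 0 := by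
    rw [degree_eq_natDegree hmon.ne_zero, plF_natDegree]
    exact_mod_cast hd.ne'
  have hofinj := AdjoinRoot.of.injective_of_degree_ne_zero hdeg
  let h : AdjoinRoot (plF F d p) →ₐ[F] FractionRing (AdjoinRoot (plF F d p)) :=
    IsScalarTower.toAlgHom F _ _
  have hinj : Function.Injective h :=
    IsFractionRing.injective (AdjoinRoot (plF F d p)) (FractionRing (AdjoinRoot (plF F d p)))
  let g : F[X] →ₐ[F] FractionRing (AdjoinRoot (plF F d p)) :=
    h.comp (AdjoinRoot.ofAlgHom F (plF F d p))
  have hg : ∀ q, g q = h (AdjoinRoot.of _ q) := fun q => rfl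
  have hgaeval : ∀ q, aeval (g X) q = g q := by
    intro q
    rw [aeval_algHom_apply, aeval_X_left_apply]
  have hginj : Function.Injective g := hinj.comp hofinj
  have hroot : AdjoinRoot.root (plF F d p) ^ d = AdjoinRoot.of (plF F d p) p := by
    have h1 := AdjoinRoot.eval₂_root (plF F d p)
    conv at h1 =>
      lhs
      enter [3]
      unfold plF
    rw [eval₂_sub, eval₂_X_pow, eval₂_C, sub_eq_zero] at h1
    exact h1
  have hgmem : ∀ q, g q ∈ Algebra.adjoin F
      ({g X, h (AdjoinRoot.root (plF F d p))} : Set (FractionRing (AdjoinRoot (plF F d p)))) := by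
    intro q
    have h1 : aeval (g X) q ∈
        Algebra.adjoin F ({g X} : Set (FractionRing (AdjoinRoot (plF F d p)))) := by
      rw [Algebra.adjoin_singleton_eq_range_aeval]
      exact ⟨_, rfl⟩
    rw [hgaeval] at h1
    exact Algebra.adjoin_mono (Set.singleton_subset_iff.2 (Set.mem_insert _ _)) h1
  have hmem : ∀ z, h z ∈ Algebra.adjoin F
      ({g X, h (AdjoinRoot.root (plF F d p))} : Set (FractionRing (AdjoinRoot (plF F d p)))) := by
    intro z
    have h1 : z ∈ Algebra.adjoin F[X] ({AdjoinRoot.root (plF F d p)} : Set _) := by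
      rw [AdjoinRoot.adjoinRoot_eq_top]
      trivial
    induction h1 using Algebra.adjoin_induction with
    | mem z hz =>
      rw [Set.mem_singleton_iff.1 hz]
      exact Algebra.subset_adjoin (Set.mem_insert_of_mem _ rfl)
    | algebraMap c => exact hgmem c
    | add z w _ _ h1 h2 =>
      rw [map_add]
      exact add_mem h1 h2
    | mul z w _ _ h1 h2 =>
      rw [map_mul]
      exact mul_mem h1 h2
  have hle : Algebra.adjoin F
      ({g X, h (AdjoinRoot.root (plF F d p))} : Set (FractionRing (AdjoinRoot (plF F d p)))) ≤ h.range := by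
    rw [Algebra.adjoin_le_iff]
    rintro z (rfl | rfl)
    · exact ⟨_, (hg X).symm⟩
    · exact ⟨_, rfl⟩
  refine ⟨FractionRing (AdjoinRoot (plF F d p)), inferInstance, inferInstance, g X,
    h (AdjoinRoot.root _), ?_, ?_, ?_, ?_, ?_⟩
  · rw [← map_pow, hroot, hgaeval]
    rfl
  · rw [transcendental_iff_injective]
    intro q q' hqq
    rw [hgaeval, hgaeval] at hqq
    exact hginj hqq
  · rw [eq_top_iff]
    rintro z -
    obtain ⟨u, v, hv, rfl⟩ := IsFractionRing.div_surjective (A := AdjoinRoot (plF F d p)) z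
    have hle' := IntermediateField.algebra_adjoin_le_adjoin F
      ({g X, h (AdjoinRoot.root (plF F d p))} : Set (FractionRing (AdjoinRoot (plF F d p))))
    exact div_mem (hle' (hmem u)) (hle' (hmem v))
  · intro κ _ φ s' t' hst
    let lft : AdjoinRoot (plF F d p) →+* κ := AdjoinRoot.lift (eval₂RingHom φ s') t' (by
      unfold plF
      rw [eval₂_sub, eval₂_X_pow, eval₂_C, sub_eq_zero, coe_eval₂RingHom]
      exact hst)
    let e := AlgEquiv.ofInjective h hinj
    let χ : Algebra.adjoin F {g X, h (AdjoinRoot.root _)} →+* κ :=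
      lft.comp (e.symm.toAlgHom.toRingHom.comp (Subalgebra.inclusion hle).toRingHom)
    have hχ : ∀ (w : AdjoinRoot (plF F d p)) (hw : h w ∈ Algebra.adjoin F {g X,
        h (AdjoinRoot.root _)}), χ ⟨h w, hw⟩ = lft w := by
      intro w hw
      change lft (e.symm ⟨h w, _⟩) = _
      congr 1
      rw [AlgEquiv.symm_apply_eq]
      rfl
    refine ⟨χ, ?_, ?_, ?_⟩
    · intro c
      have h1 : (algebraMap F (Algebra.adjoin F {g X, h (AdjoinRoot.root _)}) c) =
          ⟨h (AdjoinRoot.of _ (C c)), hmem _⟩ := by
        apply Subtype.ext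
        change algebraMap F _ c = g (C c)
        rw [← algebraMap_eq]
        exact (g.commutes c).symm
      rw [h1, hχ, AdjoinRoot.lift_of, coe_eval₂RingHom, eval₂_C]
    · have h1 : lft (AdjoinRoot.of _ X) = s' := by
        rw [AdjoinRoot.lift_of, coe_eval₂RingHom, eval₂_X]
      exact (hχ (AdjoinRoot.of _ X) (hmem _)).trans h1
    · have h1 : lft (AdjoinRoot.root _) = t' := AdjoinRoot.lift_root _
      exact (hχ (AdjoinRoot.root _) (hmem _)).trans h1
  · intro κ _ _ s' t' hst htr
    let ψ : AdjoinRoot (plF F d p) →ₐ[F] κ := AdjoinRoot.liftAlgHom (plF F d p) (aeval s') t' (by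
      unfold plF
      rw [eval₂_sub, eval₂_X_pow, eval₂_C, sub_eq_zero]
      exact hst)
    have hψinj : Function.Injective ψ := by
      rw [injective_iff_map_eq_zero]
      have hker : RingHom.ker ψ.toRingHom = ⊥ := by
        apply Ideal.eq_bot_of_comap_eq_bot (R := F[X])
        rw [eq_bot_iff]
        intro q hq
        rw [Ideal.mem_comap, RingHom.mem_ker] at hq
        have h1 : aeval s' q = 0 := by
          have h2 : ψ (AdjoinRoot.of _ q) = aeval s' q := AdjoinRoot.liftAlgHom_of _ _ _ _ _
          rw [← h2]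
          exact hq
        have h3 := transcendental_iff_injective.1 htr
        exact (injective_iff_map_eq_zero _).1 h3 q h1
      intro z hz
      have : z ∈ RingHom.ker ψ.toRingHom := hz
      rw [hker] at this
      exact this
    refine ⟨IsFractionRing.liftAlgHom hψinj, ?_, ?_⟩
    · have h1 : (IsFractionRing.liftAlgHom hψinj : FractionRing (AdjoinRoot (plF F d p)) →ₐ[F] κ)
          (h (AdjoinRoot.of _ X)) = ψ (AdjoinRoot.of _ X) := by
        rw [IsFractionRing.liftAlgHom_apply]
        exact IsFractionRing.lift_algebraMap (g := ψ.toRingHom) hψinj _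
      have h2 : ψ (AdjoinRoot.of _ X) = aeval s' X := AdjoinRoot.liftAlgHom_of _ _ _ _ _
      rw [aeval_X] at h2
      exact h1.trans h2
    · have h1 : (IsFractionRing.liftAlgHom hψinj : FractionRing (AdjoinRoot (plF F d p)) →ₐ[F] κ)
          (h (AdjoinRoot.root _)) = ψ (AdjoinRoot.root _) := by
        rw [IsFractionRing.liftAlgHom_apply]
        exact IsFractionRing.lift_algebraMap (g := ψ.toRingHom) hψinj _
      have h2 : ψ (AdjoinRoot.root _) = t' := AdjoinRoot.liftAlgHom_root _ _ _ _
      exact h1.trans h2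

end Plane

end Pool.Agent.H71.Ses
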