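import Pool.Agent.H71.Ses.J2
import Pool.Agent.H71.Ses.G1

set_option linter.style.haveILetI false
set_option linter.unusedSectionVars false
set_option linter.unusedVariables false

open Polynomial
open scoped IntermediateField

namespace Pool.Agent.H71.Ses

theorem two_ne_zero5 (F : Type) [Field F] [CharP F 5] : (2 : F) ≠ 0 := by
  intro h
  have h1 : ((2 : ℕ) : F) = 0 := by exact_mod_cast h
  rw [CharP.cast_eq_zero_iff F 5] at h1
  omega

theorem exists_model (k : Type) [Field k] [IsAlgClosed k] [CharP k 5] :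
    ∃ (KC K : Type) (_ : Field KC) (_ : Field K) (_ : Algebra k KC) (_ : Algebra KC K)
      (_ : Algebra k K) (_ : IsScalarTower k KC K) (a b : KC) (x y : K),
      IsModel k KC K a b x y := by
  obtain ⟨r, hr⟩ := IsAlgClosed.exists_pow_nat_eq (2 : k) (show 0 < 4 by norm_num)
  have h2 := two_ne_zero5 k
  have hr0 : r ≠ 0 := by
    rintro rfl
    rw [zero_pow (by norm_num)] at hr
    exact h2 hr.symm
  obtain ⟨KC, _, _, a, b, hab, ha, hgen, huniv1, huniv2⟩ := exists_plane k 4 (C 2 - X ^ 4)
    (by norm_num) (r := r) (by simp [hr]) (by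
      simp only [derivative_sub, derivative_C, derivative_X_pow, zero_sub, eval_neg, eval_mul,
        eval_C, eval_pow, eval_X, neg_ne_zero]
      have h4 : ((4 : ℕ) : k) = 2 * 2 := by norm_num
      rw [h4]
      exact mul_ne_zero (mul_ne_zero h2 h2) (pow_ne_zero _ hr0))
  have hab' : b ^ 4 = 2 - a ^ 4 := by
    rw [hab, map_sub, map_pow, aeval_C, aeval_X, map_ofNat]
  haveI : CharP KC 5 := charP_of_algebra k KC
  obtain ⟨K, _, _, x, y, hxy, hx, hgen', huniv1', huniv2'⟩ := exists_plane KC 2 (X ^ 3 - C 2 * X)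
    (by norm_num) (r := 0) (by simp) (by simp [two_ne_zero5 KC])
  letI : Algebra k K := ((algebraMap KC K).comp (algebraMap k KC)).toAlgebra
  haveI : IsScalarTower k KC K := IsScalarTower.of_algebraMap_eq fun _ => rfl
  refine ⟨KC, K, inferInstance, inferInstance, inferInstance, inferInstance, inferInstance,
    inferInstance, a, b, x, y, ?_⟩
  refine
    { ab := by rw [hab']; ring
      xy := by rw [hxy, map_sub, map_mul, map_pow, aeval_C, aeval_X, map_ofNat]
      a_tr := ha
      x_tr := hx
      genC := hgen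
      genK := hgen'
      univC := ?_
      univE := ?_
      ptC := ?_ }
  · intro κ _ _ a' b' h htr
    refine huniv2 κ a' b' ?_ htr
    rw [map_sub, map_pow, aeval_C, aeval_X, map_ofNat]
    linear_combination h
  · intro κ _ φ x' y' h
    refine huniv1' κ φ x' y' ?_
    rw [eval₂_sub, eval₂_pow, eval₂_mul, eval₂_X, eval₂_C, map_ofNat]
    exact h
  · intro α β h
    obtain ⟨χ, h1, h2, h3⟩ := huniv1 k (RingHom.id k) α β (by
      rw [eval₂_sub, eval₂_pow, eval₂_X, eval₂_C, map_ofNat]
      linear_combination h)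
    exact ⟨{ χ with commutes' := h1 }, h2, h3⟩

/-- **The main theorem.** -/
theorem main_theorem (k : Type) [Field k] [IsAlgClosed k] [CharP k 5] :
    ∃ (K : Type) (_ : Field K) (_ : Algebra k K) (X : ProjVar k K), X.IsSmoothSurface ∧
      (∃ P : X.Point, P.IsClosed ∧ X.seshadriAt P = 0) ∧ X.globalSeshadri = 0 := by
  obtain ⟨KC, K, _, _, _, _, _, _, a, b, x, y, M⟩ := exists_model k
  haveI : CharP KC 5 := charP_of_algebra k KC
  haveI : CharP K 5 := charP_of_algebra k K
  exact ⟨K, inferInstance, inferInstance, SX M, main_of_model M⟩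

end Pool.Agent.H71.Ses
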