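import Pool.Agent.H71.Ses.F9

set_option linter.style.haveILetI false
set_option linter.unusedSectionVars false
set_option linter.unusedVariables false

open scoped WithZero IntermediateField Polynomial
open WithZero IsDedekindDomain

namespace Pool.Agent.H71.Ses

section

variable {k E : Type} [Field k] [IsAlgClosed k] [CharP k 5] [Field E] [Algebra k E]

/-- a place from a valuation ring -/
theorem exists_place_of_V (hE : IsFF k E) (V : ValuationSubring E)
    (hk : ∀ c : k, algebraMap k E c ∈ V) {A B : E} (hAB : A ^ 4 + B ^ 4 = 2)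
    (hA : Transcendental k A) (h1 : A - 1 ∈ V.nonunits) (h2 : B - 1 ∈ V.nonunits) :
    ∃ v : Place k E, v.val (A - 1) < 1 ∧ v.val (B - 1) < 1 := by
  refine setup hE hA _ ?_
  intro i1 i2 hX hae i3 i4 i5 i6 i7 i8 i9
  have hAV : A ∈ V := by
    have := add_mem (V.nonunits_subset h1) (one_mem V)
    rwa [sub_add_cancel] at this
  have hpoly : ∀ p : k[X], algebraMap k[X] E p ∈ V := by
    intro p
    induction p using Polynomial.induction_on' with
    | add p q hp hq => rw [map_add]; exact add_mem hp hq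
    | monomial n a =>
      rw [← Polynomial.C_mul_X_pow_eq_monomial, map_mul, map_pow, hX]
      refine mul_mem ?_ (pow_mem hAV n)
      have : algebraMap k[X] E (Polynomial.C a) = algebraMap k E a := by
        rw [IsScalarTower.algebraMap_apply k k[X] E]; rfl
      rw [this]
      exact hk a
  have hBV : ∀ z : BB k E, (z : E) ∈ V := by
    intro z
    obtain ⟨p, hp, hp0⟩ := z.2
    let φ : k[X] →+* V := (algebraMap k[X] E).codRestrict V.toSubring hpoly
    have hint : IsIntegral V (z : E) := by
      refine ⟨p.map φ, hp.map φ, ?_⟩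
      rw [Polynomial.eval₂_map]
      exact hp0
    obtain ⟨w, hw⟩ := IsIntegrallyClosed.isIntegral_iff.1 hint
    rw [← hw]
    exact w.2
  let f : BB k E →+* V := (algebraMap (BB k E) E).codRestrict V.toSubring hBV
  have hAB' : A ∈ BB k E := by
    rw [← hX]
    exact (BB k E).algebraMap_mem _
  have hBB : B ∈ BB k E := by
    have h3 : B ^ 4 ∈ BB k E := by
      have e : B ^ 4 = algebraMap k[X] E (2 - Polynomial.X ^ 4) := by
        rw [map_sub, map_pow, hX, map_ofNat]
        linear_combination hAB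
      rw [e]
      exact (BB k E).algebraMap_mem _
    exact IsIntegral.of_pow (by norm_num) h3
  have hmem : ∀ z : BB k E, (z : E) ∈ V.nonunits → z ∈ (IsLocalRing.maximalIdeal V).comap f := by
    intro z hz
    exact (V.coe_mem_nonunits_iff (a := f z)).1 hz
  let P : HeightOneSpectrum (BB k E) :=
    { asIdeal := (IsLocalRing.maximalIdeal V).comap f
      isPrime := Ideal.comap_isPrime f _
      ne_bot := by
        intro hbot
        have h3 : (⟨A, hAB'⟩ - 1 : BB k E) ∈ (IsLocalRing.maximalIdeal V).comap f := hmem _ h1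
        rw [hbot] at h3
        have h4 : (⟨A, hAB'⟩ - 1 : BB k E) = 0 := (Submodule.mem_bot _).1 h3
        have h5 : A - 1 = 0 := congrArg (fun z : BB k E => (z : E)) h4
        apply hA
        rw [sub_eq_zero.1 h5]
        exact isAlgebraic_one }
  refine ⟨above P, ?_, ?_⟩
  · have h3 : (⟨A, hAB'⟩ - 1 : BB k E) ∈ P.asIdeal := hmem _ h1
    exact (P.valuation_lt_one_iff_mem (K := E) _).2 h3
  · have h3 : (⟨B, hBB⟩ - 1 : BB k E) ∈ P.asIdeal := hmem _ h2
    exact (P.valuation_lt_one_iff_mem (K := E) _).2 h3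

end

variable {k KC K : Type} [Field k] [IsAlgClosed k] [CharP k 5] [Field KC] [CharP KC 5] [Field K]
  [CharP K 5] [Algebra k KC]
  [Algebra KC K] [Algebra k K] [IsScalarTower k KC K] {a b : KC} {x y : K}

/-- a valuation ring of an extension of `KC` over the point `(1, 1)` -/
theorem exists_V_ext (M : IsModel k KC K a b x y) {E : Type} [Field E] [Algebra k E] [Algebra KC E]
    [IsScalarTower k KC E] : ∃ V : ValuationSubring E, (∀ c : k, algebraMap k E c ∈ V) ∧
      algebraMap KC E a - 1 ∈ V.nonunits ∧ algebraMap KC E b - 1 ∈ V.nonunits := by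
  obtain ⟨χ, h1, h2⟩ := M.ptC 1 1 (by norm_num)
  have hne : RingHom.ker χ ≠ ⊤ := RingHom.ker_ne_top χ
  obtain ⟨V₀, hV1, hV2⟩ := Ideal.image_subset_nonunits_valuationSubring
    (A := (Algebra.adjoin k {a, b}).toSubring) (RingHom.ker χ) hne
  have ha : a ∈ Algebra.adjoin k ({a, b} : Set KC) := Algebra.subset_adjoin (by simp)
  have hb : b ∈ Algebra.adjoin k ({a, b} : Set KC) := Algebra.subset_adjoin (by simp)
  have ha1 : a - 1 ∈ V₀.nonunits := by
    apply hV2
    refine ⟨(⟨a, ha⟩ - 1 : Algebra.adjoin k ({a, b} : Set KC)), ?_, rfl⟩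
    change χ _ = 0
    rw [map_sub, h1, map_one, sub_self]
  have hb1 : b - 1 ∈ V₀.nonunits := by
    apply hV2
    refine ⟨(⟨b, hb⟩ - 1 : Algebra.adjoin k ({a, b} : Set KC)), ?_, rfl⟩
    change χ _ = 0
    rw [map_sub, h2, map_one, sub_self]
  obtain ⟨V, hV, hloc⟩ := IsLocalRing.exists_factor_valuationRing (R := V₀)
    ((algebraMap KC E).comp V₀.subtype)
  have key : ∀ z : KC, z ∈ V₀.nonunits → algebraMap KC E z ∈ V.nonunits := by
    intro z hz
    have hz0 : z ∈ V₀ := V₀.nonunits_subset hz
    have h3 : (⟨z, hz0⟩ : V₀) ∈ IsLocalRing.maximalIdeal V₀ :=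
      (V₀.coe_mem_nonunits_iff (a := ⟨z, hz0⟩)).1 hz
    rw [IsLocalRing.mem_maximalIdeal] at h3
    have h5 : ¬ IsUnit ((((algebraMap KC E).comp V₀.subtype).codRestrict V.toSubring hV) ⟨z, hz0⟩) :=
      fun hu => h3 (hloc.map_nonunit _ hu)
    exact (V.coe_mem_nonunits_iff
      (a := (((algebraMap KC E).comp V₀.subtype).codRestrict V.toSubring hV) ⟨z, hz0⟩)).2 h5
  refine ⟨V, ?_, ?_, ?_⟩
  · intro c
    have h3 : algebraMap k KC c ∈ V₀ := hV1 ((Algebra.adjoin k {a, b}).algebraMap_mem c)
    rw [IsScalarTower.algebraMap_apply k KC E]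
    exact hV ⟨_, h3⟩
  · have := key _ ha1
    rwa [map_sub, map_one] at this
  · have := key _ hb1
    rwa [map_sub, map_one] at this

/-- a place of a finite extension of `KC` over the point `(1, 1)` -/
theorem exists_place_ext (M : IsModel k KC K a b x y) {E : Type} [Field E] [Algebra k E]
    [Algebra KC E] [IsScalarTower k KC E] (hE : IsFF k E) :
    ∃ v : Place k E, v.val (algebraMap KC E a - 1) < 1 ∧ v.val (algebraMap KC E b - 1) < 1 := by
  obtain ⟨V, hk, h1, h2⟩ := exists_V_ext M (E := E)
  refine exists_place_of_V hE V hk ?_ ?_ h1 h2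
  · rw [← map_pow, ← map_pow, ← map_add, M.ab, map_ofNat]
  · intro h
    apply M.a_tr
    exact (isAlgebraic_algebraMap_iff (algebraMap KC E).injective).1 h

end Pool.Agent.H71.Ses
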