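import Pool.Agent.H71.Ses.H1

set_option linter.style.haveILetI false
set_option linter.unusedSectionVars false
set_option linter.unusedVariables false

open scoped WithZero

namespace Pool.Agent.H71.Ses

section

variable {F : Type} [Field F] [CharP F 5] {Γ : Type} [LinearOrderedCommGroupWithZero Γ]
  (v : Valuation F Γ)

/-- the specialization given by a valuation -/
noncomputable abbrev vS : Splz F (IsLocalRing.ResidueField v.valuationSubring) :=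
  vSplz v.valuationSubring

theorem vS_char : CharP (IsLocalRing.ResidueField v.valuationSubring) 5 := by
  have h5 : ((5 : ℕ) : IsLocalRing.ResidueField v.valuationSubring) = 0 := by
    have r := (vS v).nat 5
    have h : ((5 : ℕ) : F) = 0 := CharP.cast_eq_zero F 5
    rw [h] at r
    exact (vS v).uniq r (vS v).zero
  obtain ⟨p, hp⟩ := CharP.exists (IsLocalRing.ResidueField v.valuationSubring)
  have hdvd : p ∣ 5 := (CharP.cast_eq_zero_iff _ p 5).1 h5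
  rcases (Nat.Prime.eq_one_or_self_of_dvd (by norm_num) _ hdvd) with h | h
  · exfalso
    subst h
    exact CharP.char_ne_one (IsLocalRing.ResidueField v.valuationSubring) 1 rfl
  · subst h
    exact hp

variable {v}

theorem vS_zero {z : F} : (vS v).R z 0 ↔ v z < 1 := by
  rw [vSplz_zero, ValuationSubring.mem_nonunits_iff_or, Valuation.mem_valuationSubring_iff]
  constructor
  · rintro (rfl | h)
    · rw [map_zero]; exact zero_lt_one
    · rw [map_inv₀, not_le] at h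
      exact (one_lt_inv₀ (by
        by_contra h0
        have : v z = 0 := le_antisymm (not_lt.1 h0) zero_le
        rw [this, inv_zero] at h
        exact absurd h (not_lt.2 zero_le))).1 h
  · intro h
    by_cases hz : z = 0
    · exact Or.inl hz
    · right
      rw [map_inv₀, not_le]
      exact (one_lt_inv₀ (zero_lt_iff.2 ((Valuation.ne_zero_iff v).2 hz))).2 h

theorem vS_unit {z : F} {w} (h : (vS v).R z w) (hw : w ≠ 0) : v z = 1 := by
  have h1 : v z ≤ 1 := h.1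
  have h2 : v z⁻¹ ≤ 1 := ((vS v).inv h hw).1
  have h0 : z ≠ 0 := (vS v).ne_zero h hw
  apply le_antisymm h1
  rw [map_inv₀] at h2
  exact (inv_le_one₀ (zero_lt_iff.2 ((Valuation.ne_zero_iff v).2 h0))).1 h2

theorem vS_of_lt {z c : F} {d} (h : v (z - c) < 1) (hc : (vS v).R c d) : (vS v).R z d :=
  (vS v).congr ((vS v).add (vS_zero.2 h) hc) (sub_add_cancel z c) (zero_add d)

theorem J_add {τ : Γ} {z w : F} (hz : v z ≤ τ) (hw : v w ≤ τ) : v (z + w) ≤ τ := v.map_add_le hz hw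

theorem J_sub {τ : Γ} {z w : F} (hz : v z ≤ τ) (hw : v w ≤ τ) : v (z - w) ≤ τ := v.map_sub_le hz hw

theorem J_mul {τ : Γ} {c z : F} (hc : v c ≤ 1) (hz : v z ≤ τ) : v (c * z) ≤ τ := by
  rw [map_mul]
  calc v c * v z ≤ 1 * v z := mul_le_mul' hc le_rfl
    _ ≤ τ := by rw [one_mul]; exact hz

/-- the numerator of the `x`-coordinate of a difference is a unit -/
theorem num_unit {x₁ y₁ x₂ y₂ : F} (hx₁ : (vS v).R x₁ 2) (hy₁ : (vS v).R y₁ 3)
    (hx₂ : (vS v).R x₂ 2) (hy₂ : (vS v).R y₂ 3) :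
    v ((x₁ * x₂ - 2) * (x₁ + x₂) + 2 * y₁ * y₂) = 1 := by
  haveI := vS_char v
  have S := (vS v)
  have h5 : (5 : IsLocalRing.ResidueField v.valuationSubring) = 0 := five_eq_zero
  have r := (vS v).add ((vS v).mul ((vS v).sub ((vS v).mul hx₁ hx₂) (vS v).two)
    ((vS v).add hx₁ hx₂)) ((vS v).mul ((vS v).mul (vS v).two hy₁) hy₂)
  refine vS_unit ((vS v).congr r rfl (w' := 1) ?_) one_ne_zero
  linear_combination 5 * h5

/-- the `x`-coordinate of the difference of two points close to `(2, 3)` -/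
theorem x_diff {x₁ y₁ x₂ y₂ : F} (h₁ : y₁ ^ 2 = x₁ ^ 3 - 2 * x₁) (h₂ : y₂ ^ 2 = x₂ ^ 3 - 2 * x₂)
    (hx₁ : (vS v).R x₁ 2) (hy₁ : (vS v).R y₁ 3) (hx₂ : (vS v).R x₂ 2) (hy₂ : (vS v).R y₂ 3)
    (hne : x₁ ≠ x₂) :
    v (mk x₁ y₁ h₁ - mk x₂ y₂ h₂).x * v (x₁ - x₂) ^ 2 = 1 := by
  rw [← map_pow, ← map_mul, (x_sub h₁ h₂ hne).2]
  exact num_unit hx₁ hy₁ hx₂ hy₂

/-- adding a point close to zero -/
theorem add_small {x₁ y₁ x₂ y₂ : F} {τ : Γ} (hτ : τ < 1) (h₁ : y₁ ^ 2 = x₁ ^ 3 - 2 * x₁)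
    (h₂ : y₂ ^ 2 = x₂ ^ 3 - 2 * x₂) (hx₁ : v x₁ ≤ 1) (hy₁ : v y₁ ≤ 1)
    (hx0 : x₂ ≠ 0) (hS : v x₂⁻¹ ≤ τ ^ 2) :
    ∃ X Y h, mk x₁ y₁ h₁ + mk x₂ y₂ h₂ = mk X Y h ∧ v (X - x₁) ≤ τ ∧ v (Y - y₁) ≤ τ := by
  have hττ : τ ^ 2 ≤ τ := by
    rw [pow_two]
    calc τ * τ ≤ τ * 1 := mul_le_mul' le_rfl hτ.le
      _ = τ := mul_one τ
  have i1 : v x₂⁻¹ < 1 := (hS.trans hττ).trans_lt hτ
  have hne : x₁ ≠ x₂ := by
    rintro rfl
    rw [map_inv₀] at i1
    have h0 : v x₁ ≠ 0 := (Valuation.ne_zero_iff v).2 hx0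
    have : 1 < v x₁ := (inv_lt_one₀ (zero_lt_iff.2 h0)).1 i1
    exact absurd hx₁ (not_le.2 this)
  have hv2 : v 2 ≤ 1 := (Triv.of_sq (v := v) five_eq_zero).two.le
  obtain ⟨h', hadd⟩ := add_mk_of_ne h₁ h₂ hne
  set l := (y₁ - y₂) / (x₁ - x₂) with hl
  set X := l ^ 2 - x₁ - x₂ with hX
  set Y := -(y₁ + l * (X - x₁)) with hY
  refine ⟨X, Y, h', hadd, ?_⟩
  have hd : x₁ - x₂ ≠ 0 := sub_ne_zero.2 hne
  have hl' : l * (x₁ - x₂) = y₁ - y₂ := div_mul_cancel₀ _ hd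
  -- small quantities
  set S := x₂⁻¹ with hSdef
  set W := y₂ / x₂ ^ 2 with hWdef
  have hxS : x₂ = S⁻¹ := by rw [hSdef, inv_inv]
  have hS0 : S ≠ 0 := inv_ne_zero hx0
  have hyW : y₂ = W * x₂ ^ 2 := by rw [hWdef]; field_simp
  have hW2 : W ^ 2 = S - 2 * S ^ 3 := by
    rw [hWdef, hSdef]
    field_simp
    linear_combination h₂
  have iS : v S ≤ τ := hS.trans hττ
  have iS1 : v S ≤ 1 := iS.trans hτ.le
  have iW : v W ≤ τ := by
    have h3 : v W ^ 2 ≤ τ ^ 2 := by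
      rw [← map_pow, hW2]
      refine v.map_sub_le hS ?_
      have : (2 : F) * S ^ 3 = (2 * S ^ 2) * S := by ring
      rw [this]
      refine J_mul ?_ hS
      rw [map_mul, map_pow]
      exact mul_le_one' hv2 (pow_le_one' iS1 2)
    exact (pow_le_pow_iff_left₀ zero_le zero_le two_ne_zero).1 h3
  have iW1 : v W ≤ 1 := iW.trans hτ.le
  -- the denominator
  have hden : v (x₁ * S - 1) = 1 := by
    have : v (x₁ * S) < 1 := by
      rw [map_mul]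
      calc v x₁ * v S ≤ 1 * v S := mul_le_mul' hx₁ le_rfl
        _ = v S := one_mul _
        _ < 1 := i1
    rw [v.map_sub_eq_of_lt_right (by rw [map_one]; exact this), map_one]
  have I : ∀ {z : F}, v z ≤ 1 → z ∈ v.integer := fun h => h
  have Ix := I hx₁
  have Iy := I hy₁
  have IS := I iS1
  have IW := I iW1
  have I2 := I hv2
  have I3 : (3 : F) ∈ v.integer := ofNat_mem v.integer 3
  have I6 : (6 : F) ∈ v.integer := ofNat_mem v.integer 6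
  have eX : (X - x₁) * (x₁ * S - 1) ^ 2 =
      (3 * x₁ ^ 2 - 2 * x₁ * S - 2 - x₁ ^ 3 * S) * S + (-(2 * y₁)) * W := by
    have e1 : (X - x₁) * (x₁ - x₂) ^ 2 = 3 * x₁ ^ 2 * x₂ - 2 * x₁ - 2 * x₂ - 2 * y₁ * y₂ - x₁ ^ 3 := by
      rw [hX]
      linear_combination (l * (x₁ - x₂) + (y₁ - y₂)) * hl' + h₁ + h₂
    have e2 : (x₁ * S - 1) = (x₁ - x₂) * S := by
      rw [hSdef]; field_simp
    rw [e2, mul_pow, ← mul_assoc, e1, hWdef, hSdef]
    field_simp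
    ring
  have eY : (Y - y₁) * (x₁ * S - 1) ^ 3 =
      (3 * y₁ * x₁ ^ 2 * S - 6 * y₁ * x₁ - y₁ ^ 3 * S ^ 2 + 3 * y₁ ^ 2 * W + 6 * y₁ * S -
        2 * x₁ ^ 3 * W) * S + (3 * x₁ ^ 2 - 2) * W := by
    have e1 : (Y - y₁) * (x₁ - x₂) ^ 3 = 3 * y₁ * x₁ ^ 2 * x₂ - 6 * y₁ * x₁ * x₂ ^ 2 - y₁ ^ 3 +
        3 * y₁ ^ 2 * y₂ + 6 * y₁ * x₂ - 2 * x₂ * y₂ - 2 * x₁ ^ 3 * y₂ + 3 * x₁ ^ 2 * x₂ * y₂ := by
      have e0 : (Y - y₁) * (x₁ - x₂) ^ 3 = -2 * y₁ * (x₁ - x₂) ^ 3 - (y₁ - y₂) ^ 3 +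
          (2 * x₁ + x₂) * (y₁ - y₂) * (x₁ - x₂) ^ 2 := by
        rw [hY, hX, ← hl']
        ring
      rw [e0]
      linear_combination (y₂ - 3 * y₁) * h₂
    have e2 : (x₁ * S - 1) = (x₁ - x₂) * S := by
      rw [hSdef]; field_simp
    rw [e2, mul_pow, ← mul_assoc, e1, hWdef, hSdef]
    field_simp
    ring
  constructor
  · have h3 : v ((X - x₁) * (x₁ * S - 1) ^ 2) ≤ τ := by
      rw [eX]
      refine J_add (J_mul ?_ iS) (J_mul ?_ iW)
      · exact sub_mem (sub_mem (sub_mem (mul_mem I3 (pow_mem Ix 2)) (mul_mem (mul_mem I2 Ix) IS)) I2)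
          (mul_mem (pow_mem Ix 3) IS)
      · exact neg_mem (mul_mem I2 Iy)
    rwa [map_mul, map_pow, hden, one_pow, mul_one] at h3
  · have h3 : v ((Y - y₁) * (x₁ * S - 1) ^ 3) ≤ τ := by
      rw [eY]
      refine J_add (J_mul ?_ iS) (J_mul ?_ iW)
      · exact sub_mem (add_mem (add_mem (sub_mem (sub_mem (mul_mem (mul_mem (mul_mem I3 Iy)
          (pow_mem Ix 2)) IS) (mul_mem (mul_mem I6 Iy) Ix)) (mul_mem (pow_mem Iy 3) (pow_mem IS 2)))
          (mul_mem (mul_mem I3 (pow_mem Iy 2)) IW)) (mul_mem (mul_mem I6 Iy) IS))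
          (mul_mem (mul_mem I2 (pow_mem Ix 3)) IW)
      · exact sub_mem (mul_mem I3 (pow_mem Ix 2)) I2
    rwa [map_mul, map_pow, hden, one_pow, mul_one] at h3

end

end Pool.Agent.H71.Ses
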