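import Pool.Agent.H71.Ses.H2

set_option linter.style.haveILetI false
set_option linter.unusedSectionVars false
set_option linter.unusedVariables false

open scoped WithZero IntermediateField
open WithZero

namespace Pool.Agent.H71.Ses

namespace QF

variable {G : Type} [AddCommGroup G] {h : G → ℤ} {J : G →+ G}

theorem h_w (H : QF h J) {u z c : G} {Fr : G → G} {A Bc q : ℤ}
    (hq : q = A ^ 2 + Bc ^ 2) (hFr : ∀ P, h (Fr P - gs J A Bc P) = 0)
    (hu : h u = h z) (h1 : B h u z = 0) (h2 : B h u (J z) = 0) (hc : h c = 0) :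
    h (z - Fr u + c) = (1 + q) * h z := by
  have f1 : ∀ P Q, B h P (Fr Q) = A * B h P Q + Bc * B h P (J Q) := by
    intro P Q
    have e : Fr Q = gs J A Bc Q + (Fr Q - gs J A Bc Q) := by abel
    rw [e, H.B_add_right, H.B_eq_zero_of_right (hFr Q), H.B_gs, add_zero]
  have f3 : ∀ Q, h (Fr Q) = q * h Q := by
    intro Q
    have e : Fr Q = gs J A Bc Q + (Fr Q - gs J A Bc Q) := by abel
    rw [e, H.h_add_null (hFr Q), H.h_gs, hq]
  have g1 : B h z (Fr u) = 0 := by
    rw [f1, B_comm z u, h1, B_comm z (J u), H.B_J_left, h2]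
    ring
  rw [H.h_add_null hc, sub_eq_add_neg, add_eq h, H.B_neg_right, g1, H.neg, f3, hu]
  ring

end QF

/-- a square root in an extension of degree at most two -/
theorem exists_quad (F : Type) [Field F] (D : F) : ∃ (E : Type) (_ : Field E) (_ : Algebra F E),
    Module.Finite F E ∧ Module.finrank F E ≤ 2 ∧ ∃ r : E, r ^ 2 = algebraMap F E D := by
  obtain ⟨r, hr⟩ := IsAlgClosed.exists_pow_nat_eq (algebraMap F (AlgebraicClosure F) D)
    (n := 2) (by norm_num)
  have hint : IsIntegral F r := by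
    refine ⟨Polynomial.X ^ 2 - Polynomial.C D, Polynomial.monic_X_pow_sub_C D (by norm_num), ?_⟩
    simp [hr]
  refine ⟨F⟮r⟯, inferInstance, inferInstance, ?_, ?_, ?_⟩
  · exact IntermediateField.adjoin.finiteDimensional hint
  · rw [IntermediateField.adjoin.finrank hint]
    have h1 : (Polynomial.X ^ 2 - Polynomial.C D : Polynomial F).natDegree = 2 :=
      Polynomial.natDegree_X_pow_sub_C
    rw [← h1]
    apply Polynomial.natDegree_le_natDegree
    apply minpoly.min F r (Polynomial.monic_X_pow_sub_C D (by norm_num))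
    simp [hr]
  · refine ⟨⟨r, IntermediateField.mem_adjoin_simple_self F r⟩, ?_⟩
    apply Subtype.ext
    exact hr

theorem lt_one_le_exp {z : ℤᵐ⁰} (h : z < 1) : z ≤ exp (-1) := by
  by_cases hz : z = 0
  · rw [hz]; exact zero_le
  · rw [← exp_log hz, ← exp_zero, exp_lt_exp] at h
    rw [← exp_log hz, exp_le_exp]
    omega

section

variable {F : Type} [Field F] [CharP F 5] {K : Type} [Field K] [CharP K 5]

theorem map_Fr (φ : F →+* K) (n : ℕ) (P : Pt F) : Pt.map φ (Fr n P) = Fr n (Pt.map φ P) := by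
  have h5 : ∀ (m : ℕ) (x : F), iterateFrobenius F 5 m x = x ^ 5 ^ m := fun m x => by
    rw [iterateFrobenius_def]
  rcases P.cases with rfl | ⟨x, y, h, rfl⟩
  · simp
  · have h1 : (y ^ 5 ^ n) ^ 2 = (x ^ 5 ^ n) ^ 3 - 2 * (x ^ 5 ^ n) := by
      have := congrArg (iterateFrobenius F 5 n) h
      rw [map_pow, map_sub, map_pow, map_mul, map_ofNat, h5, h5] at this
      exact this
    have h2 : (φ y) ^ 2 = (φ x) ^ 3 - 2 * φ x := by
      have := congrArg φ h
      simpa only [map_pow, map_sub, map_mul, map_ofNat] using this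
    have h3 : ((φ y) ^ 5 ^ n) ^ 2 = ((φ x) ^ 5 ^ n) ^ 3 - 2 * ((φ x) ^ 5 ^ n) := by
      have := congrArg φ h1
      simpa only [map_pow, map_sub, map_mul, map_ofNat] using this
    rw [Fr_mk n h h1, Pt.map_mk φ x y h h2, Fr_mk n h2 h3, Pt.map_mk φ _ _ h1 (by
      simpa only [map_pow] using h3), mk_inj, map_pow, map_pow]
    exact ⟨rfl, rfl⟩

/-- the pair of square roots -/
theorem pair_eqn {X Y r b₁ : F} (hX : X ≠ 0) (h : Y ^ 2 = X ^ 3 - 2 * X) (hb : b₁ * X = -Y)
    (hr : r ^ 2 = -X - 2 * b₁ ^ 2) : r ^ 4 + b₁ ^ 4 = 2 := by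
  have h5 : (5 : F) = 0 := five_eq_zero
  have e1 : b₁ ^ 2 * X = X ^ 2 - 2 := by
    apply mul_right_cancel₀ hX
    linear_combination (b₁ * X - Y) * hb + h
  have e2 : (r ^ 4 + b₁ ^ 4 - 2) * X ^ 2 = 0 := by
    have e3 : r ^ 4 = (-X - 2 * b₁ ^ 2) ^ 2 := by rw [← hr]; ring
    rw [e3]
    linear_combination (4 * X ^ 2 + 5 * (b₁ ^ 2 * X + X ^ 2 - 2)) * e1 +
      (4 - 6 * X ^ 2 + 2 * X ^ 4) * h5
  have e3 := (mul_eq_zero.1 e2).resolve_right (pow_ne_zero 2 hX)
  linear_combination e3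

end

end Pool.Agent.H71.Ses
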