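import Pool.Agent.H71.Ses.H3

set_option linter.style.haveILetI false
set_option linter.unusedSectionVars false
set_option linter.unusedVariables false

open scoped WithZero IntermediateField
open WithZero

namespace Pool.Agent.H71.Ses

theorem c₀_eqn {F : Type} [Field F] [CharP F 5] : (3 : F) ^ 2 = 2 ^ 3 - 2 * 2 := by
  have h5 : (5 : F) = 0 := five_eq_zero
  linear_combination h5

/-- the point `(2, 3)` -/
def c₀ (F : Type) [Field F] [CharP F 5] : Pt F := mk 2 3 c₀_eqn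

theorem hgt_c₀ {k F : Type} [Field k] [IsAlgClosed k] [CharP k 5] [Field F] [CharP F 5]
    [Algebra k F] : hgt k (c₀ F) = 0 := by
  refine hgt_const (c := 2) ?_
  rw [c₀, x_mk, map_ofNat]

theorem map_c₀ {F E : Type} [Field F] [CharP F 5] [Field E] [CharP E 5] (φ : F →+* E) :
    Pt.map φ (c₀ F) = c₀ E := by
  rw [c₀, Pt.map_mk φ 2 3 c₀_eqn (by rw [map_ofNat, map_ofNat]; exact c₀_eqn), c₀, mk_inj]
  exact ⟨map_ofNat _ _, map_ofNat _ _⟩

section

variable {E : Type} [Field E] [CharP E 5] {v : Valuation E ℤᵐ⁰}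

/-- the values of `u` and `z` at the point `(1, 1)` -/
theorem uz_val {a b : E} (ha : (vS v).R a 1) (hb : (vS v).R b 1) :
    (vS v).R (-(b ^ 2 + 2 * a ^ 2)) 2 ∧ (vS v).R (a * (b ^ 2 + 2 * a ^ 2)) 3 ∧
      (vS v).R (-(a ^ 2 + 2 * b ^ 2)) 2 ∧ (vS v).R (b * (a ^ 2 + 2 * b ^ 2)) 3 := by
  haveI := vS_char v
  have h5 : (5 : IsLocalRing.ResidueField v.valuationSubring) = 0 := five_eq_zero
  have r1 := (vS v).add ((vS v).pow hb 2) ((vS v).mul (vS v).two ((vS v).pow ha 2))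
  have r2 := (vS v).add ((vS v).pow ha 2) ((vS v).mul (vS v).two ((vS v).pow hb 2))
  refine ⟨(vS v).congr ((vS v).neg r1) rfl ?_, (vS v).congr ((vS v).mul ha r1) rfl ?_,
    (vS v).congr ((vS v).neg r2) rfl ?_, (vS v).congr ((vS v).mul hb r2) rfl ?_⟩
  · linear_combination -h5
  · ring
  · linear_combination -h5
  · ring

theorem vS_le {z : E} {w} (h : (vS v).R z w) : v z ≤ 1 := h.1

/-- the estimate for the special curve -/
theorem special_est {a b r b₁ : E} (hab : a ^ 4 + b ^ 4 = 2) (hrb : r ^ 4 + b₁ ^ 4 = 2) (n : ℕ)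
    (ha : v (a - 1) < 1) (hb : v (b - 1) < 1) (hne : -(b ^ 2 + 2 * a ^ 2) ≠ 2)
    (hz : zPt r b₁ hrb = zPt a b hab - Fr n (uPt a b hab - c₀ E)) :
    v (b₁ - b) ≤ exp (-(5 ^ n : ℤ)) ∧ v (r ^ 2 - a ^ 2) ≤ exp (-(5 ^ n : ℤ)) := by
  haveI := vS_char v
  have ra : (vS v).R a 1 := vS_of_lt ha (vS v).one
  have rb : (vS v).R b 1 := vS_of_lt hb (vS v).one
  obtain ⟨r1, r2, r3, r4⟩ := uz_val ra rb
  have rc2 : (vS v).R 2 2 := (vS v).two
  have rc3 : (vS v).R 3 3 := (vS v).ofNat 3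
  have hd := x_diff (u_eqn hab) c₀_eqn r1 r2 rc2 rc3 hne
  have hs := x_sub (u_eqn hab) c₀_eqn hne
  have hP : uPt a b hab - c₀ E = mk _ _ (u_eqn hab) - mk 2 3 c₀_eqn := rfl
  rw [← hP] at hd hs
  set P := uPt a b hab - c₀ E with hPdef
  rcases P.cases with h0 | ⟨xP, yP, hPe, hPm⟩
  · exact absurd h0 hs.1
  rw [hPm, x_mk] at hd
  set δ := v (-(b ^ 2 + 2 * a ^ 2) - 2) with hδ
  have hδ1 : δ < 1 := by
    have := (vS v).sub r1 rc2
    rw [sub_self] at this
    exact vS_zero.1 this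
  have hδe := lt_one_le_exp hδ1
  have hxP0 : xP ≠ 0 := by
    rintro rfl
    rw [map_zero, zero_mul] at hd
    exact zero_ne_one hd
  have hxPi : v xP⁻¹ = δ ^ 2 := by
    rw [map_inv₀]
    exact inv_eq_of_mul_eq_one_right hd
  -- the small point
  set q := 5 ^ n with hq
  have hq1 : 1 ≤ q := Nat.one_le_pow _ _ (by norm_num)
  have hPq : (yP ^ q) ^ 2 = (xP ^ q) ^ 3 - 2 * (xP ^ q) := by
    have := congrArg (iterateFrobenius E 5 n) hPe
    rw [map_pow, map_sub, map_pow, map_mul, map_ofNat, iterateFrobenius_def,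
      iterateFrobenius_def] at this
    exact this
  have hFr : Fr n P = mk _ _ hPq := by rw [hPm, Fr_mk n hPe hPq]
  set τ : ℤᵐ⁰ := exp (-(5 ^ n : ℤ)) with hτ
  have hqz : ((q : ℕ) : ℤ) = 5 ^ n := by rw [hq]; push_cast; rfl
  have hτ1 : τ < 1 := by
    rw [hτ, ← exp_zero, exp_lt_exp, ← hqz]
    have : (1 : ℤ) ≤ q := by exact_mod_cast hq1
    omega
  have hτe : exp (-1 : ℤ) ^ q = τ := by
    rw [← exp_nsmul, hτ, ← hqz]
    congr 1
    simp
  have hsmall : v (xP ^ q)⁻¹ ≤ τ ^ 2 := by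
    rw [map_inv₀, map_pow, ← inv_pow, ← map_inv₀, hxPi, ← pow_mul, mul_comm, pow_mul, ← hτe]
    exact pow_le_pow_left' (pow_le_pow_left' hδe q) 2
  obtain ⟨X, Y, hXY, hadd, hX, hY⟩ := add_small hτ1 (z_eqn hab) (neg_eqn hPq) (vS_le r3) (vS_le r4)
    (pow_ne_zero q hxP0) hsmall
  have hw : zPt r b₁ hrb = mk X Y hXY := by
    rw [hz, hFr, sub_eq_add_neg, neg_mk, ← hadd]
    rfl
  rw [zPt, mk_inj] at hw
  obtain ⟨hwx, hwy⟩ := hw
  have rX : (vS v).R X 2 := vS_of_lt (hX.trans_lt hτ1) r3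
  have h2ne : (2 : IsLocalRing.ResidueField v.valuationSubring) ≠ 0 := two_ne
  have hvX : v X = 1 := vS_unit rX h2ne
  have hb1 : v (b₁ - b) ≤ τ := by
    have e : (b₁ - b) * X = (-1) * (Y - b * (a ^ 2 + 2 * b ^ 2)) +
        (-b) * (X - -(a ^ 2 + 2 * b ^ 2)) := by
      rw [← hwx, ← hwy]
      ring
    have h3 : v ((b₁ - b) * X) ≤ τ := by
      rw [e]
      refine J_add (J_mul ?_ hY) (J_mul ?_ hX)
      · rw [Valuation.map_neg, map_one]
      · rw [Valuation.map_neg]; exact vS_le rb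
    rwa [map_mul, hvX, mul_one] at h3
  refine ⟨hb1, ?_⟩
  have rb1 : (vS v).R b₁ 1 := vS_of_lt (hb1.trans_lt hτ1) rb
  have e : r ^ 2 - a ^ 2 = (-1) * (X - -(a ^ 2 + 2 * b ^ 2)) + (-(2 * (b₁ + b))) * (b₁ - b) := by
    rw [← hwx]
    ring
  rw [e]
  refine J_add (J_mul ?_ hX) (J_mul ?_ hb1)
  · rw [Valuation.map_neg, map_one]
  · exact vS_le ((vS v).neg ((vS v).mul (vS v).two ((vS v).add rb1 rb)))

end

/-- the data for the special curves -/
structure Special (k E : Type) [Field k] [Field E] [CharP E 5] [Algebra k E] (n : ℕ) (H₂ : ℤ) where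
  ff : IsFF k E
  a₁ : E
  b₁ : E
  a₂ : E
  b₂ : E
  h₁ : a₁ ^ 4 + b₁ ^ 4 = 2
  h₂ : a₂ ^ 4 + b₂ ^ 4 = 2
  v : Place k E
  eq : zPt a₁ b₁ h₁ = zPt a₂ b₂ h₂ - Fr n (uPt a₂ b₂ h₂ - c₀ E)
  deg : degP k a₂ ≤ H₂
  tr : Transcendental k a₂
  va₂ : v.val (a₂ - 1) < 1
  vb₂ : v.val (b₂ - 1) < 1
  va : v.val (a₁ - a₂) ≤ exp (-(5 ^ n : ℤ))
  vb : v.val (b₁ - b₂) ≤ exp (-(5 ^ n : ℤ))

variable {k KC K : Type} [Field k] [IsAlgClosed k] [CharP k 5] [Field KC] [CharP KC 5] [Field K]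
  [CharP K 5] [Algebra k KC]
  [Algebra KC K] [Algebra k K] [IsScalarTower k KC K] {a b : KC} {x y : K}

theorem exists_special (M : IsModel k KC K a b x y) (n : ℕ) :
    ∃ (E : Type) (_ : Field E) (_ : CharP E 5) (_ : Algebra k E),
      Nonempty (Special k E n (2 * degP k a)) := by
  have hFC := M.isFF
  have H := qf (k := k) hFC
  have hab := M.ab
  obtain ⟨hu, hz⟩ := hgt_u_add_z (k := k) hFC hab
  obtain ⟨ho1, ho2⟩ := u_z_orth (k := k) hFC hab
  have hdeg := degP_pos hFC M.a_tr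
  -- the point `w`
  have hw : hgt k (zPt a b hab - Fr n (uPt a b hab - c₀ KC)) = (1 + 5 ^ n) * degP k a := by
    have hc : hgt k (Fr n (c₀ KC)) = 0 := by rw [hgt_Fr, hgt_c₀, mul_zero]
    have := H.h_w (u := uPt a b hab) (z := zPt a b hab) (c := Fr n (c₀ KC)) (Fr := Fr n)
      (A := (AB n).1) (Bc := (AB n).2) (q := 5 ^ n) (AB_norm n).symm (Fr_null hFC n)
      (hu.trans hz.symm) ho1 ho2 hc
    rw [hz] at this
    rw [← this]
    congr 1
    rw [map_sub]
    abel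
  set w := zPt a b hab - Fr n (uPt a b hab - c₀ KC) with hwdef
  have hwpos : 0 < hgt k w := by
    rw [hw]
    positivity
  rcases w.cases with h0 | ⟨X, Y, hXY, hwm⟩
  · rw [h0, hgt_zero] at hwpos
    exact absurd hwpos (lt_irrefl _)
  have hX0 : X ≠ 0 := by
    rintro rfl
    rw [hwm, hgt, x_mk, degP_zero'] at hwpos
    exact absurd hwpos (lt_irrefl _)
  obtain ⟨E, i1, i2, hfin, hrank, r, hr⟩ := exists_quad KC (-X - 2 * (-Y / X) ^ 2)
  letI i3 : Algebra k E := ((algebraMap KC E).comp (algebraMap k KC)).toAlgebra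
  haveI i4 : IsScalarTower k KC E := IsScalarTower.of_algebraMap_eq fun _ => rfl
  haveI i5 : CharP E 5 := charP_of_algebra k E
  have hE : IsFF k E := isFF_of_finite hFC
  refine ⟨E, i1, i5, i3, ?_⟩
  obtain ⟨v, hva, hvb⟩ := exists_place_ext M hE
  set φ := algebraMap KC E with hφ
  set a₂ := φ a with ha₂
  set b₂ := φ b with hb₂
  set b₁ := φ (-Y / X) with hb₁
  have h₂ : a₂ ^ 4 + b₂ ^ 4 = 2 := by
    rw [ha₂, hb₂, ← map_pow, ← map_pow, ← map_add, hab, map_ofNat]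
  have hX0' : φ X ≠ 0 := by rw [Ne, map_eq_zero]; exact hX0
  have hXY' : (φ Y) ^ 2 = (φ X) ^ 3 - 2 * φ X := by
    rw [← map_pow, hXY, map_sub, map_pow, map_mul, map_ofNat]
  have hbX : b₁ * φ X = -φ Y := by
    rw [hb₁, map_div₀, map_neg]
    field_simp
  have hr' : r ^ 2 = -φ X - 2 * b₁ ^ 2 := by
    rw [hr, hb₁, map_sub, map_neg, map_mul, map_pow, map_ofNat]
  have key : ∀ s : E, s ^ 2 = -φ X - 2 * b₁ ^ 2 → ∃ h : s ^ 4 + b₁ ^ 4 = 2,
      zPt s b₁ h = zPt a₂ b₂ h₂ - Fr n (uPt a₂ b₂ h₂ - c₀ E) := by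
    intro s hs
    have h := pair_eqn hX0' hXY' hbX hs
    refine ⟨h, ?_⟩
    have hu' : Pt.map φ (uPt a b hab) = uPt a₂ b₂ h₂ := by
      unfold uPt
      rw [Pt.map_mk φ _ _ (u_eqn hab) (by
        have := congrArg φ (u_eqn hab)
        simpa only [map_pow, map_sub, map_mul, map_ofNat] using this), mk_inj]
      simp only [map_neg, map_add, map_mul, map_pow, map_ofNat]
      trivial
    have hz' : Pt.map φ (zPt a b hab) = zPt a₂ b₂ h₂ := by
      unfold zPt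
      rw [Pt.map_mk φ _ _ (z_eqn hab) (by
        have := congrArg φ (z_eqn hab)
        simpa only [map_pow, map_sub, map_mul, map_ofNat] using this), mk_inj]
      simp only [map_neg, map_add, map_mul, map_pow, map_ofNat]
      trivial
    have hw' : Pt.map φ w = zPt a₂ b₂ h₂ - Fr n (uPt a₂ b₂ h₂ - c₀ E) := by
      rw [hwdef, map_sub, map_Fr, map_sub, hu', hz', map_c₀]
    rw [← hw', hwm, Pt.map_mk φ X Y hXY hXY', zPt, mk_inj]
    constructor
    · rw [hs]; ring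
    · rw [hs]
      linear_combination -hbX
  have htr : Transcendental k a₂ := by
    intro h
    apply M.a_tr
    exact (isAlgebraic_algebraMap_iff φ.injective).1 h
  have hxu : -(b₂ ^ 2 + 2 * a₂ ^ 2) ≠ 2 := by
    intro h0
    have e : -(b ^ 2 + 2 * a ^ 2) = 2 := by
      apply φ.injective
      rw [map_neg, map_add, map_mul, map_pow, map_pow, map_ofNat]
      exact h0
    have h3 : hgt k (uPt a b hab) = 0 := by
      refine hgt_const (c := 2) ?_
      rw [uPt, x_mk, e, map_ofNat]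
    rw [hu] at h3
    rw [h3] at hdeg
    exact absurd hdeg (lt_irrefl _)
  have hdeg2 : degP k a₂ ≤ 2 * degP k a := by
    have h3 := degP_map hFC hE (IsScalarTower.toAlgHom k KC E) a
    have h4 : (IsScalarTower.toAlgHom k KC E) a = a₂ := rfl
    rw [h4] at h3
    rw [h3]
    have h5 : @Module.finrank KC E _ _ (IsScalarTower.toAlgHom k KC E).toRingHom.toModule =
        Module.finrank KC E := by
      congr 1
      apply Module.ext
      ext c z
      change φ c * z = c • z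
      rw [Algebra.smul_def]
    rw [h5]
    have h6 : (Module.finrank KC E : ℤ) ≤ 2 := by exact_mod_cast hrank
    nlinarith
  -- the sign of `r`
  obtain ⟨hr0, hzr⟩ := key r hr'
  obtain ⟨hest1, hest2⟩ := special_est h₂ hr0 n hva hvb hxu hzr
  have hτ1 : (exp (-(5 ^ n : ℤ)) : ℤᵐ⁰) < 1 := by
    rw [← exp_zero, exp_lt_exp]
    have : (0 : ℤ) < 5 ^ n := by positivity
    omega
  haveI := vS_char v.val
  have h2ne : (2 : IsLocalRing.ResidueField v.val.valuationSubring) ≠ 0 := two_ne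
  have ra : (vS v.val).R a₂ 1 := vS_of_lt hva (vS v.val).one
  have hsign : ∃ s : E, s ^ 2 = -φ X - 2 * b₁ ^ 2 ∧ v.val (s - 1) < 1 := by
    have h3 : v.val ((r - 1) * (r + 1)) < 1 := by
      have e : (r - 1) * (r + 1) = (r ^ 2 - a₂ ^ 2) + (a₂ ^ 2 - 1) := by ring
      rw [e]
      apply v.val.map_add_lt (hest2.trans_lt hτ1)
      have := (vS v.val).sub ((vS v.val).pow ra 2) (vS v.val).one
      rw [one_pow, sub_self] at this
      exact vS_zero.1 this
    rw [map_mul] at h3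
    by_cases h4 : v.val (r - 1) < 1
    · exact ⟨r, hr', h4⟩
    · refine ⟨-r, by rw [neg_sq]; exact hr', ?_⟩
      have h5 : v.val (-r - 1) = v.val (r + 1) := by
        rw [← Valuation.map_neg]
        congr 1
        ring
      rw [h5]
      by_contra h6
      exact absurd h3 (not_lt.2 (one_le_mul (not_lt.1 h4) (not_lt.1 h6)))
  obtain ⟨s, hs, hs1⟩ := hsign
  obtain ⟨hs0, hzs⟩ := key s hs
  obtain ⟨hest1, hest2⟩ := special_est h₂ hs0 n hva hvb hxu hzs
  refine ⟨⟨hE, s, b₁, a₂, b₂, hs0, h₂, v, hzs, hdeg2, htr, hva, hvb, ?_, hest1⟩⟩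
  have rs : (vS v.val).R s 1 := vS_of_lt hs1 (vS v.val).one
  have hsum : v.val (s + a₂) = 1 := by
    have := (vS v.val).add rs ra
    refine vS_unit ((vS v.val).congr this rfl (w' := 2) (by norm_num)) h2ne
  have e : (s - a₂) * (s + a₂) = s ^ 2 - a₂ ^ 2 := by ring
  have h3 := hest2
  rw [← e, map_mul, hsum, mul_one] at h3
  exact h3

end Pool.Agent.H71.Ses
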