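import Pool.Agent.H71.Ses.H4

set_option linter.style.haveILetI false
set_option linter.unusedSectionVars false
set_option linter.unusedVariables false

open scoped WithZero IntermediateField
open WithZero

namespace Pool.Agent.H71.Ses

variable {k E : Type} [Field k] [IsAlgClosed k] [CharP k 5] [Field E] [CharP E 5] [Algebra k E]
  {n : ℕ} {H₂ : ℤ}

namespace Special

variable (S : Special k E n H₂)

/-- the point `u₂` -/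
noncomputable def u₂ : Pt E := uPt S.a₂ S.b₂ S.h₂
/-- the point `z₂` -/
noncomputable def z₂ : Pt E := zPt S.a₂ S.b₂ S.h₂
/-- the point `u₁` -/
noncomputable def u₁ : Pt E := uPt S.a₁ S.b₁ S.h₁
/-- the point `z₁` -/
noncomputable def z₁ : Pt E := zPt S.a₁ S.b₁ S.h₁

theorem hz : S.z₁ = S.z₂ - Fr n S.u₂ + Fr n (c₀ E) := by
  have := S.eq
  rw [map_sub] at this
  change zPt _ _ _ = zPt _ _ _ - Fr n (uPt _ _ _) + _
  rw [this]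
  abel

theorem h₂pos : 0 < degP k S.a₂ := degP_pos S.ff S.tr

theorem value {c β₀ β₁ : ℤ} :
    hgt k S.z₁ = (1 + 5 ^ n) * hgt k S.z₂ ∧
    (c * (5 ^ n + 1) - 1) * hgt k (S.u₂ - S.u₁) +
      hgt k ((S.u₂ - S.u₁) + (QF.gs iota (c * (AB n).1) (-(c * (AB n).2)) (Fr n S.u₁) +
        QF.gs iota β₀ β₁ (Fr n S.z₁))) -
      (c ^ 2 * 5 ^ n + β₀ ^ 2 + β₁ ^ 2 - c) * hgt k (Fr n S.z₁) =
    2 * hgt k S.z₂ * (c * (5 ^ n + 1) - (β₀ * ((AB n).1 ^ 2 - (AB n).2 ^ 2) -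
      2 * β₁ * (AB n).1 * (AB n).2)) - c * QF.B (hgt k) S.u₂ S.u₁ := by
  have H := qf (k := k) S.ff
  obtain ⟨hu2, hz2⟩ := hgt_u_add_z (k := k) S.ff S.h₂
  obtain ⟨ho1, ho2⟩ := u_z_orth (k := k) S.ff S.h₂
  obtain ⟨hu1, hz1⟩ := hgt_u_add_z (k := k) S.ff S.h₁
  obtain ⟨ho3, ho4⟩ := u_z_orth (k := k) S.ff S.h₁
  have hc : hgt k (Fr n (c₀ E)) = 0 := by rw [hgt_Fr, hgt_c₀, mul_zero]
  exact H.L_special (Fr := Fr n) (AB_norm n).symm (Fr_null S.ff n) (hu2.trans hz2.symm) ho1 ho2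
    (hu1.trans hz1.symm) ho3 ho4 S.hz hc

theorem deg_a₁ : degP k S.a₁ = (1 + 5 ^ n) * degP k S.a₂ := by
  have h := (S.value (c := 0) (β₀ := 0) (β₁ := 0)).1
  rw [z₁, z₂, (hgt_u_add_z S.ff S.h₁).2, (hgt_u_add_z S.ff S.h₂).2] at h
  exact h

theorem tr₁ : Transcendental k S.a₁ := by
  intro h
  obtain ⟨c, hc⟩ := exists_const (k := k) (z := S.a₁) (not_not.2 h)
  have h1 := S.deg_a₁
  rw [hc, degP_const] at h1
  have h2 := S.h₂pos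
  have : (0 : ℤ) < (1 + 5 ^ n) * degP k S.a₂ := by positivity
  omega

/-- the height of `u₂` and `u₁` -/
theorem hu : hgt k S.u₂ = degP k S.a₂ ∧ hgt k S.u₁ = (1 + 5 ^ n) * degP k S.a₂ ∧
    hgt k S.z₂ = degP k S.a₂ := by
  refine ⟨(hgt_u_add_z S.ff S.h₂).1, ?_, (hgt_u_add_z S.ff S.h₂).2⟩
  rw [u₁, (hgt_u_add_z S.ff S.h₁).1, S.deg_a₁]

theorem bound {c β₀ β₁ : ℤ} (hc : 0 ≤ c) :
    (((c * (5 ^ n + 1) - 1) * hgt k (S.u₂ - S.u₁) +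
      hgt k ((S.u₂ - S.u₁) + (QF.gs iota (c * (AB n).1) (-(c * (AB n).2)) (Fr n S.u₁) +
        QF.gs iota β₀ β₁ (Fr n S.z₁))) -
      (c ^ 2 * 5 ^ n + β₀ ^ 2 + β₁ ^ 2 - c) * hgt k (Fr n S.z₁) : ℤ) : ℝ) ≤
    2 * degP k S.a₂ * (c * (5 ^ n + 1) - (β₀ * ((AB n).1 ^ 2 - (AB n).2 ^ 2) -
      2 * β₁ * (AB n).1 * (AB n).2) + c * √(1 + 5 ^ n)) := by
  have H := qf (k := k) S.ff
  rw [S.value.2, S.hu.2.2]
  have h1 := H.CS S.u₂ S.u₁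
  rw [S.hu.1, S.hu.2.1] at h1
  have h2 : ((QF.B (hgt k) S.u₂ S.u₁ : ℤ) : ℝ) ^ 2 ≤ (2 * degP k S.a₂ * √(1 + 5 ^ n)) ^ 2 := by
    rw [mul_pow, Real.sq_sqrt (by positivity)]
    have : (((QF.B (hgt k) S.u₂ S.u₁) ^ 2 : ℤ) : ℝ) ≤
      ((4 * (degP k S.a₂ * ((1 + 5 ^ n) * degP k S.a₂)) : ℤ) : ℝ) := by exact_mod_cast h1
    push_cast at this
    linarith
  have hpos : (0 : ℝ) ≤ 2 * degP k S.a₂ * √(1 + 5 ^ n) := by
    have : (0 : ℝ) ≤ degP k S.a₂ := by exact_mod_cast S.h₂pos.le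
    positivity
  have h3 := abs_le_of_sq_le_sq h2 hpos
  have h4 : -((QF.B (hgt k) S.u₂ S.u₁ : ℤ) : ℝ) ≤ 2 * degP k S.a₂ * √(1 + 5 ^ n) := by
    have := (abs_le.1 h3).1
    linarith
  have hc' : (0 : ℝ) ≤ c := by exact_mod_cast hc
  have h5 := mul_le_mul_of_nonneg_left h4 hc'
  push_cast
  linarith

/-- valuations -/
theorem vals : (vS S.v.val).R S.a₂ 1 ∧ (vS S.v.val).R S.b₂ 1 ∧ (vS S.v.val).R S.a₁ 1 ∧
    (vS S.v.val).R S.b₁ 1 := by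
  have r1 : (vS S.v.val).R S.a₂ 1 := vS_of_lt S.va₂ (vS S.v.val).one
  have r2 : (vS S.v.val).R S.b₂ 1 := vS_of_lt S.vb₂ (vS S.v.val).one
  have hτ1 : (exp (-(5 ^ n : ℤ)) : ℤᵐ⁰) < 1 := by
    rw [← exp_zero, exp_lt_exp]
    have : (0 : ℤ) < 5 ^ n := by positivity
    omega
  exact ⟨r1, r2, vS_of_lt (S.va.trans_lt hτ1) r1, vS_of_lt (S.vb.trans_lt hτ1) r2⟩

/-- the point `u₂ - u₁` is close to zero -/
theorem diff : ∃ X Y h, S.u₂ - S.u₁ = Pool.Agent.H71.Ses.mk X Y h ∧ Y ≠ 0 ∧ X ≠ 0 ∧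
    S.v.val (X / Y) ≤ exp (-(5 ^ n : ℤ)) ∧ S.v.val Y⁻¹ ≤ exp (-(5 ^ n : ℤ)) := by
  obtain ⟨r1, r2, r3, r4⟩ := S.vals
  obtain ⟨s1, s2, -, -⟩ := uz_val r1 r2
  obtain ⟨t1, t2, -, -⟩ := uz_val r3 r4
  haveI := vS_char S.v.val
  set v := S.v.val with hv
  set τ : ℤᵐ⁰ := exp (-(5 ^ n : ℤ)) with hτ
  have hτ1 : τ < 1 := by
    rw [hτ, ← exp_zero, exp_lt_exp]
    have : (0 : ℤ) < 5 ^ n := by positivity
    omega
  have hhne : hgt k S.u₂ ≠ hgt k S.u₁ := by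
    rw [S.hu.1, S.hu.2.1]
    have h1 := S.h₂pos
    have h2 : (0 : ℤ) < 5 ^ n := by positivity
    intro h3
    have h4 : 0 < 5 ^ n * degP k S.a₂ := by positivity
    linarith
  have hxne : -(S.b₂ ^ 2 + 2 * S.a₂ ^ 2) ≠ -(S.b₁ ^ 2 + 2 * S.a₁ ^ 2) := by
    intro h0
    apply hhne
    rw [hgt, hgt, u₂, u₁, uPt, uPt, x_mk, x_mk, h0]
  have hd := x_diff (u_eqn S.h₂) (u_eqn S.h₁) s1 s2 t1 t2 hxne
  have hs := x_sub (u_eqn S.h₂) (u_eqn S.h₁) hxne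
  have hP : S.u₂ - S.u₁ = Pool.Agent.H71.Ses.mk _ _ (u_eqn S.h₂) -
      Pool.Agent.H71.Ses.mk _ _ (u_eqn S.h₁) := rfl
  rw [← hP] at hd hs
  rcases (S.u₂ - S.u₁).cases with h0 | ⟨X, Y, hXY, hPm⟩
  · exact absurd h0 hs.1
  rw [hPm, x_mk] at hd
  set δ := v (-(S.b₂ ^ 2 + 2 * S.a₂ ^ 2) - -(S.b₁ ^ 2 + 2 * S.a₁ ^ 2)) with hδ
  have hv2 : v 2 ≤ 1 := (Triv.of_sq (v := v) five_eq_zero).two.le
  have hδτ : δ ≤ τ := by
    have e : -(S.b₂ ^ 2 + 2 * S.a₂ ^ 2) - -(S.b₁ ^ 2 + 2 * S.a₁ ^ 2) =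
        (S.b₁ + S.b₂) * (S.b₁ - S.b₂) + (2 * (S.a₁ + S.a₂)) * (S.a₁ - S.a₂) := by ring
    rw [hδ, e]
    exact J_add (J_mul (vS_le ((vS v).add r4 r2)) S.vb)
      (J_mul (vS_le ((vS v).mul (vS v).two ((vS v).add r3 r1))) S.va)
  have hX0 : X ≠ 0 := by
    rintro rfl
    rw [map_zero, zero_mul] at hd
    exact zero_ne_one hd
  have hδ0 : δ ≠ 0 := by
    intro h0
    rw [h0, zero_pow two_ne_zero, mul_zero] at hd
    exact zero_ne_one hd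
  have hXv : v X = (δ ^ 2)⁻¹ := eq_inv_of_mul_eq_one_left hd
  have hX1 : 1 < v X := by
    rw [hXv]
    exact (one_lt_inv₀ (zero_lt_iff.2 (pow_ne_zero 2 hδ0))).2 (pow_lt_one₀ zero_le (hδτ.trans_lt hτ1) two_ne_zero)
  have hY2 : v Y ^ 2 = v X ^ 3 := by
    rw [← map_pow, hXY, ← map_pow]
    apply v.map_sub_eq_of_lt_left
    rw [map_mul, map_pow]
    calc v 2 * v X ≤ 1 * v X := mul_le_mul' hv2 le_rfl
      _ = v X ^ 1 := by rw [one_mul, pow_one]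
      _ < v X ^ 3 := pow_lt_pow_right₀ hX1 (by norm_num)
  have hYv : v Y = (δ ^ 3)⁻¹ := by
    have h1 : v Y ^ 2 = ((δ ^ 3)⁻¹) ^ 2 := by
      rw [hY2, hXv, ← inv_pow, ← inv_pow, ← pow_mul, ← pow_mul]
    exact pow_left_injective (n := 2) (by norm_num) h1
  have hY0 : Y ≠ 0 := by
    rintro rfl
    rw [map_zero] at hYv
    have : (δ ^ 3)⁻¹ ≠ 0 := inv_ne_zero (pow_ne_zero 3 hδ0)
    exact this hYv.symm
  refine ⟨X, Y, hXY, hPm, hY0, hX0, ?_, ?_⟩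
  · have : v (X / Y) = δ := by
      rw [map_div₀, hXv, hYv]
      field_simp
    rw [this]
    exact hδτ
  · have : v Y⁻¹ = δ ^ 3 := by
      rw [map_inv₀, hYv, inv_inv]
    rw [this]
    calc δ ^ 3 ≤ δ ^ 1 := pow_le_pow_right_of_le_one' (hδτ.trans hτ1.le) (by norm_num)
      _ = δ := pow_one δ
      _ ≤ τ := hδτ

theorem vpow {z : E} (hz : (vS S.v.val).R z 1) : S.v.val (z ^ 5 ^ n - 1) ≤ exp (-(5 ^ n : ℤ)) := by
  have e : z ^ 5 ^ n - 1 = (z - 1) ^ 5 ^ n := by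
    have h := map_sub (iterateFrobenius E 5 n) z 1
    rw [map_one, iterateFrobenius_def, iterateFrobenius_def] at h
    exact h.symm
  have h1 : S.v.val (z - 1) < 1 := by
    have := (vS S.v.val).sub hz (vS S.v.val).one
    rw [sub_self] at this
    exact vS_zero.1 this
  have h2 := lt_one_le_exp h1
  rw [e, map_pow]
  calc S.v.val (z - 1) ^ 5 ^ n ≤ (exp (-1)) ^ 5 ^ n := pow_le_pow_left' h2 _
    _ = exp (-(5 ^ n : ℤ)) := by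
      rw [← exp_nsmul]
      congr 1
      simp

end Special

end Pool.Agent.H71.Ses
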