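import Pool.Agent.H71.Ses.H5

set_option linter.style.haveILetI false
set_option linter.unusedSectionVars false
set_option linter.unusedVariables false

open scoped WithZero IntermediateField
open WithZero

namespace Pool.Agent.H71.Ses

namespace ProjVar

section

variable {k K E : Type} [Field k] [Field K] [Algebra k K] [Field E] [Algebra k E]
  {X : ProjVar k K} (P : X.Point) (χ : X.chart P.i →ₐ[k] E) (hχ : ∀ z, χ z = 0 ↔ z ∈ P.p)

include hχ in
theorem ker_unit (y : P.p.primeCompl) : IsUnit ((χ : X.chart P.i →+* E) y) :=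
  isUnit_iff_ne_zero.2 fun h => y.2 ((hχ _).1 h)

/-- the extension to the local ring -/
noncomputable def kerLift : P.ring →+* E :=
  IsLocalization.lift (M := P.p.primeCompl) (S := P.ring)
    (g := (χ : X.chart P.i →+* E)) (ker_unit P χ hχ)

theorem kerLift_chart (z : X.chart P.i) :
    kerLift P χ hχ (algebraMap _ P.ring z) = χ z :=
  IsLocalization.lift_eq (M := P.p.primeCompl) (S := P.ring)
    (g := (χ : X.chart P.i →+* E)) (ker_unit P χ hχ) z

theorem kerLift_isLocalHom : IsLocalHom (kerLift P χ hχ) := by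
  refine ⟨?_⟩
  intro z hu
  obtain ⟨⟨u, s⟩, hz⟩ := IsLocalization.surj P.p.primeCompl z
  have h1 := congrArg (kerLift P χ hχ) hz
  rw [map_mul, kerLift_chart, kerLift_chart] at h1
  have h2 : χ s ≠ 0 := fun h => s.2 ((hχ _).1 h)
  have h3 : χ u ≠ 0 := by
    change kerLift P χ hχ z * χ s = χ u at h1
    rw [← h1]
    exact mul_ne_zero hu.ne_zero h2
  have h4 : u ∈ P.p.primeCompl := fun h => h3 ((hχ _).2 h)
  have h5 : IsUnit (algebraMap (X.chart P.i) P.ring u) :=
    IsLocalization.map_units (M := P.p.primeCompl) P.ring ⟨u, h4⟩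
  have h6 : IsUnit (z * algebraMap (X.chart P.i) P.ring s) := by
    change z * algebraMap (X.chart P.i) P.ring s = algebraMap (X.chart P.i) P.ring u at hz
    rw [hz]
    exact h5
  exact isUnit_of_mul_isUnit_left h6

/-- the embedding of the residue field -/
noncomputable def kerEmb : P.κ →ₐ[k] E :=
  haveI := kerLift_isLocalHom P χ hχ
  { toRingHom := IsLocalRing.ResidueField.lift (kerLift P χ hχ)
    commutes' := by
      intro c
      have e : algebraMap k P.κ c =
        IsLocalRing.residue P.ring (algebraMap (X.chart P.i) P.ring (algebraMap k _ c)) := rfl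
      change IsLocalRing.ResidueField.lift (kerLift P χ hχ) (algebraMap k P.κ c) = _
      rw [e, IsLocalRing.ResidueField.lift_residue_apply, kerLift_chart]
      exact χ.commutes c }

theorem kerEmb_chart (z : X.chart P.i) : kerEmb P χ hχ (P.res z) = χ z := by
  haveI := kerLift_isLocalHom P χ hχ
  rw [res_of_mem P (mem_ring_of_chart P z.2)]
  change IsLocalRing.ResidueField.lift (kerLift P χ hχ) (IsLocalRing.residue _ _) = _
  rw [IsLocalRing.ResidueField.lift_residue_apply]
  exact kerLift_chart P χ hχ z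

include hχ in
theorem ker_isCurve (hE : IsFF k E) {z : X.chart P.i} (hz : Transcendental k (χ z)) :
    P.IsCurve := by
  have h1 : Algebra.trdeg k P.κ ≤ 1 := by
    rw [← hE.trdeg]
    exact trdeg_le_of_injective (kerEmb P χ hχ) (kerEmb P χ hχ).injective
  have h2 : Algebra.trdeg k P.κ ≠ 0 := by
    rw [trdeg_ne_zero_iff]
    refine ⟨P.res z, ?_⟩
    intro h
    apply hz
    rw [← kerEmb_chart P χ hχ]
    obtain ⟨p, hp, hp0⟩ := h
    exact ⟨p, hp, by rw [Polynomial.aeval_algHom_apply, hp0, map_zero]⟩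
  exact le_antisymm h1 (Cardinal.one_le_iff_ne_zero.2 h2)

end

end ProjVar

open ProjVar

variable {k KC K : Type} [Field k] [IsAlgClosed k] [CharP k 5] [Field KC] [CharP KC 5] [Field K]
  [CharP K 5] [Algebra k KC]
  [Algebra KC K] [Algebra k K] [IsScalarTower k KC K] {a b : KC} {x y : K}
  {E : Type} [Field E] [CharP E 5] [Algebra k E] {n : ℕ} {H₂ : ℤ}

/-- the affine chart is contained in the generic coordinate ring -/
theorem chart_le_adjoin (M : IsModel k KC K a b x y) {z : K}
    (hz : z ∈ (SX M).chart ((2, 2) : Fin 3 × Fin 3)) : z ∈ Algebra.adjoin KC ({x, y} : Set K) := by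
  unfold chart at hz
  induction hz using Algebra.adjoin_induction with
  | mem z hz =>
    obtain ⟨j, rfl⟩ := hz
    have e := x_div_eq (M := M) j ((2, 2) : Fin 3 × Fin 3)
    rw [e]
    refine mul_mem ?_ (Subalgebra.algebraMap_mem _ _)
    have hj : ∀ i : Fin 3, ee x y i / ee x y 2 ∈ Algebra.adjoin KC ({x, y} : Set K) := by
      intro i
      fin_cases i
      · have : ee x y 0 / ee x y 2 = x := by simp [ee]
        change ee x y 0 / ee x y 2 ∈ _
        rw [this]
        exact Algebra.subset_adjoin (by simp)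
      · have : ee x y 1 / ee x y 2 = y := by simp [ee]
        change ee x y 1 / ee x y 2 ∈ _
        rw [this]
        exact Algebra.subset_adjoin (by simp)
      · have : ee x y 2 / ee x y 2 = 1 := by simp [ee]
        change ee x y 2 / ee x y 2 ∈ _
        rw [this]
        exact one_mem _
    exact hj j.1
  | algebraMap c =>
    rw [IsScalarTower.algebraMap_apply k KC K]
    exact Subalgebra.algebraMap_mem _ _
  | add z w hz hw h1 h2 => exact add_mem h1 h2
  | mul z w hz hw h1 h2 => exact mul_mem h1 h2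

theorem x_mem_chart (M : IsModel k KC K a b x y) :
    x ∈ (SX M).chart ((2, 2) : Fin 3 × Fin 3) ∧ y ∈ (SX M).chart ((2, 2) : Fin 3 × Fin 3) := by
  constructor
  · refine Algebra.subset_adjoin ⟨((0, 2) : Fin 3 × Fin 3), ?_⟩
    have e := x_div_eq (M := M) ((0, 2) : Fin 3 × Fin 3) ((2, 2) : Fin 3 × Fin 3)
    rw [e]
    simp [ee, cc]
  · refine Algebra.subset_adjoin ⟨((1, 2) : Fin 3 × Fin 3), ?_⟩
    have e := x_div_eq (M := M) ((1, 2) : Fin 3 × Fin 3) ((2, 2) : Fin 3 × Fin 3)
    rw [e]
    simp [ee, cc]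

/-- the homomorphism from the affine chart defining the special curve -/
theorem exists_chi (M : IsModel k KC K a b x y) (ρ : KC →ₐ[k] E) {X Y : E}
    (h : Y ^ 2 = X ^ 3 - 2 * X) : ∃ χ : (SX M).chart ((2, 2) : Fin 3 × Fin 3) →ₐ[k] E,
      χ ⟨x, (x_mem_chart M).1⟩ = X ∧ χ ⟨y, (x_mem_chart M).2⟩ = Y ∧
      ∀ c : (CX M).chart (2 : Fin 3), χ (chartMap ((2, 2) : Fin 3 × Fin 3) c) = ρ c := by
  obtain ⟨χ₀, h1, h2, h3⟩ := M.univE E ρ.toRingHom X Y h
  let f : (SX M).chart ((2, 2) : Fin 3 × Fin 3) →+* Algebra.adjoin KC ({x, y} : Set K) :=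
    { toFun := fun z => ⟨z, chart_le_adjoin M z.2⟩
      map_one' := Subtype.ext rfl
      map_mul' := fun _ _ => Subtype.ext rfl
      map_zero' := Subtype.ext rfl
      map_add' := fun _ _ => Subtype.ext rfl }
  let χ : (SX M).chart ((2, 2) : Fin 3 × Fin 3) →ₐ[k] E :=
    { toRingHom := χ₀.comp f
      commutes' := by
        intro c
        have e : f (algebraMap k _ c) = algebraMap KC _ (algebraMap k KC c) := by
          apply Subtype.ext
          change algebraMap k K c = algebraMap KC K (algebraMap k KC c)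
          exact IsScalarTower.algebraMap_apply k KC K c
        change χ₀ (f (algebraMap k _ c)) = _
        rw [e, h1]
        exact ρ.commutes c }
  refine ⟨χ, h2, h3, ?_⟩
  intro c
  exact h1 c

end Pool.Agent.H71.Ses
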