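import Pool.Agent.H71.Ses.H6

set_option linter.style.haveILetI false
set_option linter.unusedSectionVars false
set_option linter.unusedVariables false

open scoped WithZero IntermediateField
open WithZero

namespace Pool.Agent.H71.Ses

open ProjVar

variable {k KC K : Type} [Field k] [IsAlgClosed k] [CharP k 5] [Field KC] [CharP KC 5] [Field K]
  [CharP K 5] [Algebra k KC]
  [Algebra KC K] [Algebra k K] [IsScalarTower k KC K] {a b : KC} {x y : K}
  {E : Type} [Field E] [CharP E 5] [Algebra k E] {n : ℕ} {H₂ : ℤ}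

theorem two_pow5 (n : ℕ) : (2 : E) ^ 5 ^ n = 2 := by
  have h := map_ofNat (iterateFrobenius E 5 n) 2
  rw [iterateFrobenius_def] at h
  exact h

/-- a special curve -/
structure SCurve (M : IsModel k KC K a b x y) (S : Special k E n H₂) where
  G : (SX M).Point
  curve : G.IsCurve
  φ : G.κ →ₐ[k] E
  hall : ∀ c : KC, algebraMap KC K c ∈ G.ring
  T' : Pt G.κ
  red : G.splz.Red M.T T'
  hT : Pt.map φ.toRingHom T' = S.u₂ - S.u₁
  ha : φ (rho G hall a) = S.a₁ ^ 5 ^ n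
  hb : φ (rho G hall b) = S.b₁ ^ 5 ^ n
  xy_mem : x / y ∈ G.ring
  y_mem : y⁻¹ ∈ G.ring
  xy_val : S.v.val (φ (G.res (x / y))) ≤ exp (-(5 ^ n : ℤ))
  y_val : S.v.val (φ (G.res y⁻¹)) ≤ exp (-(5 ^ n : ℤ))

theorem exists_curve (M : IsModel k KC K a b x y) (S : Special k E n H₂) :
    Nonempty (SCurve M S) := by
  have h1 : (S.a₁ ^ 5 ^ n) ^ 4 + (S.b₁ ^ 5 ^ n) ^ 4 = 2 := by
    have h := congrArg (iterateFrobenius E 5 n) S.h₁
    rw [map_add, map_pow, map_pow, map_ofNat, iterateFrobenius_def, iterateFrobenius_def] at h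
    exact h
  have htr : Transcendental k (S.a₁ ^ 5 ^ n) := by
    have := S.tr₁
    exact this.pow (by positivity)
  obtain ⟨ρ, hρa, hρb⟩ := M.univC E _ _ h1 htr
  obtain ⟨X, Y, hXY, hP, hY0, hX0, hv1, hv2⟩ := S.diff
  obtain ⟨χ, hχx, hχy, hχc⟩ := exists_chi M ρ hXY
  obtain ⟨G, hGi, χ', hχ, hχ'⟩ : ∃ (G : (SX M).Point) (hGi : ((2, 2) : Fin 3 × Fin 3) = G.i)
      (χ' : (SX M).chart G.i →ₐ[k] E),
      (∀ z, χ' z = 0 ↔ z ∈ G.p) ∧ (∀ (z : K) (hz : z ∈ (SX M).chart ((2, 2) : Fin 3 × Fin 3))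
        (hz' : z ∈ (SX M).chart G.i), χ' ⟨z, hz'⟩ = χ ⟨z, hz⟩) :=
    ⟨⟨((2, 2) : Fin 3 × Fin 3), RingHom.ker χ, RingHom.ker_isPrime χ⟩, rfl, χ, fun z => Iff.rfl,
      fun z hz hz' => rfl⟩
  have hmemchart : ∀ z : K, z ∈ (SX M).chart ((2, 2) : Fin 3 × Fin 3) → z ∈ (SX M).chart G.i := by
    intro z hz
    have := hGi
    rw [← this]
    exact hz
  have hx' := hmemchart x (x_mem_chart M).1
  have hy' := hmemchart y (x_mem_chart M).2
  have hcc : ∀ c : (CX M).chart (2 : Fin 3), algebraMap KC K c ∈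
      (SX M).chart ((2, 2) : Fin 3 × Fin 3) := fun c => (chartMap ((2, 2) : Fin 3 × Fin 3) c).2
  have hcc' := fun c => hmemchart _ (hcc c)
  have hxv : χ' ⟨x, hx'⟩ = X := by rw [hχ' x (x_mem_chart M).1 hx', hχx]
  have hyv : χ' ⟨y, hy'⟩ = Y := by rw [hχ' y (x_mem_chart M).2 hy', hχy]
  have hcv : ∀ c : (CX M).chart (2 : Fin 3), χ' ⟨algebraMap KC K c, hcc' c⟩ = ρ c := by
    intro c
    rw [hχ' _ (hcc c) (hcc' c)]
    exact hχc c
  set φ := kerEmb G χ' hχ with hφ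
  have hφc : ∀ (z : K) (hz : z ∈ (SX M).chart G.i), φ (G.res z) = χ' ⟨z, hz⟩ :=
    fun z hz => kerEmb_chart G χ' hχ ⟨z, hz⟩
  have hall : ∀ c : KC, algebraMap KC K c ∈ G.ring ∧ φ (G.res (algebraMap KC K c)) = ρ c := by
    intro c
    obtain ⟨p, q, hq, hc⟩ := exists_frac_chart (X := CX M) (2 : Fin 3) c
    have r1 := splz_mem G (mem_ring_of_chart G (hcc' p))
    have r2 := splz_mem G (mem_ring_of_chart G (hcc' q))
    have hρq : ρ q ≠ 0 := by rw [Ne, map_eq_zero]; exact hq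
    have hne : G.res (algebraMap KC K q) ≠ 0 := by
      intro h0
      have h2 := hφc _ (hcc' q)
      rw [h0, map_zero, hcv] at h2
      exact hρq h2.symm
    have r := G.splz.div r1 r2 hne
    have e : algebraMap KC K p / algebraMap KC K q = algebraMap KC K c := by
      rw [← hc, map_mul]
      have : algebraMap KC K q ≠ 0 := by rw [Ne, map_eq_zero]; exact hq
      field_simp
    rw [e] at r
    refine ⟨r.1, ?_⟩
    rw [r.2, map_div₀, hφc _ (hcc' p), hφc _ (hcc' q), hcv, hcv, ← hc, map_mul]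
    field_simp
  have hxm : x ∈ G.ring := mem_ring_of_chart G hx'
  have hym : y ∈ G.ring := mem_ring_of_chart G hy'
  have rx := splz_mem G hxm
  have ry := splz_mem G hym
  have hφx : φ (G.res x) = X := by rw [hφc x hx', hxv]
  have hφy : φ (G.res y) = Y := by rw [hφc y hy', hyv]
  have hry : G.res y ≠ 0 := by
    intro h0
    rw [h0, map_zero] at hφy
    exact hY0 hφy.symm
  have e : (G.res y) ^ 2 = (G.res x) ^ 3 - 2 * G.res x := by
    have s1 := G.splz.pow ry 2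
    have s2 := G.splz.sub (G.splz.pow rx 3) (G.splz.mul G.splz.two rx)
    exact G.splz.uniq (G.splz.congr s1 M.xy rfl) s2
  have rxy := G.splz.div rx ry hry
  have ryi := G.splz.inv ry hry
  have hcurve : G.IsCurve := by
    have haC : a ∈ (CX M).chart (2 : Fin 3) := Algebra.subset_adjoin ⟨(0 : Fin 3), by simp [CX, cc]⟩
    refine ker_isCurve G χ' hχ S.ff (z := ⟨algebraMap KC K a, hcc' ⟨a, haC⟩⟩) ?_
    rw [hcv ⟨a, haC⟩]
    change Transcendental k (ρ a)
    rw [hρa]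
    exact htr
  refine ⟨⟨G, hcurve, φ, fun c => (hall c).1, mk _ _ e,
    Or.inr (Or.inl ⟨x, y, M.xy, _, _, e, rfl, rfl, rx, ry⟩), ?_, ?_, ?_, rxy.1, ryi.1, ?_, ?_⟩⟩
  · have h' : (φ.toRingHom (G.res y)) ^ 2 = (φ.toRingHom (G.res x)) ^ 3 -
        2 * φ.toRingHom (G.res x) := by
      rw [← map_pow, e, map_sub, map_pow, map_mul, map_ofNat]
    rw [Pt.map_mk _ _ _ e h', hP, mk_inj]
    exact ⟨hφx, hφy⟩
  · exact (hall a).2.trans hρa
  · exact (hall b).2.trans hρb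
  · rw [rxy.2, map_div₀, hφx, hφy]
    exact hv1
  · rw [ryi.2, map_inv₀, hφy]
    exact hv2

end Pool.Agent.H71.Ses
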