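import Pool.Agent.H71.Ses.H7

set_option linter.style.haveILetI false
set_option linter.unusedSectionVars false
set_option linter.unusedVariables false

open scoped WithZero IntermediateField
open WithZero

namespace Pool.Agent.H71.Ses

open ProjVar

section

variable {F K L : Type} [Field F] [CharP F 5] [Field K] [CharP K 5] [Field L] [CharP L 5]

theorem Pt.map_map (f : F →+* K) (g : K →+* L) (P : Pt F) :
    Pt.map g (Pt.map f P) = Pt.map (g.comp f) P := by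
  rcases P.cases with rfl | ⟨x, y, h, rfl⟩
  · simp
  · have h1 : (f y) ^ 2 = (f x) ^ 3 - 2 * f x := by
      have := congrArg f h
      simpa only [map_pow, map_sub, map_mul, map_ofNat] using this
    have h2 : (g (f y)) ^ 2 = (g (f x)) ^ 3 - 2 * g (f x) := by
      have := congrArg g h1
      simpa only [map_pow, map_sub, map_mul, map_ofNat] using this
    rw [Pt.map_mk f x y h h1, Pt.map_mk g _ _ h1 h2, Pt.map_mk (g.comp f) x y h h2]
    rfl

theorem uz_congr {a b a' b' : F} (ha : a = a') (hb : b = b') (h : a ^ 4 + b ^ 4 = 2)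
    (h' : a' ^ 4 + b' ^ 4 = 2) : uPt a b h = uPt a' b' h' ∧ zPt a b h = zPt a' b' h' := by
  subst ha hb
  exact ⟨rfl, rfl⟩

theorem Fr_uz (n : ℕ) {a b : F} (h : a ^ 4 + b ^ 4 = 2)
    (h' : (a ^ 5 ^ n) ^ 4 + (b ^ 5 ^ n) ^ 4 = 2) :
    uPt (a ^ 5 ^ n) (b ^ 5 ^ n) h' = Fr n (uPt a b h) ∧
      zPt (a ^ 5 ^ n) (b ^ 5 ^ n) h' = Fr n (zPt a b h) := by
  have h5 : ∀ (m : ℕ) (x : F), iterateFrobenius F 5 m x = x ^ 5 ^ m := fun m x => by
    rw [iterateFrobenius_def]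
  have key : ∀ a b : F, (-(b ^ 2 + 2 * a ^ 2)) ^ 5 ^ n = -((b ^ 5 ^ n) ^ 2 + 2 * (a ^ 5 ^ n) ^ 2) ∧
      (a * (b ^ 2 + 2 * a ^ 2)) ^ 5 ^ n = a ^ 5 ^ n * ((b ^ 5 ^ n) ^ 2 + 2 * (a ^ 5 ^ n) ^ 2) := by
    intro a b
    rw [← h5 n a, ← h5 n b, ← h5 n, ← h5 n]
    constructor
    · rw [map_neg, map_add, map_mul, map_pow, map_pow, map_ofNat]
    · rw [map_mul, map_add, map_mul, map_pow, map_pow, map_ofNat]
  have hF : ∀ {x y : F}, y ^ 2 = x ^ 3 - 2 * x →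
      (y ^ 5 ^ n) ^ 2 = (x ^ 5 ^ n) ^ 3 - 2 * (x ^ 5 ^ n) := by
    intro x y h
    have := congrArg (iterateFrobenius F 5 n) h
    rw [map_pow, map_sub, map_pow, map_mul, map_ofNat, h5, h5] at this
    exact this
  constructor
  · rw [uPt, uPt, Fr_mk n (u_eqn h) (hF (u_eqn h)), mk_inj]
    exact ⟨(key a b).1.symm, (key a b).2.symm⟩
  · rw [zPt, zPt, Fr_mk n (z_eqn h) (hF (z_eqn h)), mk_inj]
    exact ⟨(key b a).1.symm, (key b a).2.symm⟩

end

variable {k KC K : Type} [Field k] [IsAlgClosed k] [CharP k 5] [Field KC] [CharP KC 5] [Field K]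
  [CharP K 5] [Algebra k KC]
  [Algebra KC K] [Algebra k K] [IsScalarTower k KC K] {a b : KC} {x y : K}
  {E : Type} [Field E] [CharP E 5] [Algebra k E] {n : ℕ} {H₂ : ℤ}

namespace SCurve

variable {M : IsModel k KC K a b x y} {S : Special k E n H₂} (C : SCurve M S)

/-- the degree of the parametrization -/
noncomputable def d : ℕ := @Module.finrank C.G.κ E _ _ C.φ.toRingHom.toModule

theorem fin : @Module.Finite C.G.κ E _ _ C.φ.toRingHom.toModule := by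
  letI := C.φ.toRingHom.toAlgebra
  haveI : IsScalarTower k C.G.κ E := IsScalarTower.of_algebraMap_eq fun c => (C.φ.commutes c).symm
  have h1 : Transcendental k (S.a₁ ^ 5 ^ n) := S.tr₁.pow (by positivity)
  have h2 := S.ff.finiteDimensional h1
  -- `E` is finite over `k(t)`, which is contained in the image of `κ`
  have h3 : Algebra.IsAlgebraic C.G.κ E := by
    refine ⟨fun z => ?_⟩
    obtain ⟨p, hp, hp0⟩ := (IsIntegral.of_finite k⟮S.a₁ ^ 5 ^ n⟯ z)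
    have hle : ∀ w ∈ k⟮S.a₁ ^ 5 ^ n⟯, w ∈ C.φ.fieldRange := by
      intro w hw
      have : k⟮S.a₁ ^ 5 ^ n⟯ ≤ C.φ.fieldRange := by
        rw [IntermediateField.adjoin_simple_le_iff]
        exact ⟨_, C.ha⟩
      exact this hw
    let e : C.G.κ ≃+* C.φ.fieldRange := RingEquiv.ofBijective
      (C.φ.toRingHom.codRestrict C.φ.fieldRange.toSubring (fun z => ⟨z, rfl⟩))
      ⟨fun z w h => C.φ.injective (congrArg Subtype.val h), fun ⟨w, z, hz⟩ => ⟨z, Subtype.ext hz⟩⟩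
    let f : k⟮S.a₁ ^ 5 ^ n⟯ →+* C.G.κ := (e.symm : C.φ.fieldRange →+* C.G.κ).comp
      ((algebraMap k⟮S.a₁ ^ 5 ^ n⟯ E).codRestrict C.φ.fieldRange.toSubring (fun w => hle w w.2))
    have hf : ∀ w, C.φ (f w) = w := by
      intro w
      have : e (f w) = ⟨w, hle w w.2⟩ := e.apply_symm_apply _
      exact congrArg Subtype.val this
    apply IsIntegral.isAlgebraic
    refine ⟨p.map f, hp.map f, ?_⟩
    rw [Polynomial.eval₂_map]
    have : (algebraMap C.G.κ E).comp f = algebraMap k⟮S.a₁ ^ 5 ^ n⟯ E := by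
      ext w
      exact hf w
    rw [this]
    exact hp0
  have h4 : Algebra.EssFiniteType k E := IntermediateField.fg_top_iff.1 S.ff.fg
  have h5 : Algebra.EssFiniteType C.G.κ E := Algebra.EssFiniteType.of_comp k C.G.κ E
  exact Algebra.finite_of_essFiniteType_of_isAlgebraic

theorem d_pos : 0 < C.d := by
  letI := C.φ.toRingHom.toAlgebra
  haveI : Module.Finite C.G.κ E := C.fin
  exact Module.finrank_pos (R := C.G.κ) (M := E)

theorem degree {c β₀ β₁ : ℤ} {N₁ N₂ : ℕ}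
    (hN₁ : (N₁ : ℤ) = c * (5 ^ n + 1) - 1) (hN₂ : (N₂ : ℤ) = c ^ 2 * 5 ^ n + β₀ ^ 2 + β₁ ^ 2 - c) :
    C.d * (LB M N₁ N₂ (psi M c (AB n).1 (AB n).2 β₀ β₁) (zPt a b M.ab)).degree C.G =
    (c * (5 ^ n + 1) - 1) * hgt k (S.u₂ - S.u₁) +
      hgt k ((S.u₂ - S.u₁) + (QF.gs iota (c * (AB n).1) (-(c * (AB n).2)) (Fr n S.u₁) +
        QF.gs iota β₀ β₁ (Fr n S.z₁))) -
      (c ^ 2 * 5 ^ n + β₀ ^ 2 + β₁ ^ 2 - c) * hgt k (Fr n S.z₁) := by
  have hF := curve_isFF C.G C.curve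
  rw [LB_degree M N₁ N₂ _ _ C.G C.curve C.red (red_rho C.G C.hall _) (red_rho C.G C.hall _),
    hN₁, hN₂]
  have hmap : ∀ Q : Pt C.G.κ, hgt k (Pt.map C.φ.toRingHom Q) = C.d * hgt k Q :=
    fun Q => hgt_map hF S.ff C.φ Q
  have hab : ((C.φ.toRingHom.comp (rho C.G C.hall).toRingHom) a) ^ 4 +
      ((C.φ.toRingHom.comp (rho C.G C.hall).toRingHom) b) ^ 4 = 2 := by
    rw [← map_pow, ← map_pow, ← map_add, M.ab, map_ofNat]
  have h1 : (S.a₁ ^ 5 ^ n) ^ 4 + (S.b₁ ^ 5 ^ n) ^ 4 = 2 := by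
    have h := congrArg (iterateFrobenius E 5 n) S.h₁
    rw [map_add, map_pow, map_pow, map_ofNat, iterateFrobenius_def, iterateFrobenius_def] at h
    exact h
  obtain ⟨e1, e2⟩ := map_psi (M := M) (C.φ.toRingHom.comp (rho C.G C.hall).toRingHom) c
    (AB n).1 (AB n).2 β₀ β₁ hab
  obtain ⟨e3, e4⟩ := uz_congr
    (show (C.φ.toRingHom.comp (rho C.G C.hall).toRingHom) a = S.a₁ ^ 5 ^ n from C.ha)
    (show (C.φ.toRingHom.comp (rho C.G C.hall).toRingHom) b = S.b₁ ^ 5 ^ n from C.hb) hab h1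
  obtain ⟨e5, e6⟩ := Fr_uz n S.h₁ h1
  rw [e3, e4, e5, e6] at e1
  rw [e4, e6] at e2
  have e7 : hgt k (S.u₂ - S.u₁) = C.d * hgt k C.T' := by rw [← C.hT, hmap]
  have e8 : hgt k ((S.u₂ - S.u₁) + (QF.gs iota (c * (AB n).1) (-(c * (AB n).2)) (Fr n S.u₁) +
        QF.gs iota β₀ β₁ (Fr n S.z₁))) =
      C.d * hgt k (C.T' + Pt.map (rho C.G C.hall).toRingHom
        (psi M c (AB n).1 (AB n).2 β₀ β₁)) := by
    rw [← hmap, map_add, C.hT, Pt.map_map, e1]
    rfl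
  have e9 : hgt k (Fr n S.z₁) = C.d * hgt k (Pt.map (rho C.G C.hall).toRingHom
      (zPt a b M.ab)) := by
    rw [← hmap, Pt.map_map, e2]
    rfl
  rw [e7, e8, e9]
  ring

end SCurve

end Pool.Agent.H71.Ses
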