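import Mathlib

set_option linter.style.haveILetI false
set_option linter.unusedSectionVars false
set_option linter.unusedVariables false

/-!
# Filtrations of a two-dimensional local ring modulo an element
-/

open scoped WithZero Pointwise
open WithZero

namespace Pool.Agent.H71.Ses

section Span

variable {k O : Type} [Field k] [CommRing O] [Algebra k O] (s t : O)

/-- monomials of degree `l` -/
def Mon (l : ℕ) : Set O := {z | ∃ i j, i + j = l ∧ z = s ^ i * t ^ j}

/-- the ideal generated by `s` and `t` -/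
abbrev mm : Ideal O := Ideal.span {s, t}

/-- an ideal as a `k`-subspace -/
abbrev rs (k : Type) {O : Type} [Field k] [CommRing O] [Algebra k O] (I : Ideal O) :
    Submodule k O := I.restrictScalars k

variable {s t}

theorem mon_mem {l : ℕ} {z : O} (hz : z ∈ Mon s t l) : z ∈ mm s t ^ l := by
  obtain ⟨i, j, rfl, rfl⟩ := hz
  rw [pow_add]
  exact Ideal.mul_mem_mul (Ideal.pow_mem_pow (Ideal.subset_span (by simp)) _)
    (Ideal.pow_mem_pow (Ideal.subset_span (by simp)) _)

theorem span_mon_le (l : ℕ) : Submodule.span k (Mon s t l) ≤ rs k (mm s t ^ l) := by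
  rw [Submodule.span_le]
  intro z hz
  exact mon_mem hz

theorem stepA (hk : ∀ z : O, ∃ c : k, z - algebraMap k O c ∈ mm s t) (l : ℕ) :
    rs k (mm s t ^ l) ≤ Submodule.span k (Mon s t l) ⊔ rs k (mm s t ^ (l + 1)) := by
  induction l with
  | zero =>
    intro z _
    obtain ⟨c, hc⟩ := hk z
    have e : z = algebraMap k O c + (z - algebraMap k O c) := by ring
    rw [e]
    refine Submodule.add_mem_sup ?_ ?_
    · rw [Algebra.algebraMap_eq_smul_one]
      exact Submodule.smul_mem _ _ (Submodule.subset_span ⟨0, 0, rfl, by simp⟩)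
    · change _ ∈ mm s t ^ (0 + 1)
      rw [zero_add, pow_one]
      exact hc
  | succ l ih =>
    intro z hz
    have hz' : z ∈ mm s t ^ l * mm s t := by
      rw [← pow_succ]
      exact hz
    refine Submodule.mul_induction_on hz' ?_ ?_
    · intro u hu w hw
      obtain ⟨u₀, hu₀, u₁, hu₁, rfl⟩ := Submodule.mem_sup.1 (ih hu)
      obtain ⟨α, β, rfl⟩ := Ideal.mem_span_pair.1 hw
      obtain ⟨α₀, hα⟩ := hk α
      obtain ⟨β₀, hβ⟩ := hk β
      have hb : algebraMap k O α₀ * s + algebraMap k O β₀ * t ∈ Submodule.span k (Mon s t 1) := by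
        rw [← Algebra.smul_def, ← Algebra.smul_def]
        exact add_mem (Submodule.smul_mem _ _ (Submodule.subset_span ⟨1, 0, rfl, by simp⟩))
          (Submodule.smul_mem _ _ (Submodule.subset_span ⟨0, 1, rfl, by simp⟩))
      have e : (u₀ + u₁) * (α * s + β * t) =
          u₀ * (algebraMap k O α₀ * s + algebraMap k O β₀ * t) +
          (u₀ * ((α - algebraMap k O α₀) * s + (β - algebraMap k O β₀) * t) +
            u₁ * (α * s + β * t)) := by ring
      rw [e]
      refine Submodule.add_mem_sup ?_ ?_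
      · have h1 : u₀ * (algebraMap k O α₀ * s + algebraMap k O β₀ * t) ∈
            Submodule.span k (Mon s t l) * Submodule.span k (Mon s t 1) :=
          Submodule.mul_mem_mul hu₀ hb
        rw [Submodule.span_mul_span] at h1
        refine Submodule.span_mono ?_ h1
        rintro _ ⟨_, ⟨i, j, hij, rfl⟩, _, ⟨i', j', hij', rfl⟩, rfl⟩
        refine ⟨i + i', j + j', by omega, ?_⟩
        change s ^ i * t ^ j * (s ^ i' * t ^ j') = _
        rw [pow_add, pow_add]
        ring
      · change _ ∈ mm s t ^ (l + 1 + 1)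
        have hs : s ∈ mm s t := Ideal.subset_span (by simp)
        have ht : t ∈ mm s t := Ideal.subset_span (by simp)
        refine add_mem ?_ ?_
        · have h2 : (α - algebraMap k O α₀) * s + (β - algebraMap k O β₀) * t ∈ mm s t ^ 2 := by
            rw [pow_two]
            exact add_mem (Ideal.mul_mem_mul hα hs) (Ideal.mul_mem_mul hβ ht)
          have h3 := Ideal.mul_mem_mul (span_mon_le l hu₀) h2
          rw [← pow_add] at h3
          exact h3
        · rw [pow_succ (mm s t) (l + 1)]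
          exact Ideal.mul_mem_mul hu₁ hw
    · intro u w hu hw
      exact add_mem hu hw

variable (s t) in
/-- reduced monomials -/
def Red' (i₀ j₀ N : ℕ) : Set O :=
  (fun p : ℕ × ℕ => s ^ p.1 * t ^ p.2) '' (((Finset.range i₀ ×ˢ Finset.range N) ∪
    (Finset.range N ×ˢ Finset.range j₀) : Finset (ℕ × ℕ)) : Set (ℕ × ℕ))

theorem red_mono {i₀ j₀ N N' : ℕ} (h : N ≤ N') : Red' s t i₀ j₀ N ⊆ Red' s t i₀ j₀ N' := by
  apply Set.image_mono
  intro p hp
  simp only [Finset.coe_union, Finset.coe_product, Finset.coe_range, Set.mem_union, Set.mem_prod,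
    Set.mem_Iio] at hp ⊢
  omega

/-- existence of the leading monomial -/
theorem stepB (hk : ∀ z : O, ∃ c : k, z - algebraMap k O c ∈ mm s t) {m : ℕ} {f : O}
    (h1 : f ∈ mm s t ^ m) (h2 : f ∉ mm s t ^ (m + 1)) :
    ∃ (i₀ j₀ : ℕ), i₀ + j₀ = m ∧ ∃ (c : ℕ → k) (g : O), g ∈ mm s t ^ (m + 1) ∧
      s ^ i₀ * t ^ j₀ = (algebraMap k O (c i₀)) * f + g +
        ∑ i ∈ Finset.range i₀, algebraMap k O (c i) * (s ^ i * t ^ (m - i)) := by
  classical
  obtain ⟨f₀, hf₀, f₁, hf₁, hf⟩ := Submodule.mem_sup.1 (stepA hk m h1)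
  have hrange : Mon s t m = Set.range (fun i : Fin (m + 1) => s ^ (i : ℕ) * t ^ (m - i)) := by
    ext z
    constructor
    · rintro ⟨i, j, hij, rfl⟩
      refine ⟨⟨i, by omega⟩, ?_⟩
      have : m - i = j := by omega
      simp [this]
    · rintro ⟨i, rfl⟩
      exact ⟨i, m - i, by omega, rfl⟩
  rw [hrange, Submodule.mem_span_range_iff_exists_fun] at hf₀
  obtain ⟨c, hc⟩ := hf₀
  let c' : ℕ → k := fun i => if h : i < m + 1 then c ⟨i, h⟩ else 0
  have hc' : ∑ i ∈ Finset.range (m + 1), algebraMap k O (c' i) * (s ^ i * t ^ (m - i)) = f₀ := by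
    rw [Finset.sum_range, ← hc]
    apply Finset.sum_congr rfl
    intro i _
    have : c' i = c i := by
      simp only [c']
      rw [dif_pos i.2]
    rw [this, Algebra.smul_def]
  have hne : ∃ i ∈ Finset.range (m + 1), c' i ≠ 0 := by
    by_contra hcon
    push Not at hcon
    apply h2
    have : f₀ = 0 := by
      rw [← hc']
      apply Finset.sum_eq_zero
      intro i hi
      rw [hcon i hi, map_zero, zero_mul]
    rw [← hf, this, zero_add]
    exact hf₁
  have hfin : ((Finset.range (m + 1)).filter fun i => c' i ≠ 0).Nonempty := by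
    obtain ⟨i, hi, hi'⟩ := hne
    exact ⟨i, Finset.mem_filter.2 ⟨hi, hi'⟩⟩
  obtain ⟨i₀, hi₀, hmax⟩ := Finset.exists_max_image _ (fun i => i) hfin
  rw [Finset.mem_filter, Finset.mem_range] at hi₀
  obtain ⟨hi₀m, hci₀⟩ := hi₀
  refine ⟨i₀, m - i₀, by omega, fun i => if i = i₀ then (c' i₀)⁻¹ else -(c' i₀)⁻¹ * c' i,
    -(algebraMap k O (c' i₀)⁻¹ * f₁), neg_mem (Ideal.mul_mem_left _ _ hf₁), ?_⟩
  have hsplit : ∑ i ∈ Finset.range (m + 1), algebraMap k O (c' i) * (s ^ i * t ^ (m - i)) =
      ∑ i ∈ Finset.range i₀, algebraMap k O (c' i) * (s ^ i * t ^ (m - i)) +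
        algebraMap k O (c' i₀) * (s ^ i₀ * t ^ (m - i₀)) := by
    rw [← Finset.sum_range_succ]
    symm
    apply Finset.sum_subset
    · intro i hi
      rw [Finset.mem_range] at hi ⊢
      omega
    · intro i hi hi'
      have : c' i = 0 := by
        by_contra h
        have := hmax i (Finset.mem_filter.2 ⟨hi, h⟩)
        rw [Finset.mem_range] at hi'
        omega
      rw [this, map_zero, zero_mul]
  rw [hsplit] at hc'
  have hsum : ∑ i ∈ Finset.range i₀,
      algebraMap k O (if i = i₀ then (c' i₀)⁻¹ else -(c' i₀)⁻¹ * c' i) * (s ^ i * t ^ (m - i)) =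
      -(algebraMap k O (c' i₀)⁻¹) *
        ∑ i ∈ Finset.range i₀, algebraMap k O (c' i) * (s ^ i * t ^ (m - i)) := by
    rw [Finset.mul_sum]
    apply Finset.sum_congr rfl
    intro i hi
    rw [Finset.mem_range] at hi
    rw [if_neg (by omega), map_mul, map_neg]
    ring
  rw [hsum]
  simp only [if_true]
  have hinv : algebraMap k O (c' i₀)⁻¹ * algebraMap k O (c' i₀) = 1 := by
    rw [← map_mul, inv_mul_cancel₀ hci₀, map_one]
  linear_combination (-(s ^ i₀ * t ^ (m - i₀))) * hinv + algebraMap k O (c' i₀)⁻¹ * hf +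
    algebraMap k O (c' i₀)⁻¹ * hc'

/-- reduction of monomials -/
theorem stepC {m : ℕ} {f : O} {i₀ j₀ : ℕ} (hij : i₀ + j₀ = m) {c : ℕ → k} {g : O}
    (hg : g ∈ mm s t ^ (m + 1))
    (hst : s ^ i₀ * t ^ j₀ = (algebraMap k O (c i₀)) * f + g +
        ∑ i ∈ Finset.range i₀, algebraMap k O (c i) * (s ^ i * t ^ (m - i))) (l : ℕ) (i : ℕ) :
    ∀ j, i + j = l → s ^ i * t ^ j ∈ Submodule.span k (Red' s t i₀ j₀ (l + 1)) ⊔
      (rs k (Ideal.span {f}) ⊔ rs k (mm s t ^ (l + 1))) := by
  induction i using Nat.strong_induction_on with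
  | _ i ih =>
    intro j hl
    by_cases hred : i < i₀ ∨ j < j₀
    · apply Submodule.mem_sup_left
      apply Submodule.subset_span
      refine ⟨(i, j), ?_, rfl⟩
      simp only [Finset.coe_union, Finset.coe_product, Finset.coe_range, Set.mem_union,
        Set.mem_prod, Set.mem_Iio]
      omega
    · push Not at hred
      obtain ⟨h1, h2⟩ := hred
      have e : s ^ i * t ^ j = (s ^ (i - i₀) * t ^ (j - j₀)) * (s ^ i₀ * t ^ j₀) := by
        have e1 : s ^ i = s ^ (i - i₀) * s ^ i₀ := by rw [← pow_add]; congr 1; omega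
        have e2 : t ^ j = t ^ (j - j₀) * t ^ j₀ := by rw [← pow_add]; congr 1; omega
        rw [e1, e2]
        ring
      rw [e, hst, mul_add, mul_add]
      refine add_mem (add_mem ?_ ?_) ?_
      · apply Submodule.mem_sup_right
        apply Submodule.mem_sup_left
        change _ ∈ Ideal.span {f}
        exact Ideal.mul_mem_left _ _ (Ideal.mul_mem_left _ _ (Ideal.subset_span rfl))
      · apply Submodule.mem_sup_right
        apply Submodule.mem_sup_right
        change _ ∈ mm s t ^ (l + 1)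
        have h3 : s ^ (i - i₀) * t ^ (j - j₀) ∈ mm s t ^ ((i - i₀) + (j - j₀)) :=
          mon_mem ⟨_, _, rfl, rfl⟩
        have h4 := Ideal.mul_mem_mul h3 hg
        rw [← pow_add] at h4
        have h5 : (i - i₀) + (j - j₀) + (m + 1) = l + 1 := by omega
        rwa [h5] at h4
      · rw [Finset.mul_sum]
        apply Submodule.sum_mem
        intro i' hi'
        rw [Finset.mem_range] at hi'
        have e3 : s ^ (i - i₀) * t ^ (j - j₀) * (algebraMap k O (c i') * (s ^ i' * t ^ (m - i'))) =
            c i' • (s ^ (i - i₀ + i') * t ^ (j - j₀ + (m - i'))) := by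
          rw [Algebra.smul_def, pow_add, pow_add]
          ring
        rw [e3]
        apply Submodule.smul_mem
        exact ih (i - i₀ + i') (by omega) (j - j₀ + (m - i')) (by omega)

/-- `O` is spanned by few monomials modulo `f` and a power of the maximal ideal -/
theorem stepE (hk : ∀ z : O, ∃ c : k, z - algebraMap k O c ∈ mm s t) {m : ℕ} {f : O}
    (h1 : f ∈ mm s t ^ m) (h2 : f ∉ mm s t ^ (m + 1)) :
    ∃ i₀ j₀ : ℕ, i₀ + j₀ = m ∧ ∀ N : ℕ, (⊤ : Submodule k O) ≤
      Submodule.span k (Red' s t i₀ j₀ N) ⊔ (rs k (Ideal.span {f}) ⊔ rs k (mm s t ^ N)) := by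
  obtain ⟨i₀, j₀, hij, c, g, hg, hst⟩ := stepB hk h1 h2
  refine ⟨i₀, j₀, hij, ?_⟩
  intro N
  induction N with
  | zero =>
    intro z _
    apply Submodule.mem_sup_right
    apply Submodule.mem_sup_right
    change z ∈ mm s t ^ 0
    rw [pow_zero, Ideal.one_eq_top]
    trivial
  | succ N ih =>
    have hD : rs k (mm s t ^ N) ≤ Submodule.span k (Red' s t i₀ j₀ (N + 1)) ⊔
        (rs k (Ideal.span {f}) ⊔ rs k (mm s t ^ (N + 1))) := by
      refine (stepA hk N).trans (sup_le ?_ ?_)
      · rw [Submodule.span_le]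
        rintro z ⟨i, j, hl, rfl⟩
        exact stepC hij hg hst N i j hl
      · exact le_sup_of_le_right le_sup_right
    refine ih.trans (sup_le ?_ (sup_le ?_ hD))
    · exact le_sup_of_le_left (Submodule.span_mono (red_mono (Nat.le_succ N)))
    · exact le_sup_of_le_right le_sup_left

theorem red_finite (i₀ j₀ N : ℕ) : (Red' s t i₀ j₀ N).Finite := (Finset.finite_toSet _).image _

theorem red_card (i₀ j₀ N : ℕ) : (Red' s t i₀ j₀ N).ncard ≤ (i₀ + j₀) * N := by
  refine (Set.ncard_image_le (Finset.finite_toSet _)).trans ?_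
  rw [Set.ncard_coe_finset]
  refine (Finset.card_union_le _ _).trans ?_
  rw [Finset.card_product, Finset.card_product, Finset.card_range, Finset.card_range,
    Finset.card_range]
  nlinarith

end Span

end Pool.Agent.H71.Ses
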