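import Pool.Agent.H71.Ses.I1
import Pool.Agent.H71.Ses.A1

set_option linter.style.haveILetI false
set_option linter.unusedSectionVars false
set_option linter.unusedVariables false

open scoped WithZero
open WithZero

namespace Pool.Agent.H71.Ses

section

variable {k E : Type} [Field k] [Field E] [Algebra k E]

/-- the valuation of a sum of elements with distinct valuations -/
theorem exists_val_sum {ι : Type} {v : Valuation E ℤᵐ⁰} (s : Finset ι) (hs : s.Nonempty) (g : ι → E)
    (h0 : ∀ i ∈ s, g i ≠ 0) (hinj : ∀ i ∈ s, ∀ j ∈ s, v (g i) = v (g j) → i = j) :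
    ∃ j ∈ s, v (∑ i ∈ s, g i) = v (g j) := by
  classical
  obtain ⟨j, hj, hmax⟩ := Finset.exists_max_image s (fun i => v (g i)) hs
  refine ⟨j, hj, ?_⟩
  rw [← Finset.add_sum_erase s g hj]
  apply v.map_add_eq_of_lt_left
  apply v.map_sum_lt ((Valuation.ne_zero_iff v).2 (h0 j hj))
  intro i hi
  rw [Finset.mem_erase] at hi
  refine lt_of_le_of_ne (hmax i hi.2) ?_
  intro h
  exact hi.1 (hinj i hi.2 j hj h)

theorem Place.val_smul (v : Place k E) {c : k} (hc : c ≠ 0) (z : E) : v.val (c • z) = v.val z := by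
  rw [Algebra.smul_def, map_mul, v.const c hc, one_mul]

/-- a space containing elements of many valuations has large dimension -/
theorem count_vals (v : Place k E) (W : Submodule k E) [Module.Finite k W] (L : Finset ℤ)
    (h : ∀ l ∈ L, ∃ w ∈ W, v.val w = exp (-l)) : L.card ≤ Module.finrank k W := by
  classical
  choose! w hw hv using h
  let f : L → W := fun l => ⟨w l, hw l l.2⟩
  have hli : LinearIndependent k f := by
    rw [linearIndependent_iff']
    intro s g hg i hi
    by_contra hne
    have hsum : ∑ i ∈ s.filter (fun i => g i ≠ 0), g i • w i = 0 := by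
      have h1 : ∑ i ∈ s, g i • w i = 0 := by
        have := congrArg (Submodule.subtype W) hg
        rw [map_sum, map_zero] at this
        rw [← this]
        rfl
      rw [← h1]
      apply Finset.sum_subset (Finset.filter_subset _ _)
      intro j hj hj'
      rw [Finset.mem_filter] at hj'
      push Not at hj'
      rw [hj' hj, zero_smul]
    have hval : ∀ j ∈ s.filter (fun i => g i ≠ 0), v.val (g j • w j) = exp (-(j : ℤ)) := by
      intro j hj
      rw [Finset.mem_filter] at hj
      rw [v.val_smul hj.2, hv j j.2]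
    obtain ⟨j, hj, hj'⟩ := exists_val_sum (v := v.val) (s.filter (fun i => g i ≠ 0))
      ⟨i, Finset.mem_filter.2 ⟨hi, hne⟩⟩ (fun i => g i • w i) (by
        intro j hj h0
        have := hval j hj
        rw [h0, map_zero] at this
        exact exp_ne_zero this.symm) (by
        intro i hi j hj hij
        rw [hval i hi, hval j hj, exp_inj] at hij
        exact Subtype.ext (by omega))
    rw [hsum, map_zero, hval j hj] at hj'
    exact exp_ne_zero hj'.symm
  have := hli.fintype_card_le_finrank
  rwa [Fintype.card_coe] at this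

/-- the ramification index is at most the degree -/
theorem ram_le {F : Type} [Field F] (φ : F →+* E) (v : Place k E)
    (hfin : @Module.Finite F E _ _ φ.toModule) {e : ℕ}
    (he : ∀ z : F, z ≠ 0 → ∃ m : ℤ, v.val (φ z) = exp (e * m)) :
    e ≤ @Module.finrank F E _ _ φ.toModule := by
  classical
  letI := φ.toAlgebra
  haveI : Module.Finite F E := hfin
  obtain ⟨π, hπ⟩ := v.surj (exp (-1))
  have hli : LinearIndependent F (fun i : Fin e => π ^ (i : ℕ)) := by
    rw [linearIndependent_iff']
    intro s g hg i hi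
    by_contra hne
    have hsum : ∑ i ∈ s.filter (fun i => g i ≠ 0), g i • π ^ (i : ℕ) = 0 := by
      rw [← hg]
      apply Finset.sum_subset (Finset.filter_subset _ _)
      intro j hj hj'
      rw [Finset.mem_filter] at hj'
      push Not at hj'
      rw [hj' hj, zero_smul]
    have hval : ∀ j ∈ s.filter (fun i => g i ≠ 0), ∃ m : ℤ,
        v.val (g j • π ^ (j : ℕ)) = exp (e * m - j) := by
      intro j hj
      rw [Finset.mem_filter] at hj
      obtain ⟨m, hm⟩ := he (g j) hj.2
      refine ⟨m, ?_⟩
      have : g j • π ^ (j : ℕ) = φ (g j) * π ^ (j : ℕ) := rfl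
      rw [this, map_mul, hm, map_pow, hπ, ← exp_nsmul, ← exp_add]
      congr 1
      simp
      ring
    obtain ⟨j, hj, hj'⟩ := exists_val_sum (v := v.val) (s.filter (fun i => g i ≠ 0))
      ⟨i, Finset.mem_filter.2 ⟨hi, hne⟩⟩ (fun i => g i • π ^ (i : ℕ)) (by
        intro j hj h0
        obtain ⟨m, hm⟩ := hval j hj
        rw [h0, map_zero] at hm
        exact exp_ne_zero hm.symm) (by
        intro i hi j hj hij
        obtain ⟨m, hm⟩ := hval i hi
        obtain ⟨m', hm'⟩ := hval j hj
        rw [hm, hm', exp_inj] at hij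
        have h1 := i.2
        have h2 := j.2
        apply Fin.ext
        have h3 : ((i : ℕ) : ℤ) - j = e * (m - m') := by linarith
        have h4 : (e : ℤ) ∣ ((i : ℕ) : ℤ) - j := ⟨_, h3⟩
        have h5 : |((i : ℕ) : ℤ) - j| < e := by
          rw [abs_lt]
          constructor <;> omega
        have h6 := Int.eq_zero_of_abs_lt_dvd h4 h5
        omega)
    obtain ⟨m, hm⟩ := hval j hj
    rw [hsum, map_zero, hm] at hj'
    exact exp_ne_zero hj'.symm
  have := hli.fintype_card_le_finrank
  rwa [Fintype.card_fin] at this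

variable {O : Type} [CommRing O] [Algebra k O] {s t : O}

theorem pow_val (v : Place k E) (ψ : O →ₐ[k] E) {Q : ℕ}
    (hQ : ∀ z ∈ mm s t, v.val (ψ z) ≤ exp (-(Q : ℤ))) (hk : ∀ z : O, v.val (ψ z) ≤ 1) (N : ℕ) :
    ∀ z ∈ mm s t ^ N, v.val (ψ z) ≤ exp (-((Q * N : ℕ) : ℤ)) := by
  induction N with
  | zero =>
    intro z _
    simpa using hk z
  | succ N ih =>
    intro z hz
    rw [pow_succ] at hz
    refine Submodule.mul_induction_on hz ?_ ?_
    · intro u hu w hw
      rw [map_mul, map_mul]
      calc v.val (ψ u) * v.val (ψ w) ≤ exp (-((Q * N : ℕ) : ℤ)) * exp (-(Q : ℤ)) :=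
            mul_le_mul' (ih u hu) (hQ w hw)
        _ = exp (-((Q * (N + 1) : ℕ) : ℤ)) := by
          rw [← exp_add]
          congr 1
          push_cast
          ring
    · intro u w hu hw
      rw [map_add]
      exact v.val.map_add_le hu hw

/-- the inequality between the multiplicity and the order of contact -/
theorem mult_ineq (v : Place k E) (ψ : O →ₐ[k] E) {Q : ℕ}
    (hk : ∀ z : O, ∃ c : k, z - algebraMap k O c ∈ mm s t)
    (hQ : ∀ z ∈ mm s t, v.val (ψ z) ≤ exp (-(Q : ℤ))) {m : ℕ} {f : O} (hf : ψ f = 0)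
    (h1 : f ∈ mm s t ^ m) (h2 : f ∉ mm s t ^ (m + 1)) {e B : ℕ} (he : 1 ≤ e) {g h : O}
    (hg : v.val (ψ g) = exp (-((e * (B + 1) : ℕ) : ℤ))) (hh : v.val (ψ h) = exp (-((e * B : ℕ) : ℤ))) :
    Q ≤ e * m := by
  classical
  have hk1 : ∀ z : O, v.val (ψ z) ≤ 1 := by
    intro z
    obtain ⟨c, hc⟩ := hk z
    have e1 : ψ z = algebraMap k E c + ψ (z - algebraMap k O c) := by
      rw [map_sub, AlgHom.commutes]
      ring
    rw [e1]
    refine v.val.map_add_le (v.const_le c) ((hQ _ hc).trans ?_)
    rw [← exp_zero, exp_le_exp]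
    omega
  -- all large multiples of `e` are values
  have hvals : ∀ l : ℕ, B * B ≤ l → ∃ z : O, v.val (ψ z) = exp (-((e * l : ℕ) : ℤ)) := by
    intro l hl
    rcases Nat.eq_zero_or_pos B with hB | hB
    · subst hB
      refine ⟨g ^ l, ?_⟩
      rw [map_pow, map_pow, hg, ← exp_nsmul]
      congr 1
      simp
      ring
    · set α := l / B with hα
      set r := l % B with hr
      have h3 : B * α + r = l := Nat.div_add_mod l B
      have h4 : r < B := Nat.mod_lt _ hB
      have h5 : B ≤ α := (Nat.le_div_iff_mul_le hB).2 hl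
      refine ⟨h ^ (α - r) * g ^ r, ?_⟩
      rw [map_mul, map_pow, map_pow, map_mul, map_pow, map_pow, hg, hh, ← exp_nsmul, ← exp_nsmul,
        ← exp_add]
      congr 1
      have h6 : ((α - r : ℕ) : ℤ) = α - r := by
        rw [Nat.cast_sub (by omega)]
      simp only [nsmul_eq_mul, h6]
      rw [← h3]
      push_cast
      ring
  by_contra hcon
  push Not at hcon
  obtain ⟨i₀, j₀, hij, hE⟩ := stepE hk h1 h2
  set K := B * B + 1 with hK
  set N := e * K with hN
  -- the finite-dimensional space
  set W : Submodule k E := (Submodule.span k (Red' s t i₀ j₀ N)).map ψ.toLinearMap with hW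
  haveI hWfin : Module.Finite k W := by
    haveI : Module.Finite k (Submodule.span k (Red' s t i₀ j₀ N)) :=
      FiniteDimensional.span_of_finite k (red_finite i₀ j₀ N)
    infer_instance
  have hWrank : Module.finrank k W ≤ m * N := by
    haveI : Module.Finite k (Submodule.span k (Red' s t i₀ j₀ N)) :=
      FiniteDimensional.span_of_finite k (red_finite i₀ j₀ N)
    refine (Submodule.finrank_map_le _ _).trans ?_
    haveI := (red_finite (s := s) (t := t) i₀ j₀ N).fintype
    refine (finrank_span_le_card (R := k) (Red' s t i₀ j₀ N)).trans ?_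
    rw [← Set.ncard_eq_toFinset_card', ← hij]
    exact red_card i₀ j₀ N
  have hmem : ∀ z : O, ∃ w ∈ W, v.val (ψ z - w) ≤ exp (-((Q * N : ℕ) : ℤ)) := by
    intro z
    obtain ⟨w, hw, r, hr, hwr⟩ := Submodule.mem_sup.1 (hE N (Submodule.mem_top (x := z)))
    obtain ⟨a, ha, b, hb, hab⟩ := Submodule.mem_sup.1 hr
    refine ⟨ψ w, ⟨w, hw, rfl⟩, ?_⟩
    have ha' : a ∈ Ideal.span {f} := ha
    obtain ⟨a', rfl⟩ := Ideal.mem_span_singleton'.1 ha'
    have e1 : ψ z - ψ w = ψ b := by
      rw [← hwr, ← hab, map_add, map_add, map_mul, hf]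
      ring
    rw [e1]
    exact pow_val v ψ hQ hk1 N b hb
  set L : Finset ℤ := (Finset.Ico (B * B) (m * e * K + K)).image (fun l : ℕ => ((e * l : ℕ) : ℤ))
    with hL
  have hLcard : L.card = m * e * K + K - B * B := by
    rw [hL, Finset.card_image_of_injective, Nat.card_Ico]
    intro l l' hll
    have : e * l = e * l' := by
      change ((e * l : ℕ) : ℤ) = ((e * l' : ℕ) : ℤ) at hll
      exact_mod_cast hll
    exact Nat.eq_of_mul_eq_mul_left he this
  have hcount := count_vals v W L (by
    intro l hl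
    rw [hL, Finset.mem_image] at hl
    obtain ⟨l', hl', rfl⟩ := hl
    rw [Finset.mem_Ico] at hl'
    obtain ⟨z, hz⟩ := hvals l' hl'.1
    obtain ⟨w, hw, hzw⟩ := hmem z
    refine ⟨w, hw, ?_⟩
    have hlt : v.val (ψ z - w) < v.val (ψ z) := by
      refine hzw.trans_lt ?_
      rw [hz, exp_lt_exp, neg_lt_neg_iff]
      have : e * l' < Q * N := by
        have h3 : e * l' < e * (m * e * K + K) := Nat.mul_lt_mul_of_pos_left hl'.2 he
        have h4 : e * (m * e * K + K) = (e * m + 1) * N := by rw [hN]; ring
        have h5 : (e * m + 1) * N ≤ Q * N := Nat.mul_le_mul_right N hcon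
        omega
      exact_mod_cast this
    have e2 : w = ψ z - (ψ z - w) := by ring
    rw [e2, v.val.map_sub_eq_of_lt_left hlt, hz])
  have h3 : m * N = m * e * K := by rw [hN]; ring
  omega

end

end Pool.Agent.H71.Ses
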