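import Pool.Agent.H71.Ses.H8
import Pool.Agent.H71.Ses.I2

set_option linter.style.haveILetI false
set_option linter.unusedSectionVars false
set_option linter.unusedVariables false

open scoped WithZero IntermediateField
open WithZero

namespace Pool.Agent.H71.Ses

open ProjVar

variable {k KC K : Type} [Field k] [IsAlgClosed k] [CharP k 5] [Field KC] [CharP KC 5] [Field K]
  [CharP K 5] [Algebra k KC]
  [Algebra KC K] [Algebra k K] [IsScalarTower k KC K] {a b : KC} {x y : K}
  {E : Type} [Field E] [CharP E 5] [Algebra k E] {n : ℕ} {H₂ : ℤ}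

/-- the point `(O, (1, 1))` of `E × C` -/
structure IsP0 {M : IsModel k KC K a b x y} (P : (SX M).Point) : Prop where
  idx : P.i = ((1, 2) : Fin 3 × Fin 3)
  closed : P.IsClosed
  r1 : P.splz.R (x / y) 0
  r2 : P.splz.R y⁻¹ 0
  ra : P.splz.R (algebraMap KC K a) 1
  rb : P.splz.R (algebraMap KC K b) 1

namespace SCurve

variable {M : IsModel k KC K a b x y} {S : Special k E n H₂} (C : SCurve M S)

/-- `z` is regular at the curve and congruent to the constant `c` at the place -/
def Cg (z : K) (c : k) : Prop :=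
  z ∈ C.G.ring ∧ S.v.val (C.φ (C.G.res z) - algebraMap k E c) ≤ exp (-(5 ^ n : ℤ))

theorem exp_lt : (exp (-(5 ^ n : ℤ)) : ℤᵐ⁰) < 1 := by
  rw [← exp_zero, exp_lt_exp]
  have : (0 : ℤ) < 5 ^ n := by positivity
  omega

theorem Cg.val_le {C : SCurve M S} {z : K} {c : k} (h : C.Cg z c) :
    S.v.val (C.φ (C.G.res z)) ≤ 1 := by
  have e : C.φ (C.G.res z) = (C.φ (C.G.res z) - algebraMap k E c) + algebraMap k E c := by ring
  rw [e]
  exact S.v.val.map_add_le (h.2.trans exp_lt.le) (S.v.const_le c)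

theorem Cg.add {C : SCurve M S} {z w : K} {c d : k} (h : C.Cg z c) (h' : C.Cg w d) :
    C.Cg (z + w) (c + d) := by
  refine ⟨add_mem h.1 h'.1, ?_⟩
  have r := C.G.splz.add (splz_mem C.G h.1) (splz_mem C.G h'.1)
  rw [r.2, map_add, map_add]
  have e : C.φ (C.G.res z) + C.φ (C.G.res w) - (algebraMap k E c + algebraMap k E d) =
      (C.φ (C.G.res z) - algebraMap k E c) + (C.φ (C.G.res w) - algebraMap k E d) := by ring
  rw [e]
  exact S.v.val.map_add_le h.2 h'.2

theorem Cg.mul {C : SCurve M S} {z w : K} {c d : k} (h : C.Cg z c) (h' : C.Cg w d) :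
    C.Cg (z * w) (c * d) := by
  refine ⟨mul_mem h.1 h'.1, ?_⟩
  have r := C.G.splz.mul (splz_mem C.G h.1) (splz_mem C.G h'.1)
  rw [r.2, map_mul, map_mul]
  have e : C.φ (C.G.res z) * C.φ (C.G.res w) - (algebraMap k E c * algebraMap k E d) =
      C.φ (C.G.res w) * (C.φ (C.G.res z) - algebraMap k E c) +
        algebraMap k E c * (C.φ (C.G.res w) - algebraMap k E d) := by ring
  rw [e]
  exact J_add (J_mul h'.val_le h.2) (J_mul (S.v.const_le c) h'.2)

theorem Cg.const {C : SCurve M S} (c : k) : C.Cg (algebraMap k K c) c := by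
  refine ⟨(splz_const C.G c).1, ?_⟩
  rw [(splz_const C.G c).2, C.φ.commutes, sub_self, map_zero]
  exact zero_le

theorem cg_one : C.Cg 1 1 := by
  have := Cg.const (C := C) 1
  rwa [map_one] at this

theorem cg_zero {z : K} (h : z ∈ C.G.ring)
    (h' : S.v.val (C.φ (C.G.res z)) ≤ exp (-(5 ^ n : ℤ))) : C.Cg z 0 := by
  refine ⟨h, ?_⟩
  rw [map_zero, sub_zero]
  exact h'

theorem cg_a : C.Cg (algebraMap KC K a) 1 := by
  refine ⟨C.hall a, ?_⟩
  have h := C.ha
  change C.φ (C.G.res (algebraMap KC K a)) = _ at h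
  rw [h, map_one]
  exact S.vpow S.vals.2.2.1

theorem cg_b : C.Cg (algebraMap KC K b) 1 := by
  refine ⟨C.hall b, ?_⟩
  have h := C.hb
  change C.φ (C.G.res (algebraMap KC K b)) = _ at h
  rw [h, map_one]
  exact S.vpow S.vals.2.2.2

/-- the values of the generators -/
def e0 : Fin 3 → k := ![0, 1, 0]

theorem cg_e (i : Fin 3) : C.Cg (ee x y i / ee x y 1) ((![0, 1, 0] : Fin 3 → k) i) := by
  have hi : i = 0 ∨ i = 1 ∨ i = 2 := by
    have : ∀ i : Fin 3, i = 0 ∨ i = 1 ∨ i = 2 := by decide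
    exact this i
  rcases hi with rfl | rfl | rfl
  · exact C.cg_zero C.xy_mem C.xy_val
  · have e : ee x y 1 / ee x y 1 = 1 := div_self (ee_ne M 1)
    rw [e]
    exact C.cg_one
  · have e : ee x y 2 / ee x y 1 = y⁻¹ := by simp [ee]
    rw [e]
    exact C.cg_zero C.y_mem C.y_val

theorem cg_c (i : Fin 3) : C.Cg (algebraMap KC K (cc a b i / cc a b 2)) 1 := by
  have hi : i = 0 ∨ i = 1 ∨ i = 2 := by
    have : ∀ i : Fin 3, i = 0 ∨ i = 1 ∨ i = 2 := by decide
    exact this i
  rcases hi with rfl | rfl | rfl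
  · have e : cc a b 0 / cc a b 2 = a := by simp [cc]
    rw [e]
    exact C.cg_a
  · have e : cc a b 1 / cc a b 2 = b := by simp [cc]
    rw [e]
    exact C.cg_b
  · have e : cc a b 2 / cc a b 2 = 1 := by simp [cc]
    rw [e, map_one]
    exact C.cg_one

theorem cg_chart {z : K} (hz : z ∈ (SX M).chart ((1, 2) : Fin 3 × Fin 3)) : ∃ c : k, C.Cg z c := by
  unfold chart at hz
  induction hz using Algebra.adjoin_induction with
  | mem z hz =>
    obtain ⟨j, rfl⟩ := hz
    have e := x_div_eq (M := M) j ((1, 2) : Fin 3 × Fin 3)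
    rw [e]
    exact ⟨_, (C.cg_e j.1).mul (C.cg_c j.2)⟩
  | algebraMap c => exact ⟨c, Cg.const c⟩
  | add z w hz hw h1 h2 =>
    obtain ⟨c, hc⟩ := h1
    obtain ⟨d, hd⟩ := h2
    exact ⟨_, hc.add hd⟩
  | mul z w hz hw h1 h2 =>
    obtain ⟨c, hc⟩ := h1
    obtain ⟨d, hd⟩ := h2
    exact ⟨_, hc.mul hd⟩

theorem cg_lt {z : K} {c : k} (h : C.Cg z c) : S.v.val (C.φ (C.G.res z)) < 1 ↔ c = 0 := by
  constructor
  · intro h1
    by_contra hc
    have e : algebraMap k E c = C.φ (C.G.res z) - (C.φ (C.G.res z) - algebraMap k E c) := by ring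
    have h2 : S.v.val (algebraMap k E c) < 1 := by
      rw [e]
      exact S.v.val.map_sub_lt h1 (h.2.trans_lt exp_lt)
    rw [S.v.const c hc] at h2
    exact lt_irrefl _ h2
  · rintro rfl
    have h2 := h.2
    rw [map_zero, sub_zero] at h2
    exact h2.trans_lt exp_lt

include C in
/-- existence of the point `P₀` -/
theorem exists_P0 : ∃ P : (SX M).Point, IsP0 P := by
  let p : Ideal ((SX M).chart ((1, 2) : Fin 3 × Fin 3)) :=
    { carrier := {z | C.Cg z 0}
      add_mem' := by
        intro z w hz hw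
        have := Cg.add hz hw
        rw [add_zero] at this
        exact this
      zero_mem' := by
        have := Cg.const (C := C) 0
        rw [map_zero] at this
        exact this
      smul_mem' := by
        intro c z hz
        obtain ⟨d, hd⟩ := C.cg_chart c.2
        have := hd.mul hz
        rw [mul_zero] at this
        exact this }
  have hp : ∀ z, z ∈ p ↔ C.Cg z 0 := fun z => Iff.rfl
  have hsub : ∀ z : (SX M).chart ((1, 2) : Fin 3 × Fin 3), ∀ c : k, C.Cg z c →
      z - algebraMap k _ c ∈ p := by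
    intro z c hc
    rw [hp]
    have h1 := hc.add (Cg.const (-c))
    rw [add_neg_cancel] at h1
    have e : ((z - algebraMap k ((SX M).chart ((1, 2) : Fin 3 × Fin 3)) c :
        (SX M).chart ((1, 2) : Fin 3 × Fin 3)) : K) = (z : K) + algebraMap k K (-c) := by
      rw [map_neg]
      change (z : K) - algebraMap k K c = _
      ring
    rw [e]
    exact h1
  have hprime : p.IsPrime := by
    refine ⟨?_, ?_⟩
    · intro htop
      have h1 : (1 : (SX M).chart ((1, 2) : Fin 3 × Fin 3)) ∈ p := by rw [htop]; trivial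
      rw [hp] at h1
      have h2 := (C.cg_lt h1).2 rfl
      have h3 := (C.cg_lt C.cg_one).1 h2
      exact one_ne_zero h3
    · intro z w hzw
      obtain ⟨c, hc⟩ := C.cg_chart z.2
      obtain ⟨d, hd⟩ := C.cg_chart w.2
      have h1 := hc.mul hd
      have h2 := (C.cg_lt ((hp _).1 hzw)).2 rfl
      have h3 := (C.cg_lt h1).1 h2
      rcases mul_eq_zero.1 h3 with rfl | rfl
      · exact Or.inl hc
      · exact Or.inr hd
  let P : (SX M).Point := ⟨((1, 2) : Fin 3 × Fin 3), p, hprime⟩
  have hclosed : P.IsClosed := by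
    apply isClosed_of
    intro z
    obtain ⟨c, hc⟩ := C.cg_chart z.2
    exact ⟨c, hsub z c hc⟩
  have hR : ∀ (z : K) (hz : z ∈ (SX M).chart ((1, 2) : Fin 3 × Fin 3)) (c : k), C.Cg z c →
      P.splz.R z (algebraMap k P.κ c) := by
    intro z hz c hc
    have h1 := hsub ⟨z, hz⟩ c hc
    have h2 := (mem_p_iff P (⟨z, hz⟩ - algebraMap k _ c)).1 h1
    have h3 : z ∈ P.ring := mem_ring_of_chart P hz
    have h4 := P.splz.sub (splz_mem P h3) (splz_const P c)
    have h5 : P.res (z - algebraMap k K c) = 0 := h2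
    refine ⟨h3, ?_⟩
    have h6 := h4.2
    rw [h5] at h6
    exact (sub_eq_zero.1 h6.symm)
  have hgen : ∀ j : Fin 3 × Fin 3, (ee x y j.1 / ee x y 1) * algebraMap KC K (cc a b j.2 / cc a b 2) ∈
      (SX M).chart ((1, 2) : Fin 3 × Fin 3) := by
    intro j
    have e := x_div_eq (M := M) j ((1, 2) : Fin 3 × Fin 3)
    have h1 : (SX M).x j / (SX M).x ((1, 2) : Fin 3 × Fin 3) ∈
      (SX M).chart ((1, 2) : Fin 3 × Fin 3) := Algebra.subset_adjoin ⟨j, rfl⟩
    rw [e] at h1
    exact h1
  refine ⟨P, rfl, hclosed, ?_, ?_, ?_, ?_⟩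
  · have h1 := hgen (0, 2)
    have e : (ee x y 0 / ee x y 1) * algebraMap KC K (cc a b 2 / cc a b 2) = x / y := by
      simp [ee, cc]
    change (ee x y 0 / ee x y 1) * algebraMap KC K (cc a b 2 / cc a b 2) ∈ _ at h1
    rw [e] at h1
    have := hR _ h1 0 (C.cg_zero C.xy_mem C.xy_val)
    rwa [map_zero] at this
  · have h1 := hgen (2, 2)
    have e : (ee x y 2 / ee x y 1) * algebraMap KC K (cc a b 2 / cc a b 2) = y⁻¹ := by
      simp [ee, cc]
    change (ee x y 2 / ee x y 1) * algebraMap KC K (cc a b 2 / cc a b 2) ∈ _ at h1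
    rw [e] at h1
    have := hR _ h1 0 (C.cg_zero C.y_mem C.y_val)
    rwa [map_zero] at this
  · have h1 := hgen (1, 0)
    have e : (ee x y 1 / ee x y 1) * algebraMap KC K (cc a b 0 / cc a b 2) = algebraMap KC K a := by
      rw [div_self (ee_ne M 1)]
      simp [cc]
    change (ee x y 1 / ee x y 1) * algebraMap KC K (cc a b 0 / cc a b 2) ∈ _ at h1
    rw [e] at h1
    have := hR _ h1 1 C.cg_a
    rwa [map_one] at this
  · have h1 := hgen (1, 1)
    have e : (ee x y 1 / ee x y 1) * algebraMap KC K (cc a b 1 / cc a b 2) = algebraMap KC K b := by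
      rw [div_self (ee_ne M 1)]
      simp [cc]
    change (ee x y 1 / ee x y 1) * algebraMap KC K (cc a b 1 / cc a b 2) ∈ _ at h1
    rw [e] at h1
    have := hR _ h1 1 C.cg_b
    rwa [map_one] at this

/-- at `P₀` the two kinds of values coincide -/
theorem cg_P0 {P : (SX M).Point} (hP : IsP0 P) {z : K} (hz : z ∈ P.ring) :
    ∃ c : k, C.Cg z c ∧ P.splz.R z (algebraMap k P.κ c) := by
  have hchart : ∀ z ∈ (SX M).chart P.i, ∃ c : k, C.Cg z c ∧ P.splz.R z (algebraMap k P.κ c) := by
    intro z hz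
    unfold chart at hz
    induction hz using Algebra.adjoin_induction with
    | mem z hz =>
      obtain ⟨j, rfl⟩ := hz
      have e := x_div_eq (M := M) j P.i
      have hPi := hP.idx
      have e1 : (P.i : Fin 3 × Fin 3).1 = 1 := by rw [hPi]
      have e2 : (P.i : Fin 3 × Fin 3).2 = 2 := by rw [hPi]
      rw [e, e1, e2]
      have he : P.splz.R (ee x y j.1 / ee x y 1) (algebraMap k P.κ ((![0, 1, 0] : Fin 3 → k) j.1)) := by
        have hi : j.1 = 0 ∨ j.1 = 1 ∨ j.1 = 2 := by
          have : ∀ i : Fin 3, i = 0 ∨ i = 1 ∨ i = 2 := by decide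
          exact this j.1
        rcases hi with hi | hi | hi <;> rw [hi]
        · exact P.splz.congr hP.r1 rfl (map_zero _).symm
        · exact P.splz.congr P.splz.one (div_self (ee_ne M 1)).symm (map_one _).symm
        · exact P.splz.congr hP.r2 (by simp [ee]) (map_zero _).symm
      have hc : P.splz.R (algebraMap KC K (cc a b j.2 / cc a b 2)) (algebraMap k P.κ 1) := by
        have hi : j.2 = 0 ∨ j.2 = 1 ∨ j.2 = 2 := by
          have : ∀ i : Fin 3, i = 0 ∨ i = 1 ∨ i = 2 := by decide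
          exact this j.2
        rcases hi with hi | hi | hi <;> rw [hi]
        · exact P.splz.congr hP.ra (by simp [cc]) (map_one _).symm
        · exact P.splz.congr hP.rb (by simp [cc]) (map_one _).symm
        · exact P.splz.congr P.splz.one (by simp [cc]) (map_one _).symm
      exact ⟨_, (C.cg_e j.1).mul (C.cg_c j.2), by rw [map_mul]; exact P.splz.mul he hc⟩
    | algebraMap c => exact ⟨c, Cg.const c, splz_const P c⟩
    | add z w hz hw h1 h2 =>
      obtain ⟨c, hc, hc'⟩ := h1
      obtain ⟨d, hd, hd'⟩ := h2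
      exact ⟨_, hc.add hd, by rw [map_add]; exact P.splz.add hc' hd'⟩
    | mul z w hz hw h1 h2 =>
      obtain ⟨c, hc, hc'⟩ := h1
      obtain ⟨d, hd, hd'⟩ := h2
      exact ⟨_, hc.mul hd, by rw [map_mul]; exact P.splz.mul hc' hd'⟩
  obtain ⟨u, s, hs, hzs⟩ := hz
  obtain ⟨c, hc, hc'⟩ := hchart u u.2
  obtain ⟨d, hd, hd'⟩ := hchart s s.2
  have hd0 : d ≠ 0 := by
    rintro rfl
    rw [map_zero] at hd'
    exact hs ((mem_p_iff P s).2 hd'.2)
  have hsv : S.v.val (C.φ (C.G.res s)) = 1 := by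
    apply le_antisymm hd.val_le
    by_contra hlt
    exact hd0 ((C.cg_lt hd).1 (not_le.1 hlt))
  have hsr : C.G.res s ≠ 0 := by
    intro h0
    rw [h0, map_zero, map_zero] at hsv
    exact zero_ne_one hsv
  have hs0 := coe_ne_zero hs
  have e : (u : K) / s = z := by
    rw [← hzs]
    field_simp
  have r := C.G.splz.div (splz_mem C.G hc.1) (splz_mem C.G hd.1) hsr
  rw [e] at r
  refine ⟨c / d, ⟨r.1, ?_⟩, ?_⟩
  · rw [r.2, map_div₀, map_div₀]
    have hφ0 : C.φ (C.G.res s) ≠ 0 := by
      intro h0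
      rw [h0, map_zero] at hsv
      exact zero_ne_one hsv
    have hd0' : algebraMap k E d ≠ 0 := by rw [Ne, map_eq_zero]; exact hd0
    have e2 : (C.φ (C.G.res u) / C.φ (C.G.res s) - algebraMap k E c / algebraMap k E d) *
        C.φ (C.G.res s) = 1 * (C.φ (C.G.res u) - algebraMap k E c) +
        (-(algebraMap k E (c / d))) * (C.φ (C.G.res s) - algebraMap k E d) := by
      rw [map_div₀]
      field_simp
      ring
    have h3 : S.v.val ((C.φ (C.G.res u) / C.φ (C.G.res s) - algebraMap k E c / algebraMap k E d) *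
        C.φ (C.G.res s)) ≤ exp (-(5 ^ n : ℤ)) := by
      rw [e2]
      refine J_add (J_mul (by rw [map_one]) hc.2) (J_mul ?_ hd.2)
      rw [Valuation.map_neg]
      exact S.v.const_le _
    rwa [map_mul, hsv, mul_one] at h3
  · rw [map_div₀, ← e]
    exact P.splz.div hc' hd' (by rw [Ne, map_eq_zero]; exact hd0)

theorem isOn {P : (SX M).Point} (hP : IsP0 P) : P.IsOn C.G := by
  intro z hz
  obtain ⟨c, hc, -⟩ := C.cg_P0 hP hz
  exact hc.1

end SCurve

end Pool.Agent.H71.Ses
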