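import Pool.Agent.H71.Ses.I3

set_option linter.style.haveILetI false
set_option linter.unusedSectionVars false
set_option linter.unusedVariables false

open scoped WithZero IntermediateField
open WithZero

namespace Pool.Agent.H71.Ses

open ProjVar

/-- elements of the ring of a curve are fractions of elements of the ring of a point of the curve -/
theorem ProjVar.frac_of_isOn {k K : Type} [Field k] [Field K] [Algebra k K] {X : ProjVar k K}
    {P G : X.Point} (h : P.IsOn G) {z : K} (hz : z ∈ G.ring) :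
    ∃ p q : K, p ∈ P.ring ∧ q ∈ P.ring ∧ G.res q ≠ 0 ∧ z * q = p := by
  have hmulres : ∀ {p q : K}, p ∈ P.ring → q ∈ P.ring → G.res (p * q) = G.res p * G.res q :=
    fun hp hq => (G.splz.mul (splz_mem G (h hp)) (splz_mem G (h hq))).2
  have hchart : ∀ z ∈ X.chart G.i, ∃ p q : K, p ∈ P.ring ∧ q ∈ P.ring ∧ G.res q ≠ 0 ∧
      z * q = p := by
    intro z hz
    unfold chart at hz
    induction hz using Algebra.adjoin_induction with
    | mem z hz =>
      obtain ⟨j, rfl⟩ := hz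
      refine ⟨X.x j / X.x P.i, X.x G.i / X.x P.i, x_div_mem P j, x_div_mem P G.i, ?_, ?_⟩
      · have h1 := x_div_mem G P.i
        have h2 := h (x_div_mem P G.i)
        rw [Ne, res_eq_zero_iff G h2]
        push Not
        refine ⟨div_ne_zero (X.x_ne _) (X.x_ne _), ?_⟩
        rw [inv_div]
        exact h1
      · have := X.x_ne G.i
        have := X.x_ne P.i
        field_simp
    | algebraMap c =>
      refine ⟨algebraMap k K c, 1, algebraMap_mem _ _, one_mem _, ?_, mul_one _⟩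
      rw [(G.splz.one).2]
      exact one_ne_zero
    | add z w hz hw h1 h2 =>
      obtain ⟨p, q, hp, hq, hq0, h1⟩ := h1
      obtain ⟨p', q', hp', hq', hq0', h1'⟩ := h2
      refine ⟨p * q' + p' * q, q * q', add_mem (mul_mem hp hq') (mul_mem hp' hq), mul_mem hq hq',
        ?_, ?_⟩
      · rw [hmulres hq hq']
        exact mul_ne_zero hq0 hq0'
      · rw [← h1, ← h1']
        ring
    | mul z w hz hw h1 h2 =>
      obtain ⟨p, q, hp, hq, hq0, h1⟩ := h1
      obtain ⟨p', q', hp', hq', hq0', h1'⟩ := h2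
      refine ⟨p * p', q * q', mul_mem hp hp', mul_mem hq hq', ?_, ?_⟩
      · rw [hmulres hq hq']
        exact mul_ne_zero hq0 hq0'
      · rw [← h1, ← h1']
        ring
  obtain ⟨u, s, hs, hzs⟩ := hz
  obtain ⟨p, q, hp, hq, hq0, h1⟩ := hchart u u.2
  obtain ⟨p', q', hp', hq', hq0', h1'⟩ := hchart s s.2
  have hs' : G.res s ≠ 0 := fun h0 => hs ((mem_p_iff G s).2 h0)
  have hp0' : G.res p' ≠ 0 := by
    rw [← h1']
    have := (G.splz.mul (splz_mem G (mem_ring_of_chart G s.2)) (splz_mem G (h hq'))).2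
    rw [this]
    exact mul_ne_zero hs' hq0'
  refine ⟨p * q', q * p', mul_mem hp hq', mul_mem hq hp', ?_, ?_⟩
  · rw [hmulres hq hp']
    exact mul_ne_zero hq0 hp0'
  · rw [← h1, ← h1', ← hzs]
    ring


/-- the multiplicity bound, abstractly -/
theorem mult_abs {k O E : Type} [Field k] [CommRing O] [Algebra k O] [Field E] [Algebra k E]
    {s t : O} (v : Place k E) (ψ : O →ₐ[k] E) {Q d : ℕ} (hd : 0 < d)
    (hk : ∀ z : O, ∃ c : k, z - algebraMap k O c ∈ mm s t)
    (hQ : ∀ z ∈ mm s t, v.val (ψ z) ≤ exp (-(Q : ℤ))) {e B : ℕ} (he : 1 ≤ e) (hed : e ≤ d) {g h : O}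
    (hg : v.val (ψ g) = exp (-((e * (B + 1) : ℕ) : ℤ)))
    (hh : v.val (ψ h) = exp (-((e * B : ℕ) : ℤ))) :
    ∃ N : ℕ, Q ≤ d * N ∧ ∀ f, ψ f = 0 → f ∈ mm s t ^ N := by
  classical
  have hex : ∃ N : ℕ, Q ≤ d * N := ⟨Q, Nat.le_mul_of_pos_left _ hd⟩
  refine ⟨Nat.find hex, Nat.find_spec hex, ?_⟩
  intro f hf
  by_contra hcon
  have hex2 : ∃ m, f ∉ mm s t ^ m := ⟨_, hcon⟩
  obtain ⟨m, hm1, hm2, hm3⟩ : ∃ m, m < Nat.find hex ∧ f ∈ mm s t ^ m ∧ f ∉ mm s t ^ (m + 1) := by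
    have h1 := Nat.find_spec hex2
    have h2 : Nat.find hex2 ≤ Nat.find hex := Nat.find_min' hex2 hcon
    have h3 : Nat.find hex2 ≠ 0 := by
      intro h0
      rw [h0, pow_zero, Ideal.one_eq_top] at h1
      exact h1 trivial
    refine ⟨Nat.find hex2 - 1, by omega, ?_, ?_⟩
    · by_contra h4
      have := Nat.find_min' hex2 h4
      omega
    · rwa [Nat.sub_add_cancel (by omega)]
  have hlt : d * m < Q := not_le.1 (Nat.find_min hex hm1)
  have hfinal := mult_ineq v ψ hk hQ hf hm2 hm3 he hg hh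
  have : e * m ≤ d * m := Nat.mul_le_mul_right m hed
  omega

variable {k KC K : Type} [Field k] [IsAlgClosed k] [CharP k 5] [Field KC] [CharP KC 5] [Field K]
  [CharP K 5] [Algebra k KC]
  [Algebra KC K] [Algebra k K] [IsScalarTower k KC K] {a b : KC} {x y : K}
  {E : Type} [Field E] [CharP E 5] [Algebra k E] {n : ℕ} {H₂ : ℤ}

namespace SCurve

variable {M : IsModel k KC K a b x y} {S : Special k E n H₂} (C : SCurve M S)

/-- the value group of the function field of the curve -/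
theorem exists_ram : ∃ e : ℕ, 1 ≤ e ∧ e ≤ C.d ∧
    (∀ z : C.G.κ, z ≠ 0 → ∃ m : ℤ, S.v.val (C.φ z) = exp (e * m)) ∧
    ∃ z : C.G.κ, z ≠ 0 ∧ S.v.val (C.φ z) = exp (-(e : ℤ)) := by
  let H : AddSubgroup ℤ :=
    { carrier := {m | ∃ z : C.G.κ, z ≠ 0 ∧ S.v.val (C.φ z) = exp m}
      add_mem' := by
        rintro m m' ⟨z, hz, hz'⟩ ⟨w, hw, hw'⟩
        exact ⟨z * w, mul_ne_zero hz hw, by rw [map_mul, map_mul, hz', hw', exp_add]⟩
      zero_mem' := ⟨1, one_ne_zero, by rw [map_one, map_one, exp_zero]⟩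
      neg_mem' := by
        rintro m ⟨z, hz, hz'⟩
        exact ⟨z⁻¹, inv_ne_zero hz, by rw [map_inv₀, map_inv₀, hz', exp_neg]⟩ }
  obtain ⟨e', he'⟩ := Int.subgroup_cyclic H
  have hmem : ∀ m : ℤ, m ∈ H ↔ ∃ z : C.G.κ, z ≠ 0 ∧ S.v.val (C.φ z) = exp m := fun m => Iff.rfl
  have hdiv : ∀ m : ℤ, m ∈ H ↔ e' ∣ m := by
    intro m
    rw [he', AddSubgroup.mem_closure_singleton]
    constructor
    · rintro ⟨c, rfl⟩
      exact ⟨c, by simp [mul_comm]⟩
    · rintro ⟨c, rfl⟩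
      exact ⟨c, by simp [mul_comm]⟩
  have he0 : e' ≠ 0 := by
    intro h0
    -- `a - 1` has positive order
    have h1 := C.cg_a
    have h2 : rho C.G C.hall a - 1 ≠ 0 := by
      intro h3
      apply (S.tr₁.pow (show 0 < 5 ^ n by positivity))
      have h4 : S.a₁ ^ 5 ^ n = 1 := by
        rw [← C.ha, sub_eq_zero.1 h3, map_one]
      rw [h4]
      exact isAlgebraic_one
    have h3 : S.v.val (C.φ (rho C.G C.hall a - 1)) < 1 := by
      have h4 := h1.2
      rw [map_one] at h4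
      rw [map_sub, map_one]
      exact h4.trans_lt exp_lt
    have h4 : S.v.val (C.φ (rho C.G C.hall a - 1)) ≠ 0 := by
      rw [Ne, Valuation.zero_iff, map_eq_zero]
      exact h2
    have h5 : WithZero.log (S.v.val (C.φ (rho C.G C.hall a - 1))) ∈ H :=
      (hmem _).2 ⟨_, h2, (exp_log h4).symm⟩
    rw [hdiv, h0, zero_dvd_iff] at h5
    rw [← exp_log h4, h5, exp_zero] at h3
    exact lt_irrefl _ h3
  have hval : ∀ z : C.G.κ, z ≠ 0 → ∃ m : ℤ, S.v.val (C.φ z) = exp ((e'.natAbs : ℤ) * m) := by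
    intro z hz
    have h4 : S.v.val (C.φ z) ≠ 0 := by
      rw [Ne, Valuation.zero_iff, map_eq_zero]
      exact hz
    have h5 : WithZero.log (S.v.val (C.φ z)) ∈ H := (hmem _).2 ⟨_, hz, (exp_log h4).symm⟩
    rw [hdiv] at h5
    have h6 : (e'.natAbs : ℤ) ∣ WithZero.log (S.v.val (C.φ z)) := Int.natAbs_dvd.2 h5
    obtain ⟨m, hm⟩ := h6
    exact ⟨m, by rw [← hm, exp_log h4]⟩
  refine ⟨e'.natAbs, ?_, ?_, hval, ?_⟩
  · exact Int.natAbs_pos.2 he0
  · exact ram_le C.φ.toRingHom S.v C.fin hval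
  · have h5 : -(e'.natAbs : ℤ) ∈ H := by
      rw [hdiv]
      rw [dvd_neg]
      exact Int.dvd_natAbs.2 (dvd_refl _)
    exact (hmem _).1 h5


end SCurve

end Pool.Agent.H71.Ses
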