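import Pool.Agent.H71.Ses.I4

set_option linter.style.haveILetI false
set_option linter.unusedSectionVars false
set_option linter.unusedVariables false

open scoped WithZero IntermediateField
open WithZero

namespace Pool.Agent.H71.Ses

open ProjVar

variable {k KC K : Type} [Field k] [IsAlgClosed k] [CharP k 5] [Field KC] [CharP KC 5] [Field K]
  [CharP K 5] [Algebra k KC]
  [Algebra KC K] [Algebra k K] [IsScalarTower k KC K] {a b : KC} {x y : K}
  {E : Type} [Field E] [CharP E 5] [Algebra k E] {n : ℕ} {H₂ : ℤ}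

namespace SCurve

variable {M : IsModel k KC K a b x y} {S : Special k E n H₂} (C : SCurve M S)

/-- restriction to the curve -/
noncomputable def psiP {P : (SX M).Point} (hon : P.IsOn C.G) : P.ring →ₐ[k] E :=
  C.φ.comp ((IsScalarTower.toAlgHom k C.G.ring C.G.κ).comp (Subalgebra.inclusion hon))

theorem psiP_apply {P : (SX M).Point} (hon : P.IsOn C.G) (z : P.ring) :
    C.psiP hon z = C.φ (C.G.res z) := by
  rw [res_of_mem C.G (hon z.2)]
  rfl

theorem exists_gh {P : (SX M).Point} (hP : IsP0 P) (hon : P.IsOn C.G) :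
    ∃ (e B : ℕ) (g h : P.ring), 1 ≤ e ∧ e ≤ C.d ∧
      S.v.val (C.psiP hon g) = exp (-((e * (B + 1) : ℕ) : ℤ)) ∧
      S.v.val (C.psiP hon h) = exp (-((e * B : ℕ) : ℤ)) := by
  obtain ⟨e, he1, hed, hval, z₁, hz₁, hz₁'⟩ := C.exists_ram
  obtain ⟨z, hz, hzz⟩ := exists_splz C.G z₁
  obtain ⟨g, h, hg, hh, hh0, hgh⟩ := frac_of_isOn hon hz
  obtain ⟨B', hB'⟩ := hval _ hh0
  have hh1 : S.v.val (C.psiP hon ⟨h, hh⟩) = exp ((e : ℤ) * B') := by rw [psiP_apply, ← hB']
  have hg1 : S.v.val (C.psiP hon ⟨g, hg⟩) = exp (-(e : ℤ) + (e : ℤ) * B') := by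
    rw [psiP_apply, exp_add, ← hz₁', ← hB', ← map_mul, ← map_mul, ← hzz]
    congr 2
    have := (C.G.splz.mul (splz_mem C.G hz) (splz_mem C.G (hon hh))).2
    rw [hgh] at this
    exact this
  have hB0 : B' ≤ 0 := by
    have h1 : S.v.val (C.psiP hon ⟨h, hh⟩) ≤ 1 := by
      obtain ⟨c, hc, -⟩ := C.cg_P0 hP hh
      rw [psiP_apply]
      exact hc.val_le
    rw [hh1, ← exp_zero, exp_le_exp] at h1
    by_contra hB
    push Not at hB
    have he1' : (0 : ℤ) < e := by exact_mod_cast he1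
    have : 0 < (e : ℤ) * B' := mul_pos he1' hB
    omega
  obtain ⟨B, hB⟩ := Int.eq_ofNat_of_zero_le (show 0 ≤ -B' by omega)
  have hB'' : B' = -(B : ℤ) := by omega
  refine ⟨e, B, ⟨g, hg⟩, ⟨h, hh⟩, he1, hed, ?_, ?_⟩
  · rw [hg1, hB'']
    congr 1
    push_cast
    ring
  · rw [hh1, hB'']
    congr 1
    push_cast
    ring

theorem hkP {P : (SX M).Point} (hP : IsP0 P) {p q : P.ring}
    (hmax : IsLocalRing.maximalIdeal P.ring = Ideal.span {p, q}) (z : P.ring) :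
    ∃ c : k, z - algebraMap k P.ring c ∈ mm p q := by
  obtain ⟨c, hc⟩ := closed_res P hP.closed z.2
  refine ⟨c, ?_⟩
  change _ ∈ Ideal.span {_, _}
  rw [← hmax, mem_max_iff]
  have := P.splz.sub ⟨z.2, hc⟩ (splz_const P c)
  rw [sub_self] at this
  exact this.2

theorem hQP {P : (SX M).Point} (hP : IsP0 P) (hon : P.IsOn C.G) {p q : P.ring}
    (hmax : IsLocalRing.maximalIdeal P.ring = Ideal.span {p, q}) (z : P.ring) (hz : z ∈ mm p q) :
    S.v.val (C.psiP hon z) ≤ exp (-((5 ^ n : ℕ) : ℤ)) := by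
  change z ∈ Ideal.span {_, _} at hz
  rw [← hmax, mem_max_iff] at hz
  obtain ⟨c, hc, hc'⟩ := C.cg_P0 hP z.2
  have h0 : c = 0 := by
    have := P.splz.uniq hc' ⟨z.2, hz⟩
    rwa [map_eq_zero] at this
  have h1 := hc.2
  rw [h0, map_zero, sub_zero] at h1
  rw [psiP_apply]
  push_cast
  exact h1

theorem psiP_eq_zero {P : (SX M).Point} (hon : P.IsOn C.G) {f : P.ring}
    (hf : f ∈ idealAt P C.G hon) : C.psiP hon f = 0 := by
  unfold idealAt at hf
  rw [Ideal.mem_comap, mem_max_iff] at hf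
  rw [psiP_apply]
  have h2 : C.G.res (f : K) = 0 := by
    rw [Subalgebra.coe_inclusion] at hf
    exact hf
  rw [h2, map_zero]

theorem mult_bound {P : (SX M).Point} (hP : IsP0 P) (hon : P.IsOn C.G) :
    ∃ N : ℕ, 5 ^ n ≤ C.d * N ∧ idealAt P C.G hon ≤ IsLocalRing.maximalIdeal P.ring ^ N := by
  obtain ⟨p, q, hp, hq, hmax, -⟩ := closed_struct P hP.closed
  obtain ⟨e, B, g, h, he1, hed, hg, hh⟩ := C.exists_gh hP hon
  obtain ⟨N, hN, hN'⟩ := mult_abs (s := (⟨p, hp⟩ : P.ring)) (t := ⟨q, hq⟩) S.v (C.psiP hon) C.d_pos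
    (hkP hP hmax) (C.hQP hP hon hmax) he1 hed hg hh
  refine ⟨N, hN, ?_⟩
  intro f hf
  have h1 := hN' f (C.psiP_eq_zero hon hf)
  rw [hmax]
  exact h1

end SCurve

end Pool.Agent.H71.Ses
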