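import Pool.Agent.H71.Ses.I5

set_option linter.style.haveILetI false
set_option linter.unusedSectionVars false
set_option linter.unusedVariables false

open scoped WithZero IntermediateField
open WithZero

namespace Pool.Agent.H71.Ses

open ProjVar

variable {k KC K : Type} [Field k] [IsAlgClosed k] [CharP k 5] [Field KC] [CharP KC 5] [Field K]
  [CharP K 5] [Algebra k KC]
  [Algebra KC K] [Algebra k K] [IsScalarTower k KC K] {a b : KC} {x y : K}

theorem ofReal_div_mult {deg : ℤ} {mu : ℕ∞} {d N Q : ℕ} {R : ℝ} (hQ : 0 < Q) (h1 : Q ≤ d * N)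
    (h2 : (N : ℕ∞) ≤ mu) (h3 : 0 < deg → ((d * deg : ℤ) : ℝ) ≤ R * Q) :
    ENNReal.ofReal (deg : ℝ) / (mu : ENNReal) ≤ ENNReal.ofReal R := by
  rcases le_or_gt deg 0 with h | h
  · have : ENNReal.ofReal (deg : ℝ) = 0 := ENNReal.ofReal_eq_zero.2 (by exact_mod_cast h)
    rw [this, ENNReal.zero_div]
    exact bot_le
  · have hN : 0 < N := by
      rcases Nat.eq_zero_or_pos N with h0 | h0
      · rw [h0, mul_zero] at h1
        omega
      · exact h0
    have hNR : (0 : ℝ) < N := by exact_mod_cast hN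
    have hQR : (0 : ℝ) < Q := by exact_mod_cast hQ
    have hdeg : (0 : ℝ) < deg := by exact_mod_cast h
    have h4 : ((N : ℕ∞) : ENNReal) ≤ (mu : ENNReal) := ENat.toENNReal_le.2 h2
    calc ENNReal.ofReal (deg : ℝ) / (mu : ENNReal)
        ≤ ENNReal.ofReal (deg : ℝ) / ((N : ℕ∞) : ENNReal) := ENNReal.div_le_div_left h4 _
      _ = ENNReal.ofReal ((deg : ℝ) / N) := by
        rw [ENNReal.ofReal_div_of_pos hNR]
        congr 1
        rw [ENat.toENNReal_coe, ENNReal.ofReal_natCast]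
      _ ≤ ENNReal.ofReal R := by
        apply ENNReal.ofReal_le_ofReal
        rw [div_le_iff₀ hNR]
        have h5 := h3 h
        push_cast at h5
        have h6 : (Q : ℝ) ≤ d * N := by exact_mod_cast h1
        -- deg * Q ≤ deg * d * N ≤ R * Q * N
        have h7 : (deg : ℝ) * Q ≤ R * N * Q := by
          calc (deg : ℝ) * Q ≤ deg * (d * N) := mul_le_mul_of_nonneg_left h6 hdeg.le
            _ = (d * deg) * N := by ring
            _ ≤ (R * Q) * N := mul_le_mul_of_nonneg_right h5 hNR.le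
            _ = R * N * Q := by ring
        exact le_of_mul_le_mul_right h7 hQR

/-- the bound of the Seshadri constants at `P₀` -/
theorem ratio_bound (M : IsModel k KC K a b x y) {P : (SX M).Point} (hP : IsP0 P) (n : ℕ)
    {c β₀ β₁ : ℤ} (hc : c ^ 2 - β₀ ^ 2 - β₁ ^ 2 = 1) (hc1 : 1 ≤ c) :
    (SX M).seshadriAt P ≤ ENNReal.ofReal (2 * ((2 * degP k a : ℤ) : ℝ) *
      (c * (5 ^ n + 1) - (β₀ * ((AB n).1 ^ 2 - (AB n).2 ^ 2) -
      2 * β₁ * (AB n).1 * (AB n).2) + c * √(1 + 5 ^ n)) / 5 ^ n) := by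
  obtain ⟨E, _, _, _, ⟨S⟩⟩ := exists_special M n
  obtain ⟨C⟩ := exists_curve M S
  have hq5 : (1 : ℤ) ≤ 5 ^ n := one_le_pow₀ (by norm_num)
  have e1 : ((((c * (5 ^ n + 1) - 1).toNat : ℕ)) : ℤ) = c * (5 ^ n + 1) - 1 := by
    apply Int.toNat_of_nonneg
    nlinarith
  have e2 : ((((c ^ 2 * 5 ^ n + β₀ ^ 2 + β₁ ^ 2 - c).toNat : ℕ)) : ℤ) =
      c ^ 2 * 5 ^ n + β₀ ^ 2 + β₁ ^ 2 - c := by
    apply Int.toNat_of_nonneg
    have h1 : c ^ 2 * 1 ≤ c ^ 2 * 5 ^ n := mul_le_mul_of_nonneg_left hq5 (sq_nonneg _)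
    nlinarith [sq_nonneg β₀, sq_nonneg β₁]
  set N₁ := (c * (5 ^ n + 1) - 1).toNat with hN₁
  set N₂ := (c ^ 2 * 5 ^ n + β₀ ^ 2 + β₁ ^ 2 - c).toNat with hN₂
  have hample := LB_ample M (A := (AB n).1) (Bc := (AB n).2) (AB_norm n).symm hc hc1 hq5 e1 e2
  have hon := C.isOn hP
  obtain ⟨N, hN, hN'⟩ := C.mult_bound hP hon
  have hdeg := C.degree (c := c) (β₀ := β₀) (β₁ := β₁) e1 e2
  have hb := S.bound (c := c) (β₀ := β₀) (β₁ := β₁) (by omega)
  rw [← hdeg] at hb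
  set L := LB M N₁ N₂ (psi M c (AB n).1 (AB n).2 β₀ β₁) (zPt a b M.ab) with hL
  have s1 : (SX M).seshadriAt P ≤ L.seshadri P := iInf₂_le L hample
  have s2 : L.seshadri P ≤ ENNReal.ofReal (L.degree C.G) / ((mult P C.G hon : ℕ∞) : ENNReal) :=
    (iInf₂_le C.G C.curve).trans (iInf_le _ hon)
  refine s1.trans (s2.trans ?_)
  have s3 : (N : ℕ∞) ≤ mult P C.G hon := le_iSup₂_of_le N hN' le_rfl
  refine ofReal_div_mult (Q := 5 ^ n) (by positivity) hN s3 ?_
  intro hpos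
  have hQ : ((5 ^ n : ℕ) : ℝ) = 5 ^ n := by push_cast; rfl
  rw [hQ, div_mul_cancel₀ _ (by positivity)]
  refine hb.trans ?_
  set W : ℝ := (c * (5 ^ n + 1) - (β₀ * ((AB n).1 ^ 2 - (AB n).2 ^ 2) -
      2 * β₁ * (AB n).1 * (AB n).2) + c * √(1 + 5 ^ n)) with hW
  have h2 : (0 : ℝ) < degP k S.a₂ := by exact_mod_cast S.h₂pos
  have h3 : (0 : ℝ) < ((C.d * L.degree C.G : ℤ) : ℝ) := by
    have : (0 : ℤ) < C.d * L.degree C.G := mul_pos (by exact_mod_cast C.d_pos) hpos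
    exact_mod_cast this
  have hWpos : 0 < W := by
    by_contra h0
    push Not at h0
    have : 2 * (degP k S.a₂ : ℝ) * W ≤ 0 := mul_nonpos_of_nonneg_of_nonpos (by positivity) h0
    linarith
  apply mul_le_mul_of_nonneg_right _ hWpos.le
  have h4 : (degP k S.a₂ : ℝ) ≤ ((2 * degP k a : ℤ) : ℝ) := by exact_mod_cast S.deg
  linarith

end Pool.Agent.H71.Ses
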