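import Pool.Agent.H71.Ses.B6

set_option linter.style.haveILetI false
set_option linter.unusedSectionVars false
set_option linter.unusedVariables false

open Filter Topology

namespace Pool.Agent.H71.Ses

theorem AB_mod (n : ℕ) : (∃ s, (AB (n + 1)).1 = 3 + 5 * s) ∧ ∃ t, (AB (n + 1)).2 = 1 + 5 * t := by
  induction n with
  | zero => exact ⟨⟨-1, rfl⟩, ⟨0, rfl⟩⟩
  | succ n ih =>
    obtain ⟨⟨s, hs⟩, t, ht⟩ := ih
    refine ⟨⟨-2 * s - t - 2, ?_⟩, ⟨s - 2 * t, ?_⟩⟩
    · change -2 * (AB (n + 1)).1 - (AB (n + 1)).2 = _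
      rw [hs, ht]
      ring
    · change (AB (n + 1)).1 - 2 * (AB (n + 1)).2 = _
      rw [hs, ht]
      ring

theorem AB_pow (n : ℕ) : ((-2 + Complex.I) ^ n : ℂ) = (AB n).1 + (AB n).2 * Complex.I := by
  induction n with
  | zero => simp [AB]
  | succ n ih =>
    rw [pow_succ, ih]
    change _ = ((-2 * (AB n).1 - (AB n).2 : ℤ) : ℂ) + ((AB n).1 - 2 * (AB n).2 : ℤ) * Complex.I
    push_cast
    linear_combination ((AB n).2 : ℂ) * Complex.I_sq

/-- points of the circle -/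
noncomputable def mkCircle (z : ℂ) (hz : Complex.normSq z = 1) : Circle :=
  ⟨z, mem_sphere_zero_iff_norm.2 (by
    rw [Complex.normSq_eq_norm_sq] at hz
    have h0 := norm_nonneg z
    nlinarith)⟩

/-- the unit complex number `(3 - 4 i) / 5` -/
noncomputable def om : Circle :=
  mkCircle ⟨3 / 5, -4 / 5⟩ (by rw [Complex.normSq_mk]; norm_num)

theorem om_pow (n : ℕ) : ((om ^ n : Circle) : ℂ) =
    ⟨((AB n).1 ^ 2 - (AB n).2 ^ 2) / 5 ^ n, 2 * (AB n).1 * (AB n).2 / 5 ^ n⟩ := by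
  have h1 : (om : ℂ) = (-2 + Complex.I) ^ 2 / 5 := by
    apply Complex.ext
    · change (3 / 5 : ℝ) = _
      simp [pow_two]
      norm_num
    · change (-4 / 5 : ℝ) = _
      simp [pow_two]
      norm_num
  rw [Circle.coe_pow, h1, div_pow, ← pow_mul, mul_comm 2 n, pow_mul, AB_pow]
  have h5 : (5 : ℂ) ^ n ≠ 0 := pow_ne_zero _ (by norm_num)
  rw [div_eq_iff h5]
  have e : (5 : ℂ) ^ n = ((5 ^ n : ℝ) : ℂ) := by push_cast; rfl
  have h5' : (5 : ℝ) ^ n ≠ 0 := pow_ne_zero _ (by norm_num)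
  rw [e]
  apply Complex.ext
  · rw [Complex.re_mul_ofReal]
    simp only [pow_two, Complex.mul_re, Complex.add_re, Complex.intCast_re, Complex.I_re,
      Complex.intCast_im, Complex.I_im, Complex.add_im, Complex.mul_im]
    field_simp
    ring
  · rw [Complex.im_mul_ofReal]
    simp only [pow_two, Complex.mul_re, Complex.add_re, Complex.intCast_re, Complex.I_re,
      Complex.intCast_im, Complex.I_im, Complex.add_im, Complex.mul_im]
    field_simp
    ring

theorem om_pow_ne_one (n : ℕ) : om ^ (n + 1) ≠ 1 := by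
  intro h
  have h1 := congrArg (fun z : Circle => (z : ℂ)) h
  simp only [om_pow, Circle.coe_one] at h1
  have h2 := congrArg Complex.re h1
  simp only [Complex.one_re] at h2
  have h5' : (5 : ℝ) ^ (n + 1) ≠ 0 := pow_ne_zero _ (by norm_num)
  rw [div_eq_one_iff_eq h5'] at h2
  have h3 : (AB (n + 1)).1 ^ 2 - (AB (n + 1)).2 ^ 2 = 5 ^ (n + 1) := by exact_mod_cast h2
  have h4 := AB_norm (n + 1)
  have h6 : (AB (n + 1)).2 = 0 := by
    have : (AB (n + 1)).2 ^ 2 = 0 := by linarith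
    exact pow_eq_zero_iff two_ne_zero |>.1 this
  obtain ⟨t, ht⟩ := (AB_mod n).2
  omega

theorem om_dense : DenseRange (om ^ · : ℤ → Circle) := by
  set θ : AddCircle (1 : ℝ) := (AddCircle.homeomorphCircle (T := 1) one_ne_zero).symm om with hθ
  have h1 : AddCircle.toCircle θ = om := by
    rw [← AddCircle.homeomorphCircle_apply one_ne_zero, hθ, Homeomorph.apply_symm_apply]
  have h2 : addOrderOf θ = 0 := by
    rw [addOrderOf_eq_zero_iff']
    intro n hn h0
    have h3 : AddCircle.toCircle (n • θ) = 1 := by rw [h0, AddCircle.toCircle_zero]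
    rw [AddCircle.toCircle_nsmul, h1] at h3
    obtain ⟨m, rfl⟩ : ∃ m, n = m + 1 := ⟨n - 1, by omega⟩
    exact om_pow_ne_one m h3
  have h3 := AddCircle.denseRange_zsmul_iff.2 h2
  have h4 := ((AddCircle.homeomorphCircle (T := 1) one_ne_zero).surjective.denseRange).comp h3
    (AddCircle.homeomorphCircle (T := 1) one_ne_zero).continuous
  have h5 : (AddCircle.homeomorphCircle (T := 1) one_ne_zero) ∘ (· • θ : ℤ → AddCircle (1 : ℝ)) =
      (om ^ · : ℤ → Circle) := by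
    funext m
    simp only [Function.comp]
    rw [AddCircle.homeomorphCircle_apply, AddCircle.toCircle_zsmul, h1]
  rw [h5] at h4
  exact h4

theorem om_freq (u : Circle) {s : Set Circle} (hs : s ∈ 𝓝 u) (N : ℕ) : ∃ n ≥ N, om ^ n ∈ s := by
  have h1 : MapClusterPt u atTop (om ^ · : ℕ → Circle) := by
    rw [mapClusterPt_atTop_pow_iff_mem_topologicalClosure_zpowers]
    have h2 := om_dense u
    exact h2
  have h2 := (mapClusterPt_iff_frequently.1 h1) s hs
  exact (frequently_atTop.1 h2) N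

theorem exists_good (β₀ β₁ : ℤ) {ε : ℝ} (hε : 0 < ε) (N : ℕ) :
    ∃ n ≥ N, (√((β₀ : ℝ) ^ 2 + (β₁ : ℝ) ^ 2) - ε) * 5 ^ n ≤
      β₀ * ((AB n).1 ^ 2 - (AB n).2 ^ 2) - 2 * β₁ * (AB n).1 * (AB n).2 := by
  set R := √((β₀ : ℝ) ^ 2 + (β₁ : ℝ) ^ 2) with hR
  have hRnn : 0 ≤ R := Real.sqrt_nonneg _
  have hR2 : R ^ 2 = (β₀ : ℝ) ^ 2 + (β₁ : ℝ) ^ 2 := Real.sq_sqrt (by positivity)
  rcases hRnn.eq_or_lt with h0 | hpos
  · rw [← h0] at hR2
    have h1 : (β₀ : ℝ) = 0 := by nlinarith [sq_nonneg (β₀ : ℝ), sq_nonneg (β₁ : ℝ)]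
    have h2 : (β₁ : ℝ) = 0 := by nlinarith [sq_nonneg (β₀ : ℝ), sq_nonneg (β₁ : ℝ)]
    refine ⟨N, le_rfl, ?_⟩
    rw [← h0, h1, h2]
    have : (0 : ℝ) < ε * 5 ^ N := by positivity
    linarith
  · let f : Circle → ℝ := fun z => β₀ * (z : ℂ).re - β₁ * (z : ℂ).im
    have hf : Continuous f := by
      have h1 : Continuous (fun z : Circle => (z : ℂ)) := continuous_subtype_val
      exact (continuous_const.mul (Complex.continuous_re.comp h1)).sub
        (continuous_const.mul (Complex.continuous_im.comp h1))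
    let u : Circle := mkCircle ⟨β₀ / R, -β₁ / R⟩ (by
      rw [Complex.normSq_mk]
      field_simp
      linarith)
    have hu : f u = R := by
      change (β₀ : ℝ) * (β₀ / R) - β₁ * (-β₁ / R) = R
      field_simp
      linarith
    have hs : {z : Circle | R - ε < f z} ∈ 𝓝 u := by
      apply (isOpen_lt continuous_const hf).mem_nhds
      change R - ε < f u
      rw [hu]
      linarith
    obtain ⟨n, hn, hn'⟩ := om_freq u hs N
    refine ⟨n, hn, ?_⟩
    have h1 : R - ε < f (om ^ n) := hn'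
    have h2 : f (om ^ n) = β₀ * (((AB n).1 ^ 2 - (AB n).2 ^ 2) / 5 ^ n) -
        β₁ * (2 * (AB n).1 * (AB n).2 / 5 ^ n) := by
      change (β₀ : ℝ) * (((om ^ n : Circle) : ℂ)).re - β₁ * (((om ^ n : Circle) : ℂ)).im = _
      rw [om_pow]
    rw [h2] at h1
    have h5 : (0 : ℝ) < 5 ^ n := by positivity
    have h3 : β₀ * (((AB n).1 ^ 2 - (AB n).2 ^ 2) / 5 ^ n) - β₁ * (2 * (AB n).1 * (AB n).2 / 5 ^ n) =
      ((β₀ : ℝ) * ((AB n).1 ^ 2 - (AB n).2 ^ 2) - 2 * β₁ * (AB n).1 * (AB n).2) / 5 ^ n := by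
      ring
    rw [h3, lt_div_iff₀ h5] at h1
    exact h1.le

end Pool.Agent.H71.Ses
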