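import Pool.Agent.H71.Ses.I6
import Pool.Agent.H71.Ses.J1

set_option linter.style.haveILetI false
set_option linter.unusedSectionVars false
set_option linter.unusedVariables false

open scoped WithZero IntermediateField
open WithZero

namespace Pool.Agent.H71.Ses

open ProjVar

theorem exists_small {c η : ℝ} (hc : 0 < c) (hη : 0 < η) : ∃ N : ℕ, ∀ n ≥ N,
    c ≤ η * 5 ^ n ∧ c * √(1 + 5 ^ n) ≤ η * 5 ^ n := by
  obtain ⟨N, hN⟩ := pow_unbounded_of_one_lt (max 1 (max (c / η) (4 * c ^ 2 / η ^ 2)))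
    (show (1 : ℝ) < 5 by norm_num)
  refine ⟨N, fun n hn => ?_⟩
  have h1 : (5 : ℝ) ^ N ≤ 5 ^ n := pow_le_pow_right₀ (by norm_num) hn
  have h2 := hN.le.trans h1
  set X : ℝ := 5 ^ n with hX
  have h3 : 1 ≤ X := (le_max_left _ _).trans h2
  have h4 : c / η ≤ X := ((le_max_left _ _).trans (le_max_right _ _)).trans h2
  have h5 : 4 * c ^ 2 / η ^ 2 ≤ X := ((le_max_right _ _).trans (le_max_right _ _)).trans h2
  rw [div_le_iff₀ hη] at h4
  rw [div_le_iff₀ (by positivity)] at h5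
  refine ⟨by linarith, ?_⟩
  have h6 : (c * √(1 + X)) ^ 2 ≤ (η * X) ^ 2 := by
    rw [mul_pow, Real.sq_sqrt (by positivity)]
    nlinarith [sq_nonneg c, sq_nonneg (η * X), mul_le_mul_of_nonneg_right h5 (show 0 ≤ X by linarith),
      mul_nonneg (sq_nonneg c) (show 0 ≤ X - 1 by linarith)]
  exact le_of_sq_le_sq h6 (by positivity) |>.trans le_rfl

/-- the numbers in `ratio_bound` are arbitrarily small -/
theorem exists_ratio_small {D : ℝ} (hD : 0 < D) {δ : ℝ} (hδ : 0 < δ) :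
    ∃ (c β₀ β₁ : ℤ) (n : ℕ), c ^ 2 - β₀ ^ 2 - β₁ ^ 2 = 1 ∧ 1 ≤ c ∧
      2 * D * (c * (5 ^ n + 1) - (β₀ * ((AB n).1 ^ 2 - (AB n).2 ^ 2) -
      2 * β₁ * (AB n).1 * (AB n).2) + c * √(1 + 5 ^ n)) / 5 ^ n ≤ δ := by
  obtain ⟨m, hm⟩ := exists_nat_gt (8 * D / δ)
  have hm' : 8 * D < m * δ := by rwa [div_lt_iff₀ hδ] at hm
  set c : ℤ := 2 * m ^ 2 + 1 with hc
  set β₀ : ℤ := 2 * m ^ 2 with hβ₀
  set β₁ : ℤ := 2 * m with hβ₁
  have hcb : c ^ 2 - β₀ ^ 2 - β₁ ^ 2 = 1 := by rw [hc, hβ₀, hβ₁]; ring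
  have hc1 : 1 ≤ c := by
    rw [hc]
    nlinarith [sq_nonneg (m : ℤ)]
  have hcR : (1 : ℝ) ≤ c := by exact_mod_cast hc1
  have hcbR : (β₀ : ℝ) ^ 2 + (β₁ : ℝ) ^ 2 = (c : ℝ) ^ 2 - 1 := by
    have : ((c ^ 2 - β₀ ^ 2 - β₁ ^ 2 : ℤ) : ℝ) = ((1 : ℤ) : ℝ) := by rw [hcb]
    push_cast at this
    linarith
  have hmc : (m : ℝ) ≤ c := by
    have : (m : ℤ) ≤ c := by
      rw [hc]
      nlinarith [sq_nonneg ((m : ℤ) - 1), sq_nonneg (m : ℤ)]
    exact_mod_cast this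
  set η : ℝ := δ / (8 * D) with hη
  have hηpos : 0 < η := by positivity
  have hηD : 8 * D * η = δ := by rw [hη]; field_simp
  obtain ⟨N, hN⟩ := exists_small (c := c) (by linarith) hηpos
  obtain ⟨n, hn, hn'⟩ := exists_good β₀ β₁ hηpos N
  obtain ⟨h1, h2⟩ := hN n hn
  refine ⟨c, β₀, β₁, n, hcb, hc1, ?_⟩
  have hX : (0 : ℝ) < 5 ^ n := by positivity
  rw [div_le_iff₀ hX]
  rw [hcbR] at hn'
  -- `c - √(c^2 - 1) ≤ 1/c ≤ η`
  have h3 : (c : ℝ) - √((c : ℝ) ^ 2 - 1) ≤ η := by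
    have h4 : (c : ℝ) - η ≤ √((c : ℝ) ^ 2 - 1) := by
      rcases le_or_gt ((c : ℝ) - η) 0 with h0 | h0
      · exact h0.trans (Real.sqrt_nonneg _)
      · apply Real.le_sqrt_of_sq_le
        have h5 : 1 ≤ c * η := by
          have h6 : 8 * D ≤ c * δ := by
            have := mul_le_mul_of_nonneg_right hmc hδ.le
            linarith
          rw [hη, ← mul_div_assoc, le_div_iff₀ (by positivity)]
          linarith
        nlinarith
    linarith
  have h4 : (c * (5 ^ n + 1) - (β₀ * ((AB n).1 ^ 2 - (AB n).2 ^ 2) -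
      2 * β₁ * (AB n).1 * (AB n).2) + c * √(1 + 5 ^ n)) ≤ 4 * η * 5 ^ n := by
    have h5 := mul_le_mul_of_nonneg_right h3 hX.le
    nlinarith
  have h5 := mul_le_mul_of_nonneg_left h4 (show 0 ≤ 2 * D by positivity)
  calc _ ≤ 2 * D * (4 * η * 5 ^ n) := h5
    _ = (8 * D * η) * 5 ^ n := by ring
    _ = δ * 5 ^ n := by rw [hηD]

variable {k KC K : Type} [Field k] [IsAlgClosed k] [CharP k 5] [Field KC] [CharP KC 5] [Field K]
  [CharP K 5] [Algebra k KC]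
  [Algebra KC K] [Algebra k K] [IsScalarTower k KC K] {a b : KC} {x y : K}

theorem seshadriAt_P0 (M : IsModel k KC K a b x y) {P : (SX M).Point} (hP : IsP0 P) :
    (SX M).seshadriAt P = 0 := by
  apply le_antisymm _ (zero_le (a := (SX M).seshadriAt P))
  apply ENNReal.le_of_forall_pos_le_add
  intro δ hδ _
  rw [zero_add]
  have hD : (0 : ℝ) < ((2 * degP k a : ℤ) : ℝ) := by
    have h1 : (0 : ℤ) < 2 * degP k a := by
      have := degP_pos M.isFF M.a_tr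
      positivity
    exact_mod_cast h1
  obtain ⟨c, β₀, β₁, n, h1, h2, h3⟩ := exists_ratio_small hD (δ := (δ : ℝ)) (by exact_mod_cast hδ)
  refine (ratio_bound M hP n h1 h2).trans ?_
  rw [← ENNReal.ofReal_coe_nnreal]
  exact ENNReal.ofReal_le_ofReal h3

theorem exists_isP0 (M : IsModel k KC K a b x y) : ∃ P : (SX M).Point, IsP0 P := by
  obtain ⟨E, _, _, _, ⟨S⟩⟩ := exists_special M 0
  obtain ⟨C⟩ := exists_curve M S
  exact C.exists_P0

theorem main_of_model (M : IsModel k KC K a b x y) :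
    (SX M).IsSmoothSurface ∧ (∃ P : (SX M).Point, P.IsClosed ∧ (SX M).seshadriAt P = 0) ∧
      (SX M).globalSeshadri = 0 := by
  obtain ⟨P, hP⟩ := exists_isP0 M
  have h0 := seshadriAt_P0 M hP
  have h1 : (SX M).globalSeshadri ≤ (SX M).seshadriAt P := by
    refine le_iInf₂ fun L hL => ?_
    exact (iInf₂_le L hL).trans (iInf₂_le P hP.closed)
  rw [h0] at h1
  exact ⟨smooth M, ⟨P, hP.closed, h0⟩, le_antisymm h1 (zero_le (a := (SX M).globalSeshadri))⟩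

end Pool.Agent.H71.Ses
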